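import Pool.Agent.SSCP.Defs
import Pool.Agent.SSC3N.Noise
import Pool.Agent.SSC3N.GaussRot
import Pool.Agent.SSC3N.ExistsRot

set_option autoImplicit false
open MeasureTheory ProbabilityTheory Set Real
open scoped ENNReal

namespace Pool.Agent.SSCP
open Pool.Agent.SSC3N
open Pool.Agent.SSC3 (ker W E2 Per len slice g2)

private instance A11_inst (m : ℕ) : IsProbabilityMeasure (gam m) := gam_prob m

private theorem A11_coord (n : ℕ) (k : Fin n) :
    Integrable (fun x : Fin n → ℝ => x k) (gam n) ∧ ∫ x : Fin n → ℝ, x k ∂(gam n) = 0 := by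
  have h := measurePreserving_eval (fun _ : Fin n => gaussianReal 0 1) k
  have hid : Integrable (fun x : ℝ => x) (gaussianReal 0 1) := by
    have := IsGaussian.integrable_id (μ := gaussianReal 0 1)
    exact this
  constructor
  · exact h.integrable_comp_of_integrable hid
  · have h2 := integral_map (μ := gam n) h.measurable.aemeasurable
      (f := fun x : ℝ => x) (by fun_prop)
    have h3 : (gam n).map (Function.eval k) = gaussianReal 0 1 := h.map_eq
    rw [h3] at h2
    have h4 : ∫ x : ℝ, x ∂(gaussianReal 0 1) = 0 := integral_id_gaussianReal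
    rw [h4] at h2
    exact h2.symm

theorem rot_centroid (m : ℕ) (ρ : ℝ) (f : Fin 3 → (Fin (2 + m) → ℝ) → ℝ) (hf : FP f) :
    ∃ f' : Fin 3 → (Fin (2 + m) → ℝ) → ℝ, FP f' ∧ Fn ρ f' = Fn ρ f ∧ pen f' = pen f ∧
      ∀ i j, ∫ x, x (Fin.natAdd 2 j) * f' i x ∂(gam (2 + m)) = 0 := by
  obtain ⟨hfm, hf0, hfs⟩ := hf
  have hf1 : ∀ i x, f i x ≤ 1 := by
    intro i x
    rw [← hfs x]
    exact Finset.single_le_sum (f := fun i => f i x) (fun j _ => hf0 j x) (Finset.mem_univ i)
  have hint : ∀ i k, Integrable (fun x : Fin (2 + m) → ℝ => x k * f i x) (gam (2 + m)) := by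
    intro i k
    refine (A11_coord (2 + m) k).1.mul_bdd (c := 1) (hfm i).aestronglyMeasurable ?_
    refine Filter.Eventually.of_forall (fun x => ?_)
    rw [Real.norm_eq_abs, abs_of_nonneg (hf0 i x)]
    exact hf1 i x
  set b : Fin 3 → Fin (2 + m) → ℝ := fun i k => ∫ x, x k * f i x ∂(gam (2 + m)) with hb
  have hbsum : ∀ k, b 0 k + b 1 k + b 2 k = 0 := by
    intro k
    have h3 : ∑ i, b i k = ∫ x : Fin (2 + m) → ℝ, x k ∂(gam (2 + m)) := by
      simp only [hb]
      rw [← integral_finsetSum _ (fun i _ => hint i k)]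
      congr 1
      funext x
      rw [← Finset.mul_sum, hfs x, mul_one]
    rw [(A11_coord (2 + m) k).2, Fin.sum_univ_three] at h3
    exact h3
  obtain ⟨Q, hQ, hQk⟩ := exists_rot (2 + m) (by omega) (b 0) (b 1)
  have hQT : Q.transpose * Q = 1 := by
    have := (Matrix.mem_orthogonalGroup_iff' (Fin (2 + m)) ℝ).mp hQ
    simpa [Matrix.star_eq_conjTranspose, Matrix.conjTranspose_eq_transpose_of_trivial] using this
  have hQT2 : Q * Q.transpose = 1 := by
    have := (Matrix.mem_orthogonalGroup_iff (Fin (2 + m)) ℝ).mp hQ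
    simpa [Matrix.star_eq_conjTranspose, Matrix.conjTranspose_eq_transpose_of_trivial] using this
  have hQ2 : ∀ i : Fin 3, ∀ k : Fin (2 + m), 2 ≤ (k : ℕ) → Q.mulVec (b i) k = 0 := by
    intro i k hk
    fin_cases i
    · exact (hQk k hk).1
    · exact (hQk k hk).2
    · have e : b 2 = -(b 0) - b 1 := by
        funext k; have := hbsum k; simp only [Pi.sub_apply, Pi.neg_apply]; linarith
      show Q.mulVec (b 2) k = 0
      rw [e, Matrix.mulVec_sub, Matrix.mulVec_neg]
      simp [(hQk k hk).1, (hQk k hk).2]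
  set Qi : (Fin (2 + m) → ℝ) → (Fin (2 + m) → ℝ) := fun x => Q.transpose.mulVec x with hQi
  have hQtm : Q.transpose ∈ Matrix.orthogonalGroup (Fin (2 + m)) ℝ := by
    rw [Matrix.mem_orthogonalGroup_iff]
    simpa [Matrix.star_eq_conjTranspose, Matrix.conjTranspose_eq_transpose_of_trivial] using hQT
  have hQim : Measurable Qi := by
    apply Continuous.measurable
    exact Continuous.matrix_mulVec continuous_const continuous_id
  have hmp : MeasurePreserving Qi (gam (2 + m)) (gam (2 + m)) := gauss_rot (2 + m) Q.transpose hQtm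
  have hcomp : ∀ g : (Fin (2 + m) → ℝ) → ℝ, Measurable g →
      ∫ x, g (Qi x) ∂(gam (2 + m)) = ∫ x, g x ∂(gam (2 + m)) := by
    intro g hg
    have h2 := integral_map (μ := gam (2 + m)) hQim.aemeasurable (f := g)
      hg.aestronglyMeasurable
    rw [hmp.map_eq] at h2
    exact h2.symm
  refine ⟨fun i x => f i (Qi x), ⟨fun i => (hfm i).comp hQim, fun i x => hf0 i _,
    fun x => hfs _⟩, ?_, ?_, ?_⟩
  · unfold Fn
    refine Finset.sum_congr rfl (fun i _ => ?_)
    unfold GG
    have hlin : ∀ y z : Fin (2 + m) → ℝ, Qi (ρ • y + Real.sqrt (1 - ρ ^ 2) • z) =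
        ρ • Qi y + Real.sqrt (1 - ρ ^ 2) • Qi z := by
      intro y z
      simp only [hQi]
      rw [Matrix.mulVec_add, Matrix.mulVec_smul, Matrix.mulVec_smul]
    have h1 : ∀ y : Fin (2 + m) → ℝ,
        ∫ z, f i (Qi y) * f i (Qi (ρ • y + Real.sqrt (1 - ρ ^ 2) • z)) ∂(gam (2 + m)) =
        ∫ z, f i (Qi y) * f i (ρ • Qi y + Real.sqrt (1 - ρ ^ 2) • z) ∂(gam (2 + m)) := by
      intro y
      simp_rw [hlin]
      refine hcomp (fun z => f i (Qi y) * f i (ρ • Qi y + Real.sqrt (1 - ρ ^ 2) • z)) ?_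
      exact ((hfm i).comp (by fun_prop)).const_mul _
    simp_rw [h1]
    refine hcomp (fun y => ∫ z, f i y * f i (ρ • y + Real.sqrt (1 - ρ ^ 2) • z) ∂(gam (2 + m))) ?_
    have h5 : Measurable (Function.uncurry (fun y z : Fin (2 + m) → ℝ =>
        f i y * f i (ρ • y + Real.sqrt (1 - ρ ^ 2) • z))) := by
      have e1 : Measurable (fun p : (Fin (2 + m) → ℝ) × (Fin (2 + m) → ℝ) => f i p.1) :=
        (hfm i).comp measurable_fst
      have e2 : Measurable (fun p : (Fin (2 + m) → ℝ) × (Fin (2 + m) → ℝ) =>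
          f i (ρ • p.1 + Real.sqrt (1 - ρ ^ 2) • p.2)) := (hfm i).comp (by fun_prop)
      exact e1.mul e2
    exact (h5.stronglyMeasurable.integral_prod_right' (ν := gam (2 + m))).measurable
  · unfold pen
    refine Finset.sum_congr rfl (fun i _ => ?_)
    rw [hcomp (f i) (hfm i)]
  · intro i j
    have h1 : ∀ x : Fin (2 + m) → ℝ, Q.mulVec (Qi x) = x := by
      intro x
      simp only [hQi]
      rw [Matrix.mulVec_mulVec, hQT2, Matrix.one_mulVec]
    have hQm : Measurable (fun x : Fin (2 + m) → ℝ => Q.mulVec x) := by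
      apply Continuous.measurable
      exact Continuous.matrix_mulVec continuous_const continuous_id
    have h2 : ∫ x, x (Fin.natAdd 2 j) * f i (Qi x) ∂(gam (2 + m)) =
        ∫ x, Q.mulVec x (Fin.natAdd 2 j) * f i x ∂(gam (2 + m)) := by
      rw [← hcomp (fun x => Q.mulVec x (Fin.natAdd 2 j) * f i x)
        (((measurable_pi_apply _).comp hQm).mul (hfm i))]
      simp_rw [h1]
    show ∫ x, x (Fin.natAdd 2 j) * f i (Qi x) ∂(gam (2 + m)) = 0
    rw [h2]
    have h3 : ∀ x : Fin (2 + m) → ℝ, Q.mulVec x (Fin.natAdd 2 j) * f i x =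
        ∑ k, Q (Fin.natAdd 2 j) k * (x k * f i x) := by
      intro x
      simp only [Matrix.mulVec, dotProduct]
      rw [Finset.sum_mul]
      exact Finset.sum_congr rfl (fun k _ => by ring)
    simp_rw [h3]
    rw [integral_finsetSum _ (fun k _ => (hint i k).const_mul _)]
    simp_rw [integral_const_mul]
    have h4 := hQ2 i (Fin.natAdd 2 j) (by simp)
    simpa [Matrix.mulVec, dotProduct, hb] using h4

end Pool.Agent.SSCP
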