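import Pool.Agent.SSCP.LA3

/-! [A12] the key lemma. -/

set_option autoImplicit false
open MeasureTheory ProbabilityTheory Set Real
open scoped ENNReal

namespace Pool.Agent.SSCP
open Pool.Agent.SSC3N
open Pool.Agent.SSC3 (ker W E2 Per len slice g2)

private instance kl_inst (m : ℕ) : IsProbabilityMeasure (gam m) := gam_prob m

private theorem kl_append_meas {m : ℕ} :
    Measurable (fun p : (Fin 2 → ℝ) × (Fin m → ℝ) => (Fin.append p.1 p.2 : Fin (2 + m) → ℝ)) := by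
  refine measurable_pi_lambda _ fun k => ?_
  refine Fin.addCases (fun i => ?_) (fun j => ?_) k
  · simp only [Fin.append_left]
    exact (measurable_pi_apply i).comp measurable_fst
  · simp only [Fin.append_right]
    exact (measurable_pi_apply j).comp measurable_snd

private theorem kl_cur_meas {m : ℕ} (f : (Fin (2 + m) → ℝ) → ℝ) (hf : Measurable f) :
    Measurable (Function.uncurry (cur f)) := by
  exact hf.comp kl_append_meas

private theorem kl_cur_bd {m : ℕ} (f : (Fin (2 + m) → ℝ) → ℝ) (hb : ∀ x, |f x| ≤ 1) (x y) :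
    |cur f x y| ≤ 1 := hb _

/-- the translated function -/
private noncomputable def kl_sh {m : ℕ} (ε : ℝ) (f : (Fin (2 + m) → ℝ) → ℝ) (ξ : Fin m → ℝ)
    (v : Fin (2 + m) → ℝ) : ℝ :=
  cur f (fun i => v (Fin.castAdd m i)) (Real.sqrt (1 - ε ^ 2) • (fun j => v (Fin.natAdd 2 j)) + ε • ξ)

private theorem kl_sh_meas {m : ℕ} (ε : ℝ) (f : (Fin (2 + m) → ℝ) → ℝ) (hf : Measurable f)
    (ξ : Fin m → ℝ) : Measurable (kl_sh ε f ξ) := by
  have h : Measurable (fun v : Fin (2 + m) → ℝ => ((fun i : Fin 2 => v (Fin.castAdd m i)),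
      (Real.sqrt (1 - ε ^ 2) • (fun j : Fin m => v (Fin.natAdd 2 j)) + ε • ξ))) := by
    fun_prop
  exact (kl_cur_meas f hf).comp h

private theorem kl_sh_cur {m : ℕ} (ε : ℝ) (f : (Fin (2 + m) → ℝ) → ℝ) (ξ : Fin m → ℝ) :
    cur (kl_sh ε f ξ) = fun x y => cur f x (Real.sqrt (1 - ε ^ 2) • y + ε • ξ) := by
  funext x y
  simp only [kl_sh, cur, Fin.append_left, Fin.append_right]

private theorem kl_int {α : Type*} [MeasurableSpace α] (μ : Measure α) [IsProbabilityMeasure μ]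
    (f : α → ℝ) (hf : Measurable f) (C : ℝ) (hb : ∀ y, |f y| ≤ C) : Integrable f μ :=
  Integrable.of_bound hf.aestronglyMeasurable C (Filter.Eventually.of_forall hb)

private theorem kl_bd {α : Type*} [MeasurableSpace α] (μ : Measure α)
    [IsProbabilityMeasure μ] (f : α → ℝ) (hb : ∀ y, |f y| ≤ 1) : |∫ y, f y ∂μ| ≤ 1 := by
  have := norm_integral_le_of_norm_le_const (μ := μ) (f := f) (C := 1)
    (Filter.Eventually.of_forall hb)
  simpa using this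

private theorem kl_mul {a b : ℝ} (ha : |a| ≤ 1) (hb : |b| ≤ 1) : |a * b| ≤ 1 := by
  rw [abs_mul]
  exact mul_le_one₀ ha (abs_nonneg _) hb

private theorem kl_SS_bd {m : ℕ} (ρ r : ℝ) (F : (Fin 2 → ℝ) → (Fin m → ℝ) → ℝ)
    (hb : ∀ x y, |F x y| ≤ 1) : |SS ρ r F| ≤ 1 := by
  unfold SS GG
  refine kl_bd _ _ fun x => kl_bd _ _ fun z => kl_bd _ _ fun y => kl_bd _ _ fun w => ?_
  exact kl_mul (hb _ _) (hb _ _)

private theorem kl_SS_meas {m : ℕ} (ρ r ε : ℝ) (F : (Fin 2 → ℝ) → (Fin m → ℝ) → ℝ)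
    (hF : Measurable (Function.uncurry F)) :
    Measurable (fun ξ : Fin m → ℝ =>
      SS ρ r (fun x y => F x (Real.sqrt (1 - ε ^ 2) • y + ε • ξ))) := by
  unfold SS GG
  have h0 : Measurable (fun q : ((((Fin m → ℝ) × (Fin 2 → ℝ)) × (Fin 2 → ℝ)) × (Fin m → ℝ)) ×
      (Fin m → ℝ) =>
      F q.1.1.1.2 (Real.sqrt (1 - ε ^ 2) • q.1.2 + ε • q.1.1.1.1) *
      F (ρ • q.1.1.1.2 + Real.sqrt (1 - ρ ^ 2) • q.1.1.2)
        (Real.sqrt (1 - ε ^ 2) • (r • q.1.2 + Real.sqrt (1 - r ^ 2) • q.2) + ε • q.1.1.1.1)) := by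
    refine Measurable.mul ?_ ?_
    · have : Measurable (fun q : ((((Fin m → ℝ) × (Fin 2 → ℝ)) × (Fin 2 → ℝ)) × (Fin m → ℝ)) ×
        (Fin m → ℝ) => (q.1.1.1.2, Real.sqrt (1 - ε ^ 2) • q.1.2 + ε • q.1.1.1.1)) := by
        fun_prop
      exact hF.comp this
    · have : Measurable (fun q : ((((Fin m → ℝ) × (Fin 2 → ℝ)) × (Fin 2 → ℝ)) × (Fin m → ℝ)) ×
        (Fin m → ℝ) => (ρ • q.1.1.1.2 + Real.sqrt (1 - ρ ^ 2) • q.1.1.2,
        Real.sqrt (1 - ε ^ 2) • (r • q.1.2 + Real.sqrt (1 - r ^ 2) • q.2) + ε • q.1.1.1.1)) := by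
        fun_prop
      exact hF.comp this
  have h1 := h0.stronglyMeasurable.integral_prod_right' (ν := gam m)
  have h2 := h1.integral_prod_right' (ν := gam m)
  have h3 := h2.integral_prod_right' (ν := gam 2)
  have h4 := h3.integral_prod_right' (ν := gam 2)
  exact h4.measurable

private theorem kl_mu_meas {m : ℕ} (ε : ℝ) (g : (Fin m → ℝ) → ℝ) (hg : Measurable g) :
    Measurable (fun ξ : Fin m → ℝ => ∫ y, g (Real.sqrt (1 - ε ^ 2) • y + ε • ξ) ∂(gam m)) := by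
  have h0 : Measurable (fun q : (Fin m → ℝ) × (Fin m → ℝ) =>
      g (Real.sqrt (1 - ε ^ 2) • q.2 + ε • q.1)) := by
    have : Measurable (fun q : (Fin m → ℝ) × (Fin m → ℝ) =>
      Real.sqrt (1 - ε ^ 2) • q.2 + ε • q.1) := by fun_prop
    exact hg.comp this
  exact (h0.stronglyMeasurable.integral_prod_right' (ν := gam m)).measurable

private theorem kl_mu_int {m : ℕ} (ε : ℝ) (he0 : 0 ≤ ε) (he1 : ε ≤ 1) (g : (Fin m → ℝ) → ℝ)
    (hg : Measurable g) (hb : ∀ y, |g y| ≤ 1) :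
    ∫ ξ, (∫ y, g (Real.sqrt (1 - ε ^ 2) • y + ε • ξ) ∂(gam m)) ∂(gam m) = ∫ y, g y ∂(gam m) := by
  have hmp := gam_ou m ε (by linarith) he1
  have h1 : ∫ p, g (ε • p.1 + Real.sqrt (1 - ε ^ 2) • p.2) ∂((gam m).prod (gam m)) =
      ∫ y, g y ∂(gam m) := by
    have := integral_map (μ := (gam m).prod (gam m)) hmp.measurable.aemeasurable
      (f := g) hg.aestronglyMeasurable
    rw [hmp.map_eq] at this
    exact this.symm
  rw [← h1, integral_prod]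
  · refine integral_congr_ae (Filter.Eventually.of_forall fun ξ => ?_)
    refine integral_congr_ae (Filter.Eventually.of_forall fun y => ?_)
    simp only
    rw [add_comm]
  · exact kl_int _ _ (hg.comp hmp.measurable) 1 fun _ => hb _

/-- penalty estimate for one part -/
private theorem kl_pen {m : ℕ} (ε : ℝ) (he0 : 0 ≤ ε) (he1 : ε ≤ 1) (g : (Fin m → ℝ) → ℝ)
    (hg : Measurable g) (hb : ∀ y, |g y| ≤ 1) (hg1 : ∀ j, ∫ y, y j * g y ∂(gam m) = 0) :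
    ∫ ξ, ((∫ y, g (Real.sqrt (1 - ε ^ 2) • y + ε • ξ) ∂(gam m)) - 1 / 3) ^ 2 ∂(gam m)
      ≤ ((∫ y, g y ∂(gam m)) - 1 / 3) ^ 2 + ε ^ 4 := by
  have hv := shift_var ε he0 he1 g hg hb hg1
  have hm := kl_mu_meas ε g hg
  have hi := kl_mu_int ε he0 he1 g hg hb
  have hbd : ∀ ξ : Fin m → ℝ, |∫ y, g (Real.sqrt (1 - ε ^ 2) • y + ε • ξ) ∂(gam m)| ≤ 1 :=
    fun ξ => kl_bd _ _ fun _ => hb _
  set c := ∫ y, g y ∂(gam m) with hc
  have hcb : |c| ≤ 1 := kl_bd _ _ hb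
  set μ : (Fin m → ℝ) → ℝ := fun ξ => ∫ y, g (Real.sqrt (1 - ε ^ 2) • y + ε • ξ) ∂(gam m) with hμ
  have e : ∀ ξ, (μ ξ - 1 / 3) ^ 2 = (μ ξ - c) ^ 2 + (2 * (c - 1 / 3)) * μ ξ +
      ((c - 1 / 3) ^ 2 - 2 * (c - 1 / 3) * c) := fun ξ => by ring
  have hI1 : Integrable (fun ξ => (μ ξ - c) ^ 2) (gam m) := by
    refine kl_int _ _ ((hm.sub_const c).pow_const 2) 4 fun ξ => ?_
    have h1 := abs_le.1 (hbd ξ)
    have h2 := abs_le.1 hcb
    rw [abs_of_nonneg (sq_nonneg _)]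
    have : |μ ξ - c| ≤ 2 := by
      rw [abs_le]; constructor <;> [linarith [h1.1, h2.2]; linarith [h1.2, h2.1]]
    calc (μ ξ - c) ^ 2 = |μ ξ - c| ^ 2 := (sq_abs _).symm
      _ ≤ 2 ^ 2 := by gcongr
      _ = 4 := by norm_num
  have hI2 : Integrable μ (gam m) := kl_int _ _ hm 1 hbd
  have hs : ∫ ξ, (μ ξ - 1 / 3) ^ 2 ∂(gam m) = ∫ ξ, (μ ξ - c) ^ 2 ∂(gam m) + (c - 1 / 3) ^ 2 := by
    simp_rw [e]
    have hI12 : Integrable (fun ξ => (μ ξ - c) ^ 2 + (2 * (c - 1 / 3)) * μ ξ) (gam m) :=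
      hI1.add (hI2.const_mul _)
    have hi' : ∫ ξ, μ ξ ∂(gam m) = c := hi
    rw [integral_add hI12 (integrable_const _), integral_add hI1 (hI2.const_mul _),
      integral_const_mul, hi', integral_const]
    simp only [probReal_univ, smul_eq_mul, one_mul]
    ring
  calc ∫ ξ, (μ ξ - 1 / 3) ^ 2 ∂(gam m) = ∫ ξ, (μ ξ - c) ^ 2 ∂(gam m) + (c - 1 / 3) ^ 2 := hs
    _ ≤ ε ^ 4 + (c - 1 / 3) ^ 2 := by gcongr
    _ = (c - 1 / 3) ^ 2 + ε ^ 4 := by ring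

private theorem kl_FP_bd {X : Type} [MeasurableSpace X] {f : Fin 3 → X → ℝ} (hf : FP f) (i : Fin 3)
    (x : X) : |f i x| ≤ 1 := by
  rw [abs_of_nonneg (hf.2.1 i x)]
  rw [← hf.2.2 x]
  exact Finset.single_le_sum (fun j _ => hf.2.1 j x) (Finset.mem_univ i)

theorem key {m : ℕ} (ρ P ε δ : ℝ) (h0 : 0 < ρ) (h1 : ρ < 1) (hP : 0 ≤ P) (he0 : 0 < ε) (he1 : ε ≤ 1)
    (f : Fin 3 → (Fin (2 + m) → ℝ) → ℝ) (hf : FP f)
    (hz : ∀ i j, ∫ x, x (Fin.natAdd 2 j) * f i x ∂(gam (2 + m)) = 0)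
    (hmax : ∀ g : Fin 3 → (Fin (2 + m) → ℝ) → ℝ, FP g →
      Fn ρ g - P * pen g ≤ Fn ρ f - P * pen f + δ) :
    (1 - ρ) * ε ^ 2 * (Fn ρ f - Fn ρ (fun i => bar (cur (f i)))) ≤ ρ * (3 * P * ε ^ 4 + δ) := by
  have hfb : ∀ i x, |f i x| ≤ 1 := fun i x => kl_FP_bd hf i x
  have hcm : ∀ i, Measurable (Function.uncurry (cur (f i))) := fun i => kl_cur_meas _ (hf.1 i)
  have hcb : ∀ i x y, |cur (f i) x y| ≤ 1 := fun i x y => hfb i _
  -- the translated partitions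
  set fx : (Fin m → ℝ) → Fin 3 → (Fin (2 + m) → ℝ) → ℝ := fun ξ i => kl_sh ε (f i) ξ with hfx
  have hFP : ∀ ξ, FP (fx ξ) := fun ξ =>
    ⟨fun i => kl_sh_meas ε _ (hf.1 i) ξ, fun i x => hf.2.1 i _, fun x => hf.2.2 _⟩
  -- the marginals
  set g : Fin 3 → (Fin m → ℝ) → ℝ := fun i y => ∫ x, cur (f i) x y ∂(gam 2) with hg
  have hgm : ∀ i, Measurable (g i) := by
    intro i
    have h := (hcm i).comp measurable_swap
    exact (h.stronglyMeasurable.integral_prod_right' (ν := gam 2)).measurable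
  have hgb : ∀ i y, |g i y| ≤ 1 := fun i y => kl_bd _ _ fun _ => hcb _ _ _
  have hg1 : ∀ i j, ∫ y, y j * g i y ∂(gam m) = 0 := by
    intro i j
    rw [← hz i j, int_cur_y (f i) (hf.1 i) (hfb i) j]
  have hgi : ∀ i, ∫ y, g i y ∂(gam m) = ∫ x, f i x ∂(gam (2 + m)) := fun i =>
    (int_cur' (f i) (hf.1 i) (hfb i)).symm
  -- stability of the translated partitions
  have hFn : ∀ ξ, Fn ρ (fx ξ) =
      ∑ i, SS ρ ρ (fun x y => cur (f i) x (Real.sqrt (1 - ε ^ 2) • y + ε • ξ)) := by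
    intro ξ
    unfold Fn
    refine Finset.sum_congr rfl fun i _ => ?_
    rw [SS_diag ρ (fx ξ i) ((hFP ξ).1 i) (fun x => kl_FP_bd (hFP ξ) i x), hfx, kl_sh_cur]
  have hpen : ∀ ξ, pen (fx ξ) =
      ∑ i, ((∫ y, g i (Real.sqrt (1 - ε ^ 2) • y + ε • ξ) ∂(gam m)) - 1 / 3) ^ 2 := by
    intro ξ
    unfold pen
    refine Finset.sum_congr rfl fun i _ => ?_
    rw [int_cur' (fx ξ i) ((hFP ξ).1 i) (fun x => kl_FP_bd (hFP ξ) i x), hfx, kl_sh_cur]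
  have hFnI : ∀ i, Integrable (fun ξ =>
      SS ρ ρ (fun x y => cur (f i) x (Real.sqrt (1 - ε ^ 2) • y + ε • ξ))) (gam m) := fun i =>
    kl_int _ _ (kl_SS_meas ρ ρ ε _ (hcm i)) 1 fun ξ => kl_SS_bd _ _ _ fun _ _ => hcb _ _ _
  have hpenI : ∀ i, Integrable (fun ξ =>
      ((∫ y, g i (Real.sqrt (1 - ε ^ 2) • y + ε • ξ) ∂(gam m)) - 1 / 3) ^ 2) (gam m) := by
    intro i
    refine kl_int _ _ (((kl_mu_meas ε (g i) (hgm i)).sub_const _).pow_const 2) 4 fun ξ => ?_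
    have h1 := abs_le.1 (kl_bd (gam m) (fun y => g i (Real.sqrt (1 - ε ^ 2) • y + ε • ξ))
      fun _ => hgb _ _)
    rw [abs_of_nonneg (sq_nonneg _)]
    have : |(∫ y, g i (Real.sqrt (1 - ε ^ 2) • y + ε • ξ) ∂(gam m)) - 1 / 3| ≤ 2 := by
      rw [abs_le]; constructor <;> linarith [h1.1, h1.2]
    rw [← sq_abs]
    calc |(∫ y, g i (Real.sqrt (1 - ε ^ 2) • y + ε • ξ) ∂(gam m)) - 1 / 3| ^ 2 ≤ 2 ^ 2 := by gcongr
      _ = 4 := by norm_num
  have hI1 : ∫ ξ, Fn ρ (fx ξ) ∂(gam m) = ∑ i, SS ρ (ρ + (1 - ρ) * ε ^ 2) (cur (f i)) := by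
    simp_rw [hFn]
    rw [integral_finsetSum _ fun i _ => hFnI i]
    exact Finset.sum_congr rfl fun i _ =>
      SS_shift ρ ε h0.le h1.le he0.le he1 (cur (f i)) (hcm i) (hcb i)
  have hI2 : ∫ ξ, pen (fx ξ) ∂(gam m) ≤ pen f + 3 * ε ^ 4 := by
    simp_rw [hpen]
    rw [integral_finsetSum _ fun i _ => hpenI i]
    have : ∀ i : Fin 3, ∫ ξ, ((∫ y, g i (Real.sqrt (1 - ε ^ 2) • y + ε • ξ) ∂(gam m)) - 1 / 3) ^ 2
        ∂(gam m) ≤ ((∫ x, f i x ∂(gam (2 + m))) - 1 / 3) ^ 2 + ε ^ 4 := by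
      intro i
      have := kl_pen ε he0.le he1 (g i) (hgm i) (hgb i) (hg1 i)
      rwa [hgi i] at this
    calc _ ≤ ∑ i : Fin 3, (((∫ x, f i x ∂(gam (2 + m))) - 1 / 3) ^ 2 + ε ^ 4) :=
          Finset.sum_le_sum fun i _ => this i
      _ = pen f + 3 * ε ^ 4 := by
          rw [Finset.sum_add_distrib]
          simp [pen]
  have hFnI' : Integrable (fun ξ => Fn ρ (fx ξ)) (gam m) := by
    simp_rw [hFn]
    exact integrable_finsetSum _ fun i _ => hFnI i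
  have hpenI' : Integrable (fun ξ => pen (fx ξ)) (gam m) := by
    simp_rw [hpen]
    exact integrable_finsetSum _ fun i _ => hpenI i
  have hI3 : ∫ ξ, (Fn ρ (fx ξ) - P * pen (fx ξ)) ∂(gam m) ≤ Fn ρ f - P * pen f + δ := by
    calc ∫ ξ, (Fn ρ (fx ξ) - P * pen (fx ξ)) ∂(gam m)
        ≤ ∫ _ξ, (Fn ρ f - P * pen f + δ) ∂(gam m) :=
          integral_mono (hFnI'.sub (hpenI'.const_mul P)) (integrable_const _)
            fun ξ => hmax _ (hFP ξ)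
      _ = Fn ρ f - P * pen f + δ := by simp
  rw [integral_sub hFnI' (hpenI'.const_mul P), integral_const_mul, hI1] at hI3
  have hFf : Fn ρ f = ∑ i, SS ρ ρ (cur (f i)) := by
    unfold Fn
    exact Finset.sum_congr rfl fun i _ => SS_diag ρ (f i) (hf.1 i) (hfb i)
  have hFb : Fn ρ (fun i => bar (cur (f i))) = ∑ i, SS ρ 0 (cur (f i)) := by
    unfold Fn
    exact Finset.sum_congr rfl fun i _ => (SS_zero ρ (cur (f i)) (hcm i) (hcb i)).symm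
  have hε2 : ε ^ 2 ≤ 1 := pow_le_one₀ he0.le he1
  have hmono : ∀ i, (ρ + (1 - ρ) * ε ^ 2) * (SS ρ ρ (cur (f i)) - SS ρ 0 (cur (f i))) ≤
      ρ * (SS ρ (ρ + (1 - ρ) * ε ^ 2) (cur (f i)) - SS ρ 0 (cur (f i))) := fun i =>
    SS_mono ρ (ρ + (1 - ρ) * ε ^ 2) h0 (by nlinarith [sq_nonneg ε]) (by nlinarith) (cur (f i))
      (hcm i) (hcb i)
  have hsum := Finset.sum_le_sum fun i (_ : i ∈ (Finset.univ : Finset (Fin 3))) => hmono i
  rw [← Finset.mul_sum, ← Finset.mul_sum, Finset.sum_sub_distrib, Finset.sum_sub_distrib,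
    ← hFf, ← hFb] at hsum
  have hPm : P * ∫ ξ, pen (fx ξ) ∂(gam m) ≤ P * (pen f + 3 * ε ^ 4) :=
    mul_le_mul_of_nonneg_left hI2 hP
  have hfin : ∑ i, SS ρ (ρ + (1 - ρ) * ε ^ 2) (cur (f i)) ≤ Fn ρ f + 3 * P * ε ^ 4 + δ := by
    linarith
  have := mul_le_mul_of_nonneg_left hfin h0.le
  nlinarith

end Pool.Agent.SSCP
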