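import Pool.Agent.SSCP.Defs
import Pool.Agent.SSC3N.Cubic

set_option autoImplicit false
open MeasureTheory ProbabilityTheory Set Real
open scoped ENNReal

namespace Pool.Agent.SSCP
open Pool.Agent.SSC3N
open Pool.Agent.SSC3 (ker W E2 Per len slice g2)

private theorem a14_mono2 {m : ℕ} (F G : (Fin m → ℝ) → (Fin m → ℝ) → ℝ) (C : ℝ)
    (hF : Measurable (Function.uncurry F)) (hG : Measurable (Function.uncurry G))
    (hFb : ∀ y z, |F y z| ≤ C) (hGb : ∀ y z, |G y z| ≤ C) (h : ∀ y z, F y z ≤ G y z) :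
    ∫ y, ∫ z, F y z ∂(gam m) ∂(gam m) ≤ ∫ y, ∫ z, G y z ∂(gam m) ∂(gam m) := by
  have := gam_prob m
  have key : ∀ H : (Fin m → ℝ) → (Fin m → ℝ) → ℝ, Measurable (Function.uncurry H) →
      (∀ y z, |H y z| ≤ C) → (∀ y, Integrable (H y) (gam m)) ∧
        Integrable (fun y => ∫ z, H y z ∂(gam m)) (gam m) := by
    intro H hH hb
    have h1 : ∀ y, Integrable (H y) (gam m) := fun y =>
      Integrable.of_bound (hH.comp measurable_prodMk_left).aestronglyMeasurable C
        (Filter.Eventually.of_forall fun z => hb y z)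
    refine ⟨h1, ?_⟩
    refine Integrable.of_bound
      (hH.stronglyMeasurable.integral_prod_right' (ν := gam m)).aestronglyMeasurable C
      (Filter.Eventually.of_forall fun y => ?_)
    have := norm_integral_le_of_norm_le_const (μ := gam m) (f := fun z => H y z) (C := C)
      (Filter.Eventually.of_forall fun z => hb y z)
    simpa [Function.uncurry] using this
  obtain ⟨f1, f2⟩ := key F hF hFb
  obtain ⟨g1, g2⟩ := key G hG hGb
  exact integral_mono f2 g2 fun y => integral_mono (f1 y) (g1 y) (h y)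

private theorem a14_meas {m : ℕ} (ρ : ℝ) (f h : (Fin m → ℝ) → ℝ) (hf : Measurable f)
    (hh : Measurable h) : Measurable (Function.uncurry fun (y z : Fin m → ℝ) =>
      f y * h (ρ • y + Real.sqrt (1 - ρ ^ 2) • z)) := by
  have h1 : Measurable (fun p : (Fin m → ℝ) × (Fin m → ℝ) =>
      ρ • p.1 + Real.sqrt (1 - ρ ^ 2) • p.2) := by fun_prop
  exact (hf.comp measurable_fst).mul (hh.comp h1)

private theorem a14_abs {a b : ℝ} (ha0 : 0 ≤ a) (ha : a ≤ 1) (hb0 : 0 ≤ b) (hb : b ≤ 1) :
    |a * b| ≤ 1 := by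
  rw [abs_of_nonneg (mul_nonneg ha0 hb0)]
  exact mul_le_one₀ ha hb0 hb

private theorem a14_le1 {X : Type} [MeasurableSpace X] (g : Fin 3 → X → ℝ) (hg : FP g) (i : Fin 3)
    (x : X) : g i x ≤ 1 := by
  obtain ⟨_, h2, h3⟩ := hg
  have := h3 x
  rw [Fin.sum_univ_three] at this
  have a0 := h2 0 x
  have a1 := h2 1 x
  have a2 := h2 2 x
  fin_cases i <;> simp <;> linarith

private theorem a14_GG {m : ℕ} (ρ : ℝ) (f : (Fin m → ℝ) → ℝ) (hf : Measurable f)
    (h0 : ∀ x, 0 ≤ f x) (h1 : ∀ x, f x ≤ 1) :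
    0 ≤ GG ρ f f ∧ GG ρ f f ≤ ∫ x, f x ∂(gam m) := by
  have := gam_prob m
  constructor
  · unfold GG
    exact integral_nonneg fun y => integral_nonneg fun z => mul_nonneg (h0 _) (h0 _)
  · unfold GG
    have h2 := a14_mono2 (m := m) (fun y z => f y * f (ρ • y + Real.sqrt (1 - ρ ^ 2) • z))
      (fun y _ => f y) 1 (a14_meas ρ f f hf hf) (hf.comp measurable_fst)
      (fun y z => a14_abs (h0 _) (h1 _) (h0 _) (h1 _))
      (fun y z => by rw [abs_of_nonneg (h0 _)]; exact h1 _)
      (fun y z => mul_le_of_le_one_right (h0 _) (h1 _))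
    simpa using h2

private theorem a14_sumint {m : ℕ} (g : Fin 3 → (Fin m → ℝ) → ℝ) (hg : FP g) :
    ∑ i, ∫ x, g i x ∂(gam m) = 1 := by
  have := gam_prob m
  have hint : ∀ i, Integrable (g i) (gam m) := fun i =>
    Integrable.of_bound (hg.1 i).aestronglyMeasurable 1
      (Filter.Eventually.of_forall fun x => by
        rw [Real.norm_eq_abs, abs_of_nonneg (hg.2.1 i x)]
        exact a14_le1 g hg i x)
  rw [← integral_finsetSum _ fun i _ => hint i]
  have h3 : (fun x => ∑ i, g i x) = fun _ => (1 : ℝ) := funext hg.2.2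
  rw [h3]
  simp

private theorem a14_Fn {m : ℕ} (ρ : ℝ) (g : Fin 3 → (Fin m → ℝ) → ℝ) (hg : FP g) :
    0 ≤ Fn ρ g ∧ Fn ρ g ≤ 1 := by
  have h := fun i => a14_GG ρ (g i) (hg.1 i) (hg.2.1 i) (a14_le1 g hg i)
  constructor
  · exact Finset.sum_nonneg fun i _ => (h i).1
  · rw [← a14_sumint g hg]
    exact Finset.sum_le_sum fun i _ => (h i).2

/-- [A14] Let `m_i = ∫ g_i`, `d = max_i (m_i - 1/3) ≥ 0` (the `m_i` sum to 1), so `pen g ≥ d²`.
Let `θ = min 1 (3d)`.  If `θ = 0` all `m_i = 1/3`: `Fn ρ g ≤ S`.  Otherwise let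
`p_i = (1/3 - (1-θ) m_i)/θ ≥ 0`, `∑ p_i = 1`, and `g'_i = (1-θ) g_i + θ p_i`: a balanced fractional partition,
so `S ≥ Fn ρ g' ≥ (1-θ)² Fn ρ g` (`GG` is bilinear and nonnegative on nonnegative functions).  Since
`Fn ρ g ≤ 1` (`∑ GG(g_i,g_i) ≤ ∑_i E g_i(X) = 1`), `Fn ρ g ≤ S + 2θ ≤ S + 6d`, and
`6 d - P d² ≤ 9/P`. -/
theorem planar_pen (ρ S P : ℝ) (h0 : 0 ≤ ρ) (h1 : ρ ≤ 1) (hP : 0 < P)
    (hS : ∀ g : Fin 3 → (Fin 2 → ℝ) → ℝ, FP g → (∀ i, ∫ x, g i x ∂(gam 2) = 1 / 3) → Fn ρ g ≤ S)
    (g : Fin 3 → (Fin 2 → ℝ) → ℝ) (hg : FP g) : Fn ρ g - P * pen g ≤ S + 9 / P := by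
  have hprob := gam_prob 2
  obtain ⟨hF0, hF1⟩ := a14_Fn ρ g hg
  have hsum := a14_sumint g hg
  set M : Fin 3 → ℝ := fun i => ∫ x, g i x ∂(gam 2) with hM
  have hsum' : M 0 + M 1 + M 2 = 1 := by
    have := hsum
    rwa [Fin.sum_univ_three] at this
  -- the largest mass
  obtain ⟨k, hk⟩ : ∃ k, ∀ i, M i ≤ M k := by
    obtain ⟨k, _, hk⟩ := Finset.exists_max_image (Finset.univ : Finset (Fin 3)) M ⟨0, Finset.mem_univ _⟩
    exact ⟨k, fun i => hk i (Finset.mem_univ i)⟩
  set d := M k - 1 / 3 with hd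
  have hd0 : 0 ≤ d := by
    have a0 := hk 0
    have a1 := hk 1
    have a2 := hk 2
    rw [hd]
    linarith
  have hpen : d ^ 2 ≤ pen g := by
    unfold pen
    exact Finset.single_le_sum (f := fun i => ((∫ x, g i x ∂(gam 2)) - 1 / 3) ^ 2)
      (fun i _ => sq_nonneg _) (Finset.mem_univ k)
  -- main bound
  have hmain : Fn ρ g ≤ S + 6 * d := by
    rcases hd0.eq_or_lt with hz | hpos
    · -- all masses are 1/3
      have hall : ∀ i, ∫ x, g i x ∂(gam 2) = 1 / 3 := by
        have hk' : M k = 1 / 3 := by rw [hd] at hz; linarith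
        have a0 := hk 0
        have a1 := hk 1
        have a2 := hk 2
        rw [hk'] at a0 a1 a2
        intro i
        show M i = 1 / 3
        fin_cases i
        · show M 0 = 1 / 3
          linarith
        · show M 1 = 1 / 3
          linarith
        · show M 2 = 1 / 3
          linarith
      have := hS g hg hall
      linarith
    · set θ := min 1 (3 * d) with hθ
      have hθ1 : θ ≤ 1 := min_le_left _ _
      have hθd : θ ≤ 3 * d := min_le_right _ _
      have hθ0 : 0 < θ := lt_min one_pos (by linarith)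
      have hMle : ∀ i, (1 - θ) * M i ≤ 1 / 3 := by
        intro i
        have b1 : M i ≤ 1 / 3 + d := by
          have := hk i
          rw [hd]
          linarith
        have b2 : (1 - θ) * M i ≤ (1 - θ) * (1 / 3 + d) :=
          mul_le_mul_of_nonneg_left b1 (by linarith)
        have b3 : (1 - θ) * (1 / 3 + d) ≤ 1 / 3 := by
          rcases min_choice 1 (3 * d) with hc | hc
          · have : θ = 1 := by rw [hθ, hc]
            rw [this]
            norm_num
          · have : θ = 3 * d := by rw [hθ, hc]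
            rw [this]
            nlinarith [sq_nonneg d]
        linarith
      set p : Fin 3 → ℝ := fun i => (1 / 3 - (1 - θ) * M i) with hp
      -- θ p_i in the notation of the docstring
      have hp0 : ∀ i, 0 ≤ p i := fun i => by
        have := hMle i
        simp only [hp]
        linarith
      have hpsum : ∑ i, p i = θ := by
        rw [Fin.sum_univ_three]
        simp only [hp]
        have : (1 - θ) * M 0 + (1 - θ) * M 1 + (1 - θ) * M 2 = 1 - θ := by
          rw [← mul_add, ← mul_add, hsum', mul_one]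
        linarith
      set g' : Fin 3 → (Fin 2 → ℝ) → ℝ := fun i x => (1 - θ) * g i x + p i with hg'
      have hFP' : FP g' := by
        refine ⟨fun i => ?_, fun i x => ?_, fun x => ?_⟩
        · exact ((hg.1 i).const_mul (1 - θ)).add_const _
        · exact add_nonneg (mul_nonneg (by linarith) (hg.2.1 i x)) (hp0 i)
        · simp only [hg']
          rw [Finset.sum_add_distrib, ← Finset.mul_sum, hg.2.2 x, hpsum]
          ring
      have hint : ∀ i, Integrable (g i) (gam 2) := fun i =>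
        Integrable.of_bound (hg.1 i).aestronglyMeasurable 1
          (Filter.Eventually.of_forall fun x => by
            rw [Real.norm_eq_abs, abs_of_nonneg (hg.2.1 i x)]
            exact a14_le1 g hg i x)
      have hbal : ∀ i, ∫ x, g' i x ∂(gam 2) = 1 / 3 := by
        intro i
        simp only [hg']
        rw [integral_add ((hint i).const_mul _) (integrable_const _), integral_const_mul]
        simp [hp, hM]
      have hS' := hS g' hFP' hbal
      -- comparison
      have hcmp : (1 - θ) ^ 2 * Fn ρ g ≤ Fn ρ g' := by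
        unfold Fn
        rw [Finset.mul_sum]
        refine Finset.sum_le_sum fun i _ => ?_
        unfold GG
        rw [← integral_const_mul]
        have e1 : (fun y => (1 - θ) ^ 2 * ∫ z, g i y * g i (ρ • y + Real.sqrt (1 - ρ ^ 2) • z)
            ∂(gam 2)) = fun y => ∫ z, (1 - θ) ^ 2 * (g i y *
              g i (ρ • y + Real.sqrt (1 - ρ ^ 2) • z)) ∂(gam 2) := by
          funext y
          simp only [integral_const_mul]
        rw [e1]
        have ht0 : 0 ≤ 1 - θ := by linarith
        have ht1 : (1 - θ) ^ 2 ≤ 1 := by nlinarith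
        refine a14_mono2 (m := 2) (fun y z => (1 - θ) ^ 2 * (g i y *
              g i (ρ • y + Real.sqrt (1 - ρ ^ 2) • z)))
            (fun y z => g' i y * g' i (ρ • y + Real.sqrt (1 - ρ ^ 2) • z)) 1
            ((a14_meas ρ (g i) (g i) (hg.1 i) (hg.1 i)).const_mul _)
            (a14_meas ρ (g' i) (g' i) (hFP'.1 i) (hFP'.1 i)) ?_ ?_ ?_
        · intro y z
          rw [abs_mul, abs_of_nonneg (sq_nonneg (1 - θ))]
          exact mul_le_one₀ ht1 (abs_nonneg _)
            (a14_abs (hg.2.1 i _) (a14_le1 g hg i _) (hg.2.1 i _) (a14_le1 g hg i _))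
        · intro y z
          exact a14_abs (hFP'.2.1 i _) (a14_le1 g' hFP' i _) (hFP'.2.1 i _) (a14_le1 g' hFP' i _)
        · intro y z
          have c1 : (1 - θ) * g i y ≤ g' i y := by
            simp only [hg']
            have := hp0 i
            linarith
          have c2 : (1 - θ) * g i (ρ • y + Real.sqrt (1 - ρ ^ 2) • z) ≤
              g' i (ρ • y + Real.sqrt (1 - ρ ^ 2) • z) := by
            simp only [hg']
            have := hp0 i
            linarith
          calc (1 - θ) ^ 2 * (g i y * g i (ρ • y + Real.sqrt (1 - ρ ^ 2) • z))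
              = ((1 - θ) * g i y) * ((1 - θ) * g i (ρ • y + Real.sqrt (1 - ρ ^ 2) • z)) := by ring
            _ ≤ _ := mul_le_mul c1 c2 (mul_nonneg ht0 (hg.2.1 i _)) (hFP'.2.1 i _)
      have hfin : Fn ρ g ≤ S + 2 * θ := by
        have e2 : Fn ρ g - (1 - θ) ^ 2 * Fn ρ g = (2 * θ - θ ^ 2) * Fn ρ g := by ring
        have e3 : (2 * θ - θ ^ 2) * Fn ρ g ≤ 2 * θ := by
          have e4 : 0 ≤ 2 * θ - θ ^ 2 := by nlinarith
          calc (2 * θ - θ ^ 2) * Fn ρ g ≤ (2 * θ - θ ^ 2) * 1 :=
                mul_le_mul_of_nonneg_left hF1 e4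
            _ ≤ 2 * θ := by nlinarith [sq_nonneg θ]
        linarith
      linarith
  have hfinal : 6 * d - P * d ^ 2 ≤ 9 / P := by
    rw [le_div_iff₀ hP]
    nlinarith [sq_nonneg (3 - P * d)]
  have hPp : P * d ^ 2 ≤ P * pen g := mul_le_mul_of_nonneg_left hpen hP.le
  linarith

end Pool.Agent.SSCP
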