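import Pool.Agent.SSCP.LA4

set_option autoImplicit false
open MeasureTheory ProbabilityTheory Set Real
open scoped ENNReal

namespace Pool.Agent.SSCP
open Pool.Agent.SSC3N
open Pool.Agent.SSC3 (ker W E2 Per len slice g2)

private theorem a15_pen_nonneg {n : ℕ} (f : Fin 3 → (Fin n → ℝ) → ℝ) : 0 ≤ pen f := by
  unfold pen
  exact Finset.sum_nonneg fun i _ => sq_nonneg _

private theorem a15_limit (X c : ℝ) (hc : 0 ≤ c)
    (h : ∀ ε : ℝ, 0 < ε → ε ≤ 1 → X ≤ (1 + c) * ε ^ 2) : X ≤ 0 := by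
  by_contra hX
  push Not at hX
  set ε : ℝ := min 1 (X / (2 * (1 + c))) with hε
  have h1 : 0 < ε := lt_min one_pos (by positivity)
  have h2 : ε ≤ 1 := min_le_left _ _
  have h3 : ε ≤ X / (2 * (1 + c)) := min_le_right _ _
  have h4 := h ε h1 h2
  have h5 : (1 + c) * ε ^ 2 ≤ (1 + c) * ε := by
    apply mul_le_mul_of_nonneg_left _ (by linarith)
    nlinarith
  have h6 : (1 + c) * ε ≤ (1 + c) * (X / (2 * (1 + c))) :=
    mul_le_mul_of_nonneg_left h3 (by linarith)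
  have h7 : (1 + c) * (X / (2 * (1 + c))) = X / 2 := by
    field_simp
  linarith

/-- [A15] DIMENSION REDUCTION.  Fix `P > 0`.  Let `M` be the supremum of `Fn ρ g - P pen g` over all fractional
partitions `g` of `ℝ^{2+m}` (nonempty: constants; bounded by 1: `Fn_le_one`).
Claim `M ≤ S + 9/P`.  Let `0 < δ < 1`, choose `g` with value `≥ M - δ`, rotate it (`rot_centroid`): `f` with the
same value, zero moments.  `key` with `ε = δ^{1/4}` (so `ε² = √δ`):
`Fn ρ f - Fn ρ (bar f) ≤ (ρ/(1-ρ)) (3 P √δ + √δ)`.  With `bar_FP` and `planar_pen`,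
`M - δ ≤ Fn ρ f - P pen f ≤ S + 9/P + (ρ/(1-ρ)) (3P+1) √δ`.  Let `δ → 0`.
A balanced `f` has `pen f = 0`, so `Fn ρ f ≤ M ≤ S + 9/P` for every `P > 0`; let `P → ∞`. -/
theorem DR (ρ S : ℝ) (h0 : 0 < ρ) (h1 : ρ < 1)
    (hS : ∀ g : Fin 3 → (Fin 2 → ℝ) → ℝ, FP g → (∀ i, ∫ x, g i x ∂(gam 2) = 1 / 3) → Fn ρ g ≤ S)
    (m : ℕ) (f : Fin 3 → (Fin (2 + m) → ℝ) → ℝ) (hf : FP f)
    (hb : ∀ i, ∫ x, f i x ∂(gam (2 + m)) = 1 / 3) : Fn ρ f ≤ S := by
  have hpf : pen f = 0 := by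
    unfold pen
    simp [hb]
  have main : ∀ P : ℝ, 0 < P → Fn ρ f ≤ S + 9 / P := by
    intro P hP
    set A : Set ℝ := {v | ∃ g : Fin 3 → (Fin (2 + m) → ℝ) → ℝ, FP g ∧ v = Fn ρ g - P * pen g} with hA
    have hne : A.Nonempty := ⟨_, f, hf, rfl⟩
    have hbd : BddAbove A := by
      refine ⟨1, ?_⟩
      rintro v ⟨g, hg, rfl⟩
      have e1 := (Fn_le_one ρ h0.le h1.le g hg).1
      have e2 := a15_pen_nonneg g
      nlinarith
    set M : ℝ := sSup A with hM
    have hfM : Fn ρ f ≤ M := by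
      have := le_csSup hbd (show Fn ρ f - P * pen f ∈ A from ⟨f, hf, rfl⟩)
      rw [hpf] at this
      simpa using this
    have h1ρ : 0 < 1 - ρ := by linarith
    set c : ℝ := ρ * (3 * P + 1) / (1 - ρ) with hc
    have hc0 : 0 ≤ c := by positivity
    have hlim : M - (S + 9 / P) ≤ 0 := by
      refine a15_limit _ c hc0 fun ε he0 he1 => ?_
      have he4 : 0 < ε ^ 4 := by positivity
      obtain ⟨v, ⟨g, hg, rfl⟩, hv⟩ := exists_lt_of_lt_csSup hne (show M - ε ^ 4 < sSup A by linarith)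
      obtain ⟨g', hg', eF, eP, hz⟩ := rot_centroid m ρ g hg
      have hk := key ρ P ε (ε ^ 4) h0 h1 hP.le he0 he1 g' hg' hz (by
        intro k hkFP
        have := le_csSup hbd (show Fn ρ k - P * pen k ∈ A from ⟨k, hkFP, rfl⟩)
        rw [eF, eP]
        linarith)
      obtain ⟨hbF, hbP⟩ := bar_FP g' hg'
      have hpl := planar_pen ρ S P h0.le h1.le hP hS _ hbF
      rw [hbP] at hpl
      have hdiff : Fn ρ g' - Fn ρ (fun i => bar (cur (g' i))) ≤ c * ε ^ 2 := by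
        have e2 : 0 < ε ^ 2 := by positivity
        have e3 : (1 - ρ) * ε ^ 2 * (Fn ρ g' - Fn ρ (fun i => bar (cur (g' i))))
            ≤ (1 - ρ) * ε ^ 2 * (c * ε ^ 2) := by
          refine hk.trans (le_of_eq ?_)
          rw [hc]
          field_simp
        exact le_of_mul_le_mul_left e3 (by positivity)
      have e4 : ε ^ 4 ≤ ε ^ 2 := pow_le_pow_of_le_one he0.le he1 (by norm_num)
      rw [← eF, ← eP] at hv
      nlinarith
    linarith
  refine le_of_forall_pos_le_add fun η hη => ?_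
  have := main (9 / η) (by positivity)
  have e : 9 / (9 / η) = η := by field_simp
  rwa [e] at this

end Pool.Agent.SSCP
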