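import Pool.Agent.SSCP.Defs
import Pool.Agent.SSC3N.Cubic

/-! [SSCP-A2] spectral gap of the Ornstein-Uhlenbeck form, mean-zero functions -/

set_option autoImplicit false
open MeasureTheory ProbabilityTheory Set Real
open scoped ENNReal

namespace Pool.Agent.SSCP
open Pool.Agent.SSC3N
open Pool.Agent.SSC3 (ker W E2 Per len slice g2)

private theorem A2_iter (p : ℕ) (hp : p ≠ 0) (φ : ℝ → ℝ) (K : ℝ) (h0 : ∀ s, 0 ≤ s → s ≤ 1 → 0 ≤ φ s)
    (h1 : ∀ s, 0 ≤ s → s ≤ 1 → φ s ^ 2 ≤ φ 1 * φ (s ^ 2))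
    (h2 : ∀ s, 0 ≤ s → s ≤ 1 / 4 → φ s ≤ K * s ^ p) (s : ℝ) (hs0 : 0 ≤ s) (hs1 : s ≤ 1) :
    φ s ≤ φ 1 * s ^ p := by
  rcases hs0.eq_or_lt with rfl | hs0'
  · have := h2 0 le_rfl (by norm_num)
    rw [zero_pow hp, mul_zero] at this ⊢
    exact this
  rcases hs1.eq_or_lt with rfl | hs1'
  · simp
  have hφ1 : 0 ≤ φ 1 := h0 1 zero_le_one le_rfl
  rcases hφ1.eq_or_lt with hz | hpos
  · have := h1 s hs0 hs1
    rw [← hz, zero_mul] at this
    have h3 : φ s = 0 := by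
      have h4 := sq_nonneg (φ s)
      exact pow_eq_zero_iff (two_ne_zero) |>.1 (le_antisymm this h4)
    rw [h3, ← hz, zero_mul]
  by_contra hcon
  rw [not_le] at hcon
  set ψ : ℝ → ℝ := fun r => φ r / (φ 1 * r ^ p) with hψ
  have hψ1 : 1 < ψ s := by
    rw [hψ]
    simp only
    rw [one_lt_div (by positivity)]
    exact hcon
  have hψ0 : ∀ r, 0 < r → r ≤ 1 → 0 ≤ ψ r := fun r hr hr1 =>
    div_nonneg (h0 r hr.le hr1) (by positivity)
  have hψsq : ∀ r, 0 < r → r ≤ 1 → ψ r ^ 2 ≤ ψ (r ^ 2) := by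
    intro r hr hr1
    simp only [hψ]
    rw [div_pow, div_le_div_iff₀ (by positivity) (by positivity)]
    have := h1 r hr.le hr1
    calc φ r ^ 2 * (φ 1 * (r ^ 2) ^ p) ≤ (φ 1 * φ (r ^ 2)) * (φ 1 * (r ^ 2) ^ p) :=
          mul_le_mul_of_nonneg_right this (by positivity)
      _ = φ (r ^ 2) * (φ 1 * r ^ p) ^ 2 := by ring
  have hiter : ∀ n : ℕ, ψ s ^ (2 ^ n) ≤ ψ (s ^ (2 ^ n)) := by
    intro n
    induction n with
    | zero => simp
    | succ n ih =>
      have hr0 : 0 < s ^ (2 ^ n) := by positivity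
      have hr1 : s ^ (2 ^ n) ≤ 1 := pow_le_one₀ hs0 hs1
      calc ψ s ^ (2 ^ (n + 1)) = (ψ s ^ (2 ^ n)) ^ 2 := by rw [← pow_mul]; ring_nf
        _ ≤ (ψ (s ^ (2 ^ n))) ^ 2 := pow_le_pow_left₀ (by positivity) ih 2
        _ ≤ ψ ((s ^ (2 ^ n)) ^ 2) := hψsq _ hr0 hr1
        _ = ψ (s ^ (2 ^ (n + 1))) := by rw [← pow_mul]; ring_nf
  have hbd : ∀ᶠ n : ℕ in Filter.atTop, ψ s ^ (2 ^ n) ≤ K / φ 1 := by
    have ht : Filter.Tendsto (fun n : ℕ => s ^ (2 ^ n)) Filter.atTop (nhds 0) :=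
      (tendsto_pow_atTop_nhds_zero_of_lt_one hs0 hs1').comp
        (tendsto_pow_atTop_atTop_of_one_lt (by norm_num))
    have := ht.eventually (gt_mem_nhds (show (0:ℝ) < 1 / 4 by norm_num))
    filter_upwards [this] with n hn
    refine (hiter n).trans ?_
    have hr0 : 0 < s ^ (2 ^ n) := by positivity
    simp only [hψ]
    rw [div_le_div_iff₀ (by positivity) hpos]
    have := h2 _ hr0.le hn.le
    calc φ (s ^ 2 ^ n) * φ 1 ≤ (K * (s ^ 2 ^ n) ^ p) * φ 1 :=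
          mul_le_mul_of_nonneg_right this hpos.le
      _ = K * (φ 1 * (s ^ 2 ^ n) ^ p) := by ring
  have htop : Filter.Tendsto (fun n : ℕ => ψ s ^ (2 ^ n)) Filter.atTop Filter.atTop :=
    (tendsto_pow_atTop_atTop_of_one_lt hψ1).comp
      (tendsto_pow_atTop_atTop_of_one_lt (by norm_num))
  obtain ⟨n, hn1, hn2⟩ := (hbd.and (htop.eventually (Filter.eventually_gt_atTop (K / φ 1)))).exists
  linarith

/-- the general step: a pointwise bound of order `p` gives the spectral gap of order `p` -/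
private theorem A2_diag {m : ℕ} (p : ℕ) (hp : p ≠ 0) (K B : ℝ) (hB0 : 0 ≤ B)
    (g : (Fin m → ℝ) → ℝ) (hg : Measurable g)
    (hgb : ∀ y, |g y| ≤ K * Real.exp (cubq y / 20))
    (hT : ∀ s, 0 ≤ s → s ≤ 1 / 4 → ∀ y, |Pool.Agent.SSC3N.TT s g y| ≤
      B * s ^ p * Real.exp (cubq y / 5))
    (τ : ℝ) (h0 : 0 ≤ τ) (h1 : τ ≤ 1) :
    GG τ g g ≤ (∫ y, g y ^ 2 ∂(gam m)) * τ ^ p := by
  have := gam_prob m
  have hL2 := cub_L2 K g hg hgb
  have hK : 0 ≤ K := by
    have := (abs_nonneg _).trans (hgb 0)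
    by_contra hcon
    rw [not_le] at hcon
    have h2 := Real.exp_pos (cubq (0 : Fin m → ℝ) / 20)
    nlinarith
  have e1 : GG 1 g g = ∫ y, g y ^ 2 ∂(gam m) := by
    rw [cub_GG_TT]
    congr 1
    ext y
    unfold Pool.Agent.SSC3N.TT
    simp
    ring
  rw [← e1]
  apply A2_iter p hp (fun s => GG s g g) (B * K * ∫ w, Real.exp (cubq w / 4) ∂(gam m)) _ _ _ τ h0 h1
  · intro s hs0 hs1
    rw [(cub_semigroup s hs0 hs1 g g hL2 hL2).1]
    exact integral_nonneg fun y => mul_self_nonneg _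
  · intro s hs0 hs1
    have hs2 : s ^ 2 ≤ 1 := pow_le_one₀ hs0 hs1
    have hsq : Real.sqrt (s ^ 2) = s := Real.sqrt_sq hs0
    have e2 := (cub_semigroup (s ^ 2) (sq_nonneg s) hs2 g g hL2 hL2).1
    have e3 := cub_TT_L2 (s ^ 2) (sq_nonneg s) hs2 g hg hL2
    rw [hsq] at e2 e3
    have e4 := cub_cs hL2 e3
    rw [cub_GG_TT s g g, e1, e2]
    refine e4.trans (le_of_eq ?_)
    congr 2
    ext y
    ring
  · intro s hs0 hs1
    rw [cub_GG_TT s g g]
    have e2 : ∀ y, ‖g y * Pool.Agent.SSC3N.TT s g y‖ ≤ B * K * s ^ p * Real.exp (cubq y / 4) := by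
      intro y
      rw [norm_mul, Real.norm_eq_abs, Real.norm_eq_abs]
      have e3 := hT s hs0 hs1 y
      calc |g y| * |Pool.Agent.SSC3N.TT s g y| ≤ (K * Real.exp (cubq y / 20)) *
            (B * s ^ p * Real.exp (cubq y / 5)) :=
              mul_le_mul (hgb y) e3 (abs_nonneg _) (by positivity)
        _ = B * K * s ^ p * (Real.exp (cubq y / 20) * Real.exp (cubq y / 5)) := by ring
        _ = _ := by
          rw [← Real.exp_add]
          congr 2
          ring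
    have e3 := norm_integral_le_of_norm_le (f := fun y => g y * Pool.Agent.SSC3N.TT s g y)
      (cub_exp.const_mul (B * K * s ^ p)) (Filter.Eventually.of_forall e2)
    rw [integral_const_mul, Real.norm_eq_abs] at e3
    refine (le_abs_self _).trans (e3.trans (le_of_eq ?_))
    ring

/-- the general remainder estimate -/
private theorem A2_TT_of_rem {m : ℕ} (p : ℕ) (C M : ℝ) (hC : 0 ≤ C) (hM : 0 ≤ M)
    (k : (Fin m → ℝ) → ℝ)
    (hk : Measurable k) (hb : ∀ y, |k y| ≤ C) (s : ℝ) (h0 : 0 ≤ s) (h1 : s ≤ 1 / 4)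
    (y : Fin m → ℝ) (R : (Fin m → ℝ) → ℝ)
    (hRb : ∀ w, |R w| ≤ M * s ^ p * (Real.exp (cubq y / 5) * Real.exp (cubq w / 5)))
    (hsplit : ∫ w, Real.exp (-(s ^ 2 / (2 * (1 - s ^ 2)) * cubq w)) *
        Real.exp (s / (1 - s ^ 2) * cubi y w) * k w ∂(gam m) = ∫ w, R w * k w ∂(gam m)) :
    |Pool.Agent.SSC3N.TT s k y| ≤ 2 ^ m * (M * C * (∫ w, Real.exp (cubq w / 4) ∂(gam m))) * s ^ p *
      Real.exp (cubq y / 5) := by
  have hs2 : 15 / 16 ≤ 1 - s ^ 2 := by nlinarith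
  have hs2p : 0 < 1 - s ^ 2 := by linarith
  rw [cub_TT_eq s y h0 (by linarith) k hk]
  have hN : ((Real.sqrt (1 - s ^ 2))⁻¹) ^ m ≤ 2 ^ m := by
    apply pow_le_pow_left₀ (by positivity)
    have : (1:ℝ) / 2 ≤ Real.sqrt (1 - s ^ 2) := by
      apply Real.le_sqrt_of_sq_le
      linarith
    calc (Real.sqrt (1 - s ^ 2))⁻¹ ≤ ((1:ℝ) / 2)⁻¹ := inv_anti₀ (by norm_num) this
      _ = 2 := by norm_num
  have hN0 : 0 ≤ ((Real.sqrt (1 - s ^ 2))⁻¹) ^ m := by positivity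
  have hE : Real.exp (-(s ^ 2 / (2 * (1 - s ^ 2)) * cubq y)) ≤ 1 := by
    rw [Real.exp_le_one_iff]
    have := mul_nonneg (show 0 ≤ s ^ 2 / (2 * (1 - s ^ 2)) by positivity) (cubq_nonneg y)
    linarith
  have hRg : ∀ w, |R w * k w| ≤ M * C * s ^ p * Real.exp (cubq y / 5) *
      Real.exp (cubq w / 4) := by
    intro w
    rw [abs_mul]
    have hq := cubq_nonneg w
    have e1 : Real.exp (cubq w / 5) ≤ Real.exp (cubq w / 4) := Real.exp_le_exp.2 (by linarith)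
    calc |R w| * |k w| ≤ (M * s ^ p * (Real.exp (cubq y / 5) * Real.exp (cubq w / 5))) * C :=
            mul_le_mul (hRb w) (hb w) (abs_nonneg _) (by positivity)
      _ = M * C * s ^ p * Real.exp (cubq y / 5) * Real.exp (cubq w / 5) := by ring
      _ ≤ _ := mul_le_mul_of_nonneg_left e1 (by positivity)
  set J : ℝ := ∫ w, Real.exp (cubq w / 4) ∂(gam m) with hJ
  have hJ0 : 0 ≤ J := integral_nonneg fun w => (Real.exp_pos _).le
  rw [hsplit, abs_mul, abs_mul, abs_of_nonneg hN0, abs_of_pos (Real.exp_pos _)]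
  have hfin : |∫ w, R w * k w ∂(gam m)| ≤ M * C * s ^ p * Real.exp (cubq y / 5) * J := by
    have e1 := norm_integral_le_of_norm_le (f := fun w => R w * k w) (cub_exp.const_mul
      (M * C * s ^ p * Real.exp (cubq y / 5))) (Filter.Eventually.of_forall hRg)
    rw [integral_const_mul, Real.norm_eq_abs] at e1
    exact e1
  calc ((Real.sqrt (1 - s ^ 2))⁻¹) ^ m * (Real.exp (-(s ^ 2 / (2 * (1 - s ^ 2)) * cubq y)) *
        |∫ w, R w * k w ∂(gam m)|)
      ≤ 2 ^ m * (1 * (M * C * s ^ p * Real.exp (cubq y / 5) * J)) := by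
        apply mul_le_mul hN _ (by positivity) (by positivity)
        exact mul_le_mul hE hfin (abs_nonneg _) zero_le_one
    _ = _ := by ring

/-- auxiliary quantities -/
private theorem A2_aux {m : ℕ} (s : ℝ) (h0 : 0 ≤ s) (h1 : s ≤ 1 / 4) (y w : Fin m → ℝ) :
    |s / (1 - s ^ 2) * cubi y w| ≤ 8 / 15 * s * (cubq y + cubq w) ∧
    |Real.exp (-(s ^ 2 / (2 * (1 - s ^ 2)) * cubq w))| ≤ 1 ∧
    |Real.exp (-(s ^ 2 / (2 * (1 - s ^ 2)) * cubq w)) - 1| ≤ 8 / 15 * s ^ 2 * (cubq y + cubq w) := by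
  have hs2 : 15 / 16 ≤ 1 - s ^ 2 := by nlinarith
  have hs2p : 0 < 1 - s ^ 2 := by linarith
  have hα0 : 0 ≤ s / (1 - s ^ 2) := by positivity
  have hα1 : s / (1 - s ^ 2) ≤ 16 / 15 * s := by
    rw [div_le_iff₀ hs2p]
    nlinarith
  have hβ0 : 0 ≤ s ^ 2 / (2 * (1 - s ^ 2)) := by positivity
  have hβ1 : s ^ 2 / (2 * (1 - s ^ 2)) ≤ 8 / 15 * s ^ 2 := by
    rw [div_le_iff₀ (by positivity)]
    nlinarith [sq_nonneg s]
  have hqy := cubq_nonneg y
  have hqw := cubq_nonneg w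
  refine ⟨?_, ?_, ?_⟩
  · rw [abs_mul, abs_of_nonneg hα0]
    calc s / (1 - s ^ 2) * |cubi y w| ≤ (16 / 15 * s) * ((cubq y + cubq w) / 2) :=
          mul_le_mul hα1 (cubi_le y w) (abs_nonneg _) (by positivity)
      _ = 8 / 15 * s * (cubq y + cubq w) := by ring
  · rw [abs_of_pos (Real.exp_pos _), Real.exp_le_one_iff]
    have := mul_nonneg hβ0 hqw
    linarith
  · have h2 := Real.add_one_le_exp (-(s ^ 2 / (2 * (1 - s ^ 2)) * cubq w))
    have h3 : Real.exp (-(s ^ 2 / (2 * (1 - s ^ 2)) * cubq w)) ≤ 1 := by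
      rw [Real.exp_le_one_iff]
      have := mul_nonneg hβ0 hqw
      linarith
    rw [abs_sub_comm, abs_of_nonneg (by linarith)]
    have h4 : s ^ 2 / (2 * (1 - s ^ 2)) * cubq w ≤ 8 / 15 * s ^ 2 * (cubq y + cubq w) :=
      mul_le_mul hβ1 (by linarith) hqw (by positivity)
    linarith

private theorem A2_exp1 (x : ℝ) : |Real.exp x - 1| ≤ |x| * Real.exp |x| := by
  have h := Complex.norm_exp_sub_sum_le_norm_mul_exp (x : ℂ) 1
  rw [Complex.norm_real, Real.norm_eq_abs] at h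
  have e : Complex.exp (x : ℂ) - ∑ m ∈ Finset.range 1, (x : ℂ) ^ m / (m.factorial : ℂ) =
      ((Real.exp x - 1 : ℝ) : ℂ) := by
    rw [Finset.sum_range_one]
    push_cast
    simp [Nat.factorial]
  rw [e, Complex.norm_real, Real.norm_eq_abs, pow_one] at h
  exact h

private theorem A2_bound {m : ℕ} (C : ℝ) (k : (Fin m → ℝ) → ℝ)
    (hk : Measurable k) (hb : ∀ y, |k y| ≤ C) (hk0 : ∫ y, k y ∂(gam m) = 0)
    (s : ℝ) (h0 : 0 ≤ s) (h1 : s ≤ 1 / 4) (y : Fin m → ℝ) :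
    |Pool.Agent.SSC3N.TT s k y| ≤ 2 ^ m * (30 * C * (∫ w, Real.exp (cubq w / 4) ∂(gam m))) * s ^ 1 *
      Real.exp (cubq y / 5) := by
  have hC : 0 ≤ C := (abs_nonneg _).trans (hb 0)
  set E : (Fin m → ℝ) → ℝ := fun w => Real.exp (-(s ^ 2 / (2 * (1 - s ^ 2)) * cubq w)) with hE
  set x : (Fin m → ℝ) → ℝ := fun w => s / (1 - s ^ 2) * cubi y w with hx
  have hmx : Measurable x := by
    simp only [hx]
    exact (cubi_measurable y).const_mul _
  have hmE : Measurable E := ((cubq_measurable.const_mul _).neg).exp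
  set R : (Fin m → ℝ) → ℝ := fun w => E w * (Real.exp (x w) - 1) + (E w - 1) with hR
  have hRb : ∀ w, |R w| ≤ 30 * s ^ 1 * (Real.exp (cubq y / 5) * Real.exp (cubq w / 5)) := by
    intro w
    obtain ⟨a1, a2, a3⟩ := A2_aux s h0 h1 y w
    have hP0 : 0 ≤ cubq y + cubq w := add_nonneg (cubq_nonneg y) (cubq_nonneg w)
    set P : ℝ := cubq y + cubq w with hP
    obtain ⟨hp1, -, -⟩ := cub_poly P hP0
    have b1 : |R w| ≤ |x w| * Real.exp |x w| + 8 / 15 * s ^ 2 * P := by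
      simp only [hR]
      refine (abs_add_le _ _).trans (add_le_add ?_ a3)
      rw [abs_mul]
      calc |E w| * |Real.exp (x w) - 1| ≤ 1 * (|x w| * Real.exp |x w|) :=
            mul_le_mul a2 (A2_exp1 _) (abs_nonneg _) zero_le_one
        _ = _ := one_mul _
    have b2 : |x w| ≤ s * P := a1.trans (by nlinarith [mul_nonneg h0 hP0])
    have b3 : |x w| ≤ 2 / 15 * P := a1.trans (by nlinarith [mul_nonneg h0 hP0])
    have b4 : Real.exp |x w| ≤ Real.exp (2 / 15 * P) := Real.exp_le_exp.2 b3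
    have b5 : 1 ≤ Real.exp (2 / 15 * P) := Real.one_le_exp (by positivity)
    have b6 : |x w| * Real.exp |x w| ≤ s * P * Real.exp (2 / 15 * P) :=
      mul_le_mul b2 b4 (Real.exp_pos _).le (by positivity)
    have b7 : 8 / 15 * s ^ 2 * P ≤ s * P * Real.exp (2 / 15 * P) := by
      have : 8 / 15 * s ^ 2 * P ≤ s * P := by nlinarith [mul_nonneg h0 hP0]
      exact this.trans (le_mul_of_one_le_right (by positivity) b5)
    have b8 : Real.exp (P / 15) * Real.exp (2 / 15 * P) =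
        Real.exp (cubq y / 5) * Real.exp (cubq w / 5) := by
      rw [← Real.exp_add, ← Real.exp_add]
      congr 1
      simp only [hP]
      ring
    calc |R w| ≤ 2 * s * P * Real.exp (2 / 15 * P) := by linarith
      _ ≤ 2 * s * (15 * Real.exp (P / 15)) * Real.exp (2 / 15 * P) := by
        apply mul_le_mul_of_nonneg_right _ (Real.exp_pos _).le
        exact mul_le_mul_of_nonneg_left hp1 (by positivity)
      _ = 30 * s ^ 1 * (Real.exp (P / 15) * Real.exp (2 / 15 * P)) := by ring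
      _ = _ := by rw [b8]
  apply A2_TT_of_rem 1 C 30 hC (by norm_num) k hk hb s h0 h1 y R hRb
  have hI1 : Integrable k (gam m) := by
    have := gam_prob m
    exact Integrable.of_bound hk.aestronglyMeasurable C (Filter.Eventually.of_forall hb)
  have hmR : Measurable R := by
    simp only [hR]
    fun_prop
  have hI2 : Integrable (fun w => R w * k w) (gam m) := by
    refine cub_integrable _ (hmR.mul hk) (30 * s ^ 1 * Real.exp (cubq y / 5) * C) (fun w => ?_)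
    rw [abs_mul]
    have hq := cubq_nonneg w
    have e1 : Real.exp (cubq w / 5) ≤ Real.exp (cubq w / 4) := Real.exp_le_exp.2 (by linarith)
    calc |R w| * |k w| ≤ (30 * s ^ 1 * (Real.exp (cubq y / 5) * Real.exp (cubq w / 5))) * C :=
            mul_le_mul (hRb w) (hb w) (abs_nonneg _) (by positivity)
      _ = 30 * s ^ 1 * Real.exp (cubq y / 5) * C * Real.exp (cubq w / 5) := by ring
      _ ≤ _ := mul_le_mul_of_nonneg_left e1 (by positivity)
  have e1 : (fun w => E w * Real.exp (x w) * k w) = fun w => k w + R w * k w := by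
    ext w
    simp only [hR]
    ring
  calc ∫ w, E w * Real.exp (x w) * k w ∂(gam m) = ∫ w, (k w + R w * k w) ∂(gam m) := by rw [e1]
    _ = ∫ w, k w ∂(gam m) + ∫ w, R w * k w ∂(gam m) := integral_add hI1 hI2
    _ = _ := by rw [hk0, zero_add]

/-- [A2] spectral gap.  Exactly the technique of `SSC3N/Cubic.lean` with exponent 1 instead of 3:
`φ(s) = GG s k k` satisfies `0 ≤ φ`, `φ(s)² ≤ φ(1) φ(s²)` (semigroup + Cauchy-Schwarz: `cub_semigroup`,
`cub_cs`, `cub_GG_TT`), and `φ(s) ≤ K s` for `0 ≤ s ≤ 1/4` because `|TT s k y| ≤ K' s e^{|y|²/5}`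
(Mehler kernel `cub_TT_eq`, `∫ k = 0`, `|e^x - 1| ≤ |x| e^{|x|}`); then iterate `s ↦ s²` as in `cub_iter`:
`φ(s)/(s φ(1)) ≤ (φ(s^{2^j})/(s^{2^j} φ(1)))^{1/2^j} ≤ (K/φ(1))^{1/2^j} → 1`. -/
theorem gap1 {m : ℕ} (κ C : ℝ) (h0 : 0 ≤ κ) (h1 : κ ≤ 1) (k : (Fin m → ℝ) → ℝ)
    (hk : Measurable k) (hb : ∀ y, |k y| ≤ C) (hk0 : ∫ y, k y ∂(gam m) = 0) :
    GG κ k k ≤ κ * ∫ y, k y ^ 2 ∂(gam m) := by
  have hC : 0 ≤ C := (abs_nonneg _).trans (hb 0)
  have hb' : ∀ y, |k y| ≤ C * Real.exp (cubq y / 20) := by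
    intro y
    refine (hb y).trans (le_mul_of_one_le_right hC ?_)
    exact Real.one_le_exp (by have := cubq_nonneg y; positivity)
  have hJ0 : 0 ≤ ∫ w, Real.exp (cubq w / 4) ∂(gam m) := integral_nonneg fun w => (Real.exp_pos _).le
  have := A2_diag 1 one_ne_zero C (2 ^ m * (30 * C * (∫ w, Real.exp (cubq w / 4) ∂(gam m))))
    (by positivity) k hk hb' (fun s hs0 hs1 y => A2_bound C k hk hb hk0 s hs0 hs1 y) κ h0 h1
  rw [pow_one, mul_comm] at this
  exact this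

end Pool.Agent.SSCP
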