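import Pool.Agent.SSCP.Defs
import Pool.Agent.SSC3N.Cubic

/-! [SSCP-A3] second spectral gap of the Ornstein-Uhlenbeck form -/

set_option autoImplicit false
open MeasureTheory ProbabilityTheory Set Real
open scoped ENNReal

namespace Pool.Agent.SSCP
open Pool.Agent.SSC3N
open Pool.Agent.SSC3 (ker W E2 Per len slice g2)

private theorem A3_iter (p : ℕ) (hp : p ≠ 0) (φ : ℝ → ℝ) (K : ℝ) (h0 : ∀ s, 0 ≤ s → s ≤ 1 → 0 ≤ φ s)
    (h1 : ∀ s, 0 ≤ s → s ≤ 1 → φ s ^ 2 ≤ φ 1 * φ (s ^ 2))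
    (h2 : ∀ s, 0 ≤ s → s ≤ 1 / 4 → φ s ≤ K * s ^ p) (s : ℝ) (hs0 : 0 ≤ s) (hs1 : s ≤ 1) :
    φ s ≤ φ 1 * s ^ p := by
  rcases hs0.eq_or_lt with rfl | hs0'
  · have := h2 0 le_rfl (by norm_num)
    rw [zero_pow hp, mul_zero] at this ⊢
    exact this
  rcases hs1.eq_or_lt with rfl | hs1'
  · simp
  have hφ1 : 0 ≤ φ 1 := h0 1 zero_le_one le_rfl
  rcases hφ1.eq_or_lt with hz | hpos
  · have := h1 s hs0 hs1
    rw [← hz, zero_mul] at this
    have h3 : φ s = 0 := by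
      have h4 := sq_nonneg (φ s)
      exact pow_eq_zero_iff (two_ne_zero) |>.1 (le_antisymm this h4)
    rw [h3, ← hz, zero_mul]
  by_contra hcon
  rw [not_le] at hcon
  set ψ : ℝ → ℝ := fun r => φ r / (φ 1 * r ^ p) with hψ
  have hψ1 : 1 < ψ s := by
    rw [hψ]
    simp only
    rw [one_lt_div (by positivity)]
    exact hcon
  have hψ0 : ∀ r, 0 < r → r ≤ 1 → 0 ≤ ψ r := fun r hr hr1 =>
    div_nonneg (h0 r hr.le hr1) (by positivity)
  have hψsq : ∀ r, 0 < r → r ≤ 1 → ψ r ^ 2 ≤ ψ (r ^ 2) := by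
    intro r hr hr1
    simp only [hψ]
    rw [div_pow, div_le_div_iff₀ (by positivity) (by positivity)]
    have := h1 r hr.le hr1
    calc φ r ^ 2 * (φ 1 * (r ^ 2) ^ p) ≤ (φ 1 * φ (r ^ 2)) * (φ 1 * (r ^ 2) ^ p) :=
          mul_le_mul_of_nonneg_right this (by positivity)
      _ = φ (r ^ 2) * (φ 1 * r ^ p) ^ 2 := by ring
  have hiter : ∀ n : ℕ, ψ s ^ (2 ^ n) ≤ ψ (s ^ (2 ^ n)) := by
    intro n
    induction n with
    | zero => simp
    | succ n ih =>
      have hr0 : 0 < s ^ (2 ^ n) := by positivity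
      have hr1 : s ^ (2 ^ n) ≤ 1 := pow_le_one₀ hs0 hs1
      calc ψ s ^ (2 ^ (n + 1)) = (ψ s ^ (2 ^ n)) ^ 2 := by rw [← pow_mul]; ring_nf
        _ ≤ (ψ (s ^ (2 ^ n))) ^ 2 := pow_le_pow_left₀ (by positivity) ih 2
        _ ≤ ψ ((s ^ (2 ^ n)) ^ 2) := hψsq _ hr0 hr1
        _ = ψ (s ^ (2 ^ (n + 1))) := by rw [← pow_mul]; ring_nf
  have hbd : ∀ᶠ n : ℕ in Filter.atTop, ψ s ^ (2 ^ n) ≤ K / φ 1 := by
    have ht : Filter.Tendsto (fun n : ℕ => s ^ (2 ^ n)) Filter.atTop (nhds 0) :=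
      (tendsto_pow_atTop_nhds_zero_of_lt_one hs0 hs1').comp
        (tendsto_pow_atTop_atTop_of_one_lt (by norm_num))
    have := ht.eventually (gt_mem_nhds (show (0:ℝ) < 1 / 4 by norm_num))
    filter_upwards [this] with n hn
    refine (hiter n).trans ?_
    have hr0 : 0 < s ^ (2 ^ n) := by positivity
    simp only [hψ]
    rw [div_le_div_iff₀ (by positivity) hpos]
    have := h2 _ hr0.le hn.le
    calc φ (s ^ 2 ^ n) * φ 1 ≤ (K * (s ^ 2 ^ n) ^ p) * φ 1 :=
          mul_le_mul_of_nonneg_right this hpos.le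
      _ = K * (φ 1 * (s ^ 2 ^ n) ^ p) := by ring
  have htop : Filter.Tendsto (fun n : ℕ => ψ s ^ (2 ^ n)) Filter.atTop Filter.atTop :=
    (tendsto_pow_atTop_atTop_of_one_lt hψ1).comp
      (tendsto_pow_atTop_atTop_of_one_lt (by norm_num))
  obtain ⟨n, hn1, hn2⟩ := (hbd.and (htop.eventually (Filter.eventually_gt_atTop (K / φ 1)))).exists
  linarith

/-- the general step: a pointwise bound of order `p` gives the spectral gap of order `p` -/
private theorem A3_diag {m : ℕ} (p : ℕ) (hp : p ≠ 0) (K B : ℝ) (hB0 : 0 ≤ B)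
    (g : (Fin m → ℝ) → ℝ) (hg : Measurable g)
    (hgb : ∀ y, |g y| ≤ K * Real.exp (cubq y / 20))
    (hT : ∀ s, 0 ≤ s → s ≤ 1 / 4 → ∀ y, |Pool.Agent.SSC3N.TT s g y| ≤
      B * s ^ p * Real.exp (cubq y / 5))
    (τ : ℝ) (h0 : 0 ≤ τ) (h1 : τ ≤ 1) :
    GG τ g g ≤ (∫ y, g y ^ 2 ∂(gam m)) * τ ^ p := by
  have := gam_prob m
  have hL2 := cub_L2 K g hg hgb
  have hK : 0 ≤ K := by
    have := (abs_nonneg _).trans (hgb 0)
    by_contra hcon
    rw [not_le] at hcon
    have h2 := Real.exp_pos (cubq (0 : Fin m → ℝ) / 20)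
    nlinarith
  have e1 : GG 1 g g = ∫ y, g y ^ 2 ∂(gam m) := by
    rw [cub_GG_TT]
    congr 1
    ext y
    unfold Pool.Agent.SSC3N.TT
    simp
    ring
  rw [← e1]
  apply A3_iter p hp (fun s => GG s g g) (B * K * ∫ w, Real.exp (cubq w / 4) ∂(gam m)) _ _ _ τ h0 h1
  · intro s hs0 hs1
    rw [(cub_semigroup s hs0 hs1 g g hL2 hL2).1]
    exact integral_nonneg fun y => mul_self_nonneg _
  · intro s hs0 hs1
    have hs2 : s ^ 2 ≤ 1 := pow_le_one₀ hs0 hs1
    have hsq : Real.sqrt (s ^ 2) = s := Real.sqrt_sq hs0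
    have e2 := (cub_semigroup (s ^ 2) (sq_nonneg s) hs2 g g hL2 hL2).1
    have e3 := cub_TT_L2 (s ^ 2) (sq_nonneg s) hs2 g hg hL2
    rw [hsq] at e2 e3
    have e4 := cub_cs hL2 e3
    rw [cub_GG_TT s g g, e1, e2]
    refine e4.trans (le_of_eq ?_)
    congr 2
    ext y
    ring
  · intro s hs0 hs1
    rw [cub_GG_TT s g g]
    have e2 : ∀ y, ‖g y * Pool.Agent.SSC3N.TT s g y‖ ≤ B * K * s ^ p * Real.exp (cubq y / 4) := by
      intro y
      rw [norm_mul, Real.norm_eq_abs, Real.norm_eq_abs]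
      have e3 := hT s hs0 hs1 y
      calc |g y| * |Pool.Agent.SSC3N.TT s g y| ≤ (K * Real.exp (cubq y / 20)) *
            (B * s ^ p * Real.exp (cubq y / 5)) :=
              mul_le_mul (hgb y) e3 (abs_nonneg _) (by positivity)
        _ = B * K * s ^ p * (Real.exp (cubq y / 20) * Real.exp (cubq y / 5)) := by ring
        _ = _ := by
          rw [← Real.exp_add]
          congr 2
          ring
    have e3 := norm_integral_le_of_norm_le (f := fun y => g y * Pool.Agent.SSC3N.TT s g y)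
      (cub_exp.const_mul (B * K * s ^ p)) (Filter.Eventually.of_forall e2)
    rw [integral_const_mul, Real.norm_eq_abs] at e3
    refine (le_abs_self _).trans (e3.trans (le_of_eq ?_))
    ring

/-- the general remainder estimate -/
private theorem A3_TT_of_rem {m : ℕ} (p : ℕ) (C M : ℝ) (hC : 0 ≤ C) (hM : 0 ≤ M)
    (k : (Fin m → ℝ) → ℝ)
    (hk : Measurable k) (hb : ∀ y, |k y| ≤ C) (s : ℝ) (h0 : 0 ≤ s) (h1 : s ≤ 1 / 4)
    (y : Fin m → ℝ) (R : (Fin m → ℝ) → ℝ)
    (hRb : ∀ w, |R w| ≤ M * s ^ p * (Real.exp (cubq y / 5) * Real.exp (cubq w / 5)))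
    (hsplit : ∫ w, Real.exp (-(s ^ 2 / (2 * (1 - s ^ 2)) * cubq w)) *
        Real.exp (s / (1 - s ^ 2) * cubi y w) * k w ∂(gam m) = ∫ w, R w * k w ∂(gam m)) :
    |Pool.Agent.SSC3N.TT s k y| ≤ 2 ^ m * (M * C * (∫ w, Real.exp (cubq w / 4) ∂(gam m))) * s ^ p *
      Real.exp (cubq y / 5) := by
  have hs2 : 15 / 16 ≤ 1 - s ^ 2 := by nlinarith
  have hs2p : 0 < 1 - s ^ 2 := by linarith
  rw [cub_TT_eq s y h0 (by linarith) k hk]
  have hN : ((Real.sqrt (1 - s ^ 2))⁻¹) ^ m ≤ 2 ^ m := by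
    apply pow_le_pow_left₀ (by positivity)
    have : (1:ℝ) / 2 ≤ Real.sqrt (1 - s ^ 2) := by
      apply Real.le_sqrt_of_sq_le
      linarith
    calc (Real.sqrt (1 - s ^ 2))⁻¹ ≤ ((1:ℝ) / 2)⁻¹ := inv_anti₀ (by norm_num) this
      _ = 2 := by norm_num
  have hN0 : 0 ≤ ((Real.sqrt (1 - s ^ 2))⁻¹) ^ m := by positivity
  have hE : Real.exp (-(s ^ 2 / (2 * (1 - s ^ 2)) * cubq y)) ≤ 1 := by
    rw [Real.exp_le_one_iff]
    have := mul_nonneg (show 0 ≤ s ^ 2 / (2 * (1 - s ^ 2)) by positivity) (cubq_nonneg y)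
    linarith
  have hRg : ∀ w, |R w * k w| ≤ M * C * s ^ p * Real.exp (cubq y / 5) *
      Real.exp (cubq w / 4) := by
    intro w
    rw [abs_mul]
    have hq := cubq_nonneg w
    have e1 : Real.exp (cubq w / 5) ≤ Real.exp (cubq w / 4) := Real.exp_le_exp.2 (by linarith)
    calc |R w| * |k w| ≤ (M * s ^ p * (Real.exp (cubq y / 5) * Real.exp (cubq w / 5))) * C :=
            mul_le_mul (hRb w) (hb w) (abs_nonneg _) (by positivity)
      _ = M * C * s ^ p * Real.exp (cubq y / 5) * Real.exp (cubq w / 5) := by ring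
      _ ≤ _ := mul_le_mul_of_nonneg_left e1 (by positivity)
  set J : ℝ := ∫ w, Real.exp (cubq w / 4) ∂(gam m) with hJ
  have hJ0 : 0 ≤ J := integral_nonneg fun w => (Real.exp_pos _).le
  rw [hsplit, abs_mul, abs_mul, abs_of_nonneg hN0, abs_of_pos (Real.exp_pos _)]
  have hfin : |∫ w, R w * k w ∂(gam m)| ≤ M * C * s ^ p * Real.exp (cubq y / 5) * J := by
    have e1 := norm_integral_le_of_norm_le (f := fun w => R w * k w) (cub_exp.const_mul
      (M * C * s ^ p * Real.exp (cubq y / 5))) (Filter.Eventually.of_forall hRg)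
    rw [integral_const_mul, Real.norm_eq_abs] at e1
    exact e1
  calc ((Real.sqrt (1 - s ^ 2))⁻¹) ^ m * (Real.exp (-(s ^ 2 / (2 * (1 - s ^ 2)) * cubq y)) *
        |∫ w, R w * k w ∂(gam m)|)
      ≤ 2 ^ m * (1 * (M * C * s ^ p * Real.exp (cubq y / 5) * J)) := by
        apply mul_le_mul hN _ (by positivity) (by positivity)
        exact mul_le_mul hE hfin (abs_nonneg _) zero_le_one
    _ = _ := by ring

/-- auxiliary quantities -/
private theorem A3_aux {m : ℕ} (s : ℝ) (h0 : 0 ≤ s) (h1 : s ≤ 1 / 4) (y w : Fin m → ℝ) :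
    |s / (1 - s ^ 2) * cubi y w| ≤ 8 / 15 * s * (cubq y + cubq w) ∧
    |Real.exp (-(s ^ 2 / (2 * (1 - s ^ 2)) * cubq w))| ≤ 1 ∧
    |Real.exp (-(s ^ 2 / (2 * (1 - s ^ 2)) * cubq w)) - 1| ≤ 8 / 15 * s ^ 2 * (cubq y + cubq w) := by
  have hs2 : 15 / 16 ≤ 1 - s ^ 2 := by nlinarith
  have hs2p : 0 < 1 - s ^ 2 := by linarith
  have hα0 : 0 ≤ s / (1 - s ^ 2) := by positivity
  have hα1 : s / (1 - s ^ 2) ≤ 16 / 15 * s := by
    rw [div_le_iff₀ hs2p]
    nlinarith
  have hβ0 : 0 ≤ s ^ 2 / (2 * (1 - s ^ 2)) := by positivity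
  have hβ1 : s ^ 2 / (2 * (1 - s ^ 2)) ≤ 8 / 15 * s ^ 2 := by
    rw [div_le_iff₀ (by positivity)]
    nlinarith [sq_nonneg s]
  have hqy := cubq_nonneg y
  have hqw := cubq_nonneg w
  refine ⟨?_, ?_, ?_⟩
  · rw [abs_mul, abs_of_nonneg hα0]
    calc s / (1 - s ^ 2) * |cubi y w| ≤ (16 / 15 * s) * ((cubq y + cubq w) / 2) :=
          mul_le_mul hα1 (cubi_le y w) (abs_nonneg _) (by positivity)
      _ = 8 / 15 * s * (cubq y + cubq w) := by ring
  · rw [abs_of_pos (Real.exp_pos _), Real.exp_le_one_iff]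
    have := mul_nonneg hβ0 hqw
    linarith
  · have h2 := Real.add_one_le_exp (-(s ^ 2 / (2 * (1 - s ^ 2)) * cubq w))
    have h3 : Real.exp (-(s ^ 2 / (2 * (1 - s ^ 2)) * cubq w)) ≤ 1 := by
      rw [Real.exp_le_one_iff]
      have := mul_nonneg hβ0 hqw
      linarith
    rw [abs_sub_comm, abs_of_nonneg (by linarith)]
    have h4 : s ^ 2 / (2 * (1 - s ^ 2)) * cubq w ≤ 8 / 15 * s ^ 2 * (cubq y + cubq w) :=
      mul_le_mul hβ1 (by linarith) hqw (by positivity)
    linarith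

private theorem A3_exp2 (x : ℝ) : |Real.exp x - 1 - x| ≤ |x| ^ 2 * Real.exp |x| := by
  have h := Complex.norm_exp_sub_sum_le_norm_mul_exp (x : ℂ) 2
  rw [Complex.norm_real, Real.norm_eq_abs] at h
  have e : Complex.exp (x : ℂ) - ∑ m ∈ Finset.range 2, (x : ℂ) ^ m / (m.factorial : ℂ) =
      ((Real.exp x - 1 - x : ℝ) : ℂ) := by
    rw [Finset.sum_range_succ, Finset.sum_range_one]
    push_cast
    simp [Nat.factorial]
    ring
  rw [e, Complex.norm_real, Real.norm_eq_abs] at h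
  exact h

private theorem A3_bound {m : ℕ} (C : ℝ) (k : (Fin m → ℝ) → ℝ)
    (hk : Measurable k) (hb : ∀ y, |k y| ≤ C) (hk0 : ∫ y, k y ∂(gam m) = 0)
    (hk1 : ∀ j, ∫ y, y j * k y ∂(gam m) = 0)
    (s : ℝ) (h0 : 0 ≤ s) (h1 : s ≤ 1 / 4) (y : Fin m → ℝ) :
    |Pool.Agent.SSC3N.TT s k y| ≤ 2 ^ m * (465 * C * (∫ w, Real.exp (cubq w / 4) ∂(gam m))) * s ^ 2 *
      Real.exp (cubq y / 5) := by
  have hC : 0 ≤ C := (abs_nonneg _).trans (hb 0)
  set E : (Fin m → ℝ) → ℝ := fun w => Real.exp (-(s ^ 2 / (2 * (1 - s ^ 2)) * cubq w)) with hE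
  set x : (Fin m → ℝ) → ℝ := fun w => s / (1 - s ^ 2) * cubi y w with hx
  have hmx : Measurable x := by
    simp only [hx]
    exact (cubi_measurable y).const_mul _
  have hmE : Measurable E := ((cubq_measurable.const_mul _).neg).exp
  set R : (Fin m → ℝ) → ℝ := fun w => E w * (Real.exp (x w) - 1 - x w) + (E w - 1) * (1 + x w) with hR
  have hRb : ∀ w, |R w| ≤ 465 * s ^ 2 * (Real.exp (cubq y / 5) * Real.exp (cubq w / 5)) := by
    intro w
    obtain ⟨a1, a2, a3⟩ := A3_aux s h0 h1 y w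
    have hP0 : 0 ≤ cubq y + cubq w := add_nonneg (cubq_nonneg y) (cubq_nonneg w)
    set P : ℝ := cubq y + cubq w with hP
    obtain ⟨hp1, hp2, -⟩ := cub_poly P hP0
    have b0 : |1 + x w| ≤ Real.exp |x w| := by
      have := Real.add_one_le_exp |x w|
      have h2 := abs_add_le 1 (x w)
      rw [abs_one] at h2
      linarith
    have b1 : |R w| ≤ |x w| ^ 2 * Real.exp |x w| + 8 / 15 * s ^ 2 * P * Real.exp |x w| := by
      simp only [hR]
      refine (abs_add_le _ _).trans (add_le_add ?_ ?_)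
      · rw [abs_mul]
        calc |E w| * |Real.exp (x w) - 1 - x w| ≤ 1 * (|x w| ^ 2 * Real.exp |x w|) :=
              mul_le_mul a2 (A3_exp2 _) (abs_nonneg _) zero_le_one
          _ = _ := one_mul _
      · rw [abs_mul]
        exact mul_le_mul a3 b0 (abs_nonneg _) (by positivity)
    have b2 : |x w| ≤ s * P := a1.trans (by nlinarith [mul_nonneg h0 hP0])
    have b3 : |x w| ≤ 2 / 15 * P := a1.trans (by nlinarith [mul_nonneg h0 hP0])
    have b4 : Real.exp |x w| ≤ Real.exp (2 / 15 * P) := Real.exp_le_exp.2 b3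
    have b6 : |x w| ^ 2 ≤ s ^ 2 * P ^ 2 := by
      rw [← mul_pow]
      exact pow_le_pow_left₀ (abs_nonneg _) b2 2
    have b7 : 8 / 15 * s ^ 2 * P ≤ s ^ 2 * P := by
      nlinarith [mul_nonneg (sq_nonneg s) hP0]
    have b8 : Real.exp (P / 15) * Real.exp (2 / 15 * P) =
        Real.exp (cubq y / 5) * Real.exp (cubq w / 5) := by
      rw [← Real.exp_add, ← Real.exp_add]
      congr 1
      simp only [hP]
      ring
    have b9 : |R w| ≤ (s ^ 2 * P ^ 2 + s ^ 2 * P) * Real.exp (2 / 15 * P) := by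
      refine b1.trans ?_
      rw [← add_mul]
      exact mul_le_mul (add_le_add b6 b7) b4 (Real.exp_pos _).le (by positivity)
    calc |R w| ≤ (s ^ 2 * P ^ 2 + s ^ 2 * P) * Real.exp (2 / 15 * P) := b9
      _ = s ^ 2 * (P ^ 2 + P) * Real.exp (2 / 15 * P) := by ring
      _ ≤ s ^ 2 * (465 * Real.exp (P / 15)) * Real.exp (2 / 15 * P) := by
        apply mul_le_mul_of_nonneg_right _ (Real.exp_pos _).le
        exact mul_le_mul_of_nonneg_left (by linarith) (by positivity)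
      _ = 465 * s ^ 2 * (Real.exp (P / 15) * Real.exp (2 / 15 * P)) := by ring
      _ = _ := by rw [b8]
  apply A3_TT_of_rem 2 C 465 hC (by norm_num) k hk hb s h0 h1 y R hRb
  have hI1 : Integrable k (gam m) := by
    have := gam_prob m
    exact Integrable.of_bound hk.aestronglyMeasurable C (Filter.Eventually.of_forall hb)
  have hIj : ∀ j, Integrable (fun w : Fin m → ℝ => w j * k w) (gam m) := by
    intro j
    refine cub_integrable _ (by fun_prop) (5 * C) (fun w => ?_)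
    rw [abs_mul]
    have e1 : |w j| ≤ 5 * Real.exp (cubq w / 4) := by
      have h2 : w j ^ 2 ≤ cubq w := by
        unfold cubq
        exact Finset.single_le_sum (f := fun i => w i ^ 2) (fun i _ => sq_nonneg _)
          (Finset.mem_univ j)
      have h3 := Real.add_one_le_exp (cubq w / 4)
      have h4 := cubq_nonneg w
      nlinarith [sq_nonneg (|w j| - 1), sq_abs (w j), abs_nonneg (w j)]
    calc |w j| * |k w| ≤ (5 * Real.exp (cubq w / 4)) * C :=
          mul_le_mul e1 (hb w) (abs_nonneg _) (by positivity)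
      _ = _ := by ring
  have hxg : ∀ w, x w * k w = ∑ j, s / (1 - s ^ 2) * y j * (w j * k w) := by
    intro w
    simp only [hx, cubi]
    rw [Finset.mul_sum, Finset.sum_mul]
    apply Finset.sum_congr rfl
    intro j _
    ring
  have hI3 : Integrable (fun w => x w * k w) (gam m) := by
    have : (fun w => x w * k w) = fun w => ∑ j, s / (1 - s ^ 2) * y j * (w j * k w) := funext hxg
    rw [this]
    exact integrable_finsetSum _ (fun j _ => (hIj j).const_mul _)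
  have hz : ∫ w, x w * k w ∂(gam m) = 0 := by
    have : (fun w => x w * k w) = fun w => ∑ j, s / (1 - s ^ 2) * y j * (w j * k w) := funext hxg
    rw [this, integral_finsetSum _ (fun j _ => (hIj j).const_mul _)]
    apply Finset.sum_eq_zero
    intro j _
    rw [integral_const_mul, hk1 j, mul_zero]
  have hmR : Measurable R := by
    simp only [hR]
    fun_prop
  have hI2 : Integrable (fun w => R w * k w) (gam m) := by
    refine cub_integrable _ (hmR.mul hk) (465 * s ^ 2 * Real.exp (cubq y / 5) * C) (fun w => ?_)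
    rw [abs_mul]
    have hq := cubq_nonneg w
    have e1 : Real.exp (cubq w / 5) ≤ Real.exp (cubq w / 4) := Real.exp_le_exp.2 (by linarith)
    calc |R w| * |k w| ≤ (465 * s ^ 2 * (Real.exp (cubq y / 5) * Real.exp (cubq w / 5))) * C :=
            mul_le_mul (hRb w) (hb w) (abs_nonneg _) (by positivity)
      _ = 465 * s ^ 2 * Real.exp (cubq y / 5) * C * Real.exp (cubq w / 5) := by ring
      _ ≤ _ := mul_le_mul_of_nonneg_left e1 (by positivity)
  have e1 : (fun w => E w * Real.exp (x w) * k w) = fun w => (k w + x w * k w) + R w * k w := by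
    ext w
    simp only [hR]
    ring
  have hI13 : Integrable (fun w => k w + x w * k w) (gam m) := hI1.add hI3
  calc ∫ w, E w * Real.exp (x w) * k w ∂(gam m)
      = ∫ w, ((k w + x w * k w) + R w * k w) ∂(gam m) := by rw [e1]
    _ = ∫ w, (k w + x w * k w) ∂(gam m) + ∫ w, R w * k w ∂(gam m) := integral_add hI13 hI2
    _ = (∫ w, k w ∂(gam m) + ∫ w, x w * k w ∂(gam m)) + ∫ w, R w * k w ∂(gam m) := by
      rw [integral_add hI1 hI3]
    _ = _ := by rw [hk0, hz, add_zero, zero_add]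

/-- [A3] second spectral gap: same with exponent 2 (`|e^x - 1 - x| ≤ |x|² e^{|x|}`, the linear term of the
kernel vanishes because of `hk1`). -/
theorem gap2 {m : ℕ} (κ C : ℝ) (h0 : 0 ≤ κ) (h1 : κ ≤ 1) (k : (Fin m → ℝ) → ℝ)
    (hk : Measurable k) (hb : ∀ y, |k y| ≤ C) (hk0 : ∫ y, k y ∂(gam m) = 0)
    (hk1 : ∀ j, ∫ y, y j * k y ∂(gam m) = 0) :
    GG κ k k ≤ κ ^ 2 * ∫ y, k y ^ 2 ∂(gam m) := by
  have hC : 0 ≤ C := (abs_nonneg _).trans (hb 0)
  have hb' : ∀ y, |k y| ≤ C * Real.exp (cubq y / 20) := by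
    intro y
    refine (hb y).trans (le_mul_of_one_le_right hC ?_)
    exact Real.one_le_exp (by have := cubq_nonneg y; positivity)
  have hJ0 : 0 ≤ ∫ w, Real.exp (cubq w / 4) ∂(gam m) := integral_nonneg fun w => (Real.exp_pos _).le
  have := A3_diag 2 two_ne_zero C (2 ^ m * (465 * C * (∫ w, Real.exp (cubq w / 4) ∂(gam m))))
    (by positivity) k hk hb' (fun s hs0 hs1 y => A3_bound C k hk hb hk0 hk1 s hs0 hs1 y) κ h0 h1
  rw [mul_comm] at this
  exact this

end Pool.Agent.SSCP
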