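import Pool.Agent.SSCP.Defs
import Pool.Agent.SSC3N.Cubic

set_option autoImplicit false
open MeasureTheory ProbabilityTheory Set Real
open scoped ENNReal

namespace Pool.Agent.SSCP
open Pool.Agent.SSC3N
open Pool.Agent.SSC3 (ker W E2 Per len slice g2)

private instance a4_inst (m : ℕ) : IsProbabilityMeasure (gam m) := gam_prob m

private theorem a4_cf1 (L : StrongDual ℝ ℝ) :
    charFunDual (gaussianReal 0 1) L = Complex.exp (-((L 1 : ℝ) : ℂ) ^ 2 / 2) := by
  have h1 : charFunDual (gaussianReal 0 1) L = charFun (gaussianReal 0 1) (L 1) := by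
    rw [charFunDual_apply, charFun_apply_real]
    congr 1
    ext v
    have : L v = L 1 * v := by
      have := L.map_smul v 1
      simp only [smul_eq_mul, mul_one] at this
      rw [this, mul_comm]
    rw [this]
    push_cast
    ring_nf
  rw [h1, charFun_gaussianReal]
  congr 1
  push_cast
  ring

private theorem a4_cf {m : ℕ} (L : StrongDual ℝ (Fin m → ℝ)) :
    charFunDual (gam m) L = Complex.exp (-((∑ i, (L (Pi.single i 1)) ^ 2 : ℝ) : ℂ) / 2) := by
  unfold gam
  rw [charFunDual_pi]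
  simp_rw [a4_cf1]
  rw [← Complex.exp_sum]
  congr 1
  push_cast
  rw [← Finset.sum_div, ← Finset.sum_neg_distrib]
  rfl

private theorem a4_bint {α : Type*} [MeasurableSpace α] (μ : Measure α)
    [IsProbabilityMeasure μ] (f : α → ℝ) (hf : Measurable f) (hb : ∀ y, |f y| ≤ 1) :
    Integrable f μ :=
  Integrable.of_bound hf.aestronglyMeasurable 1 (Filter.Eventually.of_forall hb)

private theorem a4_mul {a b : ℝ} (ha : |a| ≤ 1) (hb : |b| ≤ 1) : |a * b| ≤ 1 := by
  rw [abs_mul]
  exact mul_le_one₀ ha (abs_nonneg _) hb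

/-- [A4] Average over random translations.  With `a = √(1-ε²)`, for independent standard Gaussian vectors
`y, z, ξ` the pair `(a y + ε ξ, a (ρ y + √(1-ρ²) z) + ε ξ)` has the same law as
`(y, r y + √(1-r²) z)`, `r = ρ + (1-ρ) ε²` (both are centred Gaussian, coordinates independent, variances 1 and
covariance `a² ρ + ε² = r`).  Prove the equality of laws as in `GG_semigroup` (Noise.lean: characteristic
functions `charFunDual`), or by reduction to one coordinate. -/
theorem GG_shift {m : ℕ} (ρ ε : ℝ) (h0 : 0 ≤ ρ) (h1 : ρ ≤ 1) (he0 : 0 ≤ ε) (he1 : ε ≤ 1)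
    (g h : (Fin m → ℝ) → ℝ) (hg : Measurable g) (hh : Measurable h) (hgb : ∀ y, |g y| ≤ 1)
    (hhb : ∀ y, |h y| ≤ 1) :
    ∫ ξ, GG ρ (fun y => g (Real.sqrt (1 - ε ^ 2) • y + ε • ξ))
      (fun y => h (Real.sqrt (1 - ε ^ 2) • y + ε • ξ)) ∂(gam m) = GG (ρ + (1 - ρ) * ε ^ 2) g h := by
  set a := Real.sqrt (1 - ε ^ 2) with ha
  set r := ρ + (1 - ρ) * ε ^ 2 with hr
  have he2 : ε ^ 2 ≤ 1 := by nlinarith
  have hr0 : 0 ≤ r := by
    have : 0 ≤ (1 - ρ) * ε ^ 2 := mul_nonneg (by linarith) (sq_nonneg _)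
    linarith
  have hr1 : r ≤ 1 := by
    have : (1 - ρ) * ε ^ 2 ≤ (1 - ρ) * 1 := mul_le_mul_of_nonneg_left he2 (by linarith)
    linarith
  have has : a ^ 2 = 1 - ε ^ 2 := Real.sq_sqrt (by linarith)
  have hs1 : Real.sqrt (1 - ρ ^ 2) ^ 2 = 1 - ρ ^ 2 := Real.sq_sqrt (by nlinarith)
  have hs2 : Real.sqrt (1 - r ^ 2) ^ 2 = 1 - r ^ 2 := Real.sq_sqrt (by nlinarith)
  -- the two linear maps
  let E := Fin m → ℝ
  let Ψ : (E × E) →L[ℝ] (E × E) :=
    ContinuousLinearMap.prod (ContinuousLinearMap.fst ℝ E E)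
      (r • ContinuousLinearMap.fst ℝ E E + Real.sqrt (1 - r ^ 2) • ContinuousLinearMap.snd ℝ E E)
  let Φ : (E × (E × E)) →L[ℝ] (E × E) :=
    ContinuousLinearMap.prod
      (a • (ContinuousLinearMap.fst ℝ E E).comp (ContinuousLinearMap.snd ℝ E (E × E)) +
        ε • ContinuousLinearMap.fst ℝ E (E × E))
      (a • (ρ • (ContinuousLinearMap.fst ℝ E E).comp (ContinuousLinearMap.snd ℝ E (E × E)) +
        Real.sqrt (1 - ρ ^ 2) •
          (ContinuousLinearMap.snd ℝ E E).comp (ContinuousLinearMap.snd ℝ E (E × E))) +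
        ε • ContinuousLinearMap.fst ℝ E (E × E))
  have hΨ : ∀ p, Ψ p = (p.1, r • p.1 + Real.sqrt (1 - r ^ 2) • p.2) := fun p => rfl
  have hΦ : ∀ p, Φ p = (a • p.2.1 + ε • p.1,
      a • (ρ • p.2.1 + Real.sqrt (1 - ρ ^ 2) • p.2.2) + ε • p.1) := fun p => rfl
  have hmap : Measure.map Ψ ((gam m).prod (gam m))
      = Measure.map Φ ((gam m).prod ((gam m).prod (gam m))) := by
    have : IsProbabilityMeasure (Measure.map Ψ ((gam m).prod (gam m))) :=
      Measure.isProbabilityMeasure_map Ψ.continuous.measurable.aemeasurable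
    have : IsProbabilityMeasure (Measure.map Φ ((gam m).prod ((gam m).prod (gam m)))) :=
      Measure.isProbabilityMeasure_map Φ.continuous.measurable.aemeasurable
    refine Measure.ext_of_charFunDual ?_
    ext L
    rw [charFunDual_map, charFunDual_map, charFunDual_prod, charFunDual_prod, charFunDual_prod,
      a4_cf, a4_cf, a4_cf, a4_cf, a4_cf, ← Complex.exp_add, ← Complex.exp_add,
      ← Complex.exp_add]
    congr 1
    rw [← add_div, ← neg_add, ← Complex.ofReal_add, ← Finset.sum_add_distrib, ← add_div, ← neg_add,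
      ← Complex.ofReal_add, ← Finset.sum_add_distrib, ← add_div, ← neg_add,
      ← Complex.ofReal_add, ← Finset.sum_add_distrib]
    congr 4
    ext i
    set A := L (Pi.single i 1, 0) with hA
    set B := L (0, Pi.single i 1) with hB
    have key : ∀ a b : ℝ, L (a • Pi.single i 1, b • Pi.single i 1) = a * A + b * B := by
      intro a b
      have : ((a • Pi.single i 1, b • Pi.single i 1) : (Fin m → ℝ) × (Fin m → ℝ))
          = a • (Pi.single i 1, 0) + b • (0, Pi.single i 1) := by
        simp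
      rw [this, map_add, map_smul, map_smul, smul_eq_mul, smul_eq_mul]
    have e1 : ((L.comp Ψ).comp (.inl ℝ _ _)) (Pi.single i 1) = A + r * B := by
      have := key 1 r
      rw [one_mul] at this
      rw [← this]
      simp [Ψ]
    have e2 : ((L.comp Ψ).comp (.inr ℝ _ _)) (Pi.single i 1) = Real.sqrt (1 - r ^ 2) * B := by
      have := key 0 (Real.sqrt (1 - r ^ 2))
      rw [zero_mul, zero_add] at this
      rw [← this]
      simp [Ψ]
    have e3 : ((L.comp Φ).comp (.inl ℝ _ _)) (Pi.single i 1) = ε * A + ε * B := by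
      rw [← key]
      simp [Φ]
    have e4 : (((L.comp Φ).comp (.inr ℝ _ _)).comp (.inl ℝ _ _)) (Pi.single i 1)
        = a * A + (a * ρ) * B := by
      rw [← key]
      simp [Φ, smul_smul]
    have e5 : (((L.comp Φ).comp (.inr ℝ _ _)).comp (.inr ℝ _ _)) (Pi.single i 1)
        = (a * Real.sqrt (1 - ρ ^ 2)) * B := by
      have := key 0 (a * Real.sqrt (1 - ρ ^ 2))
      rw [zero_mul, zero_add] at this
      rw [← this]
      simp [Φ, smul_smul]
    rw [e1, e2, e3, e4, e5]
    have r1 : (a * A + (a * ρ) * B) ^ 2 = (1 - ε ^ 2) * (A + ρ * B) ^ 2 := by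
      rw [← has]; ring
    rw [r1, mul_pow, mul_pow, mul_pow, has, hs1, hs2, hr]
    ring
  have hF : Measurable (fun q : (Fin m → ℝ) × (Fin m → ℝ) => g q.1 * h q.2) := by fun_prop
  -- right side
  have eR : GG r g h = ∫ q, g q.1 * h q.2 ∂(Measure.map Ψ ((gam m).prod (gam m))) := by
    rw [integral_map Ψ.continuous.measurable.aemeasurable hF.aestronglyMeasurable]
    unfold GG
    rw [← integral_prod (f := fun p : (Fin m → ℝ) × (Fin m → ℝ) =>
      g p.1 * h (r • p.1 + Real.sqrt (1 - r ^ 2) • p.2))]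
    · rfl
    · apply a4_bint
      · fun_prop
      · intro p; exact a4_mul (hgb _) (hhb _)
  have eL : (∫ ξ, GG ρ (fun y => g (a • y + ε • ξ)) (fun y => h (a • y + ε • ξ)) ∂(gam m))
      = ∫ q, g q.1 * h q.2 ∂(Measure.map Φ ((gam m).prod ((gam m).prod (gam m)))) := by
    rw [integral_map Φ.continuous.measurable.aemeasurable hF.aestronglyMeasurable]
    have hint : Integrable (fun p : (Fin m → ℝ) × ((Fin m → ℝ) × (Fin m → ℝ)) =>
        g (Φ p).1 * h (Φ p).2) ((gam m).prod ((gam m).prod (gam m))) := by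
      apply a4_bint
      · exact hF.comp Φ.continuous.measurable
      · intro p; exact a4_mul (hgb _) (hhb _)
    rw [integral_prod _ hint]
    congr 1
    ext ξ
    unfold GG
    rw [← integral_prod (f := fun p : (Fin m → ℝ) × (Fin m → ℝ) =>
      g (a • p.1 + ε • ξ) * h (a • (ρ • p.1 + Real.sqrt (1 - ρ ^ 2) • p.2) + ε • ξ))]
    · rfl
    · apply a4_bint
      · fun_prop
      · intro p; exact a4_mul (hgb _) (hhb _)
  rw [eL, eR, hmap]

end Pool.Agent.SSCP
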