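import Pool.Agent.SSCP.LA1

/-! [SSCP-A5] monotonicity in the correlation. -/

set_option autoImplicit false
open MeasureTheory ProbabilityTheory Set Real
open scoped ENNReal

namespace Pool.Agent.SSCP
open Pool.Agent.SSC3N
open Pool.Agent.SSC3 (ker W E2 Per len slice g2)

private theorem a5_int_TT {m : ℕ} (κ : ℝ) (h0 : 0 ≤ κ) (h1 : κ ≤ 1) (g : (Fin m → ℝ) → ℝ)
    (hg : Measurable g) (hb : ∀ y, |g y| ≤ 1) :
    ∫ y, Pool.Agent.SSC3N.TT κ g y ∂(gam m) = ∫ y, g y ∂(gam m) := by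
  have := gam_prob m
  have hou := gam_ou m κ (by linarith) h1
  have e1 : ∫ y, g y ∂(gam m)
      = ∫ p, g (κ • p.1 + Real.sqrt (1 - κ ^ 2) • p.2) ∂((gam m).prod (gam m)) := by
    conv_lhs => rw [← hou.map_eq]
    rw [integral_map hou.measurable.aemeasurable hg.aestronglyMeasurable]
  have hm : Measurable (fun p : (Fin m → ℝ) × (Fin m → ℝ) =>
      g (κ • p.1 + Real.sqrt (1 - κ ^ 2) • p.2)) := hg.comp hou.measurable
  have hint : Integrable (fun p : (Fin m → ℝ) × (Fin m → ℝ) =>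
      g (κ • p.1 + Real.sqrt (1 - κ ^ 2) • p.2)) ((gam m).prod (gam m)) :=
    Integrable.of_bound hm.aestronglyMeasurable 1
      (Filter.Eventually.of_forall fun p => by simpa [Real.norm_eq_abs] using hb _)
  rw [e1, integral_prod _ hint]
  rfl

private theorem a5_sq {m : ℕ} (F : (Fin m → ℝ) → ℝ) (c : ℝ) (hF : Measurable F)
    (hb : ∀ y, |F y| ≤ 1) (hc : ∫ y, F y ∂(gam m) = c) :
    ∫ y, (F y - c) ^ 2 ∂(gam m) = (∫ y, F y * F y ∂(gam m)) - c ^ 2 := by
  have := gam_prob m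
  have hi1 : Integrable F (gam m) :=
    Integrable.of_bound hF.aestronglyMeasurable 1
      (Filter.Eventually.of_forall fun p => by simpa [Real.norm_eq_abs] using hb _)
  have hi2 : Integrable (fun y => F y * F y) (gam m) :=
    Integrable.of_bound (hF.mul hF).aestronglyMeasurable 1
      (Filter.Eventually.of_forall fun p => by
        rw [Real.norm_eq_abs, abs_mul]
        exact mul_le_one₀ (hb _) (abs_nonneg _) (hb _))
  have e : (fun y => (F y - c) ^ 2) = fun y => (F y * F y - (2 * c) * F y) + c ^ 2 := by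
    ext y
    ring
  have hi3 : Integrable (fun y => F y * F y - (2 * c) * F y) (gam m) := hi2.sub (hi1.const_mul _)
  rw [e, integral_add hi3 (integrable_const _), integral_sub hi2 (hi1.const_mul _),
    integral_const_mul, hc]
  simp
  ring

/-- [A5] `c = ∫ g`, `k = TT √r g - c` (bounded, mean zero).  `GG ρ g g = ∫ (TT √ρ g)²` (`GG_semigroup`) and
`TT √ρ g = TT √(ρ/r) (TT √r g)` (`TT_comp`), so `GG ρ g g - c² = ∫ (TT √(ρ/r) k)² = GG (ρ/r) k k ≤ (ρ/r) ∫ k²`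
(`gap1`) and `∫ k² = GG r g g - c²`. -/
theorem GG_mono {m : ℕ} (ρ r : ℝ) (h0 : 0 < ρ) (hr : ρ ≤ r) (h1 : r ≤ 1)
    (g : (Fin m → ℝ) → ℝ) (hg : Measurable g) (hb : ∀ y, |g y| ≤ 1) :
    r * (GG ρ g g - (∫ y, g y ∂(gam m)) ^ 2) ≤ ρ * (GG r g g - (∫ y, g y ∂(gam m)) ^ 2) := by
  have := gam_prob m
  have hr0 : 0 < r := lt_of_lt_of_le h0 hr
  have hρ1 : ρ ≤ 1 := hr.trans h1
  set c : ℝ := ∫ y, g y ∂(gam m) with hc
  have hq0 : 0 ≤ ρ / r := (div_pos h0 hr0).le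
  have hq1 : ρ / r ≤ 1 := (div_le_one hr0).2 hr
  have hsr0 : 0 ≤ Real.sqrt r := Real.sqrt_nonneg r
  have hsr1 : Real.sqrt r ≤ 1 := Real.sqrt_le_one.2 h1
  have hsq0 : 0 ≤ Real.sqrt (ρ / r) := Real.sqrt_nonneg _
  have hsq1 : Real.sqrt (ρ / r) ≤ 1 := Real.sqrt_le_one.2 hq1
  have hsρ0 : 0 ≤ Real.sqrt ρ := Real.sqrt_nonneg _
  have hsρ1 : Real.sqrt ρ ≤ 1 := Real.sqrt_le_one.2 hρ1
  have hmul : Real.sqrt (ρ / r) * Real.sqrt r = Real.sqrt ρ := by
    rw [← Real.sqrt_mul hq0, div_mul_cancel₀ _ hr0.ne']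
  -- the two smoothed functions
  have hGm : Measurable (Pool.Agent.SSC3N.TT (Real.sqrt r) g) := (cub_TT_meas _ g hg).measurable
  have hGb : ∀ y, |Pool.Agent.SSC3N.TT (Real.sqrt r) g y| ≤ 1 := fun y => TT_bdd _ g hb y
  have hGc : ∫ y, Pool.Agent.SSC3N.TT (Real.sqrt r) g y ∂(gam m) = c :=
    a5_int_TT _ hsr0 hsr1 g hg hb
  have hHm : Measurable (Pool.Agent.SSC3N.TT (Real.sqrt ρ) g) := (cub_TT_meas _ g hg).measurable
  have hHb : ∀ y, |Pool.Agent.SSC3N.TT (Real.sqrt ρ) g y| ≤ 1 := fun y => TT_bdd _ g hb y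
  have hHc : ∫ y, Pool.Agent.SSC3N.TT (Real.sqrt ρ) g y ∂(gam m) = c :=
    a5_int_TT _ hsρ0 hsρ1 g hg hb
  set k : (Fin m → ℝ) → ℝ := fun y => Pool.Agent.SSC3N.TT (Real.sqrt r) g y - c with hk
  have hkm : Measurable k := hGm.sub_const c
  have hcb : |c| ≤ 1 := by
    have := norm_integral_le_of_norm_le_const (μ := gam m) (f := g) (C := 1)
      (Filter.Eventually.of_forall fun y => by simpa [Real.norm_eq_abs] using hb y)
    simpa [Real.norm_eq_abs] using this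
  have hkb : ∀ y, |k y| ≤ 2 := by
    intro y
    have h := abs_sub (Pool.Agent.SSC3N.TT (Real.sqrt r) g y) c
    have h2 := hGb y
    simp only [hk]
    linarith
  have hGi : Integrable (Pool.Agent.SSC3N.TT (Real.sqrt r) g) (gam m) :=
    Integrable.of_bound hGm.aestronglyMeasurable 1
      (Filter.Eventually.of_forall fun p => by simpa [Real.norm_eq_abs] using hGb _)
  have hk0 : ∫ y, k y ∂(gam m) = 0 := by
    simp only [hk]
    rw [integral_sub hGi (integrable_const _), hGc]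
    simp
  have hgap := gap1 (ρ / r) 2 hq0 hq1 k hkm hkb hk0
  -- L2
  have hkL : MemLp k 2 (gam m) := by
    refine MemLp.of_bound hkm.aestronglyMeasurable 2 (Filter.Eventually.of_forall fun y => ?_)
    rw [Real.norm_eq_abs]
    exact hkb y
  have hTk : ∀ y, Pool.Agent.SSC3N.TT (Real.sqrt (ρ / r)) k y =
      Pool.Agent.SSC3N.TT (Real.sqrt ρ) g y - c := by
    intro y
    rw [← hmul, ← TT_comp (Real.sqrt (ρ / r)) (Real.sqrt r) hsq0 hsq1 hsr0 hsr1 g hg hb y]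
    simp only [hk]
    show ∫ z, (Pool.Agent.SSC3N.TT (Real.sqrt r) g
      (Real.sqrt (ρ / r) • y + Real.sqrt (1 - Real.sqrt (ρ / r) ^ 2) • z) - c) ∂(gam m) =
      (∫ z, Pool.Agent.SSC3N.TT (Real.sqrt r) g
        (Real.sqrt (ρ / r) • y + Real.sqrt (1 - Real.sqrt (ρ / r) ^ 2) • z) ∂(gam m)) - c
    have hi : Integrable (fun z => Pool.Agent.SSC3N.TT (Real.sqrt r) g
        (Real.sqrt (ρ / r) • y + Real.sqrt (1 - Real.sqrt (ρ / r) ^ 2) • z)) (gam m) := by
      refine Integrable.of_bound (hGm.comp (by fun_prop)).aestronglyMeasurable 1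
        (Filter.Eventually.of_forall fun p => ?_)
      rw [Real.norm_eq_abs]
      exact hGb _
    rw [integral_sub hi (integrable_const _)]
    simp
  have e1 : GG (ρ / r) k k = GG ρ g g - c ^ 2 := by
    rw [(cub_semigroup (ρ / r) hq0 hq1 k k hkL hkL).1,
      GG_semigroup ρ h0.le hρ1 g g hg hg hb hb, ← a5_sq _ c hHm hHb hHc]
    congr 1
    ext y
    rw [hTk y]
    ring
  have e2 : ∫ y, k y ^ 2 ∂(gam m) = GG r g g - c ^ 2 := by
    rw [GG_semigroup r hr0.le h1 g g hg hg hb hb, ← a5_sq _ c hGm hGb hGc]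
  rw [e1, e2] at hgap
  have h3 := mul_le_mul_of_nonneg_left hgap hr0.le
  have h4 : r * (ρ / r * (GG r g g - c ^ 2)) = ρ * (GG r g g - c ^ 2) := by
    field_simp
  rw [h4] at h3
  exact h3

end Pool.Agent.SSCP
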