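import Pool.Agent.SSCP.Defs
import Pool.Agent.SSC3N.Cubic

set_option autoImplicit false
open MeasureTheory ProbabilityTheory Set Real
open scoped ENNReal

namespace Pool.Agent.SSCP
open Pool.Agent.SSC3N
open Pool.Agent.SSC3 (ker W E2 Per len slice g2)

/-- [A5a] composition of Ornstein-Uhlenbeck operators, pointwise:
`TT a (TT b g) y = E g(b(a y + √(1-a²) z) + √(1-b²) w)`, and `b √(1-a²) z + √(1-b²) w` has the law of
`√(1-a²b²) z` (`gam_ou`-type statement: rotation of the pair `(z,w)`). -/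
theorem TT_comp {m : ℕ} (a b : ℝ) (ha0 : 0 ≤ a) (ha1 : a ≤ 1) (hb0 : 0 ≤ b) (hb1 : b ≤ 1)
    (g : (Fin m → ℝ) → ℝ) (hg : Measurable g) (hgb : ∀ y, |g y| ≤ 1) (y : Fin m → ℝ) :
    Pool.Agent.SSC3N.TT a (Pool.Agent.SSC3N.TT b g) y = Pool.Agent.SSC3N.TT (a * b) g y := by
  have : IsProbabilityMeasure (gam m) := gam_prob m
  by_cases hab : a * b = 1
  · have ha : a = 1 := by nlinarith
    have hb : b = 1 := by rw [ha, one_mul] at hab; exact hab
    subst ha hb
    unfold TT
    simp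
  · have hab1 : a * b < 1 := lt_of_le_of_ne (by nlinarith) hab
    have hab0 : 0 ≤ a * b := mul_nonneg ha0 hb0
    have hpos : 0 < 1 - (a * b) ^ 2 := by nlinarith
    set s : ℝ := Real.sqrt (1 - (a * b) ^ 2) with hs
    have hs0 : 0 < s := Real.sqrt_pos.2 hpos
    have hs2 : s ^ 2 = 1 - (a * b) ^ 2 := Real.sq_sqrt hpos.le
    have ha2 : Real.sqrt (1 - a ^ 2) ^ 2 = 1 - a ^ 2 := Real.sq_sqrt (by nlinarith)
    have hb2 : Real.sqrt (1 - b ^ 2) ^ 2 = 1 - b ^ 2 := Real.sq_sqrt (by nlinarith)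
    set κ : ℝ := b * Real.sqrt (1 - a ^ 2) / s with hκ
    have hκ0 : 0 ≤ κ := by positivity
    have hκ2 : 1 - κ ^ 2 = (Real.sqrt (1 - b ^ 2) / s) ^ 2 := by
      have hss : s ^ 2 ≠ 0 := (pow_pos hs0 2).ne'
      rw [hκ, div_pow, div_pow, mul_pow, ha2, hb2, eq_div_iff hss, sub_mul, div_mul_cancel₀ _ hss, hs2]
      ring
    have hκs : Real.sqrt (1 - κ ^ 2) = Real.sqrt (1 - b ^ 2) / s := by
      rw [hκ2, Real.sqrt_sq (by positivity)]
    have hκ1 : κ ≤ 1 := by
      have h1 : 0 ≤ 1 - κ ^ 2 := by rw [hκ2]; positivity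
      nlinarith
    have key : ∀ z w : Fin m → ℝ, b • (a • y + Real.sqrt (1 - a ^ 2) • z) + Real.sqrt (1 - b ^ 2) • w
        = (a * b) • y + s • (κ • z + Real.sqrt (1 - κ ^ 2) • w) := by
      intro z w
      rw [hκs, hκ]
      ext i
      simp only [Pi.add_apply, Pi.smul_apply, smul_eq_mul]
      field_simp
      ring
    set G : (Fin m → ℝ) → ℝ := fun u => g ((a * b) • y + s • u) with hG
    have hGm : Measurable G := hg.comp (by fun_prop)
    have hmp := gam_ou m κ (by linarith) hκ1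
    have e1 : Pool.Agent.SSC3N.TT a (Pool.Agent.SSC3N.TT b g) y
        = ∫ z, ∫ w, G (κ • z + Real.sqrt (1 - κ ^ 2) • w) ∂(gam m) ∂(gam m) := by
      unfold TT
      refine integral_congr_ae (Filter.Eventually.of_forall fun z => ?_)
      refine integral_congr_ae (Filter.Eventually.of_forall fun w => ?_)
      simp only [hG]
      rw [← key]
    have hint : Integrable (fun p : (Fin m → ℝ) × (Fin m → ℝ) =>
        G (κ • p.1 + Real.sqrt (1 - κ ^ 2) • p.2)) ((gam m).prod (gam m)) := by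
      refine Integrable.of_bound (hGm.comp hmp.measurable).aestronglyMeasurable 1
        (Filter.Eventually.of_forall fun p => ?_)
      exact hgb _
    rw [e1, ← integral_prod (fun p : (Fin m → ℝ) × (Fin m → ℝ) =>
        G (κ • p.1 + Real.sqrt (1 - κ ^ 2) • p.2)) hint]
    have e2 : ∫ p : (Fin m → ℝ) × (Fin m → ℝ), G (κ • p.1 + Real.sqrt (1 - κ ^ 2) • p.2)
        ∂((gam m).prod (gam m)) = ∫ u, G u ∂(gam m) := by
      have h5 := integral_map (μ := (gam m).prod (gam m)) hmp.measurable.aemeasurable (f := G)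
        (by rw [hmp.map_eq]; exact hGm.aestronglyMeasurable)
      rw [hmp.map_eq] at h5
      exact h5.symm
    rw [e2]
    rfl

end Pool.Agent.SSCP
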