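import Pool.Agent.SSCP.Defs
import Pool.Agent.SSC3N.Cubic

set_option autoImplicit false
open MeasureTheory ProbabilityTheory Set Real
open scoped ENNReal

namespace Pool.Agent.SSCP
open Pool.Agent.SSC3N
open Pool.Agent.SSC3 (ker W E2 Per len slice g2)

private instance a6_inst (m : ℕ) : IsProbabilityMeasure (gam m) := gam_prob m

private theorem a6_bint {α : Type*} [MeasurableSpace α] (μ : Measure α)
    [IsProbabilityMeasure μ] (f : α → ℝ) (hf : Measurable f) (hb : ∀ y, |f y| ≤ 1) :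
    Integrable f μ :=
  Integrable.of_bound hf.aestronglyMeasurable 1 (Filter.Eventually.of_forall hb)

private theorem a6_mul {a b : ℝ} (ha : |a| ≤ 1) (hb : |b| ≤ 1) : |a * b| ≤ 1 := by
  rw [abs_mul]
  exact mul_le_one₀ ha (abs_nonneg _) hb

private theorem a6_TTm {m : ℕ} (κ : ℝ) {α : Type*} [MeasurableSpace α]
    (F : (Fin 2 → ℝ) → (Fin m → ℝ) → ℝ) (hF : Measurable (Function.uncurry F))
    (p : α → Fin 2 → ℝ) (q : α → Fin m → ℝ) (hp : Measurable p) (hq : Measurable q) :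
    Measurable fun t : α => Pool.Agent.SSC3N.TT κ (fun x' => F x' (q t)) (p t) := by
  unfold Pool.Agent.SSC3N.TT
  have h1 : Measurable (fun s : α × (Fin 2 → ℝ) =>
      F (κ • p s.1 + Real.sqrt (1 - κ ^ 2) • s.2) (q s.1)) := by
    have : Measurable (fun s : α × (Fin 2 → ℝ) =>
        (κ • p s.1 + Real.sqrt (1 - κ ^ 2) • s.2, q s.1)) := by fun_prop
    exact hF.comp this
  exact (h1.stronglyMeasurable.integral_prod_right' (ν := gam 2)).measurable

/-- [A6] semigroup in the first block: for fixed `y, w` apply `GG_semigroup` (with `τ = ρ`, in `gam 2`) to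
`x ↦ F x y` and `x ↦ F x (r y + √(1-r²) w)`, and Fubini (everything is bounded by 1, measurable on products
of probability spaces). -/
theorem SS_eq {m : ℕ} (ρ r : ℝ) (h0 : 0 ≤ ρ) (h1 : ρ ≤ 1) (hr0 : 0 ≤ r) (hr1 : r ≤ 1)
    (F : (Fin 2 → ℝ) → (Fin m → ℝ) → ℝ) (hF : Measurable (Function.uncurry F))
    (hb : ∀ x y, |F x y| ≤ 1) :
    SS ρ r F = ∫ x, GG r (fun y => Pool.Agent.SSC3N.TT (Real.sqrt ρ) (fun x' => F x' y) x)
      (fun y => Pool.Agent.SSC3N.TT (Real.sqrt ρ) (fun x' => F x' y) x) ∂(gam 2) := by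
  have hFs : ∀ {α : Type} [MeasurableSpace α] (p : α → Fin 2 → ℝ) (q : α → Fin m → ℝ),
      Measurable p → Measurable q → Measurable fun t => F (p t) (q t) := by
    intro α _ p q hp hq
    exact hF.comp (hp.prodMk hq)
  -- left side as a double integral, with the `m`-block outside
  have eL : SS ρ r F = ∫ s : (Fin m → ℝ) × (Fin m → ℝ), GG ρ (fun x => F x s.1)
      (fun x => F x (r • s.1 + Real.sqrt (1 - r ^ 2) • s.2)) ∂((gam m).prod (gam m)) := by
    unfold SS GG
    rw [← integral_prod (f := fun p : (Fin 2 → ℝ) × (Fin 2 → ℝ) =>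
      ∫ y, ∫ z, F p.1 y * F (ρ • p.1 + Real.sqrt (1 - ρ ^ 2) • p.2)
        (r • y + Real.sqrt (1 - r ^ 2) • z) ∂(gam m) ∂(gam m))]
    · have e1 : ∀ p : (Fin 2 → ℝ) × (Fin 2 → ℝ),
          (∫ y, ∫ z, F p.1 y * F (ρ • p.1 + Real.sqrt (1 - ρ ^ 2) • p.2)
            (r • y + Real.sqrt (1 - r ^ 2) • z) ∂(gam m) ∂(gam m)) =
          ∫ s : (Fin m → ℝ) × (Fin m → ℝ), F p.1 s.1 * F (ρ • p.1 + Real.sqrt (1 - ρ ^ 2) • p.2)
            (r • s.1 + Real.sqrt (1 - r ^ 2) • s.2) ∂((gam m).prod (gam m)) := by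
        intro p
        rw [← integral_prod (f := fun s : (Fin m → ℝ) × (Fin m → ℝ) =>
          F p.1 s.1 * F (ρ • p.1 + Real.sqrt (1 - ρ ^ 2) • p.2)
            (r • s.1 + Real.sqrt (1 - r ^ 2) • s.2))]
        apply a6_bint
        · exact (hFs _ _ measurable_const measurable_fst).mul
            (hFs _ _ measurable_const (by fun_prop))
        · intro s; exact a6_mul (hb _ _) (hb _ _)
      have e2 : ∀ s : (Fin m → ℝ) × (Fin m → ℝ),
          (∫ y, ∫ z, F y s.1 * F (ρ • y + Real.sqrt (1 - ρ ^ 2) • z)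
            (r • s.1 + Real.sqrt (1 - r ^ 2) • s.2) ∂(gam 2) ∂(gam 2)) =
          ∫ p : (Fin 2 → ℝ) × (Fin 2 → ℝ), F p.1 s.1 * F (ρ • p.1 + Real.sqrt (1 - ρ ^ 2) • p.2)
            (r • s.1 + Real.sqrt (1 - r ^ 2) • s.2) ∂((gam 2).prod (gam 2)) := by
        intro s
        rw [← integral_prod (f := fun p : (Fin 2 → ℝ) × (Fin 2 → ℝ) =>
          F p.1 s.1 * F (ρ • p.1 + Real.sqrt (1 - ρ ^ 2) • p.2)
            (r • s.1 + Real.sqrt (1 - r ^ 2) • s.2))]
        apply a6_bint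
        · exact (hFs _ _ measurable_fst measurable_const).mul
            (hFs _ _ (by fun_prop) measurable_const)
        · intro s; exact a6_mul (hb _ _) (hb _ _)
      simp_rw [e1, e2]
      rw [integral_integral_swap (f := fun (p : (Fin 2 → ℝ) × (Fin 2 → ℝ))
        (s : (Fin m → ℝ) × (Fin m → ℝ)) => F p.1 s.1 *
          F (ρ • p.1 + Real.sqrt (1 - ρ ^ 2) • p.2) (r • s.1 + Real.sqrt (1 - r ^ 2) • s.2))]
      apply a6_bint
      · exact (hFs _ _ (by fun_prop) (by fun_prop)).mul (hFs _ _ (by fun_prop) (by fun_prop))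
      · intro s; exact a6_mul (hb _ _) (hb _ _)
    · apply a6_bint
      · have h3 : Measurable (fun t : (((Fin 2 → ℝ) × (Fin 2 → ℝ)) × (Fin m → ℝ)) × (Fin m → ℝ) =>
            F t.1.1.1 t.1.2 * F (ρ • t.1.1.1 + Real.sqrt (1 - ρ ^ 2) • t.1.1.2)
              (r • t.1.2 + Real.sqrt (1 - r ^ 2) • t.2)) :=
          (hFs _ _ (by fun_prop) (by fun_prop)).mul (hFs _ _ (by fun_prop) (by fun_prop))
        have h4 := h3.stronglyMeasurable.integral_prod_right' (ν := gam m)
        have h5 := h4.integral_prod_right' (ν := gam m)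
        exact h5.measurable
      · intro p
        have h6 : ∀ y, |∫ z, F p.1 y * F (ρ • p.1 + Real.sqrt (1 - ρ ^ 2) • p.2)
            (r • y + Real.sqrt (1 - r ^ 2) • z) ∂(gam m)| ≤ 1 := by
          intro y
          have := norm_integral_le_of_norm_le_const (μ := gam m)
            (f := fun z => F p.1 y * F (ρ • p.1 + Real.sqrt (1 - ρ ^ 2) • p.2)
              (r • y + Real.sqrt (1 - r ^ 2) • z)) (C := 1)
            (Filter.Eventually.of_forall fun z => a6_mul (hb _ _) (hb _ _))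
          simpa using this
        have := norm_integral_le_of_norm_le_const (μ := gam m)
          (f := fun y => ∫ z, F p.1 y * F (ρ • p.1 + Real.sqrt (1 - ρ ^ 2) • p.2)
            (r • y + Real.sqrt (1 - r ^ 2) • z) ∂(gam m)) (C := 1)
          (Filter.Eventually.of_forall h6)
        simpa using this
  have hTb : ∀ (y : Fin m → ℝ) (x : Fin 2 → ℝ),
      |Pool.Agent.SSC3N.TT (Real.sqrt ρ) (fun x' => F x' y) x| ≤ 1 :=
    fun y x => TT_bdd _ _ (fun x' => hb x' y) x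
  have e3 : ∀ s : (Fin m → ℝ) × (Fin m → ℝ), GG ρ (fun x => F x s.1)
      (fun x => F x (r • s.1 + Real.sqrt (1 - r ^ 2) • s.2)) =
      ∫ x, Pool.Agent.SSC3N.TT (Real.sqrt ρ) (fun x' => F x' s.1) x *
        Pool.Agent.SSC3N.TT (Real.sqrt ρ)
          (fun x' => F x' (r • s.1 + Real.sqrt (1 - r ^ 2) • s.2)) x ∂(gam 2) := by
    intro s
    exact GG_semigroup ρ h0 h1 _ _ (hFs _ _ measurable_id measurable_const)
      (hFs _ _ measurable_id measurable_const) (fun x => hb _ _) (fun x => hb _ _)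
  rw [eL]
  simp_rw [e3]
  have hm : Measurable (fun t : ((Fin m → ℝ) × (Fin m → ℝ)) × (Fin 2 → ℝ) =>
      Pool.Agent.SSC3N.TT (Real.sqrt ρ) (fun x' => F x' t.1.1) t.2 *
        Pool.Agent.SSC3N.TT (Real.sqrt ρ)
          (fun x' => F x' (r • t.1.1 + Real.sqrt (1 - r ^ 2) • t.1.2)) t.2) :=
    (a6_TTm _ F hF (fun t : ((Fin m → ℝ) × (Fin m → ℝ)) × (Fin 2 → ℝ) => t.2)
      (fun t => t.1.1) measurable_snd (by fun_prop)).mul
      (a6_TTm _ F hF (fun t : ((Fin m → ℝ) × (Fin m → ℝ)) × (Fin 2 → ℝ) => t.2)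
        (fun t => r • t.1.1 + Real.sqrt (1 - r ^ 2) • t.1.2) measurable_snd (by fun_prop))
  rw [integral_integral_swap (f := fun (s : (Fin m → ℝ) × (Fin m → ℝ)) (x : Fin 2 → ℝ) =>
      Pool.Agent.SSC3N.TT (Real.sqrt ρ) (fun x' => F x' s.1) x *
        Pool.Agent.SSC3N.TT (Real.sqrt ρ)
          (fun x' => F x' (r • s.1 + Real.sqrt (1 - r ^ 2) • s.2)) x)]
  · congr 1
    ext x
    unfold GG
    rw [← integral_prod (f := fun s : (Fin m → ℝ) × (Fin m → ℝ) =>
      Pool.Agent.SSC3N.TT (Real.sqrt ρ) (fun x' => F x' s.1) x *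
        Pool.Agent.SSC3N.TT (Real.sqrt ρ)
          (fun x' => F x' (r • s.1 + Real.sqrt (1 - r ^ 2) • s.2)) x)]
    apply a6_bint
    · exact (a6_TTm _ F hF (fun s : (Fin m → ℝ) × (Fin m → ℝ) => x) (fun s => s.1)
        measurable_const (by fun_prop)).mul
        (a6_TTm _ F hF (fun s : (Fin m → ℝ) × (Fin m → ℝ) => x)
          (fun s => r • s.1 + Real.sqrt (1 - r ^ 2) • s.2) measurable_const (by fun_prop))
    · intro s; exact a6_mul (hTb _ _) (hTb _ _)
  · apply a6_bint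
    · exact hm
    · intro s; exact a6_mul (hTb _ _) (hTb _ _)

end Pool.Agent.SSCP
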