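import Pool.Agent.SSCP.LA1

set_option autoImplicit false
open MeasureTheory ProbabilityTheory Set Real
open scoped ENNReal

namespace Pool.Agent.SSCP
open Pool.Agent.SSC3N
open Pool.Agent.SSC3 (ker W E2 Per len slice g2)

private theorem a9_bint {α : Type*} [MeasurableSpace α] (μ : Measure α)
    [IsProbabilityMeasure μ] (f : α → ℝ) (hf : Measurable f) (hb : ∀ y, |f y| ≤ 1) :
    Integrable f μ :=
  Integrable.of_bound hf.aestronglyMeasurable 1 (Filter.Eventually.of_forall hb)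

private theorem a9_bd {α : Type*} [MeasurableSpace α] (μ : Measure α)
    [IsProbabilityMeasure μ] (f : α → ℝ) (hb : ∀ y, |f y| ≤ 1) : |∫ y, f y ∂μ| ≤ 1 := by
  have := norm_integral_le_of_norm_le_const (μ := μ) (f := f) (C := 1)
    (Filter.Eventually.of_forall hb)
  simpa using this

private theorem a9_mul {a b : ℝ} (ha : |a| ≤ 1) (hb : |b| ≤ 1) : |a * b| ≤ 1 := by
  rw [abs_mul]
  exact mul_le_one₀ ha (abs_nonneg _) hb

private theorem a9_GG_bd {m : ℕ} (κ : ℝ) (g h : (Fin m → ℝ) → ℝ) (hg : ∀ y, |g y| ≤ 1)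
    (hh : ∀ y, |h y| ≤ 1) : |GG κ g h| ≤ 1 := by
  have : IsProbabilityMeasure (gam m) := gam_prob m
  unfold GG
  exact a9_bd _ _ fun y => a9_bd _ _ fun z => a9_mul (hg _) (hh _)

/-- [A9] `GG_shift` for fixed `x, z` with `g = F x`, `h = F (ρ x + √(1-ρ²) z)`, and Fubini. -/
theorem SS_shift {m : ℕ} (ρ ε : ℝ) (h0 : 0 ≤ ρ) (h1 : ρ ≤ 1) (he0 : 0 ≤ ε) (he1 : ε ≤ 1)
    (F : (Fin 2 → ℝ) → (Fin m → ℝ) → ℝ) (hF : Measurable (Function.uncurry F))
    (hb : ∀ x y, |F x y| ≤ 1) :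
    ∫ ξ, SS ρ ρ (fun x y => F x (Real.sqrt (1 - ε ^ 2) • y + ε • ξ)) ∂(gam m) =
      SS ρ (ρ + (1 - ρ) * ε ^ 2) F := by
  have : IsProbabilityMeasure (gam m) := gam_prob m
  have : IsProbabilityMeasure (gam 2) := gam_prob 2
  set a : ℝ := Real.sqrt (1 - ε ^ 2) with ha
  have hFx : ∀ x, Measurable (F x) := fun x => hF.comp (measurable_const.prodMk measurable_id)
  set K : (Fin m → ℝ) → (Fin 2 → ℝ) → (Fin 2 → ℝ) → ℝ := fun ξ x z =>
    GG ρ (fun y => F x (a • y + ε • ξ))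
      (fun y => F (ρ • x + Real.sqrt (1 - ρ ^ 2) • z) (a • y + ε • ξ)) with hK
  have hKb : ∀ ξ x z, |K ξ x z| ≤ 1 := fun ξ x z => a9_GG_bd _ _ _ (fun _ => hb _ _) fun _ => hb _ _
  -- joint measurability
  have hKm : Measurable (fun q : (Fin m → ℝ) × ((Fin 2 → ℝ) × (Fin 2 → ℝ)) => K q.1 q.2.1 q.2.2) := by
    have e1 : Measurable (fun q : (((Fin m → ℝ) × ((Fin 2 → ℝ) × (Fin 2 → ℝ))) × (Fin m → ℝ)) × (Fin m → ℝ) =>
        F q.1.1.2.1 (a • q.1.2 + ε • q.1.1.1) *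
          F (ρ • q.1.1.2.1 + Real.sqrt (1 - ρ ^ 2) • q.1.1.2.2)
            (a • (ρ • q.1.2 + Real.sqrt (1 - ρ ^ 2) • q.2) + ε • q.1.1.1)) := by
      refine Measurable.mul ?_ ?_
      · exact hF.comp (f := fun q : (((Fin m → ℝ) × ((Fin 2 → ℝ) × (Fin 2 → ℝ))) × (Fin m → ℝ)) × (Fin m → ℝ) =>
          (q.1.1.2.1, a • q.1.2 + ε • q.1.1.1)) (by fun_prop)
      · exact hF.comp (f := fun q : (((Fin m → ℝ) × ((Fin 2 → ℝ) × (Fin 2 → ℝ))) × (Fin m → ℝ)) × (Fin m → ℝ) =>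
          (ρ • q.1.1.2.1 + Real.sqrt (1 - ρ ^ 2) • q.1.1.2.2,
            a • (ρ • q.1.2 + Real.sqrt (1 - ρ ^ 2) • q.2) + ε • q.1.1.1)) (by fun_prop)
    have e2 := e1.stronglyMeasurable.integral_prod_right' (ν := gam m)
    have e3 := e2.integral_prod_right' (ν := gam m)
    exact e3.measurable
  have hint : Integrable (fun q : (Fin m → ℝ) × ((Fin 2 → ℝ) × (Fin 2 → ℝ)) => K q.1 q.2.1 q.2.2)
      ((gam m).prod ((gam 2).prod (gam 2))) := a9_bint _ _ hKm fun q => hKb _ _ _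
  -- split the inner double integral
  have hsl : ∀ ξ, ∫ x, ∫ z, K ξ x z ∂(gam 2) ∂(gam 2)
      = ∫ p : (Fin 2 → ℝ) × (Fin 2 → ℝ), K ξ p.1 p.2 ∂((gam 2).prod (gam 2)) := by
    intro ξ
    have hm : Measurable (fun p : (Fin 2 → ℝ) × (Fin 2 → ℝ) => K ξ p.1 p.2) :=
      hKm.comp (f := fun p : (Fin 2 → ℝ) × (Fin 2 → ℝ) => (ξ, p)) (by fun_prop)
    exact (integral_prod (fun p : (Fin 2 → ℝ) × (Fin 2 → ℝ) => K ξ p.1 p.2)
      (a9_bint _ _ hm fun p => hKb _ _ _)).symm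
  have hL : ∫ ξ, SS ρ ρ (fun x y => F x (a • y + ε • ξ)) ∂(gam m)
      = ∫ ξ, ∫ p : (Fin 2 → ℝ) × (Fin 2 → ℝ), K ξ p.1 p.2 ∂((gam 2).prod (gam 2)) ∂(gam m) := by
    refine integral_congr_ae (Filter.Eventually.of_forall fun ξ => ?_)
    exact hsl ξ
  rw [hL, integral_integral_swap (f := fun ξ (p : (Fin 2 → ℝ) × (Fin 2 → ℝ)) => K ξ p.1 p.2) hint]
  have hpt : ∀ x z, ∫ ξ, K ξ x z ∂(gam m) = GG (ρ + (1 - ρ) * ε ^ 2) (F x)
      (F (ρ • x + Real.sqrt (1 - ρ ^ 2) • z)) := by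
    intro x z
    exact GG_shift ρ ε h0 h1 he0 he1 (F x) (F (ρ • x + Real.sqrt (1 - ρ ^ 2) • z)) (hFx _) (hFx _)
      (hb _) (hb _)
  have hint2 : Integrable (fun p : (Fin 2 → ℝ) × (Fin 2 → ℝ) => ∫ ξ, K ξ p.1 p.2 ∂(gam m))
      ((gam 2).prod (gam 2)) := hint.integral_prod_right
  rw [integral_prod (fun p : (Fin 2 → ℝ) × (Fin 2 → ℝ) => ∫ ξ, K ξ p.1 p.2 ∂(gam m)) hint2]
  unfold SS
  refine integral_congr_ae (Filter.Eventually.of_forall fun x => ?_)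
  refine integral_congr_ae (Filter.Eventually.of_forall fun z => ?_)
  exact hpt x z

/-- [A10] `∫ g(√(1-ε²) y + ε ξ) dγ(y) = TT ε g ξ`; with `k = g - c`, `c = ∫ g`: the left side is
`∫ (TT ε k)² = GG (ε²) k k ≤ ε⁴ ∫ k² ≤ ε⁴` (`GG_semigroup` applied to `k/2`, or `cub_semigroup`; `gap2`;
`∫ k² = ∫ g² - c² ≤ 1`). -/
theorem shift_var {m : ℕ} (ε : ℝ) (he0 : 0 ≤ ε) (he1 : ε ≤ 1) (g : (Fin m → ℝ) → ℝ)
    (hg : Measurable g) (hb : ∀ y, |g y| ≤ 1) (hg1 : ∀ j, ∫ y, y j * g y ∂(gam m) = 0) :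
    ∫ ξ, ((∫ y, g (Real.sqrt (1 - ε ^ 2) • y + ε • ξ) ∂(gam m)) - ∫ y, g y ∂(gam m)) ^ 2 ∂(gam m)
      ≤ ε ^ 4 := by
  have : IsProbabilityMeasure (gam m) := gam_prob m
  set c : ℝ := ∫ y, g y ∂(gam m) with hc
  have hcb : |c| ≤ 1 := a9_bd _ _ hb
  have hgi : Integrable g (gam m) := a9_bint _ _ hg hb
  set k : (Fin m → ℝ) → ℝ := fun y => g y - c with hk
  have hkm : Measurable k := hg.sub measurable_const
  have hkb : ∀ y, |k y| ≤ 2 := by
    intro y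
    calc |k y| ≤ |g y| + |c| := abs_sub _ _
      _ ≤ 2 := by linarith [hb y]
  have hk0 : ∫ y, k y ∂(gam m) = 0 := by
    simp only [hk]
    rw [integral_sub hgi (integrable_const c), integral_const]
    simp [hc]
  have hyj : ∀ j : Fin m, Integrable (fun y : Fin m → ℝ => y j) (gam m) := by
    intro j
    have e1 : Integrable (fun x : ℝ => x) (gaussianReal 0 1) :=
      (memLp_id_gaussianReal 1).integrable le_rfl
    exact (measurePreserving_eval (fun _ : Fin m => gaussianReal 0 1) j).integrable_comp_of_integrable e1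
  have hyj0 : ∀ j : Fin m, ∫ y : Fin m → ℝ, y j ∂(gam m) = 0 := by
    intro j
    exact cub_odd (fun y => y j) (fun y => by simp)
  have hk1 : ∀ j, ∫ y, y j * k y ∂(gam m) = 0 := by
    intro j
    have e1 : Integrable (fun y => y j * g y) (gam m) :=
      (hyj j).mul_bdd (c := 1) hg.aestronglyMeasurable (Filter.Eventually.of_forall hb)
    have e2 : ∀ y : Fin m → ℝ, y j * k y = y j * g y - y j * c := fun y => by simp only [hk]; ring
    simp_rw [e2]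
    rw [integral_sub e1 ((hyj j).mul_const c), hg1 j, integral_mul_const, hyj0 j]
    ring
  have hkL : MemLp k 2 (gam m) :=
    MemLp.of_bound hkm.aestronglyMeasurable 2 (Filter.Eventually.of_forall hkb)
  have hsq : Real.sqrt (ε ^ 2) = ε := Real.sqrt_sq he0
  have hsg := (cub_semigroup (ε ^ 2) (by positivity) (by nlinarith) k k hkL hkL).1
  rw [hsq] at hsg
  have hgap := gap2 (ε ^ 2) 2 (by positivity) (by nlinarith) k hkm hkb hk0 hk1
  have hTT : ∀ ξ, (∫ y, g (Real.sqrt (1 - ε ^ 2) • y + ε • ξ) ∂(gam m)) - c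
      = Pool.Agent.SSC3N.TT ε k ξ := by
    intro ξ
    unfold TT
    simp only [hk]
    have e1 : Integrable (fun z => g (ε • ξ + Real.sqrt (1 - ε ^ 2) • z)) (gam m) :=
      a9_bint _ _ (hg.comp (by fun_prop)) fun _ => hb _
    rw [integral_sub e1 (integrable_const c), integral_const]
    simp only [probReal_univ, smul_eq_mul, one_mul]
    congr 1
    refine integral_congr_ae (Filter.Eventually.of_forall fun z => ?_)
    show g _ = g _
    rw [add_comm]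
  have hL : ∫ ξ, ((∫ y, g (Real.sqrt (1 - ε ^ 2) • y + ε • ξ) ∂(gam m)) - c) ^ 2 ∂(gam m)
      = ∫ ξ, Pool.Agent.SSC3N.TT ε k ξ * Pool.Agent.SSC3N.TT ε k ξ ∂(gam m) := by
    refine integral_congr_ae (Filter.Eventually.of_forall fun ξ => ?_)
    show ((∫ y, g (Real.sqrt (1 - ε ^ 2) • y + ε • ξ) ∂(gam m)) - c) ^ 2 = _
    rw [hTT ξ, sq]
  rw [hL, ← hsg]
  refine hgap.trans ?_
  have hgg : Integrable (fun y => g y ^ 2) (gam m) := by
    refine a9_bint _ _ (hg.pow_const 2) fun y => ?_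
    rw [sq]; exact a9_mul (hb y) (hb y)
  have hk2 : ∫ y, k y ^ 2 ∂(gam m) ≤ 1 := by
    have e2 : ∀ y : Fin m → ℝ, k y ^ 2 = g y ^ 2 - (2 * c * g y - c ^ 2) := fun y => by
      simp only [hk]; ring
    simp_rw [e2]
    have e3 : Integrable (fun y => 2 * c * g y) (gam m) := hgi.const_mul _
    have e5 : Integrable (fun y => 2 * c * g y - c ^ 2) (gam m) := e3.sub (integrable_const _)
    rw [integral_sub hgg e5, integral_sub e3 (integrable_const _),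
      integral_const_mul, integral_const, ← hc]
    have e4 : ∫ y, g y ^ 2 ∂(gam m) ≤ 1 := by
      refine (le_abs_self _).trans (a9_bd _ _ fun y => ?_)
      rw [sq]; exact a9_mul (hb y) (hb y)
    simp only [probReal_univ, smul_eq_mul, one_mul]
    nlinarith [sq_nonneg c]
  calc (ε ^ 2) ^ 2 * ∫ y, k y ^ 2 ∂(gam m) ≤ (ε ^ 2) ^ 2 * 1 :=
        mul_le_mul_of_nonneg_left hk2 (by positivity)
    _ = ε ^ 4 := by ring

end Pool.Agent.SSCP
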