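import Pool.Agent.SSC3N.Defs

/-!
Standard simplex conjecture, Q1 (positive correlation), three parts, every dimension, `ρ ∈ [0,1/2]`.
Common definitions.  Library: `Pool.Agent.SSC3` (planar library) and `Pool.Agent.SSC3N`
(`gam`, `nu`, `GG`, `TT`, `Jc`, `ct`, `vt`, `ft`, `cF`, `LF`, `mA`, `mG`, `mB`, ...).
-/

set_option autoImplicit false
open MeasureTheory ProbabilityTheory Set Real
open scoped ENNReal

namespace Pool.Agent.SSCP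
open Pool.Agent.SSC3N
open Pool.Agent.SSC3 (ker W E2 Per len slice g2)

/-! ### fractional partitions -/

/-- fractional partition into three parts -/
def FP {X : Type} [MeasurableSpace X] (f : Fin 3 → X → ℝ) : Prop :=
  (∀ i, Measurable (f i)) ∧ (∀ i x, 0 ≤ f i x) ∧ (∀ x, ∑ i, f i x = 1)

/-- noise stability of a fractional partition of `ℝⁿ` -/
noncomputable def Fn {n : ℕ} (ρ : ℝ) (f : Fin 3 → (Fin n → ℝ) → ℝ) : ℝ := ∑ i, GG ρ (f i) (f i)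

/-- penalty for unequal masses -/
noncomputable def pen {n : ℕ} (f : Fin 3 → (Fin n → ℝ) → ℝ) : ℝ :=
  ∑ i, ((∫ x, f i x ∂(gam n)) - 1 / 3) ^ 2

/-- correlation `ρ` in the first two coordinates and `r` in the other ones -/
noncomputable def SS {m : ℕ} (ρ r : ℝ) (F : (Fin 2 → ℝ) → (Fin m → ℝ) → ℝ) : ℝ :=
  ∫ x, ∫ z, GG r (F x) (F (ρ • x + Real.sqrt (1 - ρ ^ 2) • z)) ∂(gam 2) ∂(gam 2)

/-- currying -/
def cur {m : ℕ} (f : (Fin (2 + m) → ℝ) → ℝ) (x : Fin 2 → ℝ) (y : Fin m → ℝ) : ℝ :=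
  f (Fin.append x y)

/-- average over the last `m` coordinates -/
noncomputable def bar {m : ℕ} (F : (Fin 2 → ℝ) → (Fin m → ℝ) → ℝ) (x : Fin 2 → ℝ) : ℝ :=
  ∫ y, F x y ∂(gam m)

/-! ### kernels (positive correlation) -/

/-- `C(l) = ∫_0^{1/3} (2+3t) e^{l cos 2πt} dt + e^{-l/2}/6`. -/
noncomputable def Cp (l : ℝ) : ℝ := cF (-l)

/-- `V(l) = l ∫_0^{1/3} 2π sin(2πt) v_t e^{l cos 2πt} dt`. -/
noncomputable def Vp (l : ℝ) : ℝ := l * LF (-l)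

/-- diagonal weight -/
noncomputable def Dp (ρ u : ℝ) : ℝ :=
  ∫ v, Vp (ρ * u * v) * (1 + Real.exp (-(4 * u ^ 2)) - Real.exp (-(4 * v ^ 2))) ∂nu

/-- moments of `C` -/
noncomputable def MM (k : ℕ) : ℝ :=
  (∫ t in (0:ℝ)..(1 / 3), (2 + 3 * t) * Real.cos (2 * π * t) ^ k) + (-1 / 2) ^ k / 6

/-- `C` minus its Taylor polynomial of degree 3 -/
noncomputable def C4 (l : ℝ) : ℝ :=
  Cp l - (MM 0 + MM 1 * l + MM 2 * l ^ 2 / 2 + MM 3 * l ^ 3 / 6)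

/-- Schur weight of the tail kernel -/
noncomputable def tau4 (ρ u : ℝ) : ℝ := (∫ v, C4 (ρ * u * v) * v ^ 2 ∂nu) / u ^ 2

/-- explicit majorant of `1/(Dp - tau4)` -/
noncomputable def RR (ρ u : ℝ) : ℝ :=
  3.72 / (ρ * u) * (Real.exp (-((ρ * u) ^ 2 / 3)) -
    0.52 * Real.exp (-(2 * (ρ * u) ^ 2 / 3 + 4 * u ^ 2)))

/-- `W_k = ∫_0^{π/2} cos^k`. -/
noncomputable def Wl (k : ℕ) : ℝ := ∫ x in (0:ℝ)..(π / 2), Real.cos x ^ k

/-- coefficients of the minorant of `(Dp - tau4)/(ρ u)` as a power series in `w = ρ u` -/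
noncomputable def cf (j : ℕ) : ℝ :=
  mA j * Jc (j + 2) / (j.factorial : ℝ) * (1 - (1 / 3) ^ (j + 3)) -
    (if j = 0 then 0 else 1 / 4 * (MM (j + 3) * Jc (j + 6) / ((j + 3).factorial : ℝ)))

/-- explicit integrals -/
noncomputable def Aq (k : ℕ) (ρ : ℝ) : ℝ :=
  Jc (2 * k) * ((1 + 2 * ρ ^ 2 / 3) ^ (-((2 * k : ℕ) + 1 : ℝ) / 2) -
    0.52 * (9 + 4 * ρ ^ 2 / 3) ^ (-((2 * k : ℕ) + 1 : ℝ) / 2))

noncomputable def Bq (k : ℕ) (ρ : ℝ) : ℝ :=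
  Jc k * ((1 - ρ ^ 2 / 3) ^ (-((k : ℕ) + 1 : ℝ) / 2) -
    0.52 * (9 + ρ ^ 2 / 3) ^ (-((k : ℕ) + 1 : ℝ) / 2))

noncomputable def Zq (ρ : ℝ) : ℝ :=
  Jc 0 * ((1 - 4 * ρ ^ 2 / 3) ^ (-((0 : ℕ) + 1 : ℝ) / 2) -
    0.52 * (9 - 2 * ρ ^ 2 / 3) ^ (-((0 : ℕ) + 1 : ℝ) / 2))

/-! ### circles -/

/-- angular energy of two functions -/
noncomputable def Ef (l : ℝ) (g h : ℝ → ℝ) : ℝ :=
  ∫ θ in Ioo (-π) π, ∫ φ in Ioo (-π) π, g θ * h φ * Real.exp (l * Real.cos (θ - φ))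

/-- restriction to a circle -/
noncomputable def cir (g : (Fin 2 → ℝ) → ℝ) (r θ : ℝ) : ℝ := g ![r * Real.cos θ, r * Real.sin θ]

/-- circular mean -/
noncomputable def av (g : ℝ → ℝ) : ℝ := (∫ θ in Ioo (-π) π, g θ) / (2 * π)

/-- the value of the standard simplex partition -/
noncomputable def Sval (ρ : ℝ) : ℝ :=
  (1 - ρ ^ 2) * ∫ u, ∫ v, 3 * W (-(ρ * u * v)) (2 * π / 3) / (2 * π) ^ 2 ∂nu ∂nu

end Pool.Agent.SSCP
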