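import Pool.Agent.SSCP.Defs

/-! `GG` of an indicator is a probability. -/

set_option autoImplicit false
open MeasureTheory ProbabilityTheory Set Real
open scoped ENNReal

namespace Pool.Agent.SSCP
open Pool.Agent.SSC3N
open Pool.Agent.SSC3 (ker W E2 Per len slice g2)

private instance f1_prob (n : ℕ) : IsProbabilityMeasure (gam n) := by
  unfold gam; infer_instance

/-- [F1] `GG` of an indicator is a probability. -/
theorem GG_indicator (n : ℕ) (ρ : ℝ) (A : Set (Fin n → ℝ)) (hA : MeasurableSet A) :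
    GG ρ (A.indicator fun _ => (1 : ℝ)) (A.indicator fun _ => (1 : ℝ)) =
      (((gam n).prod (gam n)) {p : (Fin n → ℝ) × (Fin n → ℝ) |
        p.1 ∈ A ∧ ρ • p.1 + Real.sqrt (1 - ρ ^ 2) • p.2 ∈ A}).toReal := by
  classical
  set P : Set ((Fin n → ℝ) × (Fin n → ℝ)) := {p | p.1 ∈ A ∧
    ρ • p.1 + Real.sqrt (1 - ρ ^ 2) • p.2 ∈ A} with hP
  have hm : Measurable fun p : (Fin n → ℝ) × (Fin n → ℝ) =>
      ρ • p.1 + Real.sqrt (1 - ρ ^ 2) • p.2 := by fun_prop
  have hPm : MeasurableSet P := (measurable_fst hA).inter (hm hA)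
  have h1 : (((gam n).prod (gam n)) P).toReal =
      ∫ p, P.indicator (fun _ => (1 : ℝ)) p ∂((gam n).prod (gam n)) := by
    rw [integral_indicator_const _ hPm]
    simp [Measure.real]
  rw [h1, integral_prod _ ((integrable_const (1 : ℝ)).indicator hPm)]
  unfold GG
  refine integral_congr_ae (Filter.Eventually.of_forall fun y => ?_)
  refine integral_congr_ae (Filter.Eventually.of_forall fun z => ?_)
  by_cases hy : y ∈ A <;> by_cases hz : ρ • y + Real.sqrt (1 - ρ ^ 2) • z ∈ A <;>
    simp [P, Set.indicator, hy, hz]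

end Pool.Agent.SSCP
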