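import Pool.Agent.SSCP.Defs
import Pool.Agent.SSC3N.CBasic

/-! Part K, [K1]: basic properties of `Cp`, `Vp`, `C4`. -/

set_option autoImplicit false
open MeasureTheory ProbabilityTheory Set Real
open scoped ENNReal

namespace Pool.Agent.SSCP
open Pool.Agent.SSC3N
open Pool.Agent.SSC3 (ker W E2 Per len slice g2)

theorem continuous_Cp : Continuous Cp := by
  unfold Cp
  exact continuous_cF.comp continuous_neg

theorem continuous_Vp : Continuous Vp := by
  unfold Vp
  exact continuous_id.mul (continuous_LF.comp continuous_neg)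

theorem continuous_C4 : Continuous C4 := by
  unfold C4
  have h := continuous_Cp
  fun_prop

theorem Cp_nonneg (l : ℝ) : 0 ≤ Cp l := cF_nonneg _

private theorem k1_int : ∫ t in (0:ℝ)..(1 / 3), (2 + 3 * t) = 5 / 6 := by
  rw [intervalIntegral.integral_add
      (by exact Continuous.intervalIntegrable (by fun_prop) _ _)
      (by exact Continuous.intervalIntegrable (by fun_prop) _ _),
      intervalIntegral.integral_const, intervalIntegral.integral_const_mul, integral_id]
  norm_num

private theorem k1_Cp (l : ℝ) : Cp l = (∫ t in (0:ℝ)..(1 / 3), (2 + 3 * t) *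
    Real.exp (l * Real.cos (2 * π * t))) + Real.exp (-(l / 2)) / 6 := by
  unfold Cp cF
  have h1 : ∀ t : ℝ, -(-l * Real.cos (2 * π * t)) = l * Real.cos (2 * π * t) := fun t => by ring
  have h2 : -l / 2 = -(l / 2) := by ring
  simp only [h1, h2]

/-- mixture with the weights of `Cp` -/
private theorem k1_mix (φ : ℝ → ℝ) (hφ : Continuous φ) (l M : ℝ)
    (hb : ∀ c, |c| ≤ 1 → φ (l * c) ≤ M) :
    (∫ t in (0:ℝ)..(1 / 3), (2 + 3 * t) * φ (l * Real.cos (2 * π * t))) + φ (-(l / 2)) / 6 ≤ M := by
  have h1 : ∫ t in (0:ℝ)..(1 / 3), (2 + 3 * t) * φ (l * Real.cos (2 * π * t)) ≤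
      ∫ t in (0:ℝ)..(1 / 3), (2 + 3 * t) * M := by
    apply intervalIntegral.integral_mono_on (by norm_num)
    · exact Continuous.intervalIntegrable (by fun_prop) _ _
    · exact Continuous.intervalIntegrable (by fun_prop) _ _
    · intro t ht
      have ht0 := ht.1
      exact mul_le_mul_of_nonneg_left (hb _ (Real.abs_cos_le_one _)) (by positivity)
  have h2 : ∫ t in (0:ℝ)..(1 / 3), (2 + 3 * t) * M = 5 / 6 * M := by
    rw [intervalIntegral.integral_mul_const, k1_int]
  have h3 : φ (-(l / 2)) ≤ M := by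
    have h := hb (-(1 / 2)) (by norm_num [abs_le])
    have e : l * -(1 / 2) = -(l / 2) := by ring
    rwa [e] at h
  linarith

private theorem k1_mix0 (φ : ℝ → ℝ) (l : ℝ) (hb : ∀ x, 0 ≤ φ x) :
    0 ≤ (∫ t in (0:ℝ)..(1 / 3), (2 + 3 * t) * φ (l * Real.cos (2 * π * t))) +
      φ (-(l / 2)) / 6 := by
  have h1 : 0 ≤ ∫ t in (0:ℝ)..(1 / 3), (2 + 3 * t) * φ (l * Real.cos (2 * π * t)) := by
    apply intervalIntegral.integral_nonneg (by norm_num)
    intro t ht
    have ht0 := ht.1
    exact mul_nonneg (by positivity) (hb _)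
  have h2 := hb (-(l / 2))
  positivity

theorem Cp_le (l : ℝ) : Cp l ≤ Real.exp |l| := by
  rw [k1_Cp]
  refine k1_mix Real.exp Real.continuous_exp l _ fun c hc => ?_
  apply Real.exp_le_exp.mpr
  calc l * c ≤ |l * c| := le_abs_self _
    _ = |l| * |c| := abs_mul _ _
    _ ≤ |l| * 1 := by gcongr
    _ = |l| := mul_one _

/-- remainder -/
private noncomputable def k1R (x : ℝ) : ℝ := Real.exp x - 1 - x - x ^ 2 / 2 - x ^ 3 / 6

private theorem k1R_cont : Continuous k1R := by
  unfold k1R
  fun_prop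

private theorem k1R_le (x : ℝ) : k1R x ≤ |x| ^ 4 * Real.exp |x| := by
  have h := Complex.norm_exp_sub_sum_le_norm_mul_exp (x : ℂ) 4
  rw [Complex.norm_real, Real.norm_eq_abs] at h
  have e : Complex.exp (x : ℂ) - ∑ m ∈ Finset.range 4, (x : ℂ) ^ m / (m.factorial : ℂ) =
      ((k1R x : ℝ) : ℂ) := by
    unfold k1R
    rw [Finset.sum_range_succ, Finset.sum_range_succ, Finset.sum_range_succ, Finset.sum_range_one]
    push_cast
    simp [Nat.factorial]
    ring
  rw [e, Complex.norm_real, Real.norm_eq_abs] at h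
  exact (le_abs_self _).trans h

private theorem k1R_nonneg (x : ℝ) : 0 ≤ k1R x := by
  -- `h(x) = e^(-x) (1 + x + x²/2 + x³/6)` has derivative `- e^(-x) x³ / 6`
  have hd : ∀ y : ℝ, HasDerivAt (fun y : ℝ => Real.exp (-y) * (1 + y + y ^ 2 / 2 + y ^ 3 / 6))
      (-(Real.exp (-y) * (y ^ 3 / 6))) y := by
    intro y
    have h1 : HasDerivAt (fun y : ℝ => Real.exp (-y)) (Real.exp (-y) * (-1)) y :=
      (hasDerivAt_neg y).exp
    have h2 : HasDerivAt (fun y : ℝ => 1 + y + y ^ 2 / 2 + y ^ 3 / 6)
        (1 + y + y ^ 2 / 2) y := by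
      have h3 := (((hasDerivAt_id' y).const_add (1 : ℝ)).fun_add
        ((hasDerivAt_pow 2 y).div_const 2)).fun_add ((hasDerivAt_pow 3 y).div_const 6)
      refine h3.congr_deriv ?_
      norm_num
      ring
    refine (h1.fun_mul h2).congr_deriv ?_
    ring
  have hle : Real.exp (-x) * (1 + x + x ^ 2 / 2 + x ^ 3 / 6) ≤ 1 := by
    rcases le_total 0 x with hx | hx
    · have hanti : AntitoneOn (fun y : ℝ => Real.exp (-y) * (1 + y + y ^ 2 / 2 + y ^ 3 / 6))
          (Icc 0 x) := by
        apply antitoneOn_of_deriv_nonpos (convex_Icc 0 x)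
        · exact fun y _ => (hd y).continuousAt.continuousWithinAt
        · exact fun y _ => (hd y).differentiableAt.differentiableWithinAt
        · intro y hy
          rw [interior_Icc] at hy
          rw [(hd y).deriv]
          have hy0 := hy.1
          have : 0 ≤ Real.exp (-y) * (y ^ 3 / 6) := by positivity
          linarith
      have h := hanti (left_mem_Icc.2 hx) (right_mem_Icc.2 hx) hx
      simpa using h
    · have hmono : MonotoneOn (fun y : ℝ => Real.exp (-y) * (1 + y + y ^ 2 / 2 + y ^ 3 / 6))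
          (Icc x 0) := by
        apply monotoneOn_of_deriv_nonneg (convex_Icc x 0)
        · exact fun y _ => (hd y).continuousAt.continuousWithinAt
        · exact fun y _ => (hd y).differentiableAt.differentiableWithinAt
        · intro y hy
          rw [interior_Icc] at hy
          rw [(hd y).deriv]
          have hy0 := hy.2
          have h3 : y ^ 3 ≤ 0 := Odd.pow_nonpos (by decide) hy0.le
          have h4 := (Real.exp_pos (-y)).le
          have : Real.exp (-y) * (y ^ 3 / 6) ≤ 0 :=
            mul_nonpos_of_nonneg_of_nonpos h4 (by linarith)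
          linarith
      have h := hmono (left_mem_Icc.2 hx) (right_mem_Icc.2 hx) hx
      simpa using h
  have h5 : 1 + x + x ^ 2 / 2 + x ^ 3 / 6 ≤ Real.exp x := by
    have h6 := mul_le_mul_of_nonneg_left hle (Real.exp_pos x).le
    rw [← mul_assoc, ← Real.exp_add, add_neg_cancel, Real.exp_zero, one_mul, mul_one] at h6
    exact h6
  unfold k1R
  linarith

private theorem k1_C4 (l : ℝ) : C4 l = (∫ t in (0:ℝ)..(1 / 3), (2 + 3 * t) *
    k1R (l * Real.cos (2 * π * t))) + k1R (-(l / 2)) / 6 := by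
  have hI : ∀ k : ℕ, IntervalIntegrable (fun t : ℝ => (2 + 3 * t) * Real.cos (2 * π * t) ^ k)
      volume 0 (1 / 3) := fun k => Continuous.intervalIntegrable (by fun_prop) _ _
  have hE : IntervalIntegrable (fun t : ℝ => (2 + 3 * t) * Real.exp (l * Real.cos (2 * π * t)))
      volume 0 (1 / 3) := Continuous.intervalIntegrable (by fun_prop) _ _
  have h1 : ∫ t in (0:ℝ)..(1 / 3), (2 + 3 * t) * k1R (l * Real.cos (2 * π * t)) =
      (∫ t in (0:ℝ)..(1 / 3), (2 + 3 * t) * Real.exp (l * Real.cos (2 * π * t))) -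
      ((∫ t in (0:ℝ)..(1 / 3), (2 + 3 * t) * Real.cos (2 * π * t) ^ 0) +
        l * (∫ t in (0:ℝ)..(1 / 3), (2 + 3 * t) * Real.cos (2 * π * t) ^ 1) +
        l ^ 2 / 2 * (∫ t in (0:ℝ)..(1 / 3), (2 + 3 * t) * Real.cos (2 * π * t) ^ 2) +
        l ^ 3 / 6 * (∫ t in (0:ℝ)..(1 / 3), (2 + 3 * t) * Real.cos (2 * π * t) ^ 3)) := by
    rw [← intervalIntegral.integral_const_mul, ← intervalIntegral.integral_const_mul,
      ← intervalIntegral.integral_const_mul, ← intervalIntegral.integral_add (hI 0)
      ((hI 1).const_mul _), ← intervalIntegral.integral_add ((hI 0).add ((hI 1).const_mul _))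
      ((hI 2).const_mul _), ← intervalIntegral.integral_add (((hI 0).add
      ((hI 1).const_mul _)).add ((hI 2).const_mul _)) ((hI 3).const_mul _),
      ← intervalIntegral.integral_sub hE ((((hI 0).add
      ((hI 1).const_mul _)).add ((hI 2).const_mul _)).add ((hI 3).const_mul _))]
    refine intervalIntegral.integral_congr fun t _ => ?_
    unfold k1R
    ring
  rw [h1]
  unfold C4
  rw [k1_Cp]
  unfold MM k1R
  ring

theorem C4_nonneg (l : ℝ) : 0 ≤ C4 l := by
  rw [k1_C4]
  exact k1_mix0 k1R l k1R_nonneg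

theorem C4_le (l : ℝ) : C4 l ≤ l ^ 4 * Real.exp |l| := by
  rw [k1_C4]
  refine k1_mix k1R k1R_cont l _ fun c hc => ?_
  refine (k1R_le _).trans ?_
  have h1 : |l * c| ≤ |l| := by
    rw [abs_mul]
    exact mul_le_of_le_one_right (abs_nonneg _) hc
  calc |l * c| ^ 4 * Real.exp |l * c| ≤ |l| ^ 4 * Real.exp |l| := by
        gcongr
    _ = l ^ 4 * Real.exp |l| := by
        rw [show |l| ^ 4 = l ^ 4 from (by decide : Even 4).pow_abs l]

theorem Vp_nonneg (l : ℝ) (hl : 0 ≤ l) : 0 ≤ Vp l := mul_nonneg hl (LF_nonneg _)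

private theorem k1_vint : ∫ t in (0:ℝ)..(1 / 3), (2 * t - 21 / 4 * t ^ 2) = 5 / 108 := by
  rw [intervalIntegral.integral_sub
      (by exact Continuous.intervalIntegrable (by fun_prop) _ _)
      (by exact Continuous.intervalIntegrable (by fun_prop) _ _),
      intervalIntegral.integral_const_mul, intervalIntegral.integral_const_mul, integral_id,
      integral_pow]
  norm_num

theorem Vp_le (l : ℝ) (hl : 0 ≤ l) : Vp l ≤ l * Real.exp l := by
  unfold Vp
  refine mul_le_mul_of_nonneg_left ?_ hl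
  unfold LF
  have h1 : ∫ t in (0:ℝ)..(1 / 3), 2 * π * Real.sin (2 * π * t) * vt t *
      Real.exp (-(-l * Real.cos (2 * π * t))) ≤
      ∫ t in (0:ℝ)..(1 / 3), (2 * t - 21 / 4 * t ^ 2) * (2 * π * Real.exp l) := by
    apply intervalIntegral.integral_mono_on (by norm_num)
    · unfold vt
      exact Continuous.intervalIntegrable (by fun_prop) _ _
    · exact Continuous.intervalIntegrable (by fun_prop) _ _
    · intro t ht
      have hs0 := cb_sin_nonneg ht.1 ht.2
      have hv := cb_vt_nonneg ht.1 ht.2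
      have hv' : vt t = 2 * t - 21 / 4 * t ^ 2 := rfl
      have he : Real.exp (-(-l * Real.cos (2 * π * t))) ≤ Real.exp l := by
        apply Real.exp_le_exp.mpr
        have := Real.cos_le_one (2 * π * t)
        nlinarith
      have hs1 := Real.sin_le_one (2 * π * t)
      rw [← hv']
      calc 2 * π * Real.sin (2 * π * t) * vt t * Real.exp (-(-l * Real.cos (2 * π * t)))
          ≤ 2 * π * 1 * vt t * Real.exp l := by gcongr
        _ = vt t * (2 * π * Real.exp l) := by ring
  have h2 : ∫ t in (0:ℝ)..(1 / 3), (2 * t - 21 / 4 * t ^ 2) * (2 * π * Real.exp l) =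
      5 / 108 * (2 * π * Real.exp l) := by
    rw [intervalIntegral.integral_mul_const, k1_vint]
  have h3 := Real.pi_lt_four
  have h4 := Real.exp_pos l
  nlinarith

end Pool.Agent.SSCP
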