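import Pool.Agent.SSCP.LK1b

/-! Row K10: low moments. -/

set_option autoImplicit false
open MeasureTheory ProbabilityTheory Set Real
open scoped ENNReal

namespace Pool.Agent.SSCP
open Pool.Agent.SSC3N
open Pool.Agent.SSC3 (ker W E2 Per len slice g2)

private theorem k10_br (w u : ℝ) : 0.48 * Real.exp (-(w ^ 2 / 3)) ≤
    Real.exp (-(w ^ 2 / 3)) - 0.52 * Real.exp (-(2 * w ^ 2 / 3 + 4 * u ^ 2)) := by
  have h : Real.exp (-(2 * w ^ 2 / 3 + 4 * u ^ 2)) ≤ Real.exp (-(w ^ 2 / 3)) := by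
    apply Real.exp_le_exp.mpr
    have := sq_nonneg w
    have := sq_nonneg u
    linarith
  linarith

private theorem k10_u (u : ℝ) : u ≤ 2 * Real.exp (u ^ 2 / 6) := by
  have h := Real.add_one_le_exp (u ^ 2 / 6)
  nlinarith [sq_nonneg (u - 3 / 2)]

theorem RR_inv_growth (ρ : ℝ) (h0 : 0 < ρ) (h1 : ρ ≤ 1 / 2) :
    (∀ u, 0 < u → 0 < RR ρ u) ∧
      ∃ C : ℝ, ∀ u, 0 < u → 1 / RR ρ u ≤ C * Real.exp (u ^ 2 / 4) := by
  have hlow : ∀ u, 0 < u → 3.72 / (ρ * u) * (0.48 * Real.exp (-((ρ * u) ^ 2 / 3))) ≤ RR ρ u := by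
    intro u hu
    have hw : 0 < ρ * u := mul_pos h0 hu
    unfold RR
    exact mul_le_mul_of_nonneg_left (k10_br (ρ * u) u) (by positivity)
  have hpos : ∀ u, 0 < u → 0 < RR ρ u := by
    intro u hu
    have hw : 0 < ρ * u := mul_pos h0 hu
    refine lt_of_lt_of_le ?_ (hlow u hu)
    positivity
  refine ⟨hpos, 1, ?_⟩
  intro u hu
  have hw : 0 < ρ * u := mul_pos h0 hu
  have hq : 0 < 3.72 / (ρ * u) * (0.48 * Real.exp (-((ρ * u) ^ 2 / 3))) := by positivity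
  have a1 : 1 / RR ρ u ≤ 1 / (3.72 / (ρ * u) * (0.48 * Real.exp (-((ρ * u) ^ 2 / 3)))) :=
    one_div_le_one_div_of_le hq (hlow u hu)
  have a2 : 1 / (3.72 / (ρ * u) * (0.48 * Real.exp (-((ρ * u) ^ 2 / 3)))) =
      ρ * u * Real.exp ((ρ * u) ^ 2 / 3) / (3.72 * 0.48) := by
    rw [Real.exp_neg]
    have := (Real.exp_pos ((ρ * u) ^ 2 / 3)).ne'
    field_simp
  have a3 : ρ * u ≤ Real.exp (u ^ 2 / 6) := by
    have := k10_u u
    nlinarith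
  have a4 : Real.exp ((ρ * u) ^ 2 / 3) ≤ Real.exp (u ^ 2 / 12) := by
    apply Real.exp_le_exp.mpr
    have : (ρ * u) ^ 2 ≤ u ^ 2 / 4 := by
      have : ρ ^ 2 ≤ 1 / 4 := by nlinarith
      nlinarith [sq_nonneg u]
    linarith
  have a5 : ρ * u * Real.exp ((ρ * u) ^ 2 / 3) ≤ Real.exp (u ^ 2 / 4) := by
    calc ρ * u * Real.exp ((ρ * u) ^ 2 / 3) ≤ Real.exp (u ^ 2 / 6) * Real.exp (u ^ 2 / 12) :=
          mul_le_mul a3 a4 (Real.exp_pos _).le (Real.exp_pos _).le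
      _ = Real.exp (u ^ 2 / 4) := by
          rw [← Real.exp_add]
          congr 1
          ring
  rw [a2] at a1
  refine a1.trans ?_
  rw [one_mul, div_le_iff₀ (by norm_num)]
  have := Real.exp_pos (u ^ 2 / 4)
  nlinarith

private theorem k10_RR_meas (ρ : ℝ) : Measurable (RR ρ) := by
  unfold RR
  fun_prop

/-- growth of powers -/
private theorem k10_pow (k : ℕ) : ∃ C : ℝ, 0 ≤ C ∧ ∀ u : ℝ, 0 < u → u ^ k ≤ C * Real.exp (u ^ 2 / 4) := by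
  refine ⟨(k.factorial : ℝ) * Real.exp 1, by positivity, ?_⟩
  intro u hu
  have h1 : u ^ k / (k.factorial : ℝ) ≤ Real.exp u := Real.pow_div_factorial_le_exp u hu.le k
  have h2 : Real.exp u ≤ Real.exp 1 * Real.exp (u ^ 2 / 4) := by
    rw [← Real.exp_add]
    apply Real.exp_le_exp.mpr
    nlinarith [sq_nonneg (u / 2 - 1)]
  have hk : (0:ℝ) < k.factorial := by positivity
  rw [div_le_iff₀ hk] at h1
  calc u ^ k ≤ Real.exp u * (k.factorial : ℝ) := h1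
    _ ≤ (Real.exp 1 * Real.exp (u ^ 2 / 4)) * (k.factorial : ℝ) :=
        mul_le_mul_of_nonneg_right h2 hk.le
    _ = _ := by ring

/-- weighted Cauchy-Schwarz for one moment -/
private theorem k10_cs (ρ M a : ℝ) (h0 : 0 < ρ) (h1 : ρ ≤ 1 / 2) (f : ℝ → ℝ) (hf : Measurable f)
    (hb : ∀ u, |f u| ≤ M) (hc : ∫ u, f u * Real.exp (ρ ^ 2 * u ^ 2 / 2) ∂nu = 0) (k : ℕ) :
    (∫ u, u ^ k * f u ∂nu) ^ 2 ≤
      (3.72 / ρ * (Aq k ρ - 2 * a * Bq k ρ + a ^ 2 * Zq ρ)) * ∫ u, (f u) ^ 2 / RR ρ u ∂nu := by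
  have hM : 0 ≤ M := (abs_nonneg _).trans (hb 0)
  obtain ⟨hpos, C, hC⟩ := RR_inv_growth ρ h0 h1
  obtain ⟨hgi, hge⟩ := RR_int ρ a h0 h1 k
  obtain ⟨Ck, hCk0, hCk⟩ := k10_pow k
  have i1 : Integrable (fun u => u ^ k * f u) nu := by
    refine integrable_nu _ (by fun_prop) (Ck * M) ?_
    intro u hu
    rw [abs_mul, abs_of_pos (pow_pos hu k)]
    calc u ^ k * |f u| ≤ (Ck * Real.exp (u ^ 2 / 4)) * M :=
          mul_le_mul (hCk u hu) (hb u) (abs_nonneg _) (by positivity)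
      _ = _ := by ring
  have i2 : Integrable (fun u => f u * Real.exp (ρ ^ 2 * u ^ 2 / 2)) nu := by
    refine integrable_nu _ (by fun_prop) M ?_
    intro u hu
    rw [abs_mul, abs_of_pos (Real.exp_pos _)]
    refine mul_le_mul (hb u) ?_ (Real.exp_pos _).le hM
    apply Real.exp_le_exp.mpr
    have : ρ ^ 2 ≤ 1 / 4 := by nlinarith
    nlinarith [sq_nonneg u]
  have mR := k10_RR_meas ρ
  have i3 : Integrable (fun u => (f u) ^ 2 / RR ρ u) nu := by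
    refine integrable_nu _ (by fun_prop) (M ^ 2 * C) ?_
    intro u hu
    have hR := hpos u hu
    rw [abs_of_nonneg (by positivity)]
    have e : (f u) ^ 2 ≤ M ^ 2 := by
      rw [← sq_abs (f u)]
      exact pow_le_pow_left₀ (abs_nonneg _) (hb u) 2
    have hC' := hC u hu
    have hp : 0 ≤ 1 / RR ρ u := by positivity
    calc (f u) ^ 2 / RR ρ u = (f u) ^ 2 * (1 / RR ρ u) := by ring
      _ ≤ M ^ 2 * (C * Real.exp (u ^ 2 / 4)) := mul_le_mul e hC' hp (by positivity)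
      _ = _ := by ring
  -- replace `u^k` by `u^k - a e^{..}`
  have e1 : ∫ u, u ^ k * f u ∂nu =
      ∫ u, (u ^ k - a * Real.exp (ρ ^ 2 * u ^ 2 / 2)) * f u ∂nu := by
    have e2 : (fun u => (u ^ k - a * Real.exp (ρ ^ 2 * u ^ 2 / 2)) * f u) =
        fun u => u ^ k * f u - a * (f u * Real.exp (ρ ^ 2 * u ^ 2 / 2)) := by
      funext u; ring
    rw [e2, integral_sub i1 (i2.const_mul a), integral_const_mul, hc, mul_zero, sub_zero]
  have i4 : Integrable (fun u => (u ^ k - a * Real.exp (ρ ^ 2 * u ^ 2 / 2)) * f u) nu := by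
    have e2 : (fun u => (u ^ k - a * Real.exp (ρ ^ 2 * u ^ 2 / 2)) * f u) =
        fun u => u ^ k * f u - a * (f u * Real.exp (ρ ^ 2 * u ^ 2 / 2)) := by
      funext u; ring
    rw [e2]
    exact i1.sub (i2.const_mul a)
  rw [e1, ← hge]
  set A := ∫ u, (u ^ k - a * Real.exp (ρ ^ 2 * u ^ 2 / 2)) ^ 2 * RR ρ u ∂nu with hA
  set B := ∫ u, (f u) ^ 2 / RR ρ u ∂nu with hB
  set F := ∫ u, (u ^ k - a * Real.exp (ρ ^ 2 * u ^ 2 / 2)) * f u ∂nu with hF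
  have hq : ∀ s : ℝ, 0 ≤ A * (s * s) + (2 * F) * s + B := by
    intro s
    have e3 : A * (s * s) + (2 * F) * s + B = ∫ u, (((u ^ k - a * Real.exp (ρ ^ 2 * u ^ 2 / 2)) ^ 2 *
        RR ρ u) * (s * s) + ((u ^ k - a * Real.exp (ρ ^ 2 * u ^ 2 / 2)) * f u) * (2 * s) +
        (f u) ^ 2 / RR ρ u) ∂nu := by
      have j1 := hgi.mul_const (s * s)
      have j2 := i4.mul_const (2 * s)
      have j12 : Integrable (fun u => ((u ^ k - a * Real.exp (ρ ^ 2 * u ^ 2 / 2)) ^ 2 *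
        RR ρ u) * (s * s) + ((u ^ k - a * Real.exp (ρ ^ 2 * u ^ 2 / 2)) * f u) * (2 * s)) nu :=
        j1.add j2
      rw [integral_add j12 i3, integral_add j1 j2, integral_mul_const, integral_mul_const]
      ring
    rw [e3]
    apply integral_nonneg_of_ae
    filter_upwards [nu_pos] with u hu
    have hR := hpos u hu
    simp only [Pi.zero_apply]
    have e4 : ((u ^ k - a * Real.exp (ρ ^ 2 * u ^ 2 / 2)) ^ 2 *
        RR ρ u) * (s * s) + ((u ^ k - a * Real.exp (ρ ^ 2 * u ^ 2 / 2)) * f u) * (2 * s) +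
        (f u) ^ 2 / RR ρ u =
        (s * (u ^ k - a * Real.exp (ρ ^ 2 * u ^ 2 / 2)) * RR ρ u + f u) ^ 2 / RR ρ u := by
      field_simp
      ring
    rw [e4]
    positivity
  have hd := discrim_le_zero hq
  unfold discrim at hd
  nlinarith

/-- [K10] low moments -/
theorem low4 (ρ M : ℝ) (h0 : 0 < ρ) (h1 : ρ ≤ 1 / 2) (f : ℝ → ℝ) (hf : Measurable f)
    (hb : ∀ u, |f u| ≤ M) (hc : ∫ u, f u * Real.exp (ρ ^ 2 * u ^ 2 / 2) ∂nu = 0) :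
    MM 0 * (∫ u, f u ∂nu) ^ 2 + MM 1 * ρ * (∫ u, u * f u ∂nu) ^ 2 +
        MM 2 * ρ ^ 2 / 2 * (∫ u, u ^ 2 * f u ∂nu) ^ 2 + MM 3 * ρ ^ 3 / 6 * (∫ u, u ^ 3 * f u ∂nu) ^ 2
      ≤ ∫ u, (f u) ^ 2 / RR ρ u ∂nu := by
  obtain ⟨hpos, C, hC⟩ := RR_inv_growth ρ h0 h1
  have hB : 0 ≤ ∫ u, (f u) ^ 2 / RR ρ u ∂nu := by
    apply integral_nonneg_of_ae
    filter_upwards [nu_pos] with u hu
    have hR := hpos u hu
    simp only [Pi.zero_apply]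
    positivity
  have hA : ∀ (k : ℕ) (a : ℝ), 0 ≤ 3.72 / ρ * (Aq k ρ - 2 * a * Bq k ρ + a ^ 2 * Zq ρ) := by
    intro k a
    rw [← (RR_int ρ a h0 h1 k).2]
    apply integral_nonneg_of_ae
    filter_upwards [nu_pos] with u hu
    have hR := hpos u hu
    simp only [Pi.zero_apply]
    positivity
  have c0 := k10_cs ρ M (1 - 0.68 * ρ ^ 2) h0 h1 f hf hb hc 0
  have c1 := k10_cs ρ M 0.79 h0 h1 f hf hb hc 1
  have c2 := k10_cs ρ M 1.08 h0 h1 f hf hb hc 2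
  have c3 := k10_cs ρ M 1.82 h0 h1 f hf hb hc 3
  simp only [pow_zero, one_mul] at c0
  simp only [pow_one] at c1
  have a0 := hA 0 (1 - 0.68 * ρ ^ 2)
  have a1 := hA 1 0.79
  have a2 := hA 2 1.08
  have a3 := hA 3 1.82
  have ht := Tpoly ρ h0 h1
  obtain ⟨m0, m1, m2, m3, -, -⟩ := MM_vals
  rw [abs_le] at m1 m2 m3
  set B := ∫ u, (f u) ^ 2 / RR ρ u ∂nu with hBd
  set A0 := 3.72 / ρ * (Aq 0 ρ - 2 * (1 - 0.68 * ρ ^ 2) * Bq 0 ρ + (1 - 0.68 * ρ ^ 2) ^ 2 * Zq ρ)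
    with hA0
  set A1 := 3.72 / ρ * (Aq 1 ρ - 2 * 0.79 * Bq 1 ρ + 0.79 ^ 2 * Zq ρ) with hA1
  set A2 := 3.72 / ρ * (Aq 2 ρ - 2 * 1.08 * Bq 2 ρ + 1.08 ^ 2 * Zq ρ) with hA2
  set A3 := 3.72 / ρ * (Aq 3 ρ - 2 * 1.82 * Bq 3 ρ + 1.82 ^ 2 * Zq ρ) with hA3
  set F0 := ∫ u, f u ∂nu
  set F1 := ∫ u, u * f u ∂nu
  set F2 := ∫ u, u ^ 2 * f u ∂nu
  set F3 := ∫ u, u ^ 3 * f u ∂nu
  have ht' : A0 + 0.21618 * ρ * A1 + 0.34072 * ρ ^ 2 / 2 * A2 + 0.20381 * ρ ^ 3 / 6 * A3 ≤ 1 := by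
    refine le_trans (le_of_eq ?_) ht
    rw [hA0, hA1, hA2, hA3]
    ring
  have p1 : MM 1 * ρ * F1 ^ 2 ≤ 0.21618 * ρ * (A1 * B) := by
    have : MM 1 * ρ ≤ 0.21618 * ρ := by nlinarith [m1.2]
    exact mul_le_mul this c1 (sq_nonneg _) (by positivity)
  have p2 : MM 2 * ρ ^ 2 / 2 * F2 ^ 2 ≤ 0.34072 * ρ ^ 2 / 2 * (A2 * B) := by
    have : MM 2 * ρ ^ 2 / 2 ≤ 0.34072 * ρ ^ 2 / 2 := by
      have := m2.2
      have : 0 < ρ ^ 2 := by positivity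
      nlinarith
    exact mul_le_mul this c2 (sq_nonneg _) (by positivity)
  have p3 : MM 3 * ρ ^ 3 / 6 * F3 ^ 2 ≤ 0.20381 * ρ ^ 3 / 6 * (A3 * B) := by
    have : MM 3 * ρ ^ 3 / 6 ≤ 0.20381 * ρ ^ 3 / 6 := by
      have := m3.2
      have : 0 < ρ ^ 3 := by positivity
      nlinarith
    exact mul_le_mul this c3 (sq_nonneg _) (by positivity)
  rw [m0, one_mul]
  calc F0 ^ 2 + MM 1 * ρ * F1 ^ 2 + MM 2 * ρ ^ 2 / 2 * F2 ^ 2 + MM 3 * ρ ^ 3 / 6 * F3 ^ 2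
      ≤ A0 * B + 0.21618 * ρ * (A1 * B) + 0.34072 * ρ ^ 2 / 2 * (A2 * B) +
        0.20381 * ρ ^ 3 / 6 * (A3 * B) := by linarith
    _ = (A0 + 0.21618 * ρ * A1 + 0.34072 * ρ ^ 2 / 2 * A2 + 0.20381 * ρ ^ 3 / 6 * A3) * B := by ring
    _ ≤ 1 * B := mul_le_mul_of_nonneg_right ht' hB
    _ = B := one_mul B

end Pool.Agent.SSCP
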