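import Pool.Agent.SSCP.Defs
import Pool.Agent.SSC3N.NuBasic
import Pool.Agent.SSC3N.CBasic

/-! [SSCP] row K11a: splitting of the kernel `Cp`. -/

set_option autoImplicit false
open MeasureTheory ProbabilityTheory Set Real
open scoped ENNReal

namespace Pool.Agent.SSCP
open Pool.Agent.SSC3N
open Pool.Agent.SSC3 (ker W E2 Per len slice g2)

private lemma k11a_cont : Continuous Cp := by
  unfold Cp
  exact continuous_cF.comp continuous_neg

private lemma k11a_le (l : ℝ) : |Cp l| ≤ Real.exp |l| := by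
  have h0 : 0 ≤ Cp l := cF_nonneg (-l)
  rw [abs_of_nonneg h0]
  unfold Cp cF
  have h1 : (∫ t in (0:ℝ)..(1 / 3), (2 + 3 * t) * Real.exp (-(-l * Real.cos (2 * π * t)))) ≤
      ∫ t in (0:ℝ)..(1 / 3), (2 + 3 * t) * Real.exp |l| := by
    apply intervalIntegral.integral_mono_on (by norm_num)
    · exact (Continuous.intervalIntegrable (by fun_prop) _ _)
    · exact (Continuous.intervalIntegrable (by fun_prop) _ _)
    · intro t ht
      have ht0 : 0 ≤ t := ht.1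
      apply mul_le_mul_of_nonneg_left _ (by positivity)
      apply Real.exp_le_exp.2
      have h2 : |l * Real.cos (2 * π * t)| ≤ |l| := by
        rw [abs_mul]
        exact mul_le_of_le_one_right (abs_nonneg _) (Real.abs_cos_le_one _)
      have h3 := le_abs_self (l * Real.cos (2 * π * t))
      linarith
  have h2 : (∫ t in (0:ℝ)..(1 / 3), (2 + 3 * t) * Real.exp |l|) = 5 / 6 * Real.exp |l| := by
    rw [intervalIntegral.integral_mul_const, intervalIntegral.integral_add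
      (Continuous.intervalIntegrable (by fun_prop) _ _)
      (Continuous.intervalIntegrable (by fun_prop) _ _),
      intervalIntegral.integral_const, intervalIntegral.integral_const_mul, integral_id]
    simp only [smul_eq_mul]
    norm_num
  have h3 : Real.exp (-l / 2) ≤ Real.exp |l| := by
    apply Real.exp_le_exp.2
    have := neg_abs_le l
    have := abs_nonneg l
    linarith
  rw [h2] at h1
  linarith

private lemma k11a_pow {u v : ℝ} (hu : 0 < u) (hv : 0 < v) (k : ℕ) :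
    (u * v) ^ k ≤ 2 ^ k * (k.factorial : ℝ) * Real.exp ((u ^ 2 + v ^ 2) / 4) := by
  have hx : 0 ≤ (u ^ 2 + v ^ 2) / 4 := by positivity
  have h1 : u * v ≤ 2 * ((u ^ 2 + v ^ 2) / 4) := by nlinarith [sq_nonneg (u - v)]
  have h2 : (u * v) ^ k ≤ (2 * ((u ^ 2 + v ^ 2) / 4)) ^ k :=
    pow_le_pow_left₀ (by positivity) h1 k
  have h3 := Real.pow_div_factorial_le_exp ((u ^ 2 + v ^ 2) / 4) hx k
  have hf : (0:ℝ) < (k.factorial : ℝ) := by exact_mod_cast k.factorial_pos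
  have h4 : ((u ^ 2 + v ^ 2) / 4) ^ k ≤ (k.factorial : ℝ) * Real.exp ((u ^ 2 + v ^ 2) / 4) := by
    rw [div_le_iff₀ hf] at h3
    linarith
  calc (u * v) ^ k ≤ (2 * ((u ^ 2 + v ^ 2) / 4)) ^ k := h2
    _ = 2 ^ k * ((u ^ 2 + v ^ 2) / 4) ^ k := by rw [mul_pow]
    _ ≤ 2 ^ k * ((k.factorial : ℝ) * Real.exp ((u ^ 2 + v ^ 2) / 4)) :=
        mul_le_mul_of_nonneg_left h4 (by positivity)
    _ = _ := by ring

private lemma k11a_ff {M : ℝ} {f : ℝ → ℝ} (hb : ∀ u, |f u| ≤ M) (u v : ℝ) :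
    |f u * f v| ≤ M ^ 2 := by
  rw [abs_mul, sq]
  have h0 : 0 ≤ M := (abs_nonneg _).trans (hb u)
  exact mul_le_mul (hb u) (hb v) (abs_nonneg _) h0

private lemma k11a_intC (ρ M : ℝ) (h0 : 0 < ρ) (h1 : ρ ≤ 1 / 2) (f : ℝ → ℝ) (hf : Measurable f)
    (hb : ∀ u, |f u| ≤ M) :
    Integrable (fun z : ℝ × ℝ => Cp (ρ * z.1 * z.2) * (f z.1 * f z.2)) (nu.prod nu) := by
  have hC := k11a_cont.measurable
  apply integrable_nu_prod _ (by fun_prop) (M ^ 2)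
  intro u v hu hv
  show |Cp (ρ * u * v) * (f u * f v)| ≤ _
  rw [abs_mul]
  have h2 : |Cp (ρ * u * v)| ≤ Real.exp ((u ^ 2 + v ^ 2) / 4) := by
    refine (k11a_le _).trans (Real.exp_le_exp.2 ?_)
    have huv : 0 < u * v := by positivity
    rw [abs_of_pos (by positivity)]
    nlinarith [sq_nonneg (u - v)]
  calc |Cp (ρ * u * v)| * |f u * f v| ≤ Real.exp ((u ^ 2 + v ^ 2) / 4) * M ^ 2 :=
        mul_le_mul h2 (k11a_ff hb u v) (abs_nonneg _) (Real.exp_pos _).le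
    _ = _ := by ring

private lemma k11a_intP (ρ M : ℝ) (h0 : 0 < ρ) (h1 : ρ ≤ 1 / 2) (f : ℝ → ℝ) (hf : Measurable f)
    (hb : ∀ u, |f u| ≤ M) (k : ℕ) :
    Integrable (fun z : ℝ × ℝ => (ρ * z.1 * z.2) ^ k * (f z.1 * f z.2)) (nu.prod nu) := by
  apply integrable_nu_prod _ (by fun_prop) (2 ^ k * (k.factorial : ℝ) * M ^ 2)
  intro u v hu hv
  show |(ρ * u * v) ^ k * (f u * f v)| ≤ _
  rw [abs_mul]
  have huv : 0 < u * v := by positivity
  have h2 : |(ρ * u * v) ^ k| ≤ 2 ^ k * (k.factorial : ℝ) * Real.exp ((u ^ 2 + v ^ 2) / 4) := by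
    rw [abs_of_nonneg (by positivity)]
    refine le_trans (pow_le_pow_left₀ (by positivity) ?_ k) (k11a_pow hu hv k)
    nlinarith
  calc |(ρ * u * v) ^ k| * |f u * f v| ≤
        (2 ^ k * (k.factorial : ℝ) * Real.exp ((u ^ 2 + v ^ 2) / 4)) * M ^ 2 :=
        mul_le_mul h2 (k11a_ff hb u v) (abs_nonneg _) (by positivity)
    _ = _ := by ring

private lemma k11a_valP (ρ : ℝ) (f : ℝ → ℝ) (k : ℕ) :
    ∫ u, ∫ v, (ρ * u * v) ^ k * (f u * f v) ∂nu ∂nu = ρ ^ k * (∫ u, u ^ k * f u ∂nu) ^ 2 := by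
  have h : ∀ u : ℝ, ∫ v, (ρ * u * v) ^ k * (f u * f v) ∂nu =
      (u ^ k * f u) * (ρ ^ k * ∫ v, v ^ k * f v ∂nu) := by
    intro u
    rw [← mul_assoc, ← integral_const_mul]
    congr 1
    funext v
    rw [mul_pow, mul_pow]
    ring
  simp_rw [h]
  rw [integral_mul_const]
  ring

theorem split4 (ρ M : ℝ) (h0 : 0 < ρ) (h1 : ρ ≤ 1 / 2) (f : ℝ → ℝ) (hf : Measurable f)
    (hb : ∀ u, |f u| ≤ M) :
    ∫ u, ∫ v, Cp (ρ * u * v) * (f u * f v) ∂nu ∂nu =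
      (MM 0 * (∫ u, f u ∂nu) ^ 2 + MM 1 * ρ * (∫ u, u * f u ∂nu) ^ 2 +
        MM 2 * ρ ^ 2 / 2 * (∫ u, u ^ 2 * f u ∂nu) ^ 2 + MM 3 * ρ ^ 3 / 6 * (∫ u, u ^ 3 * f u ∂nu) ^ 2) +
      ∫ u, ∫ v, C4 (ρ * u * v) * (f u * f v) ∂nu ∂nu := by
  haveI := nu_prob
  have iC := k11a_intC ρ M h0 h1 f hf hb
  have iP := k11a_intP ρ M h0 h1 f hf hb
  have i0 := (iP 0).const_mul (MM 0)
  have i1 := (iP 1).const_mul (MM 1)
  have i2 := (iP 2).const_mul (MM 2 / 2)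
  have i3 := (iP 3).const_mul (MM 3 / 6)
  have i4 := ((((iC.sub i0).sub i1).sub i2).sub i3)
  have e4 : (fun z : ℝ × ℝ => C4 (ρ * z.1 * z.2) * (f z.1 * f z.2)) =
      (((((fun z : ℝ × ℝ => Cp (ρ * z.1 * z.2) * (f z.1 * f z.2)) -
        (fun z : ℝ × ℝ => MM 0 * ((ρ * z.1 * z.2) ^ 0 * (f z.1 * f z.2)))) -
        (fun z : ℝ × ℝ => MM 1 * ((ρ * z.1 * z.2) ^ 1 * (f z.1 * f z.2)))) -
        (fun z : ℝ × ℝ => MM 2 / 2 * ((ρ * z.1 * z.2) ^ 2 * (f z.1 * f z.2)))) -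
        (fun z : ℝ × ℝ => MM 3 / 6 * ((ρ * z.1 * z.2) ^ 3 * (f z.1 * f z.2)))) := by
    funext z
    simp only [Pi.sub_apply, C4]
    ring
  have hC : ∫ u, ∫ v, Cp (ρ * u * v) * (f u * f v) ∂nu ∂nu =
      ∫ z : ℝ × ℝ, Cp (ρ * z.1 * z.2) * (f z.1 * f z.2) ∂(nu.prod nu) :=
    (integral_prod _ iC).symm
  have hP : ∀ k : ℕ, ∫ z : ℝ × ℝ, (ρ * z.1 * z.2) ^ k * (f z.1 * f z.2) ∂(nu.prod nu) =
      ρ ^ k * (∫ u, u ^ k * f u ∂nu) ^ 2 := by
    intro k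
    rw [← k11a_valP ρ f k]
    exact integral_prod _ (iP k)
  have h4 : ∫ u, ∫ v, C4 (ρ * u * v) * (f u * f v) ∂nu ∂nu =
      ∫ z : ℝ × ℝ, C4 (ρ * z.1 * z.2) * (f z.1 * f z.2) ∂(nu.prod nu) := by
    refine (integral_prod (fun z : ℝ × ℝ => C4 (ρ * z.1 * z.2) * (f z.1 * f z.2)) ?_).symm
    rw [e4]
    exact i4
  rw [hC, h4, e4, integral_sub' (((iC.sub i0).sub i1).sub i2) i3,
    integral_sub' ((iC.sub i0).sub i1) i2, integral_sub' (iC.sub i0) i1, integral_sub' iC i0,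
    integral_const_mul, integral_const_mul, integral_const_mul, integral_const_mul,
    hP 0, hP 1, hP 2, hP 3]
  simp only [pow_zero, one_mul, pow_one]
  ring

end Pool.Agent.SSCP
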