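import Pool.Agent.SSCP.LK1b

/-! Row K11b: Schur test for the tail kernel. -/

set_option autoImplicit false
open MeasureTheory ProbabilityTheory Set Real
open scoped ENNReal

namespace Pool.Agent.SSCP
open Pool.Agent.SSC3N
open Pool.Agent.SSC3 (ker W E2 Per len slice g2)

private lemma k11b_int (s : ℝ) (hs : 0 < s) :
    IntegrableOn (fun v : ℝ => v * Real.exp (-(s * v ^ 2 / 2))) (Ioi (0:ℝ)) := by
  have hb : 0 < s / 2 := by positivity
  have h := integrableOn_rpow_mul_exp_neg_mul_sq hb (s := 1) (by norm_num)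
  refine h.congr_fun ?_ measurableSet_Ioi
  intro x hx
  simp only [Real.rpow_one]
  congr 2
  ring

private theorem k11b_nu (f : ℝ → ℝ) (hf : Measurable f) (C : ℝ)
    (h : ∀ u, 0 < u → |f u| ≤ C * Real.exp (3 * u ^ 2 / 8)) : Integrable f nu := by
  rw [integrable_nu_iff f hf]
  have h1 := (k11b_int (1 / 4) (by norm_num)).const_mul C
  refine Integrable.mono' h1 ?_ ?_
  · exact (by fun_prop : Measurable fun u : ℝ => f u * (u * Real.exp (-(u ^ 2 / 2)))).aestronglyMeasurable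
  · filter_upwards [ae_restrict_mem measurableSet_Ioi] with u hu
    have hu' : (0:ℝ) < u := hu
    rw [Real.norm_eq_abs, abs_mul, abs_of_pos (by positivity : 0 < u * Real.exp (-(u ^ 2 / 2)))]
    have h2 := h u hu'
    have h3 : Real.exp (3 * u ^ 2 / 8) * Real.exp (-(u ^ 2 / 2)) = Real.exp (-(1 / 4 * u ^ 2 / 2)) := by
      rw [← Real.exp_add]
      congr 1
      ring
    calc |f u| * (u * Real.exp (-(u ^ 2 / 2))) ≤
        (C * Real.exp (3 * u ^ 2 / 8)) * (u * Real.exp (-(u ^ 2 / 2))) :=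
          mul_le_mul_of_nonneg_right h2 (by positivity)
      _ = C * (u * (Real.exp (3 * u ^ 2 / 8) * Real.exp (-(u ^ 2 / 2)))) := by ring
      _ = C * (u * Real.exp (-(1 / 4 * u ^ 2 / 2))) := by rw [h3]

private theorem k11b_prod (f : ℝ × ℝ → ℝ) (hf : Measurable f) (C : ℝ)
    (h : ∀ u v, 0 < u → 0 < v → |f (u, v)| ≤ C * Real.exp (3 * (u ^ 2 + v ^ 2) / 8)) :
    Integrable f (nu.prod nu) := by
  haveI := nu_prob
  have hg : Integrable (fun u : ℝ => Real.exp (3 * u ^ 2 / 8)) nu := by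
    refine k11b_nu _ (by fun_prop) 1 ?_
    intro u _
    rw [abs_of_pos (Real.exp_pos _), one_mul]
  have hgg := (hg.mul_prod hg).const_mul C
  refine Integrable.mono' hgg hf.aestronglyMeasurable ?_
  have h1 : ∀ᵐ p ∂(nu.prod nu), 0 < p.1 := Measure.quasiMeasurePreserving_fst.ae nu_pos
  have h2 : ∀ᵐ p ∂(nu.prod nu), 0 < p.2 := Measure.quasiMeasurePreserving_snd.ae nu_pos
  filter_upwards [h1, h2] with p hp1 hp2
  have h3 := h p.1 p.2 hp1 hp2
  rw [Real.norm_eq_abs]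
  refine h3.trans (le_of_eq ?_)
  rw [← Real.exp_add]
  congr 2
  ring

private theorem k11b_C4 {ρ u v : ℝ} (h0 : 0 < ρ) (h1 : ρ ≤ 1 / 2) (hu : 0 < u) (hv : 0 < v) :
    C4 (ρ * u * v) ≤ u ^ 4 * v ^ 4 / 16 * Real.exp ((u ^ 2 + v ^ 2) / 4) := by
  have hl : 0 ≤ ρ * u * v := by positivity
  have huv : 0 < u * v := mul_pos hu hv
  have h2 : ρ * u * v ≤ u * v / 2 := by nlinarith
  refine (C4_le _).trans ?_
  rw [abs_of_nonneg hl]
  have h3 : (ρ * u * v) ^ 4 ≤ u ^ 4 * v ^ 4 / 16 := by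
    have := pow_le_pow_left₀ hl h2 4
    calc (ρ * u * v) ^ 4 ≤ (u * v / 2) ^ 4 := this
      _ = _ := by ring
  have h4 : Real.exp (ρ * u * v) ≤ Real.exp ((u ^ 2 + v ^ 2) / 4) := by
    apply Real.exp_le_exp.mpr
    nlinarith [sq_nonneg (u - v)]
  exact mul_le_mul h3 h4 (Real.exp_pos _).le (by positivity)

private theorem k11b_pow (c x : ℝ) (hc : 0 < c) (n : ℕ) :
    x ^ (2 * n) ≤ c ^ n * Real.exp (n * (x ^ 2 / c)) := by
  have h1 : x ^ 2 / c ≤ Real.exp (x ^ 2 / c) := by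
    have := Real.add_one_le_exp (x ^ 2 / c)
    linarith
  have h2 : x ^ 2 ≤ c * Real.exp (x ^ 2 / c) := by
    rw [div_le_iff₀ hc] at h1
    linarith
  have h3 := pow_le_pow_left₀ (sq_nonneg x) h2 n
  rw [← pow_mul, mul_pow, ← Real.exp_nat_mul] at h3
  exact h3

/-- kernel `C4 (ρuv) ≥ 0`, weight `φ(v) = v²`: `|f(u) f(v)| ≤ (f(u)² v²/u² + f(v)² u²/v²)/2`, Tonelli, symmetry. -/
theorem tail4 (ρ M : ℝ) (h0 : 0 < ρ) (h1 : ρ ≤ 1 / 2) (f : ℝ → ℝ) (hf : Measurable f)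
    (hb : ∀ u, |f u| ≤ M) :
    ∫ u, ∫ v, C4 (ρ * u * v) * (f u * f v) ∂nu ∂nu ≤ ∫ u, tau4 ρ u * (f u) ^ 2 ∂nu := by
  haveI := nu_prob
  have hM : 0 ≤ M := (abs_nonneg _).trans (hb 0)
  have hC4m : Measurable C4 := continuous_C4.measurable
  have m1 : Measurable (fun p : ℝ × ℝ => C4 (ρ * p.1 * p.2)) := hC4m.comp (by fun_prop)
  -- the left hand side
  have hKm : Measurable (fun p : ℝ × ℝ => C4 (ρ * p.1 * p.2) * (f p.1 * f p.2)) :=
    m1.mul ((hf.comp measurable_fst).mul (hf.comp measurable_snd))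
  have hK : Integrable (fun p : ℝ × ℝ => C4 (ρ * p.1 * p.2) * (f p.1 * f p.2)) (nu.prod nu) := by
    apply k11b_prod _ hKm (4096 * M ^ 2)
    intro u v hu hv
    rw [abs_mul, abs_of_nonneg (C4_nonneg _), abs_mul]
    have e1 := k11b_C4 h0 h1 hu hv
    have e2 : |f u| * |f v| ≤ M * M := mul_le_mul (hb u) (hb v) (abs_nonneg _) hM
    have e3 := k11b_pow 16 u (by norm_num) 2
    have e4 := k11b_pow 16 v (by norm_num) 2
    have e5 : u ^ 4 * v ^ 4 ≤ (16 ^ 2 * Real.exp ((2:ℕ) * (u ^ 2 / 16))) *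
        (16 ^ 2 * Real.exp ((2:ℕ) * (v ^ 2 / 16))) :=
      mul_le_mul e3 e4 (by positivity) (by positivity)
    have e6 : (16 ^ 2 * Real.exp ((2:ℕ) * (u ^ 2 / 16))) * (16 ^ 2 * Real.exp ((2:ℕ) * (v ^ 2 / 16)))
        = 65536 * Real.exp ((u ^ 2 + v ^ 2) / 8) := by
      have : Real.exp ((u ^ 2 + v ^ 2) / 8) = Real.exp ((2:ℕ) * (u ^ 2 / 16)) *
          Real.exp ((2:ℕ) * (v ^ 2 / 16)) := by
        rw [← Real.exp_add]; congr 1; push_cast; ring
      rw [this]; ring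
    rw [e6] at e5
    have e7 : Real.exp ((u ^ 2 + v ^ 2) / 8) * Real.exp ((u ^ 2 + v ^ 2) / 4) =
        Real.exp (3 * (u ^ 2 + v ^ 2) / 8) := by
      rw [← Real.exp_add]; congr 1; ring
    calc C4 (ρ * u * v) * (|f u| * |f v|)
        ≤ (u ^ 4 * v ^ 4 / 16 * Real.exp ((u ^ 2 + v ^ 2) / 4)) * (M * M) :=
          mul_le_mul e1 e2 (by positivity) (by positivity)
      _ ≤ (65536 * Real.exp ((u ^ 2 + v ^ 2) / 8) / 16 * Real.exp ((u ^ 2 + v ^ 2) / 4)) * (M * M) := by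
          gcongr
      _ = 4096 * M ^ 2 * (Real.exp ((u ^ 2 + v ^ 2) / 8) * Real.exp ((u ^ 2 + v ^ 2) / 4)) := by ring
      _ = 4096 * M ^ 2 * Real.exp (3 * (u ^ 2 + v ^ 2) / 8) := by rw [e7]
  -- the majorant
  set A : ℝ × ℝ → ℝ := fun p => C4 (ρ * p.1 * p.2) * (f p.1 ^ 2 * (p.2 ^ 2 / p.1 ^ 2)) with hA
  have hAm : Measurable A := by
    have m2 : Measurable (fun p : ℝ × ℝ => f p.1 ^ 2) := (hf.comp measurable_fst).pow_const 2
    have m3 : Measurable (fun p : ℝ × ℝ => p.2 ^ 2 / p.1 ^ 2) :=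
      (measurable_snd.pow_const 2).div (measurable_fst.pow_const 2)
    exact m1.mul (m2.mul m3)
  have hAi : Integrable A (nu.prod nu) := by
    apply k11b_prod _ hAm (6912 * M ^ 2)
    intro u v hu hv
    have hCn := C4_nonneg (ρ * u * v)
    have e0 : |A (u, v)| = C4 (ρ * u * v) * (f u ^ 2 * (v ^ 2 / u ^ 2)) := by
      simp only [hA]
      rw [abs_of_nonneg (by positivity)]
    rw [e0]
    have e1 := k11b_C4 h0 h1 hu hv
    have e2 : f u ^ 2 ≤ M ^ 2 := by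
      rw [← sq_abs (f u)]
      exact pow_le_pow_left₀ (abs_nonneg _) (hb u) 2
    have e3 := k11b_pow 8 u (by norm_num) 1
    have e4 := k11b_pow 24 v (by norm_num) 3
    have e5 : u ^ 2 * v ^ 6 ≤ (8 ^ 1 * Real.exp ((1:ℕ) * (u ^ 2 / 8))) *
        (24 ^ 3 * Real.exp ((3:ℕ) * (v ^ 2 / 24))) :=
      mul_le_mul e3 e4 (by positivity) (by positivity)
    have e6 : (8 ^ 1 * Real.exp ((1:ℕ) * (u ^ 2 / 8))) * (24 ^ 3 * Real.exp ((3:ℕ) * (v ^ 2 / 24)))
        = 110592 * Real.exp ((u ^ 2 + v ^ 2) / 8) := by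
      have : Real.exp ((u ^ 2 + v ^ 2) / 8) = Real.exp ((1:ℕ) * (u ^ 2 / 8)) *
          Real.exp ((3:ℕ) * (v ^ 2 / 24)) := by
        rw [← Real.exp_add]; congr 1; push_cast; ring
      rw [this]; ring
    rw [e6] at e5
    have e7 : Real.exp ((u ^ 2 + v ^ 2) / 8) * Real.exp ((u ^ 2 + v ^ 2) / 4) =
        Real.exp (3 * (u ^ 2 + v ^ 2) / 8) := by
      rw [← Real.exp_add]; congr 1; ring
    have hu2 : u ^ 2 ≠ 0 := by positivity
    calc C4 (ρ * u * v) * (f u ^ 2 * (v ^ 2 / u ^ 2))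
        ≤ (u ^ 4 * v ^ 4 / 16 * Real.exp ((u ^ 2 + v ^ 2) / 4)) * (M ^ 2 * (v ^ 2 / u ^ 2)) := by
          apply mul_le_mul e1 _ (by positivity) (by positivity)
          exact mul_le_mul_of_nonneg_right e2 (by positivity)
      _ = (u ^ 2 * v ^ 6) / 16 * Real.exp ((u ^ 2 + v ^ 2) / 4) * M ^ 2 := by
          field_simp
      _ ≤ (110592 * Real.exp ((u ^ 2 + v ^ 2) / 8)) / 16 * Real.exp ((u ^ 2 + v ^ 2) / 4) * M ^ 2 := by
          gcongr
      _ = 6912 * M ^ 2 * (Real.exp ((u ^ 2 + v ^ 2) / 8) * Real.exp ((u ^ 2 + v ^ 2) / 4)) := by ring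
      _ = 6912 * M ^ 2 * Real.exp (3 * (u ^ 2 + v ^ 2) / 8) := by rw [e7]
  have hAs : Integrable (fun p : ℝ × ℝ => A p.swap) (nu.prod nu) := hAi.swap
  -- pointwise
  have hpos2 : ∀ᵐ p ∂(nu.prod nu), 0 < p.1 ∧ 0 < p.2 := by
    have p1 : ∀ᵐ p ∂(nu.prod nu), 0 < p.1 :=
      (Measure.quasiMeasurePreserving_fst (μ := nu) (ν := nu)).ae nu_pos
    have p2 : ∀ᵐ p ∂(nu.prod nu), 0 < p.2 :=
      (Measure.quasiMeasurePreserving_snd (μ := nu) (ν := nu)).ae nu_pos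
    filter_upwards [p1, p2] with p h2 h3
    exact ⟨h2, h3⟩
  have hpt : ∀ᵐ p : ℝ × ℝ ∂(nu.prod nu), C4 (ρ * p.1 * p.2) * (f p.1 * f p.2) ≤
      1 / 2 * (A p + A p.swap) := by
    filter_upwards [hpos2] with p hp
    obtain ⟨hp1, hp2⟩ := hp
    have hT := C4_nonneg (ρ * p.1 * p.2)
    have eT : C4 (ρ * p.2 * p.1) = C4 (ρ * p.1 * p.2) := by
      congr 1; ring
    simp only [hA, Prod.fst_swap, Prod.snd_swap]
    rw [eT, ← mul_add]
    have e5 : f p.1 * f p.2 ≤ 1 / 2 * (f p.1 ^ 2 * (p.2 ^ 2 / p.1 ^ 2)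
        + f p.2 ^ 2 * (p.1 ^ 2 / p.2 ^ 2)) := by
      set r := p.2 ^ 2 / p.1 ^ 2 with hr
      have hr0 : 0 < r := by rw [hr]; positivity
      have er : p.1 ^ 2 / p.2 ^ 2 = r⁻¹ := by rw [hr, inv_div]
      rw [er]
      set a := f p.1
      set b := f p.2
      have : 1 / 2 * (a ^ 2 * r + b ^ 2 * r⁻¹) - a * b = 1 / 2 * (a * r - b) ^ 2 * r⁻¹ := by
        field_simp
        ring
      have h7 : 0 ≤ 1 / 2 * (a * r - b) ^ 2 * r⁻¹ := by positivity
      linarith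
    have := mul_le_mul_of_nonneg_left e5 hT
    linarith
  have hA2 : Integrable (fun p : ℝ × ℝ => 1 / 2 * (A p + A p.swap)) (nu.prod nu) :=
    (hAi.add hAs).const_mul (1 / 2)
  have hmono := integral_mono_ae hK hA2 hpt
  rw [integral_const_mul, integral_add hAi hAs, integral_prod_swap (f := A)] at hmono
  rw [integral_prod _ hK, integral_prod _ hAi] at hmono
  have hin : ∀ u : ℝ, ∫ v, A (u, v) ∂nu = tau4 ρ u * (f u) ^ 2 := by
    intro u
    unfold tau4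
    have e : ∀ v : ℝ, A (u, v) = (C4 (ρ * u * v) * v ^ 2) * (f u ^ 2 / u ^ 2) := by
      intro v
      simp only [hA]
      ring
    simp only [e]
    rw [integral_mul_const]
    ring
  simp only [hin] at hmono
  linarith

end Pool.Agent.SSCP
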