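import Pool.Agent.SSCP.K1
import Pool.Agent.SSC3N.NuBasic

/-! [K11m] measurability and growth of two parameter integrals -/

set_option autoImplicit false
open MeasureTheory ProbabilityTheory Set Real
open scoped ENNReal

namespace Pool.Agent.SSCP
open Pool.Agent.SSC3N
open Pool.Agent.SSC3 (ker W E2 Per len slice g2)

theorem tau4_meas (ρ : ℝ) : Measurable (tau4 ρ) := by
  have := nu_prob
  have hc : Continuous (fun p : ℝ × ℝ => C4 (ρ * p.1 * p.2) * p.2 ^ 2) :=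
    (continuous_C4.comp (by fun_prop)).mul (by fun_prop)
  have h : StronglyMeasurable (fun u : ℝ => ∫ v, C4 (ρ * u * v) * v ^ 2 ∂nu) :=
    hc.stronglyMeasurable.integral_prod_right'
  unfold tau4
  exact h.measurable.div (by fun_prop)

theorem Dp_meas (ρ : ℝ) : Measurable (Dp ρ) := by
  have := nu_prob
  have hc : Continuous (fun p : ℝ × ℝ => Vp (ρ * p.1 * p.2) *
      (1 + Real.exp (-(4 * p.1 ^ 2)) - Real.exp (-(4 * p.2 ^ 2)))) :=
    (continuous_Vp.comp (by fun_prop)).mul (by fun_prop)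
  have h : StronglyMeasurable (fun u : ℝ => ∫ v, Vp (ρ * u * v) *
      (1 + Real.exp (-(4 * u ^ 2)) - Real.exp (-(4 * v ^ 2))) ∂nu) :=
    hc.stronglyMeasurable.integral_prod_right'
  exact h.measurable

private theorem k11m_int (k : ℕ) :
    Integrable (fun v : ℝ => v ^ k * Real.exp (3 * v ^ 2 / 8)) nu := by
  rw [integrable_nu_iff _ (by fun_prop)]
  have h := integrableOn_rpow_mul_exp_neg_mul_sq (b := 1 / 8) (by norm_num)
    (s := ((k + 1 : ℕ) : ℝ)) (by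
      have : (0:ℝ) ≤ ((k + 1 : ℕ) : ℝ) := Nat.cast_nonneg _
      linarith)
  refine h.congr_fun ?_ measurableSet_Ioi
  intro x hx
  simp only
  rw [Real.rpow_natCast, pow_succ]
  have e : Real.exp (-(1 / 8) * x ^ 2) = Real.exp (3 * x ^ 2 / 8) * Real.exp (-(x ^ 2 / 2)) := by
    rw [← Real.exp_add]
    congr 1
    ring
  rw [e]
  ring

private theorem k11m_exp {ρ u v : ℝ} (h1 : ρ ≤ 1 / 2) (hu : 0 < u) (hv : 0 < v) :
    Real.exp (ρ * u * v) ≤ Real.exp (u ^ 2 / 6) * Real.exp (3 * v ^ 2 / 8) := by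
  rw [← Real.exp_add]
  apply Real.exp_le_exp.mpr
  have h2 : ρ * u * v ≤ 1 / 2 * u * v := by
    have := mul_pos hu hv
    nlinarith
  nlinarith [sq_nonneg (u - 3 / 2 * v)]

private theorem k11m_sq (u : ℝ) : u ^ 2 * Real.exp (u ^ 2 / 6) ≤ 12 * Real.exp (u ^ 2 / 4) := by
  have h := Real.add_one_le_exp (u ^ 2 / 12)
  have e : Real.exp (u ^ 2 / 4) = Real.exp (u ^ 2 / 12) * Real.exp (u ^ 2 / 6) := by
    rw [← Real.exp_add]
    congr 1
    ring
  rw [e]
  have h2 : u ^ 2 ≤ 12 * Real.exp (u ^ 2 / 12) := by linarith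
  nlinarith [Real.exp_pos (u ^ 2 / 6)]

private theorem k11m_one (u : ℝ) : Real.exp (u ^ 2 / 6) ≤ Real.exp (u ^ 2 / 4) := by
  apply Real.exp_le_exp.mpr
  nlinarith [sq_nonneg u]

theorem tau4_growth (ρ : ℝ) (h0 : 0 < ρ) (h1 : ρ ≤ 1 / 2) :
    ∃ C : ℝ, ∀ u, 0 < u → 0 ≤ tau4 ρ u ∧ tau4 ρ u ≤ C * Real.exp (u ^ 2 / 4) := by
  set I : ℝ := ∫ v, v ^ 6 * Real.exp (3 * v ^ 2 / 8) ∂nu with hI
  have hI0 : 0 ≤ I := by
    apply integral_nonneg_of_ae
    filter_upwards [nu_pos] with v hv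
    have hv' : (0:ℝ) < v := hv
    simp only [Pi.zero_apply]
    positivity
  refine ⟨12 * (ρ ^ 4 * I), ?_⟩
  intro u hu
  constructor
  · unfold tau4
    apply div_nonneg _ (by positivity)
    apply integral_nonneg
    intro v
    exact mul_nonneg (C4_nonneg _) (by positivity)
  · have h2 : ∫ v, C4 (ρ * u * v) * v ^ 2 ∂nu ≤
        ∫ v, (ρ ^ 4 * u ^ 4 * Real.exp (u ^ 2 / 6)) * (v ^ 6 * Real.exp (3 * v ^ 2 / 8)) ∂nu := by
      apply integral_mono_of_nonneg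
      · filter_upwards with v
        exact mul_nonneg (C4_nonneg _) (by positivity)
      · exact (k11m_int 6).const_mul _
      · filter_upwards [nu_pos] with v hv
        have hv' : (0:ℝ) < v := hv
        have hx : 0 < ρ * u * v := by positivity
        have h3 := C4_le (ρ * u * v)
        rw [abs_of_pos hx] at h3
        have h4 := k11m_exp h1 hu hv'
        calc C4 (ρ * u * v) * v ^ 2 ≤ ((ρ * u * v) ^ 4 * Real.exp (ρ * u * v)) * v ^ 2 :=
              mul_le_mul_of_nonneg_right h3 (by positivity)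
          _ ≤ ((ρ * u * v) ^ 4 * (Real.exp (u ^ 2 / 6) * Real.exp (3 * v ^ 2 / 8))) * v ^ 2 := by
              gcongr
          _ = _ := by ring
    rw [integral_const_mul, ← hI] at h2
    unfold tau4
    rw [div_le_iff₀ (by positivity)]
    refine h2.trans ?_
    have h5 := k11m_sq u
    have h6 : 0 ≤ ρ ^ 4 * I * u ^ 2 := by positivity
    calc ρ ^ 4 * u ^ 4 * Real.exp (u ^ 2 / 6) * I
        = (ρ ^ 4 * I * u ^ 2) * (u ^ 2 * Real.exp (u ^ 2 / 6)) := by ring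
      _ ≤ (ρ ^ 4 * I * u ^ 2) * (12 * Real.exp (u ^ 2 / 4)) := mul_le_mul_of_nonneg_left h5 h6
      _ = _ := by ring

theorem Dp_growth (ρ : ℝ) (h0 : 0 < ρ) (h1 : ρ ≤ 1 / 2) :
    ∃ C : ℝ, ∀ u, 0 < u → |Dp ρ u| ≤ C * Real.exp (u ^ 2 / 4) := by
  set I : ℝ := ∫ v, v ^ 1 * Real.exp (3 * v ^ 2 / 8) ∂nu with hI
  have hI0 : 0 ≤ I := by
    apply integral_nonneg_of_ae
    filter_upwards [nu_pos] with v hv
    have hv' : (0:ℝ) < v := hv
    simp only [Pi.zero_apply]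
    positivity
  refine ⟨2 * ρ * I * 7, ?_⟩
  intro u hu
  have h2 : ‖∫ v, Vp (ρ * u * v) * (1 + Real.exp (-(4 * u ^ 2)) - Real.exp (-(4 * v ^ 2))) ∂nu‖ ≤
      ∫ v, (2 * ρ * u * Real.exp (u ^ 2 / 6)) * (v ^ 1 * Real.exp (3 * v ^ 2 / 8)) ∂nu := by
    apply norm_integral_le_of_norm_le ((k11m_int 1).const_mul _)
    filter_upwards [nu_pos] with v hv
    have hv' : (0:ℝ) < v := hv
    have hx : 0 < ρ * u * v := by positivity
    have h3 := Vp_le (ρ * u * v) hx.le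
    have h30 := Vp_nonneg (ρ * u * v) hx.le
    have h4 := k11m_exp h1 hu hv'
    have e1 : Real.exp (-(4 * u ^ 2)) ≤ 1 := Real.exp_le_one_iff.mpr (by nlinarith [sq_nonneg u])
    have e2 : Real.exp (-(4 * v ^ 2)) ≤ 1 := Real.exp_le_one_iff.mpr (by nlinarith [sq_nonneg v])
    have e1' := Real.exp_pos (-(4 * u ^ 2))
    have e2' := Real.exp_pos (-(4 * v ^ 2))
    have h5 : |1 + Real.exp (-(4 * u ^ 2)) - Real.exp (-(4 * v ^ 2))| ≤ 2 := by
      rw [abs_le]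
      constructor <;> linarith
    rw [Real.norm_eq_abs, abs_mul, abs_of_nonneg h30]
    calc Vp (ρ * u * v) * |1 + Real.exp (-(4 * u ^ 2)) - Real.exp (-(4 * v ^ 2))|
        ≤ (ρ * u * v * Real.exp (ρ * u * v)) * 2 := by gcongr
      _ ≤ (ρ * u * v * (Real.exp (u ^ 2 / 6) * Real.exp (3 * v ^ 2 / 8))) * 2 := by gcongr
      _ = _ := by ring
  rw [integral_const_mul, ← hI, Real.norm_eq_abs] at h2
  unfold Dp
  refine h2.trans ?_
  have h5 := k11m_sq u
  have h6 := k11m_one u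
  have h7 : u * Real.exp (u ^ 2 / 6) ≤ 7 * Real.exp (u ^ 2 / 4) := by
    have : u ≤ (1 + u ^ 2) / 2 := by nlinarith [sq_nonneg (u - 1)]
    have hp := Real.exp_pos (u ^ 2 / 6)
    have hq := Real.exp_pos (u ^ 2 / 4)
    calc u * Real.exp (u ^ 2 / 6) ≤ (1 + u ^ 2) / 2 * Real.exp (u ^ 2 / 6) :=
          mul_le_mul_of_nonneg_right this hp.le
      _ = (Real.exp (u ^ 2 / 6) + u ^ 2 * Real.exp (u ^ 2 / 6)) / 2 := by ring
      _ ≤ 7 * Real.exp (u ^ 2 / 4) := by linarith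
  have h8 : 0 ≤ 2 * ρ * I := by positivity
  calc 2 * ρ * u * Real.exp (u ^ 2 / 6) * I = (2 * ρ * I) * (u * Real.exp (u ^ 2 / 6)) := by ring
    _ ≤ (2 * ρ * I) * (7 * Real.exp (u ^ 2 / 4)) := mul_le_mul_of_nonneg_left h7 h8
    _ = _ := by ring

end Pool.Agent.SSCP
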