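import Pool.Agent.SSCP.Defs

/-! [K2a] Wallis integrals -/

set_option autoImplicit false
open MeasureTheory ProbabilityTheory Set Real
open scoped ENNReal

namespace Pool.Agent.SSCP
open Pool.Agent.SSC3N
open Pool.Agent.SSC3 (ker W E2 Per len slice g2)

/-- `Wl (k+2) = (k+1)/(k+2) Wl k` (`integral_cos_pow`), `Wl` antitone and positive, and
`Wl k * Wl (k+1) = π/(2(k+1))` by induction, hence `Wl k ^ 2 ≥ π/(2(k+1))`. -/
theorem Wl_rec (k : ℕ) : Wl (k + 2) = ((k : ℝ) + 1) / (k + 2) * Wl k := by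
  unfold Wl
  rw [integral_cos_pow]
  simp

private theorem cos_nonneg_aux {x : ℝ} (h0 : 0 ≤ x) (h1 : x ≤ π / 2) : 0 ≤ Real.cos x :=
  Real.cos_nonneg_of_neg_pi_div_two_le_of_le (by linarith [Real.pi_pos]) h1

theorem Wl_pos (k : ℕ) : 0 < Wl k := by
  unfold Wl
  apply intervalIntegral.intervalIntegral_pos_of_pos_on
  · exact (Real.continuous_cos.pow k).intervalIntegrable _ _
  · intro x hx
    exact pow_pos (Real.cos_pos_of_mem_Ioo ⟨by linarith [hx.1, Real.pi_pos], hx.2⟩) k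
  · linarith [Real.pi_pos]

theorem Wl_anti (k : ℕ) : Wl (k + 1) ≤ Wl k := by
  unfold Wl
  apply intervalIntegral.integral_mono_on (by linarith [Real.pi_pos])
  · exact (Real.continuous_cos.pow (k + 1)).intervalIntegrable _ _
  · exact (Real.continuous_cos.pow k).intervalIntegrable _ _
  · intro x hx
    have h0 := cos_nonneg_aux hx.1 hx.2
    exact pow_le_pow_of_le_one h0 (Real.cos_le_one x) (Nat.le_succ k)

private theorem Wl_mul (k : ℕ) : Wl k * Wl (k + 1) = π / (2 * ((k : ℝ) + 1)) := by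
  induction k with
  | zero =>
    have h0 : Wl 0 = π / 2 := by simp [Wl]
    have h1 : Wl 1 = 1 := by simp [Wl]
    rw [h0, zero_add, h1]
    simp
  | succ k ih =>
    have e : Wl (k + 1 + 1) = ((k : ℝ) + 1) / (k + 2) * Wl k := Wl_rec k
    rw [e]
    have hk : (0 : ℝ) < (k : ℝ) + 1 := by positivity
    have hk2 : (0 : ℝ) < (k : ℝ) + 2 := by positivity
    calc Wl (k + 1) * (((k : ℝ) + 1) / (k + 2) * Wl k)
        = ((k : ℝ) + 1) / (k + 2) * (Wl k * Wl (k + 1)) := by ring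
      _ = ((k : ℝ) + 1) / (k + 2) * (π / (2 * ((k : ℝ) + 1))) := by rw [ih]
      _ = π / (2 * (((k + 1 : ℕ) : ℝ) + 1)) := by
          push_cast
          field_simp
          ring

theorem Wl_lower (k : ℕ) : π / (2 * ((k : ℝ) + 1)) ≤ Wl k ^ 2 := by
  rw [← Wl_mul, sq]
  exact mul_le_mul_of_nonneg_left (Wl_anti k) (Wl_pos k).le

end Pool.Agent.SSCP
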