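import Pool.Agent.SSCP.Defs

/-! Row K2b: lower bound for the moments `mA k`. -/

set_option autoImplicit false
open MeasureTheory ProbabilityTheory Set Real
open scoped ENNReal

namespace Pool.Agent.SSCP
open Pool.Agent.SSC3N
open Pool.Agent.SSC3 (ker W E2 Per len slice g2)

private theorem k2b_derivF (k : ℕ) (t : ℝ) :
    HasDerivAt (fun t : ℝ => -Real.cos (2 * π * t) ^ (k + 1))
      (((k : ℝ) + 1) * (2 * π * Real.sin (2 * π * t) * Real.cos (2 * π * t) ^ k)) t := by
  have h1 : HasDerivAt (fun t : ℝ => 2 * π * t) (2 * π) t := by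
    simpa using (hasDerivAt_id t).const_mul (2 * π)
  have h2 := (h1.cos.pow (k + 1)).neg
  refine h2.congr_deriv ?_
  push_cast
  ring

private theorem k2b_derivv (t : ℝ) : HasDerivAt vt (2 - 21 / 2 * t) t := by
  unfold vt
  have h1 : HasDerivAt (fun t : ℝ => 2 * t) 2 t := by
    simpa using (hasDerivAt_id t).const_mul (2 : ℝ)
  have h2 : HasDerivAt (fun t : ℝ => 21 / 4 * t ^ 2) (21 / 4 * (2 * t)) t := by
    simpa using ((hasDerivAt_id t).pow 2).const_mul (21 / 4 : ℝ)
  refine (h1.sub h2).congr_deriv ?_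
  ring

private theorem k2b_parts (k : ℕ) : ((k : ℝ) + 1) * mA k =
    (∫ t in (0:ℝ)..(1 / 3), (2 - 21 / 2 * t) * Real.cos (2 * π * t) ^ (k + 1)) -
      1 / 12 * (-(1 / 2)) ^ (k + 1) := by
  have hc3 : Real.cos (2 * π * (1 / 3)) = -(1 / 2) := by
    rw [show 2 * π * (1 / 3) = π - π / 3 by ring, Real.cos_pi_sub, Real.cos_pi_div_three]
  have hp := intervalIntegral.integral_mul_deriv_eq_deriv_mul (a := (0 : ℝ)) (b := 1 / 3)
    (u := vt) (v := fun t : ℝ => -Real.cos (2 * π * t) ^ (k + 1))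
    (u' := fun t => 2 - 21 / 2 * t)
    (v' := fun t => ((k : ℝ) + 1) * (2 * π * Real.sin (2 * π * t) * Real.cos (2 * π * t) ^ k))
    (fun t _ => k2b_derivv t) (fun t _ => k2b_derivF k t)
    (by apply Continuous.intervalIntegrable; fun_prop)
    (by apply Continuous.intervalIntegrable; fun_prop)
  have e1 : ((k : ℝ) + 1) * mA k = ∫ t in (0:ℝ)..(1 / 3), vt t * (((k : ℝ) + 1) *
      (2 * π * Real.sin (2 * π * t) * Real.cos (2 * π * t) ^ k)) := by
    unfold mA
    rw [← intervalIntegral.integral_const_mul]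
    congr 1
    funext t
    ring
  rw [e1, hp, hc3]
  have e2 : (∫ t in (0:ℝ)..(1 / 3), (2 - 21 / 2 * t) * -Real.cos (2 * π * t) ^ (k + 1)) =
      -∫ t in (0:ℝ)..(1 / 3), (2 - 21 / 2 * t) * Real.cos (2 * π * t) ^ (k + 1) := by
    rw [← intervalIntegral.integral_neg]
    congr 1
    funext t
    ring
  rw [e2]
  have v0 : vt 0 = 0 := by unfold vt; norm_num
  have v3 : vt (1 / 3) = 1 / 12 := by unfold vt; norm_num
  rw [v0, v3]
  ring

private theorem k2b_wallis (m : ℕ) :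
    ∫ t in (0:ℝ)..(1 / 4), Real.cos (2 * π * t) ^ m = Wl m / (2 * π) := by
  have h := intervalIntegral.integral_comp_mul_left (a := (0 : ℝ)) (b := 1 / 4)
    (fun x : ℝ => Real.cos x ^ m) (c := 2 * π) (by positivity)
  rw [h]
  unfold Wl
  rw [mul_zero, show 2 * π * (1 / 4) = π / 2 by ring, smul_eq_mul]
  field_simp

private theorem k2b_sin (k : ℕ) :
    ∫ t in (0:ℝ)..(1 / 4), Real.sin (2 * π * t) * Real.cos (2 * π * t) ^ k =
      1 / (2 * π * ((k : ℝ) + 1)) := by
  have h := intervalIntegral.integral_eq_sub_of_hasDerivAt (a := (0 : ℝ)) (b := 1 / 4)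
    (f := fun t : ℝ => -Real.cos (2 * π * t) ^ (k + 1))
    (f' := fun t => ((k : ℝ) + 1) * (2 * π * Real.sin (2 * π * t) * Real.cos (2 * π * t) ^ k))
    (fun t _ => k2b_derivF k t)
    (by apply Continuous.intervalIntegrable; fun_prop)
  have e : (∫ t in (0:ℝ)..(1 / 4), ((k : ℝ) + 1) * (2 * π * Real.sin (2 * π * t) *
      Real.cos (2 * π * t) ^ k)) = (2 * π * ((k : ℝ) + 1)) *
      ∫ t in (0:ℝ)..(1 / 4), Real.sin (2 * π * t) * Real.cos (2 * π * t) ^ k := by
    rw [← intervalIntegral.integral_const_mul]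
    congr 1
    funext t
    ring
  have hc : Real.cos (2 * π * (1 / 4)) = 0 := by
    rw [show 2 * π * (1 / 4) = π / 2 by ring, Real.cos_pi_div_two]
  rw [e] at h
  simp only [hc, mul_zero, Real.cos_zero, one_pow, ne_eq, Nat.add_eq_zero_iff, one_ne_zero,
    and_false, not_false_eq_true, zero_pow, neg_zero, sub_neg_eq_add, zero_add] at h
  have hpos : (0 : ℝ) < 2 * π * ((k : ℝ) + 1) := by positivity
  rw [eq_div_iff hpos.ne', mul_comm]
  exact h

/-- `(k+1) mA k = ∫_0^{1/3} (2 - 21/2 t) cos(2πt)^{k+1} dt - (1/12)(-1/2)^{k+1}` (integration by parts,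
`v_0 = 0`, `v_{1/3} = 1/12`).  On `[0,1/4]`: `∫ 2 cos^{k+1} = Wl(k+1)/π` and
`t ≤ tan(2πt)/(2π)` gives `∫ t cos(2πt)^{k+1} ≤ ∫ sin cos^k/(2π) = 1/(4π²(k+1))`.  On `[1/4,1/3]`:
`|2 - 21/2 t| ≤ 3/2`, `|cos| ≤ 1/2`. -/
theorem V_gen (k : ℕ) :
    Wl (k + 1) / π - 21 / (8 * π ^ 2 * ((k : ℝ) + 1)) - 0.21 / 2 ^ (k + 1) ≤ ((k : ℝ) + 1) * mA k := by
  have hπ : 0 < π := Real.pi_pos
  rw [k2b_parts]
  have hI : ∀ a b : ℝ, IntervalIntegrable
      (fun t : ℝ => (2 - 21 / 2 * t) * Real.cos (2 * π * t) ^ (k + 1)) volume a b := by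
    intro a b
    apply Continuous.intervalIntegrable
    fun_prop
  rw [← intervalIntegral.integral_add_adjacent_intervals (hI 0 (1 / 4)) (hI (1 / 4) (1 / 3))]
  -- part 1
  have h1 : Wl (k + 1) / π - 21 / (8 * π ^ 2 * ((k : ℝ) + 1)) ≤
      ∫ t in (0:ℝ)..(1 / 4), (2 - 21 / 2 * t) * Real.cos (2 * π * t) ^ (k + 1) := by
    have e : Wl (k + 1) / π - 21 / (8 * π ^ 2 * ((k : ℝ) + 1)) =
        ∫ t in (0:ℝ)..(1 / 4), (2 * Real.cos (2 * π * t) ^ (k + 1) -
          21 / (4 * π) * (Real.sin (2 * π * t) * Real.cos (2 * π * t) ^ k)) := by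
      rw [intervalIntegral.integral_sub, intervalIntegral.integral_const_mul,
        intervalIntegral.integral_const_mul, k2b_wallis, k2b_sin]
      · field_simp
        ring
      · apply Continuous.intervalIntegrable; fun_prop
      · apply Continuous.intervalIntegrable; fun_prop
    rw [e]
    apply intervalIntegral.integral_mono_on (by norm_num)
    · apply Continuous.intervalIntegrable; fun_prop
    · exact hI _ _
    · intro t ht
      have ht0 : 0 ≤ t := ht.1
      have ht1 : t ≤ 1 / 4 := ht.2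
      have hx0 : 0 ≤ 2 * π * t := by positivity
      have hx1 : 2 * π * t ≤ π / 2 := by nlinarith
      have hcos : 0 ≤ Real.cos (2 * π * t) := Real.cos_nonneg_of_mem_Icc ⟨by linarith, hx1⟩
      have key : 2 * π * t * Real.cos (2 * π * t) ≤ Real.sin (2 * π * t) := by
        rcases hx1.lt_or_eq with h | h
        · have h2 := Real.le_tan hx0 h
          have h3 : 0 < Real.cos (2 * π * t) := Real.cos_pos_of_mem_Ioo ⟨by linarith, h⟩
          rw [Real.tan_eq_sin_div_cos, le_div_iff₀ h3] at h2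
          exact h2
        · rw [h, Real.cos_pi_div_two, Real.sin_pi_div_two]; norm_num
      have hk : 0 ≤ Real.cos (2 * π * t) ^ k := by positivity
      have key2 : t * Real.cos (2 * π * t) ^ (k + 1) ≤
          1 / (2 * π) * (Real.sin (2 * π * t) * Real.cos (2 * π * t) ^ k) := by
        have h4 : 2 * π * (t * Real.cos (2 * π * t) ^ (k + 1)) ≤
            Real.sin (2 * π * t) * Real.cos (2 * π * t) ^ k := by
          calc 2 * π * (t * Real.cos (2 * π * t) ^ (k + 1))
              = (2 * π * t * Real.cos (2 * π * t)) * Real.cos (2 * π * t) ^ k := by ring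
            _ ≤ _ := mul_le_mul_of_nonneg_right key hk
        rw [one_div, ← div_eq_inv_mul, le_div_iff₀ (by positivity)]
        linarith
      have e5 : 21 / (4 * π) * (Real.sin (2 * π * t) * Real.cos (2 * π * t) ^ k) =
          21 / 2 * (1 / (2 * π) * (Real.sin (2 * π * t) * Real.cos (2 * π * t) ^ k)) := by
        field_simp
        ring
      rw [e5]
      nlinarith [key2]
  -- part 2
  have h2 : -(1 / 8) / 2 ^ (k + 1) ≤
      ∫ t in (1 / 4 : ℝ)..(1 / 3), (2 - 21 / 2 * t) * Real.cos (2 * π * t) ^ (k + 1) := by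
    have e : -(1 / 8 : ℝ) / 2 ^ (k + 1) = ∫ t in (1 / 4 : ℝ)..(1 / 3), -(3 / 2 : ℝ) / 2 ^ (k + 1) := by
      rw [intervalIntegral.integral_const, smul_eq_mul]
      ring
    rw [e]
    apply intervalIntegral.integral_mono_on (by norm_num)
    · apply Continuous.intervalIntegrable; fun_prop
    · exact hI _ _
    · intro t ht
      have ht0 : 1 / 4 ≤ t := ht.1
      have ht1 : t ≤ 1 / 3 := ht.2
      have hc1 : Real.cos (2 * π * t) ≤ 0 := by
        apply Real.cos_nonpos_of_pi_div_two_le_of_le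
        · nlinarith
        · nlinarith
      have hc2 : -(1 / 2) ≤ Real.cos (2 * π * t) := by
        have h3 : Real.cos (2 * π * (1 / 3)) = -(1 / 2) := by
          rw [show 2 * π * (1 / 3) = π - π / 3 by ring, Real.cos_pi_sub, Real.cos_pi_div_three]
        rw [← h3]
        apply Real.cos_le_cos_of_nonneg_of_le_pi
        · positivity
        · nlinarith
        · nlinarith
      have habs : |Real.cos (2 * π * t)| ≤ 1 / 2 := by
        rw [abs_le]; constructor <;> linarith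
      have habs2 : |Real.cos (2 * π * t) ^ (k + 1)| ≤ (1 / 2) ^ (k + 1) := by
        rw [abs_pow]
        exact pow_le_pow_left₀ (abs_nonneg _) habs _
      have h6 : |(2 - 21 / 2 * t) * Real.cos (2 * π * t) ^ (k + 1)| ≤ 3 / 2 * (1 / 2) ^ (k + 1) := by
        rw [abs_mul]
        apply mul_le_mul _ habs2 (abs_nonneg _) (by norm_num)
        rw [abs_le]; constructor <;> linarith
      have h7 := (abs_le.mp h6).1
      have h8 : -(3 / 2 : ℝ) / 2 ^ (k + 1) = -(3 / 2 * (1 / 2) ^ (k + 1)) := by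
        rw [one_div, inv_pow]; ring
      rw [h8]
      exact h7
  -- boundary term
  have h3 : (1 / 12 : ℝ) * (-(1 / 2)) ^ (k + 1) ≤ 1 / 12 / 2 ^ (k + 1) := by
    have h9 : |(-(1 / 2 : ℝ)) ^ (k + 1)| = 1 / 2 ^ (k + 1) := by
      rw [abs_pow, abs_neg, abs_of_pos (by norm_num : (0:ℝ) < 1 / 2), one_div, inv_pow, one_div]
    have h10 := le_abs_self ((-(1 / 2 : ℝ)) ^ (k + 1))
    rw [h9] at h10
    calc (1 / 12 : ℝ) * (-(1 / 2)) ^ (k + 1) ≤ 1 / 12 * (1 / 2 ^ (k + 1)) := by linarith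
      _ = _ := by ring
  have h4 : (0 : ℝ) < 1 / 2 ^ (k + 1) := by positivity
  have h5 : (0.21 : ℝ) / 2 ^ (k + 1) = 0.21 * (1 / 2 ^ (k + 1)) := by ring
  have h6 : -(1 / 8 : ℝ) / 2 ^ (k + 1) = -(1 / 8) * (1 / 2 ^ (k + 1)) := by ring
  have h7 : (1 / 12 : ℝ) / 2 ^ (k + 1) = 1 / 12 * (1 / 2 ^ (k + 1)) := by ring
  rw [h6] at h2
  rw [h7] at h3
  rw [h5]
  nlinarith [h1, h2, h3, h4]

end Pool.Agent.SSCP
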