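import Pool.Agent.SSCP.Defs

/-! [K2c] upper bound for a trigonometric moment -/

set_option autoImplicit false
open MeasureTheory ProbabilityTheory Set Real
open scoped ENNReal

namespace Pool.Agent.SSCP
open Pool.Agent.SSC3N
open Pool.Agent.SSC3 (ker W E2 Per len slice g2)

private theorem k2c_mul_cos_le_sin {x : ℝ} (h0 : 0 ≤ x) (h1 : x ≤ π / 2) :
    x * Real.cos x ≤ Real.sin x := by
  rcases eq_or_lt_of_le h1 with h | h
  · rw [h]; simp
  · have hc : 0 < Real.cos x := Real.cos_pos_of_mem_Ioo ⟨by linarith [Real.pi_pos], h⟩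
    have ht := Real.le_tan h0 h
    rw [Real.tan_eq_sin_div_cos, le_div_iff₀ hc] at ht
    exact ht

private theorem k2c_cont (k : ℕ) : Continuous (fun t : ℝ => Real.cos (2 * π * t) ^ k) := by
  fun_prop

private theorem k2c_A (k : ℕ) :
    ∫ t in (0:ℝ)..(1 / 4), Real.cos (2 * π * t) ^ k = Wl k / (2 * π) := by
  have h := intervalIntegral.integral_comp_mul_left (a := (0:ℝ)) (b := 1 / 4)
    (fun x => Real.cos x ^ k) (c := 2 * π) (by positivity)
  rw [h]
  have e : 2 * π * (1 / 4) = π / 2 := by ring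
  rw [e, mul_zero, smul_eq_mul]
  unfold Wl
  field_simp

private theorem k2c_C (m : ℕ) :
    ∫ t in (0:ℝ)..(1 / 4), Real.sin (2 * π * t) * Real.cos (2 * π * t) ^ m =
      1 / (2 * π * ((m : ℝ) + 1)) := by
  have hd : ∀ t ∈ uIcc (0:ℝ) (1 / 4), HasDerivAt
      (fun t : ℝ => -(Real.cos (2 * π * t) ^ (m + 1)) / (2 * π * ((m : ℝ) + 1)))
      (Real.sin (2 * π * t) * Real.cos (2 * π * t) ^ m) t := by
    intro t _
    have h1 : HasDerivAt (fun t : ℝ => 2 * π * t) (2 * π) t := by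
      simpa using (hasDerivAt_id t).const_mul (2 * π)
    have h2 := (h1.cos.pow (m + 1)).neg.div_const (2 * π * ((m : ℝ) + 1))
    have hm : ((m : ℝ) + 1) ≠ 0 := by positivity
    have hp : π ≠ 0 := Real.pi_ne_zero
    refine HasDerivAt.congr_deriv h2 ?_
    push_cast

    field_simp
  rw [intervalIntegral.integral_eq_sub_of_hasDerivAt hd
    (Continuous.intervalIntegrable (by fun_prop) _ _)]
  have e : 2 * π * (1 / 4) = π / 2 := by ring
  rw [e]
  have hm : ((m : ℝ) + 1) ≠ 0 := by positivity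
  have hp : π ≠ 0 := Real.pi_ne_zero
  simp
  field_simp

private theorem k2c_B (k : ℕ) (hk : 1 ≤ k) :
    ∫ t in (0:ℝ)..(1 / 4), t * Real.cos (2 * π * t) ^ k ≤ 1 / (4 * π ^ 2 * k) := by
  obtain ⟨m, rfl⟩ : ∃ m, k = m + 1 := ⟨k - 1, by omega⟩
  have h1 : ∫ t in (0:ℝ)..(1 / 4), t * Real.cos (2 * π * t) ^ (m + 1) ≤
      ∫ t in (0:ℝ)..(1 / 4), (1 / (2 * π)) * (Real.sin (2 * π * t) * Real.cos (2 * π * t) ^ m) := by
    apply intervalIntegral.integral_mono_on (by norm_num)
    · exact Continuous.intervalIntegrable (by fun_prop) _ _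
    · exact Continuous.intervalIntegrable (by fun_prop) _ _
    · intro t ht
      have hx0 : 0 ≤ 2 * π * t := by have := ht.1; positivity
      have hx1 : 2 * π * t ≤ π / 2 := by
        have := ht.2
        nlinarith [Real.pi_pos]
      have hs := k2c_mul_cos_le_sin hx0 hx1
      have hc : 0 ≤ Real.cos (2 * π * t) :=
        Real.cos_nonneg_of_neg_pi_div_two_le_of_le (by linarith [Real.pi_pos]) hx1
      have hcm : 0 ≤ Real.cos (2 * π * t) ^ m := pow_nonneg hc m
      have := mul_le_mul_of_nonneg_right hs hcm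
      have hp : 0 < 1 / (2 * π) := by positivity
      calc t * Real.cos (2 * π * t) ^ (m + 1)
          = (1 / (2 * π)) * (2 * π * t * Real.cos (2 * π * t) * Real.cos (2 * π * t) ^ m) := by
            rw [pow_succ]
            field_simp
        _ ≤ (1 / (2 * π)) * (Real.sin (2 * π * t) * Real.cos (2 * π * t) ^ m) :=
            mul_le_mul_of_nonneg_left this hp.le
  refine h1.trans (le_of_eq ?_)
  rw [intervalIntegral.integral_const_mul, k2c_C]
  push_cast
  field_simp
  ring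

private theorem k2c_split (k : ℕ) :
    (∫ t in (0:ℝ)..(1 / 3), (2 + 3 * t) * Real.cos (2 * π * t) ^ k) =
      2 * (∫ t in (0:ℝ)..(1 / 4), Real.cos (2 * π * t) ^ k) +
      3 * (∫ t in (0:ℝ)..(1 / 4), t * Real.cos (2 * π * t) ^ k) +
      ∫ t in (1 / 4:ℝ)..(1 / 3), (2 + 3 * t) * Real.cos (2 * π * t) ^ k := by
  rw [← intervalIntegral.integral_add_adjacent_intervals (a := (0:ℝ)) (b := 1 / 4) (c := 1 / 3)
    (Continuous.intervalIntegrable (by fun_prop) _ _)
    (Continuous.intervalIntegrable (by fun_prop) _ _)]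
  congr 1
  rw [← intervalIntegral.integral_const_mul, ← intervalIntegral.integral_const_mul,
    ← intervalIntegral.integral_add (Continuous.intervalIntegrable (by fun_prop) _ _)
    (Continuous.intervalIntegrable (by fun_prop) _ _)]
  apply intervalIntegral.integral_congr
  intro t _
  simp only
  ring

private theorem k2c_main (k : ℕ) (hk : 1 ≤ k) :
    MM k ≤ Wl k / π + 3 / (4 * π ^ 2 * k) +
      ((∫ t in (1 / 4:ℝ)..(1 / 3), (2 + 3 * t) * Real.cos (2 * π * t) ^ k) + (-1 / 2) ^ k / 6) := by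
  unfold MM
  rw [k2c_split, k2c_A]
  have h := k2c_B k hk
  have e1 : 2 * (Wl k / (2 * π)) = Wl k / π := by
    field_simp
  have e2 : 3 / (4 * π ^ 2 * (k : ℝ)) = 3 * (1 / (4 * π ^ 2 * k)) := by ring
  rw [e1, e2]
  linarith

private theorem k2c_cos_bd {t : ℝ} (h0 : 1 / 4 ≤ t) (h1 : t ≤ 1 / 3) :
    -(1 / 2) ≤ Real.cos (2 * π * t) ∧ Real.cos (2 * π * t) ≤ 0 := by
  have hp := Real.pi_pos
  constructor
  · have e : -(1 / 2) = Real.cos (2 * π / 3) := by
      have : 2 * π / 3 = π - π / 3 := by ring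
      rw [this, Real.cos_pi_sub, Real.cos_pi_div_three]
    rw [e]
    apply Real.cos_le_cos_of_nonneg_of_le_pi
    · positivity
    · linarith
    · nlinarith
  · apply Real.cos_nonpos_of_pi_div_two_le_of_le
    · nlinarith
    · nlinarith

/-- same with `∫ (2+3t) cos^k`; `k ≥ 1`. -/
theorem M_gen (k : ℕ) (hk : 1 ≤ k) :
    MM k ≤ Wl k / π + 3 / (4 * π ^ 2 * k) + 0.42 / 2 ^ k := by
  have h := k2c_main k hk
  have h2 : (∫ t in (1 / 4:ℝ)..(1 / 3), (2 + 3 * t) * Real.cos (2 * π * t) ^ k) ≤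
      ∫ t in (1 / 4:ℝ)..(1 / 3), (3:ℝ) * (1 / 2) ^ k := by
    apply intervalIntegral.integral_mono_on (by norm_num)
    · exact Continuous.intervalIntegrable (by fun_prop) _ _
    · exact Continuous.intervalIntegrable (by fun_prop) _ _
    · intro t ht
      have hb := k2c_cos_bd ht.1 ht.2
      have ha : |Real.cos (2 * π * t)| ≤ 1 / 2 := by
        rw [abs_le]; exact ⟨hb.1, by linarith [hb.2]⟩
      have hc : Real.cos (2 * π * t) ^ k ≤ (1 / 2) ^ k := by
        calc Real.cos (2 * π * t) ^ k ≤ |Real.cos (2 * π * t) ^ k| := le_abs_self _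
          _ = |Real.cos (2 * π * t)| ^ k := abs_pow _ _
          _ ≤ (1 / 2) ^ k := pow_le_pow_left₀ (abs_nonneg _) ha k
      have hh : (0:ℝ) ≤ (1 / 2) ^ k := by positivity
      have ht0 : 0 ≤ 2 + 3 * t := by linarith [ht.1]
      calc (2 + 3 * t) * Real.cos (2 * π * t) ^ k ≤ (2 + 3 * t) * (1 / 2) ^ k :=
            mul_le_mul_of_nonneg_left hc ht0
        _ ≤ 3 * (1 / 2) ^ k := mul_le_mul_of_nonneg_right (by linarith [ht.2]) hh
  rw [intervalIntegral.integral_const, smul_eq_mul] at h2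
  have h3 : ((-1 / 2 : ℝ)) ^ k ≤ (1 / 2) ^ k := by
    calc ((-1 / 2 : ℝ)) ^ k ≤ |(-1 / 2 : ℝ) ^ k| := le_abs_self _
      _ = |(-1 / 2 : ℝ)| ^ k := abs_pow _ _
      _ = (1 / 2) ^ k := by norm_num [abs_of_neg]
  have h4 : (0.42 : ℝ) / 2 ^ k = 0.42 * (1 / 2) ^ k := by
    rw [one_div, inv_pow]; rfl
  have hh : (0:ℝ) ≤ (1 / 2) ^ k := by positivity
  rw [h4]
  nlinarith

/-- for odd `k` the part `t ∈ [1/4,1/3]` and the atom are negative. -/
theorem M_gen_odd (k : ℕ) (hk : Odd k) : MM k ≤ Wl k / π + 3 / (4 * π ^ 2 * k) := by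
  have hk1 : 1 ≤ k := hk.pos
  have h := k2c_main k hk1
  have h2 : (∫ t in (1 / 4:ℝ)..(1 / 3), (2 + 3 * t) * Real.cos (2 * π * t) ^ k) ≤
      ∫ t in (1 / 4:ℝ)..(1 / 3), (0:ℝ) := by
    apply intervalIntegral.integral_mono_on (by norm_num)
    · exact Continuous.intervalIntegrable (by fun_prop) _ _
    · exact Continuous.intervalIntegrable (by fun_prop) _ _
    · intro t ht
      have hb := k2c_cos_bd ht.1 ht.2
      have hc : Real.cos (2 * π * t) ^ k ≤ 0 := hk.pow_nonpos hb.2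
      exact mul_nonpos_of_nonneg_of_nonpos (by linarith [ht.1]) hc
  rw [intervalIntegral.integral_zero] at h2
  have h3 : ((-1 / 2 : ℝ)) ^ k ≤ 0 := hk.pow_nonpos (by norm_num)
  linarith

end Pool.Agent.SSCP
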