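import Pool.Agent.SSCP.Defs
import Pool.Agent.SSC3N.MomG
import Pool.Agent.SSC3N.MomB

/-! Row K2d: values of the first moments `MM k`. -/

set_option autoImplicit false
open MeasureTheory ProbabilityTheory Set Real
open scoped ENNReal

namespace Pool.Agent.SSCP
open Pool.Agent.SSC3N
open Pool.Agent.SSC3 (ker W E2 Per len slice g2)

private theorem k2d_split (k : ℕ) : MM k = mG k + (-1) ^ k * mB k := by
  have hI : ∀ a b : ℝ, IntervalIntegrable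
      (fun t : ℝ => (2 + 3 * t) * Real.cos (2 * π * t) ^ k) volume a b := by
    intro a b
    apply Continuous.intervalIntegrable
    fun_prop
  unfold MM mG mB
  rw [← intervalIntegral.integral_add_adjacent_intervals (hI 0 (1 / 4)) (hI (1 / 4) (1 / 3))]
  have h : ∫ t in (1 / 4 : ℝ)..(1 / 3), (2 + 3 * t) * Real.cos (2 * π * t) ^ k =
      (-1) ^ k * ∫ t in (1 / 4 : ℝ)..(1 / 3), (2 + 3 * t) * (-Real.cos (2 * π * t)) ^ k := by
    rw [← intervalIntegral.integral_const_mul]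
    congr 1
    funext t
    rw [neg_pow (Real.cos (2 * π * t))]
    have : ((-1 : ℝ) ^ k) * (-1) ^ k = 1 := by
      rw [← mul_pow]; norm_num
    calc (2 + 3 * t) * Real.cos (2 * π * t) ^ k
        = (((-1 : ℝ) ^ k) * (-1) ^ k) * ((2 + 3 * t) * Real.cos (2 * π * t) ^ k) := by
          rw [this, one_mul]
      _ = _ := by ring
  have h2 : (-1 / 2 : ℝ) ^ k = (-1) ^ k * (1 / 2) ^ k := by
    rw [← mul_pow]; norm_num
  rw [h, h2]
  ring

/-- `MM k = mG k + (-1)^k mB k`, with `mG_bounds`, `mB_bounds`. -/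
theorem MM_vals : MM 0 = 1 ∧ |MM 1 - 0.216177| ≤ 0.000002 ∧ |MM 2 - 0.340711| ≤ 0.000002 ∧
    |MM 3 - 0.203799| ≤ 0.000002 ∧ |MM 4 - 0.217326| ≤ 0.000002 ∧
    |MM 5 - 0.176532| ≤ 0.000002 := by
  obtain ⟨g0, g1, g2, g3, g4, g5⟩ := mG_bounds
  obtain ⟨b0, b1, b2, b3, b4, b5⟩ := mB_bounds
  rw [abs_le] at g1 g2 g3 g4 g5 b1 b2 b3 b4 b5
  obtain ⟨g1, g1'⟩ := g1
  obtain ⟨g2, g2'⟩ := g2
  obtain ⟨g3, g3'⟩ := g3
  obtain ⟨g4, g4'⟩ := g4
  obtain ⟨g5, g5'⟩ := g5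
  obtain ⟨b1, b1'⟩ := b1
  obtain ⟨b2, b2'⟩ := b2
  obtain ⟨b3, b3'⟩ := b3
  obtain ⟨b4, b4'⟩ := b4
  obtain ⟨b5, b5'⟩ := b5
  refine ⟨?_, ?_, ?_, ?_, ?_, ?_⟩
  · rw [k2d_split, g0, b0]; norm_num
  all_goals
    rw [k2d_split, abs_le]
    norm_num
    constructor <;> linarith

end Pool.Agent.SSCP
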