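import Pool.Agent.SSCP.LK1

/-! Row K2e: signs and sizes of moments. -/

set_option autoImplicit false
open MeasureTheory ProbabilityTheory Set Real
open scoped ENNReal

namespace Pool.Agent.SSCP
open Pool.Agent.SSC3N
open Pool.Agent.SSC3 (ker W E2 Per len slice g2)

private theorem k2e_wallis (m : ℕ) :
    ∫ t in (0:ℝ)..(1 / 4), Real.cos (2 * π * t) ^ m = Wl m / (2 * π) := by
  have h := intervalIntegral.integral_comp_mul_left (a := (0 : ℝ)) (b := 1 / 4)
    (fun x : ℝ => Real.cos x ^ m) (c := 2 * π) (by positivity)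
  rw [h]
  unfold Wl
  rw [mul_zero, show 2 * π * (1 / 4) = π / 2 by ring, smul_eq_mul]
  field_simp

private theorem k2e_cos4 {t : ℝ} (h0 : 0 ≤ t) (h1 : t ≤ 1 / 4) : 0 ≤ Real.cos (2 * π * t) := by
  have hπ := Real.pi_pos
  have hx0 : 0 ≤ 2 * π * t := by positivity
  exact Real.cos_nonneg_of_mem_Icc ⟨by linarith, by nlinarith⟩

private theorem k2e_cos3 {t : ℝ} (h0 : 1 / 4 ≤ t) (h1 : t ≤ 1 / 3) :
    |Real.cos (2 * π * t)| ≤ 1 / 2 := by
  have hπ := Real.pi_pos
  have hc1 : Real.cos (2 * π * t) ≤ 0 := by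
    apply Real.cos_nonpos_of_pi_div_two_le_of_le
    · nlinarith
    · nlinarith
  have hc2 : -(1 / 2) ≤ Real.cos (2 * π * t) := by
    have h3 : Real.cos (2 * π * (1 / 3)) = -(1 / 2) := by
      rw [show 2 * π * (1 / 3) = π - π / 3 by ring, Real.cos_pi_sub, Real.cos_pi_div_three]
    rw [← h3]
    apply Real.cos_le_cos_of_nonneg_of_le_pi
    · positivity
    · nlinarith
    · nlinarith
  rw [abs_le]
  constructor <;> linarith

/-- `MM k ≥ 0`: even `k` clear; odd `k = 1, 3, 5`: `MM_vals`; odd `k ≥ 7`: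
`∫_0^{1/4} 2 cos^k = Wl k/π` dominates `0.42/2^k`. `MM k ≤ 1` because `|cos| ≤ 1`, total weight 1. -/
theorem MM_nonneg (k : ℕ) : 0 ≤ MM k := by
  rcases Nat.eq_zero_or_pos k with hk | hk
  · rw [hk, MM_vals.1]; norm_num
  have hπ := Real.pi_pos
  have hI : ∀ a b : ℝ, IntervalIntegrable
      (fun t : ℝ => (2 + 3 * t) * Real.cos (2 * π * t) ^ k) volume a b := by
    intro a b
    apply Continuous.intervalIntegrable
    fun_prop
  unfold MM
  rw [← intervalIntegral.integral_add_adjacent_intervals (hI 0 (1 / 4)) (hI (1 / 4) (1 / 3))]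
  have h1 : Wl k / π ≤ ∫ t in (0:ℝ)..(1 / 4), (2 + 3 * t) * Real.cos (2 * π * t) ^ k := by
    have e : Wl k / π = ∫ t in (0:ℝ)..(1 / 4), 2 * Real.cos (2 * π * t) ^ k := by
      rw [intervalIntegral.integral_const_mul, k2e_wallis]
      field_simp
    rw [e]
    apply intervalIntegral.integral_mono_on (by norm_num)
    · apply Continuous.intervalIntegrable; fun_prop
    · exact hI _ _
    · intro t ht
      have ht0 : 0 ≤ t := ht.1
      have hc := k2e_cos4 ht0 ht.2
      have hck : 0 ≤ Real.cos (2 * π * t) ^ k := pow_nonneg hc k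
      nlinarith
  have h2 : -(1 / 4) / 2 ^ k ≤
      ∫ t in (1 / 4 : ℝ)..(1 / 3), (2 + 3 * t) * Real.cos (2 * π * t) ^ k := by
    have e : -(1 / 4 : ℝ) / 2 ^ k = ∫ t in (1 / 4 : ℝ)..(1 / 3), -(3 : ℝ) / 2 ^ k := by
      rw [intervalIntegral.integral_const, smul_eq_mul]
      ring
    rw [e]
    apply intervalIntegral.integral_mono_on (by norm_num)
    · apply Continuous.intervalIntegrable; fun_prop
    · exact hI _ _
    · intro t ht
      have ht0 : 1 / 4 ≤ t := ht.1
      have ht1 : t ≤ 1 / 3 := ht.2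
      have habs := k2e_cos3 ht0 ht1
      have habs2 : |Real.cos (2 * π * t) ^ k| ≤ (1 / 2) ^ k := by
        rw [abs_pow]
        exact pow_le_pow_left₀ (abs_nonneg _) habs _
      have h6 : |(2 + 3 * t) * Real.cos (2 * π * t) ^ k| ≤ 3 * (1 / 2) ^ k := by
        rw [abs_mul]
        apply mul_le_mul _ habs2 (abs_nonneg _) (by norm_num)
        rw [abs_le]; constructor <;> linarith
      have h7 := (abs_le.mp h6).1
      have h8 : -(3 : ℝ) / 2 ^ k = -(3 * (1 / 2) ^ k) := by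
        rw [one_div, inv_pow]; ring
      rw [h8]
      exact h7
  have h3 : -(1 / 6 : ℝ) / 2 ^ k ≤ (-1 / 2) ^ k / 6 := by
    have h9 : |(-1 / 2 : ℝ) ^ k| = 1 / 2 ^ k := by
      rw [abs_pow, abs_div, abs_neg, abs_one, abs_two, div_pow, one_pow]
    have h10 := neg_abs_le ((-1 / 2 : ℝ) ^ k)
    rw [h9] at h10
    calc -(1 / 6 : ℝ) / 2 ^ k = -(1 / 2 ^ k) / 6 := by ring
      _ ≤ _ := by linarith
  have h4 : (0.42 : ℝ) / 2 ^ k ≤ Wl k / π := by
    have hW := Wl_lower k
    have hWp := Wl_pos k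
    have h4k : (1 : ℝ) + k * 3 ≤ 4 ^ k := by
      have := one_add_mul_le_pow (a := (3 : ℝ)) (by norm_num) k
      norm_num at this
      exact this
    have hk1 : (1 : ℝ) ≤ k := by exact_mod_cast hk
    have h2k : (0 : ℝ) < 2 ^ k := by positivity
    rw [div_le_div_iff₀ h2k hπ]
    apply le_of_sq_le_sq _ (by positivity)
    have e2 : (Wl k * 2 ^ k) ^ 2 = Wl k ^ 2 * 4 ^ k := by
      rw [mul_pow, ← pow_mul, mul_comm k 2, pow_mul]; norm_num
    rw [e2]
    have h5 : π / (2 * ((k : ℝ) + 1)) * (1 + k * 3) ≤ Wl k ^ 2 * 4 ^ k := by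
      apply mul_le_mul hW h4k (by positivity) (by positivity)
    refine le_trans ?_ h5
    rw [div_mul_eq_mul_div, le_div_iff₀ (by positivity)]
    have hpi2 : π < 3.15 := Real.pi_lt_d2
    have : (0.42 * π) ^ 2 * (2 * ((k : ℝ) + 1)) = π * (0.3528 * π * ((k : ℝ) + 1)) := by ring
    rw [this]
    apply mul_le_mul_of_nonneg_left _ hπ.le
    nlinarith
  have h5 : (0 : ℝ) < 1 / 2 ^ k := by positivity
  have e1 : -(1 / 4 : ℝ) / 2 ^ k = -(1 / 4) * (1 / 2 ^ k) := by ring
  have e2 : -(1 / 6 : ℝ) / 2 ^ k = -(1 / 6) * (1 / 2 ^ k) := by ring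
  have e3 : (0.42 : ℝ) / 2 ^ k = 0.42 * (1 / 2 ^ k) := by ring
  rw [e1] at h2
  rw [e2] at h3
  rw [e3] at h4
  nlinarith

theorem MM_le_one (k : ℕ) : MM k ≤ 1 := by
  have h0 : MM 0 = 1 := MM_vals.1
  rw [← h0]
  unfold MM
  have h1 : (∫ t in (0:ℝ)..(1 / 3), (2 + 3 * t) * Real.cos (2 * π * t) ^ k) ≤
      ∫ t in (0:ℝ)..(1 / 3), (2 + 3 * t) * Real.cos (2 * π * t) ^ 0 := by
    apply intervalIntegral.integral_mono_on (by norm_num)
    · apply Continuous.intervalIntegrable; fun_prop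
    · apply Continuous.intervalIntegrable; fun_prop
    · intro t ht
      have ht0 : 0 ≤ t := ht.1
      have h2 : Real.cos (2 * π * t) ^ k ≤ 1 := by
        refine (le_abs_self _).trans ?_
        rw [abs_pow]
        exact pow_le_one₀ (abs_nonneg _) (Real.abs_cos_le_one _)
      rw [pow_zero]
      apply mul_le_mul_of_nonneg_left h2 (by positivity)
  have h3 : (-1 / 2 : ℝ) ^ k ≤ (-1 / 2) ^ 0 := by
    rw [pow_zero]
    refine (le_abs_self _).trans ?_
    rw [abs_pow]
    exact pow_le_one₀ (abs_nonneg _) (by rw [abs_div, abs_neg, abs_one, abs_two]; norm_num)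
  linarith

/-- `mA k ≥ 0`: `k ≤ 5` from `mA_bounds`, `k ≥ 6` from `V_gen` and `Wl_lower`. -/
theorem mA_nonneg (k : ℕ) : 0 ≤ mA k := by
  rcases Nat.eq_zero_or_pos k with hk | hk
  · have h := mA_bounds.1
    rw [abs_le] at h
    rw [hk]
    linarith [h.1]
  have hπ := Real.pi_pos
  have hπ1 := Real.pi_gt_d2
  have hπ2 := Real.pi_lt_d2
  have hk1 : (1 : ℝ) ≤ k := by exact_mod_cast hk
  have hV := V_gen k
  have hW := Wl_lower (k + 1)
  have hWp := Wl_pos (k + 1)
  push_cast at hW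
  have h1 : 0.38 / ((k : ℝ) + 1) ≤ Wl (k + 1) / π := by
    rw [div_le_div_iff₀ (by positivity) hπ]
    apply le_of_sq_le_sq _ (by positivity)
    rw [mul_pow (Wl (k + 1))]
    have h5 : π / (2 * ((k : ℝ) + 1 + 1)) * ((k : ℝ) + 1) ^ 2 ≤ Wl (k + 1) ^ 2 * ((k : ℝ) + 1) ^ 2 :=
      mul_le_mul_of_nonneg_right hW (by positivity)
    refine le_trans ?_ h5
    rw [div_mul_eq_mul_div, le_div_iff₀ (by positivity)]
    have : (0.38 * π) ^ 2 * (2 * ((k : ℝ) + 1 + 1)) = π * (0.2888 * π * ((k : ℝ) + 1 + 1)) := by ring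
    rw [this]
    apply mul_le_mul_of_nonneg_left _ hπ.le
    nlinarith
  have h2 : 21 / (8 * π ^ 2 * ((k : ℝ) + 1)) ≤ 0.27 / ((k : ℝ) + 1) := by
    rw [div_le_div_iff₀ (by positivity) (by positivity)]
    have h9 : (9.85 : ℝ) ≤ π ^ 2 := by nlinarith
    nlinarith
  have h3 : (0.21 : ℝ) / 2 ^ (k + 1) ≤ 0.105 / ((k : ℝ) + 1) := by
    have h4 : (k : ℝ) + 1 ≤ 2 ^ k := by
      have := one_add_mul_le_pow (a := (1 : ℝ)) (by norm_num) k
      norm_num at this
      linarith
    rw [div_le_div_iff₀ (by positivity) (by positivity), pow_succ]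
    nlinarith
  have h4 : 0.38 / ((k : ℝ) + 1) - 0.27 / ((k : ℝ) + 1) - 0.105 / ((k : ℝ) + 1) =
      0.005 / ((k : ℝ) + 1) := by ring
  have h5 : (0 : ℝ) < 0.005 / ((k : ℝ) + 1) := by positivity
  have h6 : 0 < ((k : ℝ) + 1) * mA k := by linarith
  exact (pos_of_mul_pos_right h6 (by positivity)).le

theorem mA_le_one (k : ℕ) : mA k ≤ 1 := by
  have h0 := (abs_le.mp mA_bounds.1).2
  have hπ := Real.pi_pos
  have h1 : mA k ≤ mA 0 := by
    unfold mA
    have hv : Continuous vt := by unfold vt; fun_prop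
    apply intervalIntegral.integral_mono_on (by norm_num)
    · apply Continuous.intervalIntegrable; fun_prop
    · apply Continuous.intervalIntegrable; fun_prop
    · intro t ht
      have ht0 : 0 ≤ t := ht.1
      have ht1 : t ≤ 1 / 3 := ht.2
      have h2 : Real.cos (2 * π * t) ^ k ≤ 1 := by
        refine (le_abs_self _).trans ?_
        rw [abs_pow]
        exact pow_le_one₀ (abs_nonneg _) (Real.abs_cos_le_one _)
      have h3 : 0 ≤ Real.sin (2 * π * t) := by
        apply Real.sin_nonneg_of_nonneg_of_le_pi (by positivity)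
        nlinarith
      have h4 : 0 ≤ vt t := by
        unfold vt
        nlinarith
      rw [pow_zero]
      apply mul_le_mul_of_nonneg_left h2 (by positivity)
  linarith

end Pool.Agent.SSCP
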