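import Pool.Agent.SSCP.LK1b

/-! [SSCP] row K3a: eight explicit numerical lower bounds. -/

set_option autoImplicit false
open MeasureTheory ProbabilityTheory Set Real
open scoped ENNReal

namespace Pool.Agent.SSCP
open Pool.Agent.SSC3N
open Pool.Agent.SSC3 (ker W E2 Per len slice g2)

private lemma k3a_W0 : Wl 0 = π / 2 := by
  unfold Wl
  simp

private lemma k3a_W1 : Wl 1 = 1 := by
  unfold Wl
  simp

private lemma k3a_We : Wl 6 = 5 / 32 * π ∧ Wl 8 = 35 / 256 * π ∧ Wl 10 = 63 / 512 * π := by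
  have h2 := Wl_rec 0
  have h4 := Wl_rec 2
  have h6 := Wl_rec 4
  have h8 := Wl_rec 6
  have h10 := Wl_rec 8
  norm_num at h2 h4 h6 h8 h10
  rw [k3a_W0] at h2
  refine ⟨?_, ?_, ?_⟩ <;> linarith

private lemma k3a_Wo : Wl 7 = 16 / 35 ∧ Wl 9 = 128 / 315 := by
  have h3 := Wl_rec 1
  have h5 := Wl_rec 3
  have h7 := Wl_rec 5
  have h9 := Wl_rec 7
  norm_num at h3 h5 h7 h9
  rw [k3a_W1] at h3
  refine ⟨?_, ?_⟩ <;> linarith

private lemma k3a_p : 0.3183098 ≤ 1 / π ∧ 1 / π ≤ 0.31831 := by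
  have h1 := Real.pi_gt_d6
  have h2 := Real.pi_lt_d6
  have h0 := Real.pi_pos
  constructor
  · rw [le_div_iff₀ h0]; nlinarith
  · rw [div_le_iff₀ h0]; nlinarith

private lemma k3a_p2 : 1 / π ^ 2 ≤ 0.1013214 := by
  have h1 := Real.pi_gt_d6
  have h0 := Real.pi_pos
  rw [div_le_iff₀ (by positivity)]
  nlinarith

private lemma k3a_J : 1.25331 ≤ Jc 0 := by
  show 1.25331 ≤ Real.sqrt (π / 2)
  apply Real.le_sqrt_of_sq_le
  have h1 := Real.pi_gt_d6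
  norm_num at h1 ⊢
  linarith

private lemma k3a_Jc : Jc 2 = Jc 0 ∧ Jc 3 = 2 ∧ Jc 4 = 3 * Jc 0 ∧ Jc 5 = 8 ∧ Jc 6 = 15 * Jc 0 ∧
    Jc 7 = 48 ∧ Jc 8 = 105 * Jc 0 ∧ Jc 9 = 384 ∧ Jc 10 = 945 * Jc 0 ∧ Jc 11 = 3840 ∧
    Jc 12 = 10395 * Jc 0 ∧ Jc 13 = 46080 := by
  have hr : ∀ k : ℕ, Jc (k + 2) = ((k : ℝ) + 1) * Jc k := fun k => rfl
  have h1 : Jc 1 = 1 := rfl
  have h2 := hr 0
  have h3 := hr 1
  have h4 := hr 2
  have h5 := hr 3
  have h6 := hr 4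
  have h7 := hr 5
  have h8 := hr 6
  have h9 := hr 7
  have h10 := hr 8
  have h11 := hr 9
  have h12 := hr 10
  have h13 := hr 11
  norm_num at h2 h3 h4 h5 h6 h7 h8 h9 h10 h11 h12 h13
  refine ⟨?_, ?_, ?_, ?_, ?_, ?_, ?_, ?_, ?_, ?_, ?_, ?_⟩ <;> linarith

private lemma k3a_M : MM 6 ≤ 0.175478 ∧ MM 7 ≤ 0.15637 ∧ MM 8 ≤ 0.147859 ∧ MM 9 ≤ 0.13779 ∧
    MM 10 ≤ 0.131057 := by
  obtain ⟨w6, w8, w10⟩ := k3a_We
  obtain ⟨w7, w9⟩ := k3a_Wo
  obtain ⟨_, p1⟩ := k3a_p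
  have p2 := k3a_p2
  have h0 := Real.pi_pos
  have e6 : Wl 6 / π = 5 / 32 := by rw [w6]; field_simp
  have e8 : Wl 8 / π = 35 / 256 := by rw [w8]; field_simp
  have e10 : Wl 10 / π = 63 / 512 := by rw [w10]; field_simp
  have e7 : Wl 7 / π = 16 / 35 * (1 / π) := by rw [w7]; ring
  have e9 : Wl 9 / π = 128 / 315 * (1 / π) := by rw [w9]; ring
  have q : ∀ k : ℝ, 0 < k → 3 / (4 * π ^ 2 * k) = 3 / (4 * k) * (1 / π ^ 2) := by
    intro k hk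
    field_simp
  have m6 := M_gen 6 (by norm_num)
  have m7 := M_gen_odd 7 (by decide)
  have m8 := M_gen 8 (by norm_num)
  have m9 := M_gen_odd 9 (by decide)
  have m10 := M_gen 10 (by norm_num)
  rw [e6, q _ (by norm_num)] at m6
  rw [e7, q _ (by norm_num)] at m7
  rw [e8, q _ (by norm_num)] at m8
  rw [e9, q _ (by norm_num)] at m9
  rw [e10, q _ (by norm_num)] at m10
  norm_num at m6 m7 m8 m9 m10 p1 p2
  refine ⟨?_, ?_, ?_, ?_, ?_⟩ <;> norm_num <;> linarith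

private lemma k3a_V : 0.01512 ≤ mA 6 ∧ 0.01283 ≤ mA 7 := by
  obtain ⟨w6, w8, w10⟩ := k3a_We
  obtain ⟨w7, w9⟩ := k3a_Wo
  obtain ⟨p0, p1⟩ := k3a_p
  have p2 := k3a_p2
  have h0 := Real.pi_pos
  have e8 : Wl 8 / π = 35 / 256 := by rw [w8]; field_simp
  have e7 : Wl 7 / π = 16 / 35 * (1 / π) := by rw [w7]; ring
  have q : ∀ k : ℝ, 0 < k → 21 / (8 * π ^ 2 * k) = 21 / (8 * k) * (1 / π ^ 2) := by
    intro k hk
    field_simp
  have v6 := V_gen 6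
  have v7 := V_gen 7
  norm_num at v6 v7
  rw [e7] at v6
  rw [e8] at v7
  rw [q _ (by norm_num)] at v6 v7
  norm_num at v6 v7 p0 p1 p2
  constructor <;> norm_num <;> linarith

theorem cf_low : 0.28225 ≤ cf 0 ∧ 0.01221 ≤ cf 1 ∧ 0.04806 ≤ cf 2 ∧ 0.01796 ≤ cf 3 ∧
    0.01059 ≤ cf 4 ∧ 0.00414 ≤ cf 5 ∧ 0.00152 ≤ cf 6 ∧ 0.00056 ≤ cf 7 := by
  obtain ⟨j2, j3, j4, j5, j6, j7, j8, j9, j10, j11, j12, j13⟩ := k3a_Jc
  obtain ⟨a0, a1, a2, a3, a4, a5⟩ := mA_bounds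
  obtain ⟨b0, b1, b2, b3, b4, b5⟩ := MM_vals
  obtain ⟨m6, m7, m8, m9, m10⟩ := k3a_M
  obtain ⟨v6, v7⟩ := k3a_V
  have hJ := k3a_J
  rw [abs_le] at a0 a1 a2 a3 a4 a5 b1 b2 b3 b4 b5
  refine ⟨?_, ?_, ?_, ?_, ?_, ?_, ?_, ?_⟩
  · have e : cf 0 = mA 0 * Jc 0 * (26 / 27) := by
      simp only [cf, Nat.reduceAdd, j2, Nat.factorial]
      norm_num
    rw [e]
    nlinarith [a0.1]
  · have e : cf 1 = mA 1 * 2 * (80 / 81) - 1 / 2 * MM 4 := by
      simp only [cf, Nat.reduceAdd, j3, j7, Nat.factorial]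
      norm_num
      ring
    rw [e]
    linarith [a1.1, b4.2]
  · have e : cf 2 = Jc 0 * (mA 2 * (3 / 2) * (242 / 243) - 7 / 32 * MM 5) := by
      simp only [cf, Nat.reduceAdd, j4, j8, Nat.factorial]
      norm_num
      ring
    rw [e]
    nlinarith [a2.1, b5.2]
  · have e : cf 3 = mA 3 * (4 / 3) * (728 / 729) - 2 / 15 * MM 6 := by
      simp only [cf, Nat.reduceAdd, j5, j9, Nat.factorial]
      norm_num
      ring
    rw [e]
    linarith [a3.1]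
  · have e : cf 4 = Jc 0 * (mA 4 * (5 / 8) * (2186 / 2187) - 3 / 64 * MM 7) := by
      simp only [cf, Nat.reduceAdd, j6, j10, Nat.factorial]
      norm_num
      ring
    rw [e]
    nlinarith [a4.1]
  · have e : cf 5 = mA 5 * (2 / 5) * (6560 / 6561) - 1 / 42 * MM 8 := by
      simp only [cf, Nat.reduceAdd, j7, j11, Nat.factorial]
      norm_num
      ring
    rw [e]
    linarith [a5.1]
  · have e : cf 6 = Jc 0 * (mA 6 * (7 / 48) * (19682 / 19683) - 11 / 1536 * MM 9) := by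
      simp only [cf, Nat.reduceAdd, j8, j12, Nat.factorial]
      norm_num
      ring
    rw [e]
    nlinarith
  · have e : cf 7 = mA 7 * (8 / 105) * (59048 / 59049) - 1 / 315 * MM 10 := by
      simp only [cf, Nat.reduceAdd, j9, j13, Nat.factorial]
      norm_num
      ring
    rw [e]
    linarith

end Pool.Agent.SSCP
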