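import Pool.Agent.SSCP.LK1b

/-! Row K3b: lower bound for the even coefficients `cf (2 i)`, `i ≥ 4`. -/

set_option autoImplicit false
open MeasureTheory ProbabilityTheory Set Real
open scoped ENNReal

namespace Pool.Agent.SSCP
open Pool.Agent.SSC3N
open Pool.Agent.SSC3 (ker W E2 Per len slice g2)

private theorem k3b_Jrec (k : ℕ) : Jc (k + 2) = ((k : ℝ) + 1) * Jc k := rfl

private theorem k3b_Jeven (i : ℕ) :
    Jc (2 * i) * (2 ^ i * (i.factorial : ℝ)) = Real.sqrt (π / 2) * ((2 * i).factorial : ℝ) := by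
  induction i with
  | zero => simp [Jc]
  | succ n ih =>
    have e1 : 2 * (n + 1) = 2 * n + 2 := by ring
    have e2 : ((2 * n + 2).factorial : ℝ) = (2 * n + 2) * ((2 * n + 1) * ((2 * n).factorial : ℝ)) := by
      rw [Nat.factorial_succ, Nat.factorial_succ]
      push_cast
      ring
    have e3 : ((n + 1).factorial : ℝ) = (n + 1) * (n.factorial : ℝ) := by
      rw [Nat.factorial_succ]; push_cast; ring
    rw [e1, k3b_Jrec, e2, e3, pow_succ]
    push_cast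
    calc (2 * (n : ℝ) + 1) * Jc (2 * n) * (2 ^ n * 2 * (((n : ℝ) + 1) * (n.factorial : ℝ)))
        = (2 * n + 2) * (2 * n + 1) * (Jc (2 * n) * (2 ^ n * (n.factorial : ℝ))) := by ring
      _ = (2 * n + 2) * (2 * n + 1) * (Real.sqrt (π / 2) * ((2 * n).factorial : ℝ)) := by rw [ih]
      _ = _ := by ring

private theorem k3b_geo (i : ℕ) (hi : 4 ≤ i) : ((i : ℝ) + 1) * (4 / 9) ^ i ≤ 0.1951 := by
  induction i, hi using Nat.le_induction with
  | base => norm_num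
  | succ n hn ih =>
    have hn' : (4 : ℝ) ≤ n := by exact_mod_cast hn
    have hp : (0 : ℝ) < (4 / 9) ^ n := by positivity
    push_cast
    rw [pow_succ]
    nlinarith

private theorem k3b_pi2 : (9.869 : ℝ) ≤ π ^ 2 := by
  have hπ1 := Real.pi_gt_d4
  nlinarith

private theorem k3b_n1 (x : ℝ) (hx : 4 ≤ x) :
    0.1951 / (x + 1) ≤ 2.4649 * (1 / (4 * π * (x + 1))) := by
  have hπ := Real.pi_pos
  have hπ2 := Real.pi_lt_d4
  have hx1 : 0 < x + 1 := by linarith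
  rw [mul_one_div, div_le_div_iff₀ hx1 (by positivity)]
  have : 0.1951 * (4 * π * (x + 1)) = (0.7804 * π) * (x + 1) := by ring
  rw [this]
  exact mul_le_mul_of_nonneg_right (by linarith) hx1.le

private theorem k3b_n2 (x : ℝ) (hx : 4 ≤ x) :
    (1 / (2 * x + 1)) ^ 2 ≤ 0.776161 * (1 / (4 * π * (x + 1))) := by
  have hπ := Real.pi_pos
  have hπ2 := Real.pi_lt_d4
  have hx1 : 0 < x + 1 := by linarith
  have hx2 : 0 < 2 * x + 1 := by linarith
  rw [mul_one_div, div_pow, one_pow, div_le_div_iff₀ (by positivity) (by positivity)]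
  have h1 : 1 * (4 * π * (x + 1)) ≤ 12.5664 * (x + 1) := by nlinarith
  nlinarith

private theorem k3b_n3 (x : ℝ) (hx : 4 ≤ x) :
    21 / (8 * π ^ 2 * (2 * x + 1)) ≤ 0.2661 * (1 / (2 * x + 1)) := by
  have hπ := Real.pi_pos
  have h9 := k3b_pi2
  have hx2 : 0 < 2 * x + 1 := by linarith
  rw [mul_one_div, div_le_div_iff₀ (by positivity) hx2]
  have e : 0.2661 * (8 * π ^ 2 * (2 * x + 1)) = (2.1288 * π ^ 2) * (2 * x + 1) := by ring
  rw [e]
  exact mul_le_mul_of_nonneg_right (by linarith) hx2.le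

private theorem k3b_n4 (x : ℝ) (hx : 4 ≤ x) :
    3 / (4 * π ^ 2 * (2 * x + 3)) ≤ 0.0761 * (1 / (2 * x + 1)) := by
  have hπ := Real.pi_pos
  have h9 := k3b_pi2
  have hx2 : 0 < 2 * x + 1 := by linarith
  have hx3 : 0 < 2 * x + 3 := by linarith
  rw [mul_one_div, div_le_div_iff₀ (by positivity) hx2]
  have e : 0.0761 * (4 * π ^ 2 * (2 * x + 3)) = (0.3044 * π ^ 2) * (2 * x + 3) := by ring
  rw [e]
  calc 3 * (2 * x + 1) ≤ 3 * (2 * x + 3) := by linarith
    _ ≤ _ := mul_le_mul_of_nonneg_right (by linarith) hx3.le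

private theorem k3b_n5 (ε w q z V : ℝ) (h0 : 0 < ε) (h1 : ε ≤ 0.00001) (hw : 0 < w) (hq : 0 < q)
    (hz : 0 < z) (hV : w - 0.2661 * q - 0.21 * z ≤ V) :
    (w - 0.2661 * q - 0.21 * z) - 0.00001 * w ≤ V * (1 - ε) := by
  have h1 : (w - 0.2661 * q - 0.21 * z) * (1 - ε) ≤ V * (1 - ε) :=
    mul_le_mul_of_nonneg_right hV (by linarith)
  have h2 : ε * w ≤ 0.00001 * w := mul_le_mul_of_nonneg_right (by assumption) hw.le
  have h3 : 0 ≤ ε * (0.2661 * q + 0.21 * z) := by positivity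
  have e : (w - 0.2661 * q - 0.21 * z) * (1 - ε) =
      (w - 0.2661 * q - 0.21 * z) - ε * w + ε * (0.2661 * q + 0.21 * z) := by ring
  rw [e] at h1
  linarith

/-- `j = 2i ≥ 8`, `k = j+1 ≥ 9` odd.  `c_j = √(π/2)/(2^i i!)`.  With `V = (j+1) mA j ≥ Wl k/π - 0.26598/k - 0.21/2^k`,
`MM (k+2) ≤ Wl (k+2)/π + 0.076/(k+2) + 0.42/2^(k+2)`, `Wl (k+2) ≤ Wl k`, `(k+4)/(4(k+1)) ≤ 0.325`,
`3^{-(k+2)} ≤ 6·10⁻⁶`, `Wl k ≥ √(π/(2(k+1)))`: the bracket is
`≥ 0.2692/√(k+1) - 0.2907/k - 0.27/2^k`, and this is `≥ 0.2145 (2/3)^i`: multiply by `k`; the left side is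
increasing in `k`, `k (2/3)^{(k-1)/2}` is decreasing for `k ≥ 9`, and at `k = 9` it is `0.47 ≥ 0.382`.
Finally `√(π/2) · 0.2145 ≥ 1/3.72`. -/
theorem cf_even (i : ℕ) (hi : 4 ≤ i) : 1 / (3.72 * 3 ^ i * (i.factorial : ℝ)) ≤ cf (2 * i) := by
  have hπ := Real.pi_pos
  have hπ1 := Real.pi_gt_d4
  have hπ2 := Real.pi_lt_d4
  have hi4 : (4 : ℝ) ≤ i := by exact_mod_cast hi
  have hi0 : (0 : ℝ) < i := by linarith
  -- notation
  set c : ℝ := Real.sqrt (π / 2) / (2 ^ i * (i.factorial : ℝ)) with hc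
  have hfi : (0 : ℝ) < (i.factorial : ℝ) := by exact_mod_cast i.factorial_pos
  have hs0 : 0 < Real.sqrt (π / 2) := Real.sqrt_pos.mpr (by positivity)
  have hc0 : 0 < c := by positivity
  have hJ2 : Jc (2 * i + 2) = c * ((2 * i + 1).factorial : ℝ) := by
    have h := k3b_Jeven i
    rw [k3b_Jrec, hc, Nat.factorial_succ]
    push_cast
    rw [div_mul_eq_mul_div, eq_div_iff (by positivity)]
    calc (2 * (i : ℝ) + 1) * Jc (2 * i) * (2 ^ i * (i.factorial : ℝ))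
        = (2 * i + 1) * (Jc (2 * i) * (2 ^ i * (i.factorial : ℝ))) := by ring
      _ = (2 * i + 1) * (Real.sqrt (π / 2) * ((2 * i).factorial : ℝ)) := by rw [h]
      _ = _ := by ring
  have hJ6 : Jc (2 * i + 6) = (2 * (i : ℝ) + 5) * ((2 * i + 3) * Jc (2 * i + 2)) := by
    rw [show 2 * i + 6 = (2 * i + 4) + 2 by ring, k3b_Jrec, show 2 * i + 4 = (2 * i + 2) + 2 by ring,
      k3b_Jrec]
    push_cast
    ring
  have hf1 : ((2 * i + 1).factorial : ℝ) = (2 * i + 1) * ((2 * i).factorial : ℝ) := by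
    rw [Nat.factorial_succ]; push_cast; ring
  have hf3 : ((2 * i + 3).factorial : ℝ) = (2 * i + 3) * ((2 * i + 2) * ((2 * i + 1).factorial : ℝ)) := by
    rw [Nat.factorial_succ, Nat.factorial_succ]; push_cast; ring
  have hf0 : (0 : ℝ) < ((2 * i).factorial : ℝ) := by exact_mod_cast (2 * i).factorial_pos
  have hf10 : (0 : ℝ) < ((2 * i + 1).factorial : ℝ) := by exact_mod_cast (2 * i + 1).factorial_pos
  have hcf : cf (2 * i) = c * (((2 * (i : ℝ) + 1) * mA (2 * i)) * (1 - (1 / 3) ^ (2 * i + 3)) -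
      1 / 4 * (MM (2 * i + 3) * ((2 * i + 5) / (2 * i + 2)))) := by
    unfold cf
    rw [if_neg (by omega), hJ6, hJ2, hf3, hf1]
    field_simp
  rw [hcf]
  -- bounds
  have hV := V_gen (2 * i)
  have hM := M_gen_odd (2 * i + 3) ⟨i + 1, by ring⟩
  have hr := Wl_rec (2 * i + 1)
  have hWl := Wl_lower (2 * i + 1)
  have hWp := Wl_pos (2 * i + 1)
  rw [show 2 * i + 1 + 2 = 2 * i + 3 by ring] at hr
  push_cast at hV hM hr hWl
  set w : ℝ := Wl (2 * i + 1) / π with hw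
  have hw0 : 0 < w := by positivity
  set r : ℝ := (2 / 3) ^ i with hrr
  have hr0 : 0 < r := by positivity
  have hr2 : r ^ 2 = (4 / 9) ^ i := by
    rw [hrr, ← pow_mul, mul_comm i 2, pow_mul]; norm_num
  have hw2 : 1 / (4 * π * ((i : ℝ) + 1)) ≤ w ^ 2 := by
    rw [hw, div_pow, le_div_iff₀ (by positivity)]
    refine le_trans (le_of_eq ?_) hWl
    field_simp
    ring
  have hgeo := k3b_geo i hi
  rw [← hr2] at hgeo
  -- r ≤ 1.57 w
  have hrw : r ≤ 1.57 * w := by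
    apply le_of_sq_le_sq _ (by positivity)
    have h1 : r ^ 2 ≤ 0.1951 / ((i : ℝ) + 1) := by
      rw [le_div_iff₀ (by positivity)]; linarith
    have h2 : (1.57 * w) ^ 2 = 2.4649 * w ^ 2 := by ring
    rw [h2]
    have h3 := k3b_n1 i hi4
    linarith
  -- 1/k ≤ 0.881 w
  have hkw : 1 / (2 * (i : ℝ) + 1) ≤ 0.881 * w := by
    apply le_of_sq_le_sq _ (by positivity)
    have h2 : (0.881 * w) ^ 2 = 0.776161 * w ^ 2 := by ring
    rw [h2]
    have h3 := k3b_n2 i hi4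
    linarith
  -- 2^{-k} ≤ 0.01 r
  have h2k : 1 / (2 : ℝ) ^ (2 * i + 1) ≤ 0.01 * r := by
    obtain ⟨n, rfl⟩ := Nat.exists_eq_add_of_le hi
    have h4 : (1 / 4 : ℝ) ^ n ≤ (2 / 3) ^ n := pow_le_pow_left₀ (by norm_num) (by norm_num) n
    have e : (1 : ℝ) / 2 ^ (2 * (4 + n) + 1) = 1 / 512 * (1 / 4) ^ n := by
      rw [show 2 * (4 + n) + 1 = 2 * n + 9 by ring, pow_add, pow_mul, one_div_pow]
      norm_num
    rw [e, hrr, pow_add]
    have h5 : (0 : ℝ) < (2 / 3) ^ n := by positivity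
    have h6 : ((2 : ℝ) / 3) ^ 4 = 16 / 81 := by norm_num
    rw [h6]
    linarith
  -- eps
  have heps : (1 / 3 : ℝ) ^ (2 * i + 3) ≤ 0.00001 := by
    have h := pow_le_pow_of_le_one (by norm_num : (0:ℝ) ≤ 1 / 3) (by norm_num : (1 / 3 : ℝ) ≤ 1)
      (show 11 ≤ 2 * i + 3 by omega)
    refine h.trans (by norm_num)
  have heps0 : (0 : ℝ) < (1 / 3) ^ (2 * i + 3) := by positivity
  set ε : ℝ := (1 / 3) ^ (2 * i + 3) with hε
  have ha := k3b_n3 i hi4
  have hb := k3b_n4 i hi4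
  set q : ℝ := 1 / (2 * (i : ℝ) + 1) with hq
  have hq0 : 0 < q := by positivity
  set z : ℝ := 1 / (2 : ℝ) ^ (2 * i + 1) with hz
  have hz0 : 0 < z := by positivity
  have hV' : w - 0.2661 * q - 0.21 * z ≤ (2 * (i : ℝ) + 1) * mA (2 * i) := by
    have e : (0.21 : ℝ) / 2 ^ (2 * i + 1) = 0.21 * z := by rw [hz]; ring
    rw [e] at hV
    linarith
  have hWw : Wl (2 * i + 3) / π ≤ w := by
    rw [hr, hw]
    apply div_le_div_of_nonneg_right _ hπ.le
    have : (2 * (i : ℝ) + 1 + 1) / (2 * i + 1 + 2) ≤ 1 := by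
      rw [div_le_one (by positivity)]; linarith
    exact mul_le_of_le_one_left hWp.le this
  have hM' : MM (2 * i + 3) ≤ w + 0.0761 * q := by linarith
  have hMn := MM_nonneg (2 * i + 3)
  have hrat : (2 * (i : ℝ) + 5) / (2 * i + 2) ≤ 1.3 := by
    rw [div_le_iff₀ (by positivity)]; linarith
  have hrat0 : 0 < (2 * (i : ℝ) + 5) / (2 * i + 2) := by positivity
  have hB1 : 1 / 4 * (MM (2 * i + 3) * ((2 * i + 5) / (2 * i + 2))) ≤ 0.325 * (w + 0.0761 * q) := by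
    have : MM (2 * i + 3) * ((2 * i + 5) / (2 * i + 2)) ≤ (w + 0.0761 * q) * 1.3 :=
      mul_le_mul hM' hrat hrat0.le (by positivity)
    linarith
  have hB2 := k3b_n5 ε w q z _ heps0 heps hw0 hq0 hz0 hV'
  have hB : 0.2145 * r ≤ ((2 * (i : ℝ) + 1) * mA (2 * i)) * (1 - ε) -
      1 / 4 * (MM (2 * i + 3) * ((2 * i + 5) / (2 * i + 2))) := by
    linarith
  have hsq : 1.25331 ≤ Real.sqrt (π / 2) := by
    apply Real.le_sqrt_of_sq_le
    have := Real.pi_gt_d6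
    norm_num at this ⊢
    linarith
  have hfin : 1 / (3.72 * 3 ^ i * (i.factorial : ℝ)) ≤ c * (0.2145 * r) := by
    rw [hc, hrr, div_pow]
    rw [div_mul_eq_mul_div, div_le_div_iff₀ (by positivity) (by positivity)]
    have h3 : (0 : ℝ) < 3 ^ i := by positivity
    have h2 : (0 : ℝ) < 2 ^ i := by positivity
    have e : Real.sqrt (π / 2) * (0.2145 * (2 ^ i / 3 ^ i)) * (3.72 * 3 ^ i * (i.factorial : ℝ)) =
        (Real.sqrt (π / 2) * 0.79794) * (2 ^ i * (i.factorial : ℝ)) := by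
      field_simp
      ring
    rw [e]
    apply mul_le_mul_of_nonneg_right _ (by positivity)
    linarith
  exact hfin.trans (mul_le_mul_of_nonneg_left hB hc0.le)

end Pool.Agent.SSCP
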