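import Pool.Agent.SSCP.LK1b

/-! Row K3c: nonnegativity of the odd coefficients `cf (2 i + 1)`, `i ≥ 4`, and summability. -/

set_option autoImplicit false
open MeasureTheory ProbabilityTheory Set Real
open scoped ENNReal

namespace Pool.Agent.SSCP
open Pool.Agent.SSC3N
open Pool.Agent.SSC3 (ker W E2 Per len slice g2)

private theorem k3c_Jrec (k : ℕ) : Jc (k + 2) = ((k : ℝ) + 1) * Jc k := rfl

private theorem k3c_Jpos2 (k : ℕ) : 0 < Jc k ∧ 0 < Jc (k + 1) := by
  induction k with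
  | zero =>
    refine ⟨?_, ?_⟩
    · show 0 < Real.sqrt (π / 2)
      exact Real.sqrt_pos.mpr (by positivity)
    · show (0 : ℝ) < 1
      norm_num
  | succ n ih =>
    refine ⟨ih.2, ?_⟩
    show 0 < Jc (n + 2)
    rw [k3c_Jrec]
    have := ih.1
    positivity

private theorem k3c_Jpos (k : ℕ) : 0 < Jc k := (k3c_Jpos2 k).1

private theorem k3c_pi2 : (9.869 : ℝ) ≤ π ^ 2 := by
  have hπ1 := Real.pi_gt_d4
  nlinarith

private theorem k3c_n3 (x : ℝ) (hx : 4 ≤ x) :
    21 / (8 * π ^ 2 * (2 * x + 2)) ≤ 0.2661 * (1 / (2 * x + 2)) := by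
  have hπ := Real.pi_pos
  have h9 := k3c_pi2
  have hx2 : 0 < 2 * x + 2 := by linarith
  rw [mul_one_div, div_le_div_iff₀ (by positivity) hx2]
  have e : 0.2661 * (8 * π ^ 2 * (2 * x + 2)) = (2.1288 * π ^ 2) * (2 * x + 2) := by ring
  rw [e]
  exact mul_le_mul_of_nonneg_right (by linarith) hx2.le

private theorem k3c_n4 (x : ℝ) (hx : 4 ≤ x) :
    3 / (4 * π ^ 2 * (2 * x + 4)) ≤ 0.0761 * (1 / (2 * x + 2)) := by
  have hπ := Real.pi_pos
  have h9 := k3c_pi2
  have hx2 : 0 < 2 * x + 2 := by linarith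
  have hx3 : 0 < 2 * x + 4 := by linarith
  rw [mul_one_div, div_le_div_iff₀ (by positivity) hx2]
  have e : 0.0761 * (4 * π ^ 2 * (2 * x + 4)) = (0.3044 * π ^ 2) * (2 * x + 4) := by ring
  rw [e]
  calc 3 * (2 * x + 2) ≤ 3 * (2 * x + 4) := by linarith
    _ ≤ _ := mul_le_mul_of_nonneg_right (by linarith) hx3.le

private theorem k3c_n2 (x : ℝ) (hx : 4 ≤ x) :
    (1 / (2 * x + 2)) ^ 2 ≤ 0.776161 * (1 / (2 * π * (2 * x + 3))) := by
  have hπ := Real.pi_pos
  have hπ2 := Real.pi_lt_d4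
  have hx1 : 0 < 2 * x + 3 := by linarith
  have hx2 : 0 < 2 * x + 2 := by linarith
  rw [mul_one_div, div_pow, one_pow, div_le_div_iff₀ (by positivity) (by positivity)]
  have h1 : 1 * (2 * π * (2 * x + 3)) ≤ 6.2832 * (2 * x + 3) := by nlinarith
  nlinarith

/-- `j = 2i+1 ≥ 9`, same bounds. -/
theorem cf_odd (i : ℕ) (hi : 4 ≤ i) : 0 ≤ cf (2 * i + 1) := by
  have hπ := Real.pi_pos
  have hi4 : (4 : ℝ) ≤ i := by exact_mod_cast hi
  have hJ := k3c_Jpos (2 * i + 3)
  have hJ6 : Jc (2 * i + 1 + 6) = (2 * (i : ℝ) + 6) * ((2 * i + 4) * Jc (2 * i + 3)) := by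
    rw [show 2 * i + 1 + 6 = (2 * i + 5) + 2 by ring, k3c_Jrec,
      show 2 * i + 5 = (2 * i + 3) + 2 by ring, k3c_Jrec]
    push_cast
    ring
  have hf3 : ((2 * i + 1 + 3).factorial : ℝ) =
      (2 * i + 4) * ((2 * i + 3) * ((2 * i + 2) * ((2 * i + 1).factorial : ℝ))) := by
    rw [show 2 * i + 1 + 3 = (2 * i + 3) + 1 by ring, Nat.factorial_succ,
      show 2 * i + 3 = (2 * i + 2) + 1 by ring, Nat.factorial_succ,
      show 2 * i + 2 = (2 * i + 1) + 1 by ring, Nat.factorial_succ]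
    push_cast
    ring
  have hf0 : (0 : ℝ) < ((2 * i + 1).factorial : ℝ) := by exact_mod_cast (2 * i + 1).factorial_pos
  have hcf : cf (2 * i + 1) = Jc (2 * i + 3) / ((2 * i + 2) * ((2 * i + 1).factorial : ℝ)) *
      (((2 * (i : ℝ) + 2) * mA (2 * i + 1)) * (1 - (1 / 3) ^ (2 * i + 4)) -
      1 / 4 * (MM (2 * i + 4) * ((2 * i + 6) / (2 * i + 3)))) := by
    unfold cf
    rw [if_neg (by omega), hJ6, hf3, show 2 * i + 1 + 2 = 2 * i + 3 by ring,
      show 2 * i + 1 + 3 = 2 * i + 4 by ring]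
    field_simp
  rw [hcf]
  apply mul_nonneg (by positivity)
  -- bounds
  have hV := V_gen (2 * i + 1)
  have hM := M_gen (2 * i + 4) (by omega)
  have hr := Wl_rec (2 * i + 2)
  have hWl := Wl_lower (2 * i + 2)
  have hWp := Wl_pos (2 * i + 2)
  rw [show 2 * i + 2 + 2 = 2 * i + 4 by ring] at hr
  rw [show 2 * i + 1 + 1 = 2 * i + 2 by ring] at hV
  push_cast at hV hM hr hWl
  rw [show (2 * (i : ℝ) + 1 + 1) = 2 * i + 2 by ring] at hV
  rw [show (2 * (i : ℝ) + 2 + 1) = 2 * i + 3 by ring] at hr hWl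
  rw [show (2 * (i : ℝ) + 2 + 2) = 2 * i + 4 by ring] at hr
  set w : ℝ := Wl (2 * i + 2) / π with hw
  have hw0 : 0 < w := by positivity
  have hw2 : 1 / (2 * π * (2 * (i : ℝ) + 3)) ≤ w ^ 2 := by
    rw [hw, div_pow, le_div_iff₀ (by positivity)]
    refine le_trans (le_of_eq ?_) hWl
    field_simp
  have hkw : 1 / (2 * (i : ℝ) + 2) ≤ 0.881 * w := by
    apply le_of_sq_le_sq _ (by positivity)
    have h2 : (0.881 * w) ^ 2 = 0.776161 * w ^ 2 := by ring
    rw [h2]
    have h3 := k3c_n2 i hi4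
    linarith
  have hzq : 1 / (2 : ℝ) ^ (2 * i + 2) ≤ 1 / (2 * (i : ℝ) + 2) := by
    apply one_div_le_one_div_of_le (by positivity)
    have := Nat.lt_two_pow_self (n := 2 * i + 2)
    have h2 : ((2 * i + 2 : ℕ) : ℝ) ≤ ((2 ^ (2 * i + 2) : ℕ) : ℝ) := by exact_mod_cast this.le
    push_cast at h2
    exact h2
  have heps : (1 / 3 : ℝ) ^ (2 * i + 4) ≤ 0.00001 := by
    have h := pow_le_pow_of_le_one (by norm_num : (0:ℝ) ≤ 1 / 3) (by norm_num : (1 / 3 : ℝ) ≤ 1)
      (show 12 ≤ 2 * i + 4 by omega)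
    refine h.trans (by norm_num)
  have heps0 : (0 : ℝ) < (1 / 3) ^ (2 * i + 4) := by positivity
  set ε : ℝ := (1 / 3) ^ (2 * i + 4) with hε
  have ha := k3c_n3 i hi4
  have hb := k3c_n4 i hi4
  set q : ℝ := 1 / (2 * (i : ℝ) + 2) with hq
  have hq0 : 0 < q := by positivity
  set z : ℝ := 1 / (2 : ℝ) ^ (2 * i + 2) with hz
  have hz0 : 0 < z := by positivity
  have hz4 : (0.42 : ℝ) / 2 ^ (2 * i + 4) = 0.105 * z := by
    rw [hz, show 2 * i + 4 = (2 * i + 2) + 2 by ring, pow_add]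
    have : (0 : ℝ) < 2 ^ (2 * i + 2) := by positivity
    field_simp
    norm_num
  have hV' : w - 0.2661 * q - 0.21 * z ≤ (2 * (i : ℝ) + 2) * mA (2 * i + 1) := by
    have e : (0.21 : ℝ) / 2 ^ (2 * i + 2) = 0.21 * z := by rw [hz]; ring
    rw [e] at hV
    linarith
  have hWw : Wl (2 * i + 4) / π ≤ w := by
    rw [hr, hw]
    apply div_le_div_of_nonneg_right _ hπ.le
    have : (2 * (i : ℝ) + 3) / (2 * i + 4) ≤ 1 := by
      rw [div_le_one (by positivity)]; linarith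
    exact mul_le_of_le_one_left hWp.le this
  have hM' : MM (2 * i + 4) ≤ w + 0.0761 * q + 0.105 * z := by
    rw [hz4] at hM
    linarith
  have hMn := MM_nonneg (2 * i + 4)
  have hrat : (2 * (i : ℝ) + 6) / (2 * i + 3) ≤ 1.3 := by
    rw [div_le_iff₀ (by positivity)]; linarith
  have hrat0 : 0 < (2 * (i : ℝ) + 6) / (2 * i + 3) := by positivity
  have hB1 : 1 / 4 * (MM (2 * i + 4) * ((2 * i + 6) / (2 * i + 3))) ≤
      0.325 * (w + 0.0761 * q + 0.105 * z) := by
    have : MM (2 * i + 4) * ((2 * i + 6) / (2 * i + 3)) ≤ (w + 0.0761 * q + 0.105 * z) * 1.3 :=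
      mul_le_mul hM' hrat hrat0.le (by positivity)
    linarith
  have hV0 : 0 ≤ (2 * (i : ℝ) + 2) * mA (2 * i + 1) := by
    have := mA_nonneg (2 * i + 1)
    positivity
  have hB2 : 0.9999 * (w - 0.2661 * q - 0.21 * z) ≤
      ((2 * (i : ℝ) + 2) * mA (2 * i + 1)) * (1 - ε) := by
    have h1 : 0.9999 * ((2 * (i : ℝ) + 2) * mA (2 * i + 1)) ≤
        ((2 * (i : ℝ) + 2) * mA (2 * i + 1)) * (1 - ε) := by
      rw [mul_comm (0.9999 : ℝ)]
      exact mul_le_mul_of_nonneg_left (by norm_num at heps ⊢; linarith) hV0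
    linarith
  linarith

private theorem k3c_ratio (g : ℕ → ℝ) (C : ℝ) (h0 : ∀ i, 0 ≤ g i)
    (h : ∀ i, g (i + 1) ≤ C / ((i : ℝ) + 1) * g i) : Summable g := by
  refine summable_of_ratio_norm_eventually_le (r := 1 / 2) (by norm_num) ?_
  obtain ⟨N, hN⟩ := exists_nat_gt (2 * C)
  filter_upwards [Filter.eventually_ge_atTop N] with i hi
  rw [Real.norm_of_nonneg (h0 _), Real.norm_of_nonneg (h0 _)]
  refine (h i).trans (mul_le_mul_of_nonneg_right ?_ (h0 i))
  have hi' : (N : ℝ) ≤ i := by exact_mod_cast hi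
  rw [div_le_iff₀ (by positivity)]
  linarith

private theorem k3c_sum (f : ℕ → ℝ) (C : ℝ) (hC : 0 ≤ C) (h0 : ∀ j, 0 ≤ f j)
    (h : ∀ j, f (j + 2) ≤ C / ((j : ℝ) + 1) * f j) : Summable f := by
  have he : Summable (fun i => f (2 * i)) := by
    apply k3c_ratio _ C (fun i => h0 _)
    intro i
    have h1 := h (2 * i)
    refine le_trans h1 (mul_le_mul_of_nonneg_right ?_ (h0 _))
    apply div_le_div_of_nonneg_left hC (by positivity)
    push_cast
    have : (0 : ℝ) ≤ i := by positivity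
    linarith
  have ho : Summable (fun i => f (2 * i + 1)) := by
    apply k3c_ratio _ C (fun i => h0 _)
    intro i
    have h1 := h (2 * i + 1)
    refine le_trans h1 (mul_le_mul_of_nonneg_right ?_ (h0 _))
    apply div_le_div_of_nonneg_left hC (by positivity)
    push_cast
    have : (0 : ℝ) ≤ i := by positivity
    linarith
  exact (he.hasSum.even_add_odd ho.hasSum).summable

/-- `|cf j| ≤ 2 Jc (j+2)/j! + (j+5)(j+3) Jc(j+2)/j!`, `Jc (j+2) ≤ …`; summability for every `w`. -/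
theorem cf_summable (w : ℝ) : Summable (fun j : ℕ => cf j * w ^ j) := by
  have h1 : Summable (fun j : ℕ => Jc (j + 2) / (j.factorial : ℝ) * |w| ^ j) := by
    apply k3c_sum _ (8 * |w| ^ 2) (by positivity)
    · intro j
      have := k3c_Jpos (j + 2)
      positivity
    · intro j
      have hJ := k3c_Jpos (j + 2)
      have hf : (0 : ℝ) < (j.factorial : ℝ) := by exact_mod_cast j.factorial_pos
      have e1 : Jc (j + 2 + 2) = ((j : ℝ) + 3) * Jc (j + 2) := by
        rw [k3c_Jrec]; push_cast; ring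
      have e2 : ((j + 2).factorial : ℝ) = (j + 2) * ((j + 1) * (j.factorial : ℝ)) := by
        rw [Nat.factorial_succ, Nat.factorial_succ]; push_cast; ring
      rw [e1, e2, pow_add]
      have e3 : ((j : ℝ) + 3) * Jc (j + 2) / ((j + 2) * ((j + 1) * (j.factorial : ℝ))) *
          (|w| ^ j * |w| ^ 2) =
          (((j : ℝ) + 3) / (j + 2)) * (|w| ^ 2 / ((j : ℝ) + 1)) *
            (Jc (j + 2) / (j.factorial : ℝ) * |w| ^ j) := by
        field_simp
      have e4 : 8 * |w| ^ 2 / ((j : ℝ) + 1) = 8 * (|w| ^ 2 / ((j : ℝ) + 1)) := by ring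
      rw [e3, e4]
      apply mul_le_mul_of_nonneg_right _ (by positivity)
      apply mul_le_mul_of_nonneg_right _ (by positivity)
      rw [div_le_iff₀ (by positivity)]
      have : (0 : ℝ) ≤ j := by positivity
      linarith
  have h2 : Summable (fun j : ℕ => Jc (j + 6) / ((j + 3).factorial : ℝ) * |w| ^ j) := by
    apply k3c_sum _ (8 * |w| ^ 2) (by positivity)
    · intro j
      have := k3c_Jpos (j + 6)
      positivity
    · intro j
      have hJ := k3c_Jpos (j + 6)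
      have hf : (0 : ℝ) < ((j + 3).factorial : ℝ) := by exact_mod_cast (j + 3).factorial_pos
      have e1 : Jc (j + 2 + 6) = ((j : ℝ) + 7) * Jc (j + 6) := by
        rw [show j + 2 + 6 = (j + 6) + 2 by ring, k3c_Jrec]; push_cast; ring
      have e2 : ((j + 2 + 3).factorial : ℝ) = (j + 5) * ((j + 4) * ((j + 3).factorial : ℝ)) := by
        rw [show j + 2 + 3 = (j + 3) + 1 + 1 by ring, Nat.factorial_succ, Nat.factorial_succ]
        push_cast; ring
      rw [e1, e2, pow_add]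
      have e3 : ((j : ℝ) + 7) * Jc (j + 6) / ((j + 5) * ((j + 4) * ((j + 3).factorial : ℝ))) *
          (|w| ^ j * |w| ^ 2) =
          (((j : ℝ) + 7) * (j + 1) / ((j + 5) * (j + 4))) * (|w| ^ 2 / ((j : ℝ) + 1)) *
            (Jc (j + 6) / ((j + 3).factorial : ℝ) * |w| ^ j) := by
        field_simp
      have e4 : 8 * |w| ^ 2 / ((j : ℝ) + 1) = 8 * (|w| ^ 2 / ((j : ℝ) + 1)) := by ring
      rw [e3, e4]
      apply mul_le_mul_of_nonneg_right _ (by positivity)
      apply mul_le_mul_of_nonneg_right _ (by positivity)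
      rw [div_le_iff₀ (by positivity)]
      have : (0 : ℝ) ≤ j := by positivity
      nlinarith
  refine Summable.of_norm_bounded (h1.add h2) ?_
  intro j
  have hJ2 := k3c_Jpos (j + 2)
  have hJ6 := k3c_Jpos (j + 6)
  have ha0 := mA_nonneg j
  have ha1 := mA_le_one j
  have hM0 := MM_nonneg (j + 3)
  have hM1 := MM_le_one (j + 3)
  have hf : (0 : ℝ) < (j.factorial : ℝ) := by exact_mod_cast j.factorial_pos
  have hf3 : (0 : ℝ) < ((j + 3).factorial : ℝ) := by exact_mod_cast (j + 3).factorial_pos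
  have he0 : (0 : ℝ) ≤ 1 - (1 / 3) ^ (j + 3) := by
    have : (1 / 3 : ℝ) ^ (j + 3) ≤ 1 := pow_le_one₀ (by norm_num) (by norm_num)
    linarith
  have he1 : (1 : ℝ) - (1 / 3) ^ (j + 3) ≤ 1 := by
    have : (0 : ℝ) ≤ (1 / 3 : ℝ) ^ (j + 3) := by positivity
    linarith
  have hA0 : 0 ≤ mA j * Jc (j + 2) / (j.factorial : ℝ) * (1 - (1 / 3) ^ (j + 3)) := by positivity
  have hA1 : mA j * Jc (j + 2) / (j.factorial : ℝ) * (1 - (1 / 3) ^ (j + 3)) ≤
      Jc (j + 2) / (j.factorial : ℝ) := by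
    have h3 : mA j * Jc (j + 2) / (j.factorial : ℝ) ≤ Jc (j + 2) / (j.factorial : ℝ) :=
      div_le_div_of_nonneg_right (mul_le_of_le_one_left hJ2.le ha1) hf.le
    calc mA j * Jc (j + 2) / (j.factorial : ℝ) * (1 - (1 / 3) ^ (j + 3))
        ≤ mA j * Jc (j + 2) / (j.factorial : ℝ) := mul_le_of_le_one_right (by positivity) he1
      _ ≤ _ := h3
  have hB : 0 ≤ (if j = 0 then (0 : ℝ) else 1 / 4 * (MM (j + 3) * Jc (j + 6) / ((j + 3).factorial : ℝ)))
      ∧ (if j = 0 then (0 : ℝ) else 1 / 4 * (MM (j + 3) * Jc (j + 6) / ((j + 3).factorial : ℝ))) ≤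
        Jc (j + 6) / ((j + 3).factorial : ℝ) := by
    have h3 : MM (j + 3) * Jc (j + 6) / ((j + 3).factorial : ℝ) ≤
        Jc (j + 6) / ((j + 3).factorial : ℝ) :=
      div_le_div_of_nonneg_right (mul_le_of_le_one_left hJ6.le hM1) hf3.le
    have h4 : 0 ≤ MM (j + 3) * Jc (j + 6) / ((j + 3).factorial : ℝ) := by positivity
    have h5 : 0 ≤ Jc (j + 6) / ((j + 3).factorial : ℝ) := by positivity
    split_ifs
    · exact ⟨le_refl _, h5⟩
    · exact ⟨by linarith, by linarith⟩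
  have hcf : |cf j| ≤ Jc (j + 2) / (j.factorial : ℝ) + Jc (j + 6) / ((j + 3).factorial : ℝ) := by
    unfold cf
    have h5 : 0 ≤ Jc (j + 6) / ((j + 3).factorial : ℝ) := by positivity
    have h6 : 0 ≤ Jc (j + 2) / (j.factorial : ℝ) := by positivity
    rw [abs_le]
    constructor
    · linarith [hB.1, hB.2]
    · linarith [hB.1, hB.2]
  rw [norm_mul, norm_pow, Real.norm_eq_abs, Real.norm_eq_abs]
  calc |cf j| * |w| ^ j ≤ (Jc (j + 2) / (j.factorial : ℝ) + Jc (j + 6) / ((j + 3).factorial : ℝ)) *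
      |w| ^ j := mul_le_mul_of_nonneg_right hcf (by positivity)
    _ = _ := by ring

end Pool.Agent.SSCP
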