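import Pool.Agent.SSCP.Defs

/-! [K4] explicit polynomial inequality -/

set_option autoImplicit false
open MeasureTheory ProbabilityTheory Set Real
open scoped ENNReal

namespace Pool.Agent.SSCP
open Pool.Agent.SSC3N
open Pool.Agent.SSC3 (ker W E2 Per len slice g2)

/-- One-variable polynomial inequality, minimum of the difference about `0.0016` at `w = 1.11`.
(E.g. split `[0,∞)` and use Bernstein coefficients / sums of squares.) -/
theorem low_poly (w : ℝ) (hw : 0 ≤ w) :
    (1 + w ^ 2 / 3 + w ^ 4 / 18 + w ^ 6 / 162) / 3.72 ≤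
      0.28225 + 0.01221 * w + 0.04806 * w ^ 2 + 0.01796 * w ^ 3 + 0.01059 * w ^ 4 +
        0.00414 * w ^ 5 + 0.00152 * w ^ 6 + 0.00056 * w ^ 7 := by
  rcases le_total w 1.18 with h | h
  · have hs : 0 ≤ 1.18 - w := by linarith
    have h0 := pow_nonneg hs 7
    have h1 := mul_nonneg hw (pow_nonneg hs 6)
    have h2 := mul_nonneg (pow_nonneg hw 2) (pow_nonneg hs 5)
    have h3 := mul_nonneg (pow_nonneg hw 3) (pow_nonneg hs 4)
    have h4 := mul_nonneg (pow_nonneg hw 4) (pow_nonneg hs 3)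
    have h5 := mul_nonneg (pow_nonneg hw 5) (pow_nonneg hs 2)
    have h6 := mul_nonneg (pow_nonneg hw 6) hs
    have h7 := pow_nonneg hw 7
    norm_num at h0 h1 h2 h3 h4 h5 h6 h7 ⊢
    linarith
  · obtain ⟨s, rfl⟩ : ∃ s, w = 1.18 + s := ⟨w - 1.18, by ring⟩
    have hs : 0 ≤ s := by linarith
    have h1 := hs
    have h2 := pow_nonneg hs 2
    have h3 := pow_nonneg hs 3
    have h4 := pow_nonneg hs 4
    have h5 := pow_nonneg hs 5
    have h6 := pow_nonneg hs 6
    have h7 := pow_nonneg hs 7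
    norm_num at h1 h2 h3 h4 h5 h6 h7 ⊢
    linarith

end Pool.Agent.SSCP
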