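import Pool.Agent.SSCP.LK2

/-! Part K, layer 3: [K4b]. -/

set_option autoImplicit false
open MeasureTheory ProbabilityTheory Set Real
open scoped ENNReal

namespace Pool.Agent.SSCP
open Pool.Agent.SSC3N
open Pool.Agent.SSC3 (ker W E2 Per len slice g2)

/-- the coefficients of `e^{w²/3} / 3.72` -/
private noncomputable def ecf (j : ℕ) : ℝ :=
  if Even j then 1 / (3.72 * 3 ^ (j / 2) * ((j / 2).factorial : ℝ)) else 0

private theorem ecf_two (i : ℕ) : ecf (2 * i) = 1 / (3.72 * 3 ^ i * (i.factorial : ℝ)) := by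
  unfold ecf
  rw [if_pos (even_two_mul i)]
  have : 2 * i / 2 = i := by omega
  rw [this]

private theorem ecf_hasSum (w : ℝ) :
    HasSum (fun j : ℕ => ecf j * w ^ j) (Real.exp (w ^ 2 / 3) / 3.72) := by
  have h1 : HasSum (fun i : ℕ => (w ^ 2 / 3) ^ i / (i.factorial : ℝ)) (Real.exp (w ^ 2 / 3)) := by
    rw [Real.exp_eq_exp_ℝ]
    exact NormedSpace.expSeries_div_hasSum_exp (w ^ 2 / 3)
  have hinj : Function.Injective (fun i : ℕ => 2 * i) := fun a b h => by
    simp only at h; omega
  rw [← hinj.hasSum_iff]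
  · refine (h1.div_const 3.72).congr_fun ?_
    intro i
    simp only [Function.comp]
    rw [ecf_two, div_pow, ← pow_mul]
    field_simp
  · intro j hj
    unfold ecf
    rw [if_neg, zero_mul]
    intro he
    obtain ⟨i, hi⟩ := he
    exact hj ⟨i, by simp only; omega⟩

/-- [K4b] `e^{w²/3} = ∑ w^{2i}/(3^i i!)`; terms `j ≥ 8`: `cf_even`, `cf_odd`; terms `j < 8`: `cf_low`, `low_poly`. -/
theorem cf_exp (w : ℝ) (hw : 0 ≤ w) :
    Real.exp (w ^ 2 / 3) / 3.72 ≤ ∑' j : ℕ, cf j * w ^ j := by
  have hE := ecf_hasSum w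
  have hS := cf_summable w
  rw [← hE.tsum_eq, ← hE.summable.sum_add_tsum_nat_add 8, ← hS.sum_add_tsum_nat_add 8]
  refine add_le_add ?_ ?_
  · obtain ⟨c0, c1, c2, c3, c4, c5, c6, c7⟩ := cf_low
    have hp := low_poly w hw
    have e1 : ∑ i ∈ Finset.range 8, ecf i * w ^ i
        = (1 + w ^ 2 / 3 + w ^ 4 / 18 + w ^ 6 / 162) / 3.72 := by
      simp only [Finset.sum_range_succ, Finset.sum_range_zero]
      have h0 : ecf 0 = 1 / 3.72 := by have := ecf_two 0; norm_num at this; rw [this]; norm_num
      have h2 : ecf 2 = 1 / (3.72 * 3) := by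
        have := ecf_two 1; norm_num at this; rw [this]; norm_num
      have h4 : ecf 4 = 1 / (3.72 * 18) := by
        have := ecf_two 2; norm_num [Nat.factorial] at this; rw [this]; norm_num
      have h6 : ecf 6 = 1 / (3.72 * 162) := by
        have := ecf_two 3; norm_num [Nat.factorial] at this; rw [this]; norm_num
      have h1 : ecf 1 = 0 := by unfold ecf; rw [if_neg (by decide)]
      have h3 : ecf 3 = 0 := by unfold ecf; rw [if_neg (by decide)]
      have h5 : ecf 5 = 0 := by unfold ecf; rw [if_neg (by decide)]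
      have h7 : ecf 7 = 0 := by unfold ecf; rw [if_neg (by decide)]
      rw [h0, h1, h2, h3, h4, h5, h6, h7]
      ring
    rw [e1]
    refine hp.trans ?_
    simp only [Finset.sum_range_succ, Finset.sum_range_zero]
    have m1 := mul_le_mul_of_nonneg_right c1 hw
    have m2 := mul_le_mul_of_nonneg_right c2 (pow_nonneg hw 2)
    have m3 := mul_le_mul_of_nonneg_right c3 (pow_nonneg hw 3)
    have m4 := mul_le_mul_of_nonneg_right c4 (pow_nonneg hw 4)
    have m5 := mul_le_mul_of_nonneg_right c5 (pow_nonneg hw 5)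
    have m6 := mul_le_mul_of_nonneg_right c6 (pow_nonneg hw 6)
    have m7 := mul_le_mul_of_nonneg_right c7 (pow_nonneg hw 7)
    rw [pow_zero, pow_one, mul_one, zero_add]
    linarith
  · refine Summable.tsum_le_tsum ?_ ?_ ?_
    · intro j
      refine mul_le_mul_of_nonneg_right ?_ (pow_nonneg hw _)
      rcases Nat.even_or_odd (j + 8) with he | ho
      · obtain ⟨i, hi⟩ := he
        have hi' : j + 8 = 2 * i := by omega
        rw [hi', ecf_two]
        exact cf_even i (by omega)
      · obtain ⟨i, hi⟩ := ho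
        unfold ecf
        rw [if_neg (Nat.not_even_iff_odd.mpr ⟨i, hi⟩), hi]
        exact cf_odd i (by omega)
    · exact (summable_nat_add_iff 8).mpr hE.summable
    · exact (summable_nat_add_iff 8).mpr hS

end Pool.Agent.SSCP
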