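import Pool.Agent.SSCP.Defs

/-! [SSCP-K5] power series of `Cp` and `Vp`: exchange of sum and integral. -/

set_option autoImplicit false
open MeasureTheory ProbabilityTheory Set Real
open scoped ENNReal

namespace Pool.Agent.SSCP
open Pool.Agent.SSC3N
open Pool.Agent.SSC3 (ker W E2 Per len slice g2)

private theorem K5_exp (x : ℝ) : HasSum (fun k : ℕ => x ^ k / (k.factorial : ℝ)) (Real.exp x) := by
  have h := NormedSpace.expSeries_div_hasSum_exp (𝔸 := ℝ) x
  rwa [← Real.exp_eq_exp_ℝ] at h

private theorem K5_aux (w c : ℝ → ℝ) (hw : Continuous w) (hc : Continuous c) (hc1 : ∀ t, |c t| ≤ 1)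
    (l a b : ℝ) :
    HasSum (fun k : ℕ => (∫ t in a..b, w t * c t ^ k) * l ^ k / (k.factorial : ℝ))
      (∫ t in a..b, w t * Real.exp (l * c t)) := by
  have h := intervalIntegral.hasSum_integral_of_dominated_convergence (μ := volume) (a := a) (b := b)
    (F := fun (k : ℕ) t => w t * ((l * c t) ^ k / (k.factorial : ℝ)))
    (f := fun t => w t * Real.exp (l * c t))
    (fun k t => |w t| * (|l| ^ k / (k.factorial : ℝ)))
    (fun k => (by fun_prop : Continuous fun t => w t * ((l * c t) ^ k / (k.factorial : ℝ))).aestronglyMeasurable)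
    (fun k => Filter.Eventually.of_forall fun t _ => by
      rw [Real.norm_eq_abs, abs_mul, abs_div, abs_pow, abs_mul, Nat.abs_cast]
      have h1 : |l| * |c t| ≤ |l| := by
        have := hc1 t
        have := abs_nonneg l
        nlinarith
      gcongr)
    (Filter.Eventually.of_forall fun t _ => (K5_exp |l|).summable.mul_left _)
    (by
      have : (fun t => ∑' k : ℕ, |w t| * (|l| ^ k / (k.factorial : ℝ))) =
          fun t => |w t| * Real.exp |l| := by
        funext t
        exact ((K5_exp |l|).mul_left |w t|).tsum_eq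
      rw [this]
      exact (by fun_prop : Continuous fun t => |w t| * Real.exp |l|).intervalIntegrable _ _)
    (Filter.Eventually.of_forall fun t _ => (K5_exp (l * c t)).mul_left (w t))
  have e : (fun k : ℕ => (∫ t in a..b, w t * c t ^ k) * l ^ k / (k.factorial : ℝ)) =
      fun k : ℕ => ∫ t in a..b, w t * ((l * c t) ^ k / (k.factorial : ℝ)) := by
    funext k
    rw [mul_div_assoc, ← intervalIntegral.integral_mul_const]
    congr 1
    funext t
    rw [mul_pow]
    ring
  rw [e]
  exact h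

theorem Cp_series (l : ℝ) : HasSum (fun k : ℕ => MM k * l ^ k / (k.factorial : ℝ)) (Cp l) := by
  have h1 := K5_aux (fun t => 2 + 3 * t) (fun t => Real.cos (2 * π * t)) (by fun_prop) (by fun_prop)
    (fun t => Real.abs_cos_le_one _) l 0 (1 / 3)
  have h2 : HasSum (fun k : ℕ => (-1 / 2 : ℝ) ^ k / 6 * l ^ k / (k.factorial : ℝ))
      (Real.exp (-l / 2) / 6) := by
    have h3 := (K5_exp (-l / 2)).mul_left (1 / 6)
    have e1 : (fun k : ℕ => (-1 / 2 : ℝ) ^ k / 6 * l ^ k / (k.factorial : ℝ)) =
        fun k : ℕ => 1 / 6 * ((-l / 2) ^ k / (k.factorial : ℝ)) := by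
      funext k
      have : (-l / 2 : ℝ) = (-1 / 2) * l := by ring
      rw [this, mul_pow]; ring
    rw [e1]
    have e4 : Real.exp (-l / 2) / 6 = 1 / 6 * Real.exp (-l / 2) := by ring
    rw [e4]
    exact h3
  have h3 := h1.add h2
  have e2 : (fun k : ℕ => MM k * l ^ k / (k.factorial : ℝ)) = fun k : ℕ =>
      (∫ t in (0:ℝ)..(1 / 3), (2 + 3 * t) * Real.cos (2 * π * t) ^ k) * l ^ k / (k.factorial : ℝ) +
        (-1 / 2 : ℝ) ^ k / 6 * l ^ k / (k.factorial : ℝ) := by
    funext k
    unfold MM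
    ring
  have e3 : Cp l = (∫ t in (0:ℝ)..(1 / 3), (2 + 3 * t) * Real.exp (l * Real.cos (2 * π * t))) +
      Real.exp (-l / 2) / 6 := by
    unfold Cp cF
    have : ∀ t : ℝ, -(-l * Real.cos (2 * π * t)) = l * Real.cos (2 * π * t) := fun t => by ring
    simp only [this]
  rw [e2, e3]
  exact h3

theorem Vp_series (l : ℝ) : HasSum (fun k : ℕ => mA k * l ^ (k + 1) / (k.factorial : ℝ)) (Vp l) := by
  have h1 := K5_aux (fun t => 2 * π * Real.sin (2 * π * t) * vt t) (fun t => Real.cos (2 * π * t))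
    (by unfold vt; fun_prop) (by fun_prop) (fun t => Real.abs_cos_le_one _) l 0 (1 / 3)
  have h2 := h1.mul_left l
  have e2 : (fun k : ℕ => mA k * l ^ (k + 1) / (k.factorial : ℝ)) = fun k : ℕ =>
      l * ((∫ t in (0:ℝ)..(1 / 3), 2 * π * Real.sin (2 * π * t) * vt t *
        Real.cos (2 * π * t) ^ k) * l ^ k / (k.factorial : ℝ)) := by
    funext k
    unfold mA
    ring
  have e3 : Vp l = l * ∫ t in (0:ℝ)..(1 / 3), 2 * π * Real.sin (2 * π * t) * vt t *
      Real.exp (l * Real.cos (2 * π * t)) := by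
    unfold Vp LF
    have : ∀ t : ℝ, -(-l * Real.cos (2 * π * t)) = l * Real.cos (2 * π * t) := fun t => by ring
    simp only [this]
  rw [e2, e3]
  exact h2

end Pool.Agent.SSCP
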