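import Pool.Agent.SSCP.LK1b

/-! Part K, layer 2: [K6a]. -/

set_option autoImplicit false
open MeasureTheory ProbabilityTheory Set Real
open scoped ENNReal

namespace Pool.Agent.SSCP
open Pool.Agent.SSC3N
open Pool.Agent.SSC3 (ker W E2 Per len slice g2)

private theorem nine_rpow (k : ℕ) :
    (9 : ℝ) ^ (-(((k + 2 : ℕ) : ℝ) + 1) / 2) = (1 / 3) ^ (k + 3) := by
  have h9 : (9 : ℝ) = 3 ^ (2 : ℝ) := by norm_num
  rw [h9, ← Real.rpow_mul (by norm_num)]
  have e1 : (2 : ℝ) * (-(((k + 2 : ℕ) : ℝ) + 1) / 2) = -((k + 3 : ℕ) : ℝ) := by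
    push_cast; ring
  rw [e1, Real.rpow_neg (by norm_num), Real.rpow_natCast, one_div, inv_pow]

private theorem term_int (k : ℕ) (w q : ℝ) :
    ∫ v, mA k * (w * v) ^ (k + 1) / (k.factorial : ℝ) * (1 + q - Real.exp (-(4 * v ^ 2))) ∂nu
      = mA k * Jc (k + 2) / (k.factorial : ℝ) * w ^ (k + 1) * (1 + q - (1 / 3) ^ (k + 3)) := by
  rw [integral_nu]
  have h1 := integral_Jc (k + 2) 1 one_pos
  have h9 := integral_Jc (k + 2) 9 (by norm_num)
  rw [nine_rpow] at h9
  rw [Real.one_rpow, mul_one] at h1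
  have e1 : ∀ v : ℝ, mA k * (w * v) ^ (k + 1) / (k.factorial : ℝ) *
      (1 + q - Real.exp (-(4 * v ^ 2))) * (v * Real.exp (-(v ^ 2 / 2)))
      = (mA k / (k.factorial : ℝ) * w ^ (k + 1)) *
        ((1 + q) * (v ^ (k + 2) * Real.exp (-(1 * v ^ 2 / 2)))
          - v ^ (k + 2) * Real.exp (-(9 * v ^ 2 / 2))) := by
    intro v
    have e2 : Real.exp (-(9 * v ^ 2 / 2)) = Real.exp (-(4 * v ^ 2)) * Real.exp (-(v ^ 2 / 2)) := by
      rw [← Real.exp_add]; congr 1; ring
    rw [e2, one_mul, mul_pow]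
    ring
  simp_rw [e1]
  rw [integral_const_mul, integral_sub, integral_const_mul, h1.1, h9.1]
  · ring
  · exact h1.2.const_mul _
  · exact h9.2

/-- `Vp_series` and exchange of sum and integral (`0 ≤ mA k ≤ 1`, `∑ (w v)^{k+1}/k! = w v e^{wv}` integrable);
`∫ v^{k+1} dν = Jc (k+2)`, `∫ v^{k+1} e^{-4v²} dν = ∫ v^{k+2} e^{-9v²/2} dv = Jc (k+2)/3^{k+3}`. -/
theorem D_series (w q : ℝ) (hw : 0 ≤ w) :
    HasSum (fun k : ℕ => mA k * Jc (k + 2) / (k.factorial : ℝ) * w ^ (k + 1) *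
      (1 + q - (1 / 3) ^ (k + 3)))
      (∫ v, Vp (w * v) * (1 + q - Real.exp (-(4 * v ^ 2))) ∂nu) := by
  have hB : ∀ v : ℝ, HasSum (fun k : ℕ => |w * v| ^ (k + 1) / (k.factorial : ℝ) * (|1 + q| + 1))
      (|w * v| * Real.exp |w * v| * (|1 + q| + 1)) := by
    intro v
    have h1 : HasSum (fun i : ℕ => |w * v| ^ i / (i.factorial : ℝ)) (Real.exp |w * v|) := by
      rw [Real.exp_eq_exp_ℝ]
      exact NormedSpace.expSeries_div_hasSum_exp |w * v|
    refine ((h1.mul_left |w * v|).mul_right _).congr_fun ?_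
    intro k
    rw [pow_succ]
    ring
  have h := hasSum_integral_of_dominated_convergence (μ := nu)
    (F := fun (k : ℕ) (v : ℝ) => mA k * (w * v) ^ (k + 1) / (k.factorial : ℝ) *
      (1 + q - Real.exp (-(4 * v ^ 2))))
    (f := fun v => Vp (w * v) * (1 + q - Real.exp (-(4 * v ^ 2))))
    (fun k v => |w * v| ^ (k + 1) / (k.factorial : ℝ) * (|1 + q| + 1)) ?_ ?_ ?_ ?_ ?_
  · simp_rw [term_int] at h
    exact h
  · intro k
    exact (by fun_prop : Measurable fun v : ℝ => mA k * (w * v) ^ (k + 1) / (k.factorial : ℝ) *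
      (1 + q - Real.exp (-(4 * v ^ 2)))).aestronglyMeasurable
  · intro k
    refine Filter.Eventually.of_forall ?_
    intro v
    rw [norm_mul, Real.norm_eq_abs, Real.norm_eq_abs, abs_div, abs_mul, abs_of_nonneg (mA_nonneg k),
      abs_pow, Nat.abs_cast]
    have h1 : |1 + q - Real.exp (-(4 * v ^ 2))| ≤ |1 + q| + 1 := by
      refine (abs_sub _ _).trans (add_le_add le_rfl ?_)
      rw [abs_of_pos (Real.exp_pos _), Real.exp_le_one_iff]
      have : 0 ≤ 4 * v ^ 2 := by positivity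
      linarith
    refine mul_le_mul ?_ h1 (abs_nonneg _) (by positivity)
    refine div_le_div_of_nonneg_right ?_ (by positivity)
    have := mA_le_one k
    have h2 : 0 ≤ |w * v| ^ (k + 1) := by positivity
    nlinarith
  · exact Filter.Eventually.of_forall fun v => (hB v).summable
  · simp_rw [fun v => (hB v).tsum_eq]
    refine integrable_nu _ (by fun_prop) (Real.exp (4 * w ^ 2) * (|1 + q| + 1)) ?_
    intro v hv
    have hwv : 0 ≤ w * v := mul_nonneg hw hv.le
    rw [abs_mul, abs_mul, abs_abs, abs_of_pos (Real.exp_pos _),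
      abs_of_nonneg (by positivity : 0 ≤ |1 + q| + 1), abs_of_nonneg hwv]
    have h1 : w * v ≤ Real.exp (w * v) := by
      have := Real.add_one_le_exp (w * v)
      linarith
    have h2 : w * v * Real.exp (w * v) ≤ Real.exp (4 * w ^ 2) * Real.exp (v ^ 2 / 4) := by
      calc w * v * Real.exp (w * v) ≤ Real.exp (w * v) * Real.exp (w * v) :=
            mul_le_mul_of_nonneg_right h1 (Real.exp_pos _).le
        _ = Real.exp (2 * (w * v)) := by rw [← Real.exp_add]; congr 1; ring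
        _ ≤ Real.exp (4 * w ^ 2 + v ^ 2 / 4) := by
            apply Real.exp_le_exp.mpr
            nlinarith [sq_nonneg (2 * w - v / 2)]
        _ = _ := Real.exp_add _ _
    calc w * v * Real.exp (w * v) * (|1 + q| + 1)
        ≤ Real.exp (4 * w ^ 2) * Real.exp (v ^ 2 / 4) * (|1 + q| + 1) :=
          mul_le_mul_of_nonneg_right h2 (by positivity)
      _ = _ := by ring
  · exact Filter.Eventually.of_forall fun v => (Vp_series (w * v)).mul_right _

end Pool.Agent.SSCP
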