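import Pool.Agent.SSCP.LK1b

set_option autoImplicit false
open MeasureTheory ProbabilityTheory Set Real
open scoped ENNReal

namespace Pool.Agent.SSCP
open Pool.Agent.SSC3N
open Pool.Agent.SSC3 (ker W E2 Per len slice g2)

private lemma k6b_exp (x : ℝ) :
    HasSum (fun k : ℕ => x ^ (k + 4) / ((k + 4).factorial : ℝ))
      (Real.exp x - (1 + x + x ^ 2 / 2 + x ^ 3 / 6)) := by
  have h : HasSum (fun k : ℕ => x ^ k / (k.factorial : ℝ)) (Real.exp x) := by
    have := NormedSpace.expSeries_div_hasSum_exp x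
    rwa [← Real.exp_eq_exp_ℝ] at this
  have h2 := (hasSum_nat_add_iff' 4).mpr h
  have e : (∑ i ∈ Finset.range 4, x ^ i / (i.factorial : ℝ)) = 1 + x + x ^ 2 / 2 + x ^ 3 / 6 := by
    simp [Finset.sum_range_succ, Nat.factorial]
  rw [e] at h2
  exact h2

private lemma k6b_C4 (l : ℝ) :
    HasSum (fun k : ℕ => MM (k + 4) * l ^ (k + 4) / ((k + 4).factorial : ℝ)) (C4 l) := by
  have h2 := (hasSum_nat_add_iff' 4).mpr (Cp_series l)
  have e : (∑ i ∈ Finset.range 4, MM i * l ^ i / (i.factorial : ℝ)) =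
      MM 0 + MM 1 * l + MM 2 * l ^ 2 / 2 + MM 3 * l ^ 3 / 6 := by
    simp [Finset.sum_range_succ, Nat.factorial]
  rw [e] at h2
  exact h2

private lemma k6b_bound (w : ℝ) (u : ℝ) (hu : 0 < u) :
    Real.exp (w * u) * u ^ 2 ≤ 8 * Real.exp (2 * w ^ 2) * Real.exp (u ^ 2 / 4) := by
  have h1 : Real.exp (w * u) ≤ Real.exp (2 * w ^ 2) * Real.exp (u ^ 2 / 8) := by
    rw [← Real.exp_add]
    apply Real.exp_le_exp.mpr
    nlinarith [sq_nonneg (u - 4 * w)]
  have h2 : u ^ 2 ≤ 8 * Real.exp (u ^ 2 / 8) := by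
    have := Real.add_one_le_exp (u ^ 2 / 8)
    linarith
  calc Real.exp (w * u) * u ^ 2 ≤
      (Real.exp (2 * w ^ 2) * Real.exp (u ^ 2 / 8)) * (8 * Real.exp (u ^ 2 / 8)) := by
        gcongr
    _ = 8 * Real.exp (2 * w ^ 2) * (Real.exp (u ^ 2 / 8) * Real.exp (u ^ 2 / 8)) := by ring
    _ = 8 * Real.exp (2 * w ^ 2) * Real.exp (u ^ 2 / 4) := by
        rw [← Real.exp_add]; congr 2; ring

private lemma k6b_mom (k : ℕ) : ∫ v, v ^ (k + 4) * v ^ 2 ∂nu = Jc (k + 7) := by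
  rw [integral_nu]
  have h := (integral_Jc (k + 7) 1 one_pos).1
  rw [Real.one_rpow, mul_one] at h
  rw [← h]
  refine setIntegral_congr_fun measurableSet_Ioi ?_
  intro v _
  simp only [one_mul]
  ring

/-- `C4 l = ∑_{k ≥ 4} MM k l^k/k!` and `∫ v^{k+2} dν = Jc (k+3)`. -/
theorem tau_series (w : ℝ) (hw : 0 ≤ w) :
    HasSum (fun k : ℕ => MM (k + 4) * Jc (k + 7) / ((k + 4).factorial : ℝ) * w ^ (k + 4))
      (∫ v, C4 (w * v) * v ^ 2 ∂nu) := by
  have key := hasSum_integral_of_dominated_convergence (μ := nu)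
    (F := fun (k : ℕ) (v : ℝ) => MM (k + 4) * (w * v) ^ (k + 4) / ((k + 4).factorial : ℝ) * v ^ 2)
    (f := fun v : ℝ => C4 (w * v) * v ^ 2)
    (bound := fun (k : ℕ) (v : ℝ) => (w * |v|) ^ (k + 4) / ((k + 4).factorial : ℝ) * v ^ 2)
    ?_ ?_ ?_ ?_ ?_
  · have e : ∀ k : ℕ, (∫ v, MM (k + 4) * (w * v) ^ (k + 4) / ((k + 4).factorial : ℝ) * v ^ 2 ∂nu) =
        MM (k + 4) * Jc (k + 7) / ((k + 4).factorial : ℝ) * w ^ (k + 4) := by
      intro k
      rw [← k6b_mom k]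
      have : ∀ v : ℝ, MM (k + 4) * (w * v) ^ (k + 4) / ((k + 4).factorial : ℝ) * v ^ 2 =
          (MM (k + 4) / ((k + 4).factorial : ℝ) * w ^ (k + 4)) * (v ^ (k + 4) * v ^ 2) := by
        intro v
        rw [mul_pow]
        ring
      simp_rw [this]
      rw [integral_const_mul]
      ring
    simp_rw [e] at key
    exact key
  · intro k
    exact (by fun_prop : Measurable fun v : ℝ =>
      MM (k + 4) * (w * v) ^ (k + 4) / ((k + 4).factorial : ℝ) * v ^ 2).aestronglyMeasurable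
  · intro k
    refine Filter.Eventually.of_forall ?_
    intro v
    rw [Real.norm_eq_abs, abs_mul, abs_div, abs_mul, abs_of_nonneg (MM_nonneg (k + 4)), abs_pow,
      abs_mul, abs_of_nonneg hw, abs_of_nonneg (sq_nonneg v),
      abs_of_nonneg (by positivity : (0:ℝ) ≤ ((k + 4).factorial : ℝ))]
    have h1 := MM_le_one (k + 4)
    have h2 : 0 ≤ (w * |v|) ^ (k + 4) := by positivity
    have h3 : MM (k + 4) * (w * |v|) ^ (k + 4) ≤ (w * |v|) ^ (k + 4) := by nlinarith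
    gcongr
  · refine Filter.Eventually.of_forall ?_
    intro v
    exact (k6b_exp (w * |v|)).summable.mul_right _
  · have he : (fun v : ℝ => ∑' k : ℕ, (w * |v|) ^ (k + 4) / ((k + 4).factorial : ℝ) * v ^ 2) =
        fun v : ℝ => (Real.exp (w * |v|) - (1 + (w * |v|) + (w * |v|) ^ 2 / 2 + (w * |v|) ^ 3 / 6)) *
          v ^ 2 := by
      funext v
      exact ((k6b_exp (w * |v|)).mul_right _).tsum_eq
    rw [he]
    refine integrable_nu _ (by fun_prop) (8 * Real.exp (2 * w ^ 2)) ?_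
    intro u hu
    have hn : 0 ≤ Real.exp (w * |u|) - (1 + (w * |u|) + (w * |u|) ^ 2 / 2 + (w * |u|) ^ 3 / 6) :=
      (k6b_exp (w * |u|)).nonneg fun k => by positivity
    rw [abs_of_nonneg (mul_nonneg hn (sq_nonneg u)), abs_of_pos hu]
    refine le_trans ?_ (k6b_bound w u hu)
    have : 0 ≤ 1 + (w * u) + (w * u) ^ 2 / 2 + (w * u) ^ 3 / 6 := by positivity
    nlinarith [sq_nonneg u]
  · refine Filter.Eventually.of_forall ?_
    intro v
    exact (k6b_C4 (w * v)).mul_right _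

end Pool.Agent.SSCP
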