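import Pool.Agent.SSCP.LK3

set_option autoImplicit false
open MeasureTheory ProbabilityTheory Set Real
open scoped ENNReal

namespace Pool.Agent.SSCP
open Pool.Agent.SSC3N
open Pool.Agent.SSC3 (ker W E2 Per len slice g2)

attribute [local instance] nu_prob

private theorem K7_beta : 0.29122 ≤ mA 0 * Jc 2 := by
  have h1 := mA_bounds.1
  have h2 : (1.2533:ℝ) ≤ Real.sqrt (π / 2) := by
    apply Real.le_sqrt_of_sq_le
    nlinarith [Real.pi_gt_d6]
  have h3 : Jc 2 = Real.sqrt (π / 2) := by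
    simp [Jc]
  rw [h3]
  have h4 := abs_le.mp h1
  nlinarith [h4.1]

/-- [K7] -/
theorem claimC (ρ u : ℝ) (h0 : 0 < ρ) (h1 : ρ ≤ 1 / 2) (hu : 0 < u) :
    tau4 ρ u + 1 / RR ρ u ≤ Dp ρ u := by
  have hw : 0 < ρ * u := by positivity
  set w := ρ * u with hwdef
  have hD := Dtau_series ρ u h0 h1 hu
  rw [← hwdef] at hD
  have hc := cf_exp w hw.le
  set q := Real.exp (-(4 * u ^ 2)) with hq
  set E := Real.exp (-(w ^ 2 / 3)) with hE
  have hq0 : 0 < q := Real.exp_pos _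
  have hq1 : q ≤ 1 := by
    rw [hq, Real.exp_le_one_iff]; nlinarith [sq_nonneg u]
  have hE0 : 0 < E := Real.exp_pos _
  have hE1 : E ≤ 1 := by
    rw [hE, Real.exp_le_one_iff]; nlinarith [sq_nonneg w]
  have hg : Real.exp (w ^ 2 / 3) = 1 / E := by
    rw [hE, Real.exp_neg, one_div, inv_inv]
  have hR : RR ρ u = 3.72 / w * (E - 0.52 * (E * E * q)) := by
    unfold RR
    rw [← hwdef, hE, hq, ← Real.exp_add, ← Real.exp_add]
    congr 3
    congr 1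
    ring
  set β := mA 0 * Jc 2 with hβ
  have hb : 0.29122 ≤ β := K7_beta
  have hEq : E * q ≤ 1 := mul_le_one₀ hE1 hq0.le hq1
  have hEq0 : 0 < E * q := mul_pos hE0 hq0
  have hfac : 0 < 1 - 0.52 * (E * q) := by nlinarith
  have hRe : 1 / RR ρ u = w / (3.72 * E * (1 - 0.52 * (E * q))) := by
    rw [hR]
    field_simp
  have hlow : w * (1 / (3.72 * E)) + β * w * q ≤ Dp ρ u - tau4 ρ u := by
    have : w * (1 / (3.72 * E)) ≤ w * ∑' j : ℕ, cf j * w ^ j := by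
      apply mul_le_mul_of_nonneg_left _ hw.le
      rw [hg] at hc
      calc 1 / (3.72 * E) = 1 / E / 3.72 := by field_simp
        _ ≤ _ := hc
    linarith
  have hmain : w / (3.72 * E * (1 - 0.52 * (E * q))) ≤ w * (1 / (3.72 * E)) + β * w * q := by
    rw [div_le_iff₀ (by positivity)]
    have e1 : (w * (1 / (3.72 * E)) + β * w * q) * (3.72 * E * (1 - 0.52 * (E * q))) =
        w * (1 - 0.52 * (E * q)) + 3.72 * β * w * (E * q) * (1 - 0.52 * (E * q)) := by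
      field_simp
    rw [e1]
    have h5 : 0.52 ≤ 3.72 * β * (1 - 0.52 * (E * q)) := by nlinarith
    have h6 : 0 < w * (E * q) := mul_pos hw hEq0
    nlinarith
  rw [hRe]
  linarith

/-- [K12] -/
theorem KATp (ρ M : ℝ) (h0 : 0 < ρ) (h1 : ρ ≤ 1 / 2) (f : ℝ → ℝ) (hf : Measurable f)
    (hb : ∀ u, |f u| ≤ M) (hc : ∫ u, f u * Real.exp (ρ ^ 2 * u ^ 2 / 2) ∂nu = 0) :
    ∫ u, ∫ v, Cp (ρ * u * v) * (f u * f v) ∂nu ∂nu ≤ ∫ u, Dp ρ u * (f u) ^ 2 ∂nu := by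
  have hM : 0 ≤ M := (abs_nonneg _).trans (hb 0)
  have hf2 : ∀ u, (f u) ^ 2 ≤ M ^ 2 := fun u => by
    rw [← sq_abs]; exact pow_le_pow_left₀ (abs_nonneg _) (hb u) 2
  rw [split4 ρ M h0 h1 f hf hb]
  have a1 := low4 ρ M h0 h1 f hf hb hc
  have a2 := tail4 ρ M h0 h1 f hf hb
  obtain ⟨C1, hC1⟩ := tau4_growth ρ h0 h1
  obtain ⟨C2, hC2⟩ := Dp_growth ρ h0 h1
  obtain ⟨hRp, C3, hC3⟩ := RR_inv_growth ρ h0 h1
  have hRm : Measurable (RR ρ) := by
    unfold RR; fun_prop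
  have i1 : Integrable (fun u => tau4 ρ u * (f u) ^ 2) nu := by
    refine integrable_nu _ ((tau4_meas ρ).mul (hf.pow_const 2)) (C1 * M ^ 2) ?_
    intro u hu
    rw [abs_mul, abs_of_nonneg (hC1 u hu).1, abs_of_nonneg (sq_nonneg _)]
    calc tau4 ρ u * f u ^ 2 ≤ (C1 * Real.exp (u ^ 2 / 4)) * M ^ 2 :=
          mul_le_mul (hC1 u hu).2 (hf2 u) (sq_nonneg _) ((hC1 u hu).1.trans (hC1 u hu).2)
      _ = _ := by ring
  have i2 : Integrable (fun u => Dp ρ u * (f u) ^ 2) nu := by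
    refine integrable_nu _ ((Dp_meas ρ).mul (hf.pow_const 2)) (C2 * M ^ 2) ?_
    intro u hu
    rw [abs_mul, abs_of_nonneg (sq_nonneg (f u))]
    calc |Dp ρ u| * f u ^ 2 ≤ (C2 * Real.exp (u ^ 2 / 4)) * M ^ 2 :=
          mul_le_mul (hC2 u hu) (hf2 u) (sq_nonneg _) ((abs_nonneg _).trans (hC2 u hu))
      _ = _ := by ring
  have i3 : Integrable (fun u => (f u) ^ 2 / RR ρ u) nu := by
    refine integrable_nu _ ((hf.pow_const 2).div hRm) (C3 * M ^ 2) ?_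
    intro u hu
    have hp := hRp u hu
    rw [abs_of_nonneg (div_nonneg (sq_nonneg _) hp.le)]
    calc f u ^ 2 / RR ρ u = (1 / RR ρ u) * f u ^ 2 := by ring
      _ ≤ (C3 * Real.exp (u ^ 2 / 4)) * M ^ 2 :=
          mul_le_mul (hC3 u hu) (hf2 u) (sq_nonneg _) ((by positivity : (0:ℝ) ≤ 1 / RR ρ u).trans (hC3 u hu))
      _ = _ := by ring
  have a3 : (∫ u, (f u) ^ 2 / RR ρ u ∂nu) + ∫ u, tau4 ρ u * (f u) ^ 2 ∂nu ≤
      ∫ u, Dp ρ u * (f u) ^ 2 ∂nu := by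
    rw [← integral_add i3 i1]
    refine integral_mono_ae (i3.add i1) i2 ?_
    filter_upwards [nu_pos] with u hu
    have := claimC ρ u h0 h1 hu
    have hs := sq_nonneg (f u)
    calc f u ^ 2 / RR ρ u + tau4 ρ u * f u ^ 2 = (tau4 ρ u + 1 / RR ρ u) * f u ^ 2 := by ring
      _ ≤ Dp ρ u * f u ^ 2 := mul_le_mul_of_nonneg_right this hs
  linarith

end Pool.Agent.SSCP
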