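import Pool.Agent.SSCP.LK2

set_option autoImplicit false
open MeasureTheory ProbabilityTheory Set Real
open scoped ENNReal

namespace Pool.Agent.SSCP
open Pool.Agent.SSC3N
open Pool.Agent.SSC3 (ker W E2 Per len slice g2)

private theorem Jc_nonneg7 (k : ℕ) : 0 ≤ Jc k := by
  induction k using Nat.strong_induction_on with
  | _ k ih =>
    match k with
    | 0 => simp only [Jc]; positivity
    | 1 => simp only [Jc]; positivity
    | (k + 2) =>
      have := ih k (by omega)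
      simp only [Jc]
      positivity

/-- [K7a] `w = ρ u`, `D_series` with `q = e^{-4u²}`, `tau_series` with `tau4 ρ u = (…)/u²` and
`w^{k+4}/u² = ρ² w^{k+2}`, `ρ² ≤ 1/4`, `MM ≥ 0`; drop the nonnegative terms `mA k Jc(k+2)/k! w^{k+1} q`, `k ≥ 1`. -/
theorem Dtau_series (ρ u : ℝ) (h0 : 0 < ρ) (h1 : ρ ≤ 1 / 2) (hu : 0 < u) :
    (ρ * u) * (∑' j : ℕ, cf j * (ρ * u) ^ j) + mA 0 * Jc 2 * (ρ * u) * Real.exp (-(4 * u ^ 2))
      ≤ Dp ρ u - tau4 ρ u := by
  set w := ρ * u with hw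
  have hw0 : 0 < w := mul_pos h0 hu
  set q := Real.exp (-(4 * u ^ 2)) with hq
  have hq0 : 0 < q := Real.exp_pos _
  have HD := D_series w q hw0.le
  have HT := tau_series w hw0.le
  have eD : Dp ρ u = ∫ v, Vp (w * v) * (1 + q - Real.exp (-(4 * v ^ 2))) ∂nu := rfl
  have eT : tau4 ρ u = (∫ v, C4 (w * v) * v ^ 2 ∂nu) / u ^ 2 := rfl
  rw [← eD] at HD
  have HT2 := HT.div_const (u ^ 2)
  rw [← eT] at HT2
  -- shift
  have HT3 : HasSum (fun j : ℕ => if j = 0 then (0:ℝ) else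
      MM (j + 3) * Jc (j + 6) / ((j + 3).factorial : ℝ) * (w ^ (j + 3) / u ^ 2)) (tau4 ρ u) := by
    rw [← hasSum_nat_add_iff' 1]
    simp only [Finset.range_one, Finset.sum_singleton, if_true, sub_zero]
    have e : (fun n : ℕ => if n + 1 = 0 then (0:ℝ) else
        MM (n + 1 + 3) * Jc (n + 1 + 6) / ((n + 1 + 3).factorial : ℝ) * (w ^ (n + 1 + 3) / u ^ 2)) =
        fun k : ℕ => MM (k + 4) * Jc (k + 7) / ((k + 4).factorial : ℝ) * w ^ (k + 4) / u ^ 2 := by
      funext k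
      rw [if_neg (Nat.succ_ne_zero k), ← mul_div_assoc]
    rw [e]
    exact HT2
  have HS := (cf_summable w).hasSum.mul_left w
  have H0 : HasSum (fun j : ℕ => if j = 0 then mA 0 * Jc 2 * w * q else 0)
      (mA 0 * Jc 2 * w * q) := hasSum_ite_eq 0 _
  refine hasSum_le ?_ (HS.add H0) (HD.sub HT3)
  intro j
  rcases Nat.eq_zero_or_pos j with rfl | hj
  · simp only [if_true, cf]
    norm_num
    apply le_of_eq
    ring
  · have hj0 : j ≠ 0 := by omega
    simp only [if_neg hj0, cf]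
    have hA : 0 ≤ mA j * Jc (j + 2) / (j.factorial : ℝ) :=
      div_nonneg (mul_nonneg (mA_nonneg j) (Jc_nonneg7 _)) (by positivity)
    have hM : 0 ≤ MM (j + 3) * Jc (j + 6) / ((j + 3).factorial : ℝ) :=
      div_nonneg (mul_nonneg (MM_nonneg _) (Jc_nonneg7 _)) (by positivity)
    have hwu : w ^ (j + 3) / u ^ 2 = ρ ^ 2 * w ^ (j + 1) := by
      rw [hw]; field_simp; ring
    have hρ : ρ ^ 2 ≤ 1 / 4 := by nlinarith
    have hwj : 0 < w ^ (j + 1) := pow_pos hw0 _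
    rw [hwu, add_zero]
    have k1 : mA j * Jc (j + 2) / (j.factorial : ℝ) * w ^ (j + 1) * q ≥ 0 := by positivity
    have k2 : MM (j + 3) * Jc (j + 6) / ((j + 3).factorial : ℝ) * (ρ ^ 2 * w ^ (j + 1)) ≤
        MM (j + 3) * Jc (j + 6) / ((j + 3).factorial : ℝ) * (1 / 4 * w ^ (j + 1)) := by
      apply mul_le_mul_of_nonneg_left _ hM
      exact mul_le_mul_of_nonneg_right hρ hwj.le
    have e1 : w * ((mA j * Jc (j + 2) / (j.factorial : ℝ) * (1 - (1 / 3) ^ (j + 3)) -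
        1 / 4 * (MM (j + 3) * Jc (j + 6) / ((j + 3).factorial : ℝ))) * w ^ j) =
        mA j * Jc (j + 2) / (j.factorial : ℝ) * w ^ (j + 1) * (1 - (1 / 3) ^ (j + 3)) -
        MM (j + 3) * Jc (j + 6) / ((j + 3).factorial : ℝ) * (1 / 4 * w ^ (j + 1)) := by
      rw [pow_succ w j]; ring
    rw [e1]
    nlinarith [k1, k2]

end Pool.Agent.SSCP
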