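import Pool.Agent.SSCP.Defs
import Pool.Agent.SSC3N.NuBasic
import Pool.Agent.SSC3N.GaussInt

set_option autoImplicit false
open MeasureTheory ProbabilityTheory Set Real
open scoped ENNReal

namespace Pool.Agent.SSCP
open Pool.Agent.SSC3N
open Pool.Agent.SSC3 (ker W E2 Per len slice g2)

private lemma k8_pt (ρ a u : ℝ) (h0 : 0 < ρ) (hu : 0 < u) (k : ℕ) :
    (u ^ k - a * Real.exp (ρ ^ 2 * u ^ 2 / 2)) ^ 2 * RR ρ u * (u * Real.exp (-(u ^ 2 / 2))) =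
      3.72 / ρ * (((u ^ (2 * k) * Real.exp (-((1 + 2 * ρ ^ 2 / 3) * u ^ 2 / 2))) -
          0.52 * (u ^ (2 * k) * Real.exp (-((9 + 4 * ρ ^ 2 / 3) * u ^ 2 / 2)))) -
        2 * a * ((u ^ k * Real.exp (-((1 - ρ ^ 2 / 3) * u ^ 2 / 2))) -
          0.52 * (u ^ k * Real.exp (-((9 + ρ ^ 2 / 3) * u ^ 2 / 2)))) +
        a ^ 2 * ((u ^ 0 * Real.exp (-((1 - 4 * ρ ^ 2 / 3) * u ^ 2 / 2))) -
          0.52 * (u ^ 0 * Real.exp (-((9 - 2 * ρ ^ 2 / 3) * u ^ 2 / 2))))) := by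
  have e1 : Real.exp (-((1 + 2 * ρ ^ 2 / 3) * u ^ 2 / 2)) =
      Real.exp (-((ρ * u) ^ 2 / 3)) * Real.exp (-(u ^ 2 / 2)) := by
    rw [← Real.exp_add]; congr 1; ring
  have e2 : Real.exp (-((9 + 4 * ρ ^ 2 / 3) * u ^ 2 / 2)) =
      Real.exp (-(2 * (ρ * u) ^ 2 / 3 + 4 * u ^ 2)) * Real.exp (-(u ^ 2 / 2)) := by
    rw [← Real.exp_add]; congr 1; ring
  have e3 : Real.exp (-((1 - ρ ^ 2 / 3) * u ^ 2 / 2)) =
      Real.exp (ρ ^ 2 * u ^ 2 / 2) * Real.exp (-((ρ * u) ^ 2 / 3)) * Real.exp (-(u ^ 2 / 2)) := by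
    rw [← Real.exp_add, ← Real.exp_add]; congr 1; ring
  have e4 : Real.exp (-((9 + ρ ^ 2 / 3) * u ^ 2 / 2)) =
      Real.exp (ρ ^ 2 * u ^ 2 / 2) * Real.exp (-(2 * (ρ * u) ^ 2 / 3 + 4 * u ^ 2)) *
        Real.exp (-(u ^ 2 / 2)) := by
    rw [← Real.exp_add, ← Real.exp_add]; congr 1; ring
  have e5 : Real.exp (-((1 - 4 * ρ ^ 2 / 3) * u ^ 2 / 2)) =
      Real.exp (ρ ^ 2 * u ^ 2 / 2) * Real.exp (ρ ^ 2 * u ^ 2 / 2) *
        Real.exp (-((ρ * u) ^ 2 / 3)) * Real.exp (-(u ^ 2 / 2)) := by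
    rw [← Real.exp_add, ← Real.exp_add, ← Real.exp_add]; congr 1; ring
  have e6 : Real.exp (-((9 - 2 * ρ ^ 2 / 3) * u ^ 2 / 2)) =
      Real.exp (ρ ^ 2 * u ^ 2 / 2) * Real.exp (ρ ^ 2 * u ^ 2 / 2) *
        Real.exp (-(2 * (ρ * u) ^ 2 / 3 + 4 * u ^ 2)) * Real.exp (-(u ^ 2 / 2)) := by
    rw [← Real.exp_add, ← Real.exp_add, ← Real.exp_add]; congr 1; ring
  rw [e1, e2, e3, e4, e5, e6]
  unfold RR
  generalize Real.exp (ρ ^ 2 * u ^ 2 / 2) = E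
  generalize Real.exp (-((ρ * u) ^ 2 / 3)) = P
  generalize Real.exp (-(2 * (ρ * u) ^ 2 / 3 + 4 * u ^ 2)) = Q
  generalize Real.exp (-(u ^ 2 / 2)) = G
  have hc : 3.72 / (ρ * u) * u = 3.72 / ρ := by
    field_simp
  rw [pow_mul']
  rw [show (u ^ k - a * E) ^ 2 * (3.72 / (ρ * u) * (P - 0.52 * Q)) * (u * G) =
    (3.72 / (ρ * u) * u) * ((u ^ k - a * E) ^ 2 * (P - 0.52 * Q) * G) by ring, hc]
  ring

/-- Expand the square; `dν = u e^{-u²/2} du` cancels the `1/u` of `RR`; each of the six terms is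
`u^j e^{-βu²/2}`: `integral_Jc` with `β = 1+2ρ²/3, 9+4ρ²/3` (`j=2k`), `1-ρ²/3, 9+ρ²/3` (`j=k`),
`1-4ρ²/3, 9-2ρ²/3` (`j=0`). -/
theorem RR_int (ρ a : ℝ) (h0 : 0 < ρ) (h1 : ρ ≤ 1 / 2) (k : ℕ) :
    Integrable (fun u => (u ^ k - a * Real.exp (ρ ^ 2 * u ^ 2 / 2)) ^ 2 * RR ρ u) nu ∧
    ∫ u, (u ^ k - a * Real.exp (ρ ^ 2 * u ^ 2 / 2)) ^ 2 * RR ρ u ∂nu =
      3.72 / ρ * (Aq k ρ - 2 * a * Bq k ρ + a ^ 2 * Zq ρ) := by
  have hρ2 : ρ ^ 2 ≤ 1 / 4 := by nlinarith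
  have hm : Measurable (fun u : ℝ => (u ^ k - a * Real.exp (ρ ^ 2 * u ^ 2 / 2)) ^ 2 * RR ρ u) := by
    unfold RR
    fun_prop
  obtain ⟨t1, i1⟩ := integral_Jc (2 * k) (1 + 2 * ρ ^ 2 / 3) (by positivity)
  obtain ⟨t2, i2⟩ := integral_Jc (2 * k) (9 + 4 * ρ ^ 2 / 3) (by positivity)
  obtain ⟨t3, i3⟩ := integral_Jc k (1 - ρ ^ 2 / 3) (by nlinarith)
  obtain ⟨t4, i4⟩ := integral_Jc k (9 + ρ ^ 2 / 3) (by positivity)
  obtain ⟨t5, i5⟩ := integral_Jc 0 (1 - 4 * ρ ^ 2 / 3) (by nlinarith)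
  obtain ⟨t6, i6⟩ := integral_Jc 0 (9 - 2 * ρ ^ 2 / 3) (by nlinarith)
  have hA := i1.sub (i2.const_mul 0.52)
  have hB := i3.sub (i4.const_mul 0.52)
  have hZ := i5.sub (i6.const_mul 0.52)
  have hAB := hA.sub (hB.const_mul (2 * a))
  have hall := (hAB.add (hZ.const_mul (a ^ 2))).const_mul (3.72 / ρ)
  constructor
  · rw [integrable_nu_iff _ hm]
    refine Integrable.congr hall ?_
    filter_upwards [ae_restrict_mem measurableSet_Ioi] with u hu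
    have hu' : (0:ℝ) < u := hu
    have := k8_pt ρ a u h0 hu' k
    simp only [Pi.sub_apply, Pi.add_apply]
    exact this.symm
  · rw [integral_nu]
    rw [setIntegral_congr_fun measurableSet_Ioi (fun u hu => k8_pt ρ a u h0 hu k)]
    rw [integral_const_mul]
    congr 1
    have s1 := integral_add hAB (hZ.const_mul (a ^ 2))
    have s2 := integral_sub hA (hB.const_mul (2 * a))
    have s3 := integral_sub i1 (i2.const_mul 0.52)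
    have s4 := integral_sub i3 (i4.const_mul 0.52)
    have s5 := integral_sub i5 (i6.const_mul 0.52)
    simp only [Pi.sub_apply] at s1 s2 s3 s4 s5
    rw [s1, s2, integral_const_mul, integral_const_mul, s3, s4, s5, integral_const_mul,
      integral_const_mul, integral_const_mul, t1, t2, t3, t4, t5, t6]
    unfold Aq Bq Zq
    ring

end Pool.Agent.SSCP
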