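import Pool.Agent.SSCP.Defs

/-! [SSCP-K9] explicit one-variable inequality `Tpoly`. -/

set_option autoImplicit false
open MeasureTheory ProbabilityTheory Set Real
open scoped ENNReal

namespace Pool.Agent.SSCP
open Pool.Agent.SSC3N
open Pool.Agent.SSC3 (ker W E2 Per len slice g2)

private lemma K9_pow_eq (y : ℝ) (hy : 0 < y) (n : ℕ) (e : ℝ) (he : e = -(n : ℝ) / 2) :
    y ^ e = 1 / (Real.sqrt y) ^ n := by
  subst he
  rw [neg_div, Real.rpow_neg hy.le, one_div, Real.sqrt_eq_rpow, ← Real.rpow_natCast,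
    ← Real.rpow_mul hy.le]
  congr 2
  ring

private lemma K9_up (y p : ℝ) (hy : 0 < y) (n : ℕ) (e : ℝ) (he : e = -(n : ℝ) / 2) (hp : 0 ≤ p)
    (h : 1 ≤ p ^ 2 * y ^ n) : y ^ e ≤ p := by
  rw [K9_pow_eq y hy n e he, div_le_iff₀ (by positivity)]
  have hs : (p * Real.sqrt y ^ n) ^ 2 = p ^ 2 * y ^ n := by
    rw [mul_pow, ← pow_mul, mul_comm n 2, pow_mul, Real.sq_sqrt hy.le]
  have h0 : 0 ≤ p * Real.sqrt y ^ n := by positivity
  rw [← hs] at h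
  exact (one_le_sq_iff₀ h0).mp h

private lemma K9_lo (y p : ℝ) (hy : 0 < y) (n : ℕ) (e : ℝ) (he : e = -(n : ℝ) / 2) (hp : 0 ≤ p)
    (h : p ^ 2 * y ^ n ≤ 1) : p ≤ y ^ e := by
  rw [K9_pow_eq y hy n e he, le_div_iff₀ (by positivity)]
  have hs : (p * Real.sqrt y ^ n) ^ 2 = p ^ 2 * y ^ n := by
    rw [mul_pow, ← pow_mul, mul_comm n 2, pow_mul, Real.sq_sqrt hy.le]
  have h0 : 0 ≤ p * Real.sqrt y ^ n := by positivity
  rw [← hs] at h
  exact (sq_le_one_iff₀ h0).mp h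

private lemma K9_au0 (s : ℝ) (h0 : 0 ≤ s) (h1 : s ≤ (1/6)) :
    0 ≤ ((1) + (-1/2) * s^1 + (3/8) * s^2 + (-34/125) * s^3)^2 * (1 + s)^1 - 1 := by
  have hu : 0 ≤ (1/6) - s := by linarith
  have key : ((1) + (-1/2) * s^1 + (3/8) * s^2 + (-34/125) * s^3)^2 * (1 + s)^1 - 1 =
      s^3 * ((13122/125) * s^0 * ((1/6) - s)^4 + (310527/1000) * s^1 * ((1/6) - s)^3 + (618471/2000) * s^2 * ((1/6) - s)^2 + (6625869/62500) * s^3 * ((1/6) - s)^1 + (600847/250000) * s^4 * ((1/6) - s)^0) := by ring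
  rw [key]
  positivity

private lemma K9_au1 (s : ℝ) (h0 : 0 ≤ s) (h1 : s ≤ (1/6)) :
    0 ≤ ((1) + (-3/2) * s^1 + (15/8) * s^2 + (-46/25) * s^3)^2 * (1 + s)^3 - 1 := by
  have hu : 0 ≤ (1/6) - s := by linarith
  have key : ((1) + (-3/2) * s^1 + (15/8) * s^2 + (-46/25) * s^3)^2 * (1 + s)^3 - 1 =
      s^3 * ((810648/25) * s^0 * ((1/6) - s)^6 + (328779/2) * s^1 * ((1/6) - s)^5 + (33334497/100) * s^2 * ((1/6) - s)^4 + (1690542873/5000) * s^3 * ((1/6) - s)^3 + (1717078311/10000) * s^4 * ((1/6) - s)^2 + (21935862/625) * s^5 * ((1/6) - s)^1 + (1201183/10000) * s^6 * ((1/6) - s)^0) := by ring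
  rw [key]
  positivity

private lemma K9_au2 (s : ℝ) (h0 : 0 ≤ s) (h1 : s ≤ (1/6)) :
    0 ≤ ((1) + (-5/2) * s^1 + (35/8) * s^2 + (-133/25) * s^3)^2 * (1 + s)^5 - 1 := by
  have hu : 0 ≤ (1/6) - s := by linarith
  have key : ((1) + (-5/2) * s^1 + (35/8) * s^2 + (-133/25) * s^3)^2 * (1 + s)^5 - 1 =
      s^3 * ((104346144/25) * s^0 * ((1/6) - s)^8 + (751947462/25) * s^1 * ((1/6) - s)^7 + (2322115047/25) * s^2 * ((1/6) - s)^6 + (99618791139/625) * s^3 * ((1/6) - s)^5 + (41055049341/250) * s^4 * ((1/6) - s)^4 + (101684046411/1000) * s^5 * ((1/6) - s)^3 + (70268456799/2000) * s^6 * ((1/6) - s)^2 + (2650217841/500) * s^7 * ((1/6) - s)^1 + (396012943/10000) * s^8 * ((1/6) - s)^0) := by ring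
  rw [key]
  positivity

private lemma K9_au3 (s : ℝ) (h0 : 0 ≤ s) (h1 : s ≤ (1/6)) :
    0 ≤ ((1) + (-7/2) * s^1 + (63/8) * s^2 + (-1131/100) * s^3)^2 * (1 + s)^7 - 1 := by
  have hu : 0 ≤ (1/6) - s := by linarith
  have key : ((1) + (-7/2) * s^1 + (63/8) * s^2 + (-1131/100) * s^3)^2 * (1 + s)^7 - 1 =
      s^3 * ((9455398272/25) * s^0 * ((1/6) - s)^10 + (88248021912/25) * s^1 * ((1/6) - s)^9 + (365947831908/25) * s^2 * ((1/6) - s)^8 + (22126384936206/625) * s^3 * ((1/6) - s)^7 + (34398740223549/625) * s^4 * ((1/6) - s)^6 + (71305633563993/1250) * s^5 * ((1/6) - s)^5 + (19710988302519/500) * s^6 * ((1/6) - s)^4 + (17521025905881/1000) * s^7 * ((1/6) - s)^3 + (45489749152887/10000) * s^8 * ((1/6) - s)^2 + (1322052680997/2500) * s^9 * ((1/6) - s)^1 + (3564116487/2500) * s^10 * ((1/6) - s)^0) := by ring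
  rw [key]
  positivity

private lemma K9_zu (y : ℝ) (h0 : 0 ≤ y) (h1 : y ≤ (1/3)) :
    0 ≤ ((1) + (1/2) * y^1 + (3/8) * y^2 + (111/250) * y^3)^2 * (1 - y)^1 - 1 := by
  have hu : 0 ≤ (1/3) - y := by linarith
  have key : ((1) + (1/2) * y^1 + (3/8) * y^2 + (111/250) * y^3)^2 * (1 - y)^1 - 1 =
      y^3 * ((21303/1000) * y^0 * ((1/3) - y)^4 + (535167/8000) * y^1 * ((1/3) - y)^3 + (14121/200) * y^2 * ((1/3) - y)^2 + (25326783/1000000) * y^3 * ((1/3) - y)^1 + (58761/500000) * y^4 * ((1/3) - y)^0) := by ring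
  rw [key]
  positivity

private lemma K9_bu1 (x : ℝ) (h0 : 0 ≤ x) (h1 : x ≤ (1/4)) :
    0 ≤ ((1) + (-49/2700) * x^1)^2 * (1 + x/27)^1 - 1 := by
  have hu : 0 ≤ (1/4) - x := by linarith
  have key : ((1) + (-49/2700) * x^1)^2 * (1 + x/27)^1 - 1 =
      x^1 * ((8/675) * x^0 * ((1/4) - x)^2 + (35801/1822500) * x^1 * ((1/4) - x)^1 + (1536109/196830000) * x^2 * ((1/4) - x)^0) := by ring
  rw [key]
  positivity

private lemma K9_bl1 (y : ℝ) (h0 : 0 ≤ y) (h1 : y ≤ (1/12)) :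
    0 ≤ 1 - ((1) + (1/2) * y^1 + (3/8) * y^2)^2 * (1 - y)^1 := by
  have hu : 0 ≤ (1/12) - y := by linarith
  have key : 1 - ((1) + (1/2) * y^1 + (3/8) * y^2)^2 * (1 - y)^1 =
      y^3 * ((90) * y^0 * ((1/12) - y)^2 + (2925/16) * y^1 * ((1/12) - y)^1 + (5949/64) * y^2 * ((1/12) - y)^0) := by ring
  rw [key]
  positivity

private lemma K9_bu2 (x : ℝ) (h0 : 0 ≤ x) (h1 : x ≤ (1/4)) :
    0 ≤ ((1) + (-49/1350) * x^1)^2 * (1 + x/27)^2 - 1 := by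
  have hu : 0 ≤ (1/4) - x := by linarith
  have key : ((1) + (-49/1350) * x^1)^2 * (1 + x/27)^2 - 1 =
      x^1 * ((64/675) * x^0 * ((1/4) - x)^3 + (36668/151875) * x^1 * ((1/4) - x)^2 + (2440918/12301875) * x^2 * ((1/4) - x)^1 + (68821081/1328602500) * x^3 * ((1/4) - x)^0) := by ring
  rw [key]
  positivity

private lemma K9_bl2 (y : ℝ) (h0 : 0 ≤ y) (h1 : y ≤ (1/12)) :
    0 ≤ 1 - ((1) + (1) * y^1 + (1) * y^2)^2 * (1 - y)^2 := by
  have hu : 0 ≤ (1/12) - y := by linarith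
  have key : 1 - ((1) + (1) * y^1 + (1) * y^2)^2 * (1 - y)^2 =
      y^3 * ((3456) * y^0 * ((1/12) - y)^3 + (10368) * y^1 * ((1/12) - y)^2 + (10368) * y^2 * ((1/12) - y)^1 + (3455) * y^3 * ((1/12) - y)^0) := by ring
  rw [key]
  positivity

private lemma K9_bu3 (x : ℝ) (h0 : 0 ≤ x) (h1 : x ≤ (1/4)) :
    0 ≤ ((1) + (-49/900) * x^1)^2 * (1 + x/27)^3 - 1 := by
  have hu : 0 ≤ (1/4) - x := by linarith
  have key : ((1) + (-49/900) * x^1)^2 * (1 + x/27)^3 - 1 =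
      x^1 * ((128/225) * x^0 * ((1/4) - x)^4 + (296812/151875) * x^1 * ((1/4) - x)^3 + (30121543/12301875) * x^2 * ((1/4) - x)^2 + (580021129/442867500) * x^3 * ((1/4) - x)^1 + (3931453429/15943230000) * x^4 * ((1/4) - x)^0) := by ring
  rw [key]
  positivity

private lemma K9_bl3 (y : ℝ) (h0 : 0 ≤ y) (h1 : y ≤ (1/12)) :
    0 ≤ 1 - ((1) + (3/2) * y^1 + (15/8) * y^2)^2 * (1 - y)^3 := by
  have hu : 0 ≤ (1/12) - y := by linarith
  have key : 1 - ((1) + (3/2) * y^1 + (15/8) * y^2)^2 * (1 - y)^3 =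
      y^3 * ((90720) * y^0 * ((1/12) - y)^4 + (360045) * y^1 * ((1/12) - y)^3 + (2143071/4) * y^2 * ((1/12) - y)^2 + (5667543/16) * y^3 * ((1/12) - y)^1 + (5618061/64) * y^4 * ((1/12) - y)^0) := by ring
  rw [key]
  positivity

private lemma K9_bu4 (x : ℝ) (h0 : 0 ≤ x) (h1 : x ≤ (1/4)) :
    0 ≤ ((1) + (-49/675) * x^1)^2 * (1 + x/27)^4 - 1 := by
  have hu : 0 ≤ (1/4) - x := by linarith
  have key : ((1) + (-49/675) * x^1)^2 * (1 + x/27)^4 - 1 =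
      x^1 * ((2048/675) * x^0 * ((1/4) - x)^5 + (5977856/455625) * x^1 * ((1/4) - x)^4 + (272194304/12301875) * x^2 * ((1/4) - x)^3 + (5978376176/332150625) * x^3 * ((1/4) - x)^2 + (62143061864/8968066875) * x^4 * ((1/4) - x)^1 + (235013193961/242137805625) * x^5 * ((1/4) - x)^0) := by ring
  rw [key]
  positivity

private lemma K9_bl4 (y : ℝ) (h0 : 0 ≤ y) (h1 : y ≤ (1/12)) :
    0 ≤ 1 - ((1) + (2) * y^1 + (3) * y^2)^2 * (1 - y)^4 := by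
  have hu : 0 ≤ (1/12) - y := by linarith
  have key : 1 - ((1) + (2) * y^1 + (3) * y^2)^2 * (1 - y)^4 =
      y^3 * ((1990656) * y^0 * ((1/12) - y)^5 + (9828864) * y^1 * ((1/12) - y)^4 + (19408896) * y^2 * ((1/12) - y)^3 + (19157760) * y^3 * ((1/12) - y)^2 + (9451296) * y^4 * ((1/12) - y)^1 + (1864215) * y^5 * ((1/12) - y)^0) := by ring
  rw [key]
  positivity

private lemma K9_al1 (x : ℝ) (h0 : 0 ≤ x) (h1 : x ≤ (1/4)) :
    0 ≤ 1 - ((1) + (-2/27) * x^1)^2 * (1 + 4*x/27)^1 := by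
  have hu : 0 ≤ (1/4) - x := by linarith
  have key : 1 - ((1) + (-2/27) * x^1)^2 * (1 + 4*x/27)^1 =
      x^2 * ((16/243) * x^0 * ((1/4) - x)^1 + (1280/19683) * x^1 * ((1/4) - x)^0) := by ring
  rw [key]
  positivity

private lemma K9_al3 (x : ℝ) (h0 : 0 ≤ x) (h1 : x ≤ (1/4)) :
    0 ≤ 1 - ((1) + (-2/9) * x^1)^2 * (1 + 4*x/27)^3 := by
  have hu : 0 ≤ (1/4) - x := by linarith
  have key : 1 - ((1) + (-2/9) * x^1)^2 * (1 + 4*x/27)^3 =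
      x^2 * ((1280/243) * x^0 * ((1/4) - x)^3 + (312320/19683) * x^1 * ((1/4) - x)^2 + (2821120/177147) * x^2 * ((1/4) - x)^1 + (8489984/1594323) * x^3 * ((1/4) - x)^0) := by ring
  rw [key]
  positivity

private lemma K9_al5 (x : ℝ) (h0 : 0 ≤ x) (h1 : x ≤ (1/4)) :
    0 ≤ 1 - ((1) + (-10/27) * x^1)^2 * (1 + 4*x/27)^5 := by
  have hu : 0 ≤ (1/4) - x := by linarith
  have key : 1 - ((1) + (-10/27) * x^1)^2 * (1 + 4*x/27)^5 =
      x^2 * ((143360/729) * x^0 * ((1/4) - x)^5 + (19496960/19683) * x^1 * ((1/4) - x)^4 + (1060290560/531441) * x^2 * ((1/4) - x)^3 + (28820750336/14348907) * x^3 * ((1/4) - x)^2 + (130520793088/129140163) * x^4 * ((1/4) - x)^1 + (2127131623424/10460353203) * x^5 * ((1/4) - x)^0) := by ring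
  rw [key]
  positivity

private lemma K9_al7 (x : ℝ) (h0 : 0 ≤ x) (h1 : x ≤ (1/4)) :
    0 ≤ 1 - ((1) + (-14/27) * x^1)^2 * (1 + 4*x/27)^7 := by
  have hu : 0 ≤ (1/4) - x := by linarith
  have key : 1 - ((1) + (-14/27) * x^1)^2 * (1 + 4*x/27)^7 =
      x^2 * ((458752/81) * x^0 * ((1/4) - x)^7 + (262406144/6561) * x^1 * ((1/4) - x)^6 + (2381840384/19683) * x^2 * ((1/4) - x)^5 + (324205543424/1594323) * x^3 * ((1/4) - x)^4 + (26469865619456/129140163) * x^4 * ((1/4) - x)^3 + (48010571546624/387420489) * x^5 * ((1/4) - x)^2 + (1305790107615232/31381059609) * x^6 * ((1/4) - x)^1 + (45646535520419840/7625597484987) * x^7 * ((1/4) - x)^0) := by ring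
  rw [key]
  positivity

private lemma K9_zl (x : ℝ) (h0 : 0 ≤ x) (h1 : x ≤ (1/4)) :
    0 ≤ 1 - ((1) + (1/27) * x^1)^2 * (1 - 2*x/27)^1 := by
  have hu : 0 ≤ (1/4) - x := by linarith
  have key : 1 - ((1) + (1/27) * x^1)^2 * (1 - 2*x/27)^1 =
      x^2 * ((4/243) * x^0 * ((1/4) - x)^1 + (326/19683) * x^1 * ((1/4) - x)^0) := by ring
  rw [key]
  positivity

private lemma K9_A0 (x : ℝ) (h0 : 0 < x) (h1 : x ≤ 1 / 4) (e : ℝ) (he : e = -((1 : ℕ) : ℝ) / 2) :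
    (1 + 2 * x / 3) ^ e - 0.52 * (9 + 4 * x / 3) ^ e ≤
      ((1) + (-1/2) * (2*x/3)^1 + (3/8) * (2*x/3)^2 + (-34/125) * (2*x/3)^3) - 0.52 * ((1 / 3 ^ 1) * ((1) + (-2/27) * x^1)) := by
  have hs0 : 0 ≤ 2 * x / 3 := by positivity
  have hs1 : 2 * x / 3 ≤ 1 / 6 := by linarith
  have e1 : (1 + 2 * x / 3) ^ e ≤ (1) + (-1/2) * (2*x/3)^1 + (3/8) * (2*x/3)^2 + (-34/125) * (2*x/3)^3 := by
    apply K9_up _ _ (by positivity) 1 e he
    · nlinarith [mul_nonneg hs0 hs0, mul_nonneg hs0 (sub_nonneg.2 hs1), mul_nonneg (mul_nonneg hs0 hs0) (sub_nonneg.2 hs1)]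
    · have := K9_au0 (2 * x / 3) hs0 hs1
      linarith
  have e2 : (1 / 3 ^ 1) * ((1) + (-2/27) * x^1) ≤ (9 + 4 * x / 3) ^ e := by
    apply K9_lo _ _ (by positivity) 1 e he
    · apply mul_nonneg (by positivity)
      linarith
    · have := K9_al1 x h0.le h1
      have h9 : (9 + 4 * x / 3 : ℝ) = 9 * (1 + 4 * x / 27) := by ring
      rw [h9, mul_pow, mul_pow]
      have : (((1:ℝ) / 3 ^ 1) ^ 2 * ((1) + (-2/27) * x^1) ^ 2 * (9 ^ 1 * (1 + 4 * x / 27) ^ 1)) =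
        ((1) + (-2/27) * x^1) ^ 2 * (1 + 4 * x / 27) ^ 1 := by ring
      rw [this]
      linarith
  linarith

private lemma K9_A1 (x : ℝ) (h0 : 0 < x) (h1 : x ≤ 1 / 4) (e : ℝ) (he : e = -((3 : ℕ) : ℝ) / 2) :
    (1 + 2 * x / 3) ^ e - 0.52 * (9 + 4 * x / 3) ^ e ≤
      ((1) + (-3/2) * (2*x/3)^1 + (15/8) * (2*x/3)^2 + (-46/25) * (2*x/3)^3) - 0.52 * ((1 / 3 ^ 3) * ((1) + (-2/9) * x^1)) := by
  have hs0 : 0 ≤ 2 * x / 3 := by positivity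
  have hs1 : 2 * x / 3 ≤ 1 / 6 := by linarith
  have e1 : (1 + 2 * x / 3) ^ e ≤ (1) + (-3/2) * (2*x/3)^1 + (15/8) * (2*x/3)^2 + (-46/25) * (2*x/3)^3 := by
    apply K9_up _ _ (by positivity) 3 e he
    · nlinarith [mul_nonneg hs0 hs0, mul_nonneg hs0 (sub_nonneg.2 hs1), mul_nonneg (mul_nonneg hs0 hs0) (sub_nonneg.2 hs1)]
    · have := K9_au1 (2 * x / 3) hs0 hs1
      linarith
  have e2 : (1 / 3 ^ 3) * ((1) + (-2/9) * x^1) ≤ (9 + 4 * x / 3) ^ e := by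
    apply K9_lo _ _ (by positivity) 3 e he
    · apply mul_nonneg (by positivity)
      linarith
    · have := K9_al3 x h0.le h1
      have h9 : (9 + 4 * x / 3 : ℝ) = 9 * (1 + 4 * x / 27) := by ring
      rw [h9, mul_pow, mul_pow]
      have : (((1:ℝ) / 3 ^ 3) ^ 2 * ((1) + (-2/9) * x^1) ^ 2 * (9 ^ 3 * (1 + 4 * x / 27) ^ 3)) =
        ((1) + (-2/9) * x^1) ^ 2 * (1 + 4 * x / 27) ^ 3 := by ring
      rw [this]
      linarith
  linarith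

private lemma K9_A2 (x : ℝ) (h0 : 0 < x) (h1 : x ≤ 1 / 4) (e : ℝ) (he : e = -((5 : ℕ) : ℝ) / 2) :
    (1 + 2 * x / 3) ^ e - 0.52 * (9 + 4 * x / 3) ^ e ≤
      ((1) + (-5/2) * (2*x/3)^1 + (35/8) * (2*x/3)^2 + (-133/25) * (2*x/3)^3) - 0.52 * ((1 / 3 ^ 5) * ((1) + (-10/27) * x^1)) := by
  have hs0 : 0 ≤ 2 * x / 3 := by positivity
  have hs1 : 2 * x / 3 ≤ 1 / 6 := by linarith
  have e1 : (1 + 2 * x / 3) ^ e ≤ (1) + (-5/2) * (2*x/3)^1 + (35/8) * (2*x/3)^2 + (-133/25) * (2*x/3)^3 := by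
    apply K9_up _ _ (by positivity) 5 e he
    · nlinarith [mul_nonneg hs0 hs0, mul_nonneg hs0 (sub_nonneg.2 hs1), mul_nonneg (mul_nonneg hs0 hs0) (sub_nonneg.2 hs1)]
    · have := K9_au2 (2 * x / 3) hs0 hs1
      linarith
  have e2 : (1 / 3 ^ 5) * ((1) + (-10/27) * x^1) ≤ (9 + 4 * x / 3) ^ e := by
    apply K9_lo _ _ (by positivity) 5 e he
    · apply mul_nonneg (by positivity)
      linarith
    · have := K9_al5 x h0.le h1
      have h9 : (9 + 4 * x / 3 : ℝ) = 9 * (1 + 4 * x / 27) := by ring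
      rw [h9, mul_pow, mul_pow]
      have : (((1:ℝ) / 3 ^ 5) ^ 2 * ((1) + (-10/27) * x^1) ^ 2 * (9 ^ 5 * (1 + 4 * x / 27) ^ 5)) =
        ((1) + (-10/27) * x^1) ^ 2 * (1 + 4 * x / 27) ^ 5 := by ring
      rw [this]
      linarith
  linarith

private lemma K9_A3 (x : ℝ) (h0 : 0 < x) (h1 : x ≤ 1 / 4) (e : ℝ) (he : e = -((7 : ℕ) : ℝ) / 2) :
    (1 + 2 * x / 3) ^ e - 0.52 * (9 + 4 * x / 3) ^ e ≤
      ((1) + (-7/2) * (2*x/3)^1 + (63/8) * (2*x/3)^2 + (-1131/100) * (2*x/3)^3) - 0.52 * ((1 / 3 ^ 7) * ((1) + (-14/27) * x^1)) := by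
  have hs0 : 0 ≤ 2 * x / 3 := by positivity
  have hs1 : 2 * x / 3 ≤ 1 / 6 := by linarith
  have e1 : (1 + 2 * x / 3) ^ e ≤ (1) + (-7/2) * (2*x/3)^1 + (63/8) * (2*x/3)^2 + (-1131/100) * (2*x/3)^3 := by
    apply K9_up _ _ (by positivity) 7 e he
    · nlinarith [mul_nonneg hs0 hs0, mul_nonneg hs0 (sub_nonneg.2 hs1), mul_nonneg (mul_nonneg hs0 hs0) (sub_nonneg.2 hs1)]
    · have := K9_au3 (2 * x / 3) hs0 hs1
      linarith
  have e2 : (1 / 3 ^ 7) * ((1) + (-14/27) * x^1) ≤ (9 + 4 * x / 3) ^ e := by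
    apply K9_lo _ _ (by positivity) 7 e he
    · apply mul_nonneg (by positivity)
      linarith
    · have := K9_al7 x h0.le h1
      have h9 : (9 + 4 * x / 3 : ℝ) = 9 * (1 + 4 * x / 27) := by ring
      rw [h9, mul_pow, mul_pow]
      have : (((1:ℝ) / 3 ^ 7) ^ 2 * ((1) + (-14/27) * x^1) ^ 2 * (9 ^ 7 * (1 + 4 * x / 27) ^ 7)) =
        ((1) + (-14/27) * x^1) ^ 2 * (1 + 4 * x / 27) ^ 7 := by ring
      rw [this]
      linarith
  linarith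

private lemma K9_B0 (x : ℝ) (h0 : 0 < x) (h1 : x ≤ 1 / 4) (e : ℝ) (he : e = -((1 : ℕ) : ℝ) / 2) :
    ((1) + (1/2) * (x/3)^1 + (3/8) * (x/3)^2) - 0.52 * ((1 / 3 ^ 1) * ((1) + (-49/2700) * x^1)) ≤
    (1 - x / 3) ^ e - 0.52 * (9 + x / 3) ^ e := by
  have hs0 : 0 ≤ x / 3 := by positivity
  have hs1 : x / 3 ≤ 1 / 12 := by linarith
  have e1 : (1) + (1/2) * (x/3)^1 + (3/8) * (x/3)^2 ≤ (1 - x / 3) ^ e := by
    apply K9_lo _ _ (by linarith) 1 e he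
    · positivity
    · have := K9_bl1 (x / 3) hs0 hs1
      linarith
  have e2 : (9 + x / 3) ^ e ≤ (1 / 3 ^ 1) * ((1) + (-49/2700) * x^1) := by
    apply K9_up _ _ (by positivity) 1 e he
    · apply mul_nonneg (by positivity)
      linarith
    · have := K9_bu1 x h0.le h1
      have h9 : (9 + x / 3 : ℝ) = 9 * (1 + x / 27) := by ring
      rw [h9, mul_pow, mul_pow]
      have : (((1:ℝ) / 3 ^ 1) ^ 2 * ((1) + (-49/2700) * x^1) ^ 2 * (9 ^ 1 * (1 + x / 27) ^ 1)) =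
        ((1) + (-49/2700) * x^1) ^ 2 * (1 + x / 27) ^ 1 := by ring
      rw [this]
      linarith
  linarith

private lemma K9_B1 (x : ℝ) (h0 : 0 < x) (h1 : x ≤ 1 / 4) (e : ℝ) (he : e = -((2 : ℕ) : ℝ) / 2) :
    ((1) + (1) * (x/3)^1 + (1) * (x/3)^2) - 0.52 * ((1 / 3 ^ 2) * ((1) + (-49/1350) * x^1)) ≤
    (1 - x / 3) ^ e - 0.52 * (9 + x / 3) ^ e := by
  have hs0 : 0 ≤ x / 3 := by positivity
  have hs1 : x / 3 ≤ 1 / 12 := by linarith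
  have e1 : (1) + (1) * (x/3)^1 + (1) * (x/3)^2 ≤ (1 - x / 3) ^ e := by
    apply K9_lo _ _ (by linarith) 2 e he
    · positivity
    · have := K9_bl2 (x / 3) hs0 hs1
      linarith
  have e2 : (9 + x / 3) ^ e ≤ (1 / 3 ^ 2) * ((1) + (-49/1350) * x^1) := by
    apply K9_up _ _ (by positivity) 2 e he
    · apply mul_nonneg (by positivity)
      linarith
    · have := K9_bu2 x h0.le h1
      have h9 : (9 + x / 3 : ℝ) = 9 * (1 + x / 27) := by ring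
      rw [h9, mul_pow, mul_pow]
      have : (((1:ℝ) / 3 ^ 2) ^ 2 * ((1) + (-49/1350) * x^1) ^ 2 * (9 ^ 2 * (1 + x / 27) ^ 2)) =
        ((1) + (-49/1350) * x^1) ^ 2 * (1 + x / 27) ^ 2 := by ring
      rw [this]
      linarith
  linarith

private lemma K9_B2 (x : ℝ) (h0 : 0 < x) (h1 : x ≤ 1 / 4) (e : ℝ) (he : e = -((3 : ℕ) : ℝ) / 2) :
    ((1) + (3/2) * (x/3)^1 + (15/8) * (x/3)^2) - 0.52 * ((1 / 3 ^ 3) * ((1) + (-49/900) * x^1)) ≤
    (1 - x / 3) ^ e - 0.52 * (9 + x / 3) ^ e := by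
  have hs0 : 0 ≤ x / 3 := by positivity
  have hs1 : x / 3 ≤ 1 / 12 := by linarith
  have e1 : (1) + (3/2) * (x/3)^1 + (15/8) * (x/3)^2 ≤ (1 - x / 3) ^ e := by
    apply K9_lo _ _ (by linarith) 3 e he
    · positivity
    · have := K9_bl3 (x / 3) hs0 hs1
      linarith
  have e2 : (9 + x / 3) ^ e ≤ (1 / 3 ^ 3) * ((1) + (-49/900) * x^1) := by
    apply K9_up _ _ (by positivity) 3 e he
    · apply mul_nonneg (by positivity)
      linarith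
    · have := K9_bu3 x h0.le h1
      have h9 : (9 + x / 3 : ℝ) = 9 * (1 + x / 27) := by ring
      rw [h9, mul_pow, mul_pow]
      have : (((1:ℝ) / 3 ^ 3) ^ 2 * ((1) + (-49/900) * x^1) ^ 2 * (9 ^ 3 * (1 + x / 27) ^ 3)) =
        ((1) + (-49/900) * x^1) ^ 2 * (1 + x / 27) ^ 3 := by ring
      rw [this]
      linarith
  linarith

private lemma K9_B3 (x : ℝ) (h0 : 0 < x) (h1 : x ≤ 1 / 4) (e : ℝ) (he : e = -((4 : ℕ) : ℝ) / 2) :
    ((1) + (2) * (x/3)^1 + (3) * (x/3)^2) - 0.52 * ((1 / 3 ^ 4) * ((1) + (-49/675) * x^1)) ≤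
    (1 - x / 3) ^ e - 0.52 * (9 + x / 3) ^ e := by
  have hs0 : 0 ≤ x / 3 := by positivity
  have hs1 : x / 3 ≤ 1 / 12 := by linarith
  have e1 : (1) + (2) * (x/3)^1 + (3) * (x/3)^2 ≤ (1 - x / 3) ^ e := by
    apply K9_lo _ _ (by linarith) 4 e he
    · positivity
    · have := K9_bl4 (x / 3) hs0 hs1
      linarith
  have e2 : (9 + x / 3) ^ e ≤ (1 / 3 ^ 4) * ((1) + (-49/675) * x^1) := by
    apply K9_up _ _ (by positivity) 4 e he
    · apply mul_nonneg (by positivity)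
      linarith
    · have := K9_bu4 x h0.le h1
      have h9 : (9 + x / 3 : ℝ) = 9 * (1 + x / 27) := by ring
      rw [h9, mul_pow, mul_pow]
      have : (((1:ℝ) / 3 ^ 4) ^ 2 * ((1) + (-49/675) * x^1) ^ 2 * (9 ^ 4 * (1 + x / 27) ^ 4)) =
        ((1) + (-49/675) * x^1) ^ 2 * (1 + x / 27) ^ 4 := by ring
      rw [this]
      linarith
  linarith

private lemma K9_Z (x : ℝ) (h0 : 0 < x) (h1 : x ≤ 1 / 4) (e : ℝ) (he : e = -((1 : ℕ) : ℝ) / 2) :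
    (1 - 4 * x / 3) ^ e - 0.52 * (9 - 2 * x / 3) ^ e ≤
      ((1) + (1/2) * (4*x/3)^1 + (3/8) * (4*x/3)^2 + (111/250) * (4*x/3)^3) - 0.52 * ((1 / 3) * (1 + (1/27) * x^1)) := by
  have hs0 : 0 ≤ 4 * x / 3 := by positivity
  have hs1 : 4 * x / 3 ≤ 1 / 3 := by linarith
  have e1 : (1 - 4 * x / 3) ^ e ≤ (1) + (1/2) * (4*x/3)^1 + (3/8) * (4*x/3)^2 + (111/250) * (4*x/3)^3 := by
    apply K9_up _ _ (by linarith) 1 e he
    · positivity
    · have := K9_zu (4 * x / 3) hs0 hs1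
      linarith
  have e2 : (1 / 3) * (1 + (1/27) * x^1) ≤ (9 - 2 * x / 3) ^ e := by
    apply K9_lo _ _ (by linarith) 1 e he
    · positivity
    · have := K9_zl x h0.le h1
      have h9 : (9 - 2 * x / 3 : ℝ) = 9 * (1 - 2 * x / 27) := by ring
      rw [h9, mul_pow, mul_pow]
      have h10 : (((1:ℝ) / 3) ^ 2 * (1 + (1/27) * x^1) ^ 2 * (9 ^ 1 * (1 - 2 * x / 27) ^ 1)) =
        (1 + (1/27) * x^1) ^ 2 * (1 - 2 * x / 27) ^ 1 := by ring
      rw [h10]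
      norm_num at this ⊢
      linarith
  linarith

private lemma K9_J : 1.253314 ≤ Real.sqrt (π / 2) ∧ Real.sqrt (π / 2) ≤ 1.253315 := by
  have h1 := Real.pi_gt_d6
  have h2 := Real.pi_lt_d6
  constructor
  · apply Real.le_sqrt_of_sq_le
    nlinarith
  · rw [Real.sqrt_le_left (by norm_num)]
    nlinarith

private lemma K9_tj (r : ℝ) (h0 : 0 ≤ r) (h1 : r ≤ 1 / 2) :
    0 ≤ (6066538039/18750000000) * r^1 + (413291561/1318359375) * r^2 + (13019266475957/27337500000000) * r^3 + (-750608555291/1708593750000) * r^4 + (-623295223977799/738112500000000) * r^5 + (7475928551/5062500000) * r^6 + (132362166037/70312500000) * r^7 + (-3778291097/2197265625) * r^8 + (-335191775347/210937500000) * r^9 + (342176/703125) * r^10 := by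
  have hu : 0 ≤ 1 / 2 - r := by linarith
  have key : (6066538039/18750000000) * r^1 + (413291561/1318359375) * r^2 + (13019266475957/27337500000000) * r^3 + (-750608555291/1708593750000) * r^4 + (-623295223977799/738112500000000) * r^5 + (7475928551/5062500000) * r^6 + (132362166037/70312500000) * r^7 + (-3778291097/2197265625) * r^8 + (-335191775347/210937500000) * r^9 + (342176/703125) * r^10 =
      r^1 * ((24266152156/146484375) * r^0 * (1/2 - r)^9 + (2071360964252/1318359375) * r^1 * (1/2 - r)^8 + (1423821281782421/213574218750) * r^2 * (1/2 - r)^7 + (3536974957037179/213574218750) * r^3 * (1/2 - r)^6 + (610127851694910533/23066015625000) * r^4 * (1/2 - r)^5 + (647943786534172909/23066015625000) * r^5 * (1/2 - r)^4 + (285729631531310228/14416259765625) * r^6 * (1/2 - r)^3 + (258886709447525497/28832519531250) * r^7 * (1/2 - r)^2 + (548648111157964789/230660156250000)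 * r^8 * (1/2 - r)^1 + (64780612773155981/230660156250000) * r^9 * (1/2 - r)^0) := by ring
  rw [key]
  positivity

private lemma K9_fin (r : ℝ) (h0 : 0 ≤ r) (h1 : r ≤ 1 / 2) :
    0 ≤ (21522331921434433/116250000000000000) * r^1 + (-103596902554943/263671875000000) * r^2 + (-1293655597532409491/5467500000000000000) * r^3 + (188149792294907933/341718750000000000) * r^4 + (186193566187095830737/147622500000000000000) * r^5 + (-1873938678379313/1012500000000000) * r^6 + (-32019128250332531/14062500000000000) * r^7 + (947077781247311/439453125000000) * r^8 + (84020175983805061/42187500000000000) * r^9 + (-2680339459/4394531250) * r^10 := by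
  have hu : 0 ≤ 1 / 2 - r := by linarith
  have key : (21522331921434433/116250000000000000) * r^1 + (-103596902554943/263671875000000) * r^2 + (-1293655597532409491/5467500000000000000) * r^3 + (188149792294907933/341718750000000000) * r^4 + (186193566187095830737/147622500000000000000) * r^5 + (-1873938678379313/1012500000000000) * r^6 + (-32019128250332531/14062500000000000) * r^7 + (947077781247311/439453125000000) * r^8 + (84020175983805061/42187500000000000) * r^9 + (-2680339459/4394531250) * r^10 =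
      r^1 * ((21522331921434433/227050781250000) * r^0 * (1/2 - r)^9 + (1537772630967182161/2043457031250000) * r^1 * (1/2 - r)^8 + (3413053363841365551187/1324160156250000000) * r^2 * (1/2 - r)^7 + (6580220219437814410013/1324160156250000000) * r^3 * (1/2 - r)^6 + (847588335936211329065251/143009296875000000000) * r^4 * (1/2 - r)^5 + (649780345833463115451323/143009296875000000000) * r^5 * (1/2 - r)^4 + (50086940560951580033479/22345202636718750000) * r^6 * (1/2 - r)^3 + (119526389884809308210159/178761621093750000000) * r^7 * (1/2 - r)^2 + (139887688094643118941683/1430092968750000000000) * r^8 * (1/2 - r)^1 + (5273111714735692372507/1430092968750000000000) * r^9 * (1/2 - r)^0) := by ring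
  rw [key]
  positivity

private lemma K9_tot (r J : ℝ) (h0 : 0 ≤ r) (h1 : r ≤ 1 / 2) (hJ : J ≤ 1.253315) :
    1 * (J * (((1) + (-1/2) * (2*(r^2)/3)^1 + (3/8) * (2*(r^2)/3)^2 + (-34/125) * (2*(r^2)/3)^3) - 0.52 * ((1 / 3 ^ 1) * ((1) + (-2/27) * (r^2)^1))) - 2 * (1 - 0.68 * r ^ 2) * (J * (((1) + (1/2) * ((r^2)/3)^1 + (3/8) * ((r^2)/3)^2) - 0.52 * ((1 / 3 ^ 1) * ((1) + (-49/2700) * (r^2)^1)))) + (1 - 0.68 * r ^ 2) ^ 2 * (J * (((1) + (1/2) * (4*(r^2)/3)^1 + (3/8) * (4*(r^2)/3)^2 + (111/250) * (4*(r^2)/3)^3) - 0.52 * ((1 / 3) * (1 + (1/27) * (r^2)^1))))) + 0.21618 * r * (J * (((1) + (-3/2) * (2*(r^2)/3)^1 + (15/8) * (2*(r^2)/3)^2 + (-46/25) * (2*(r^2)/3)^3) - 0.52 * ((1 / 3 ^ 3) * ((1) + (-2/9) * (r^2)^1))) - 2 * 0.79 * (1 * (((1) + (1) * ((r^2)/3)^1 + (1) * ((r^2)/3)^2) - 0.52 * ((1 / 3 ^ 2) * ((1) + (-49/1350) * (r^2)^1)))) + 0.79 ^ 2 * (J * (((1) + (1/2) * (4*(r^2)/3)^1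 + (3/8) * (4*(r^2)/3)^2 + (111/250) * (4*(r^2)/3)^3) - 0.52 * ((1 / 3) * (1 + (1/27) * (r^2)^1))))) + 0.34072 * r ^ 2 / 2 * ((3 * J) * (((1) + (-5/2) * (2*(r^2)/3)^1 + (35/8) * (2*(r^2)/3)^2 + (-133/25) * (2*(r^2)/3)^3) - 0.52 * ((1 / 3 ^ 5) * ((1) + (-10/27) * (r^2)^1))) - 2 * 1.08 * (J * (((1) + (3/2) * ((r^2)/3)^1 + (15/8) * ((r^2)/3)^2) - 0.52 * ((1 / 3 ^ 3) * ((1) + (-49/900) * (r^2)^1)))) + 1.08 ^ 2 * (J * (((1) + (1/2) * (4*(r^2)/3)^1 + (3/8) * (4*(r^2)/3)^2 + (111/250) * (4*(r^2)/3)^3) - 0.52 * ((1 / 3) * (1 + (1/27) * (r^2)^1))))) + 0.20381 * r ^ 3 / 6 * ((15 * J) * (((1) + (-7/2) * (2*(r^2)/3)^1 + (63/8) * (2*(r^2)/3)^2 + (-1131/100) * (2*(r^2)/3)^3) - 0.52 * ((1 / 3 ^ 7) * ((1) + (-14/27) * (r^2)^1))) - 2 * 1.82 * (2 * (((1) + (2) * ((r^2)/3)^1 + (3) * ((r^2)/3)^2) - 0.52 * ((1 / 3 ^ 4) * ((1) + (-49/675) * (r^2)^1)))) + 1.82 ^ 2 * (J * (((1) + (1/2)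 * (4*(r^2)/3)^1 + (3/8) * (4*(r^2)/3)^2 + (111/250) * (4*(r^2)/3)^3) - 0.52 * ((1 / 3) * (1 + (1/27) * (r^2)^1))))) ≤ (100/372) * r := by
  have a := K9_tj r h0 h1
  have b := K9_fin r h0 h1
  have c := mul_nonneg (sub_nonneg.2 hJ) a
  have key : (100/372) * r - (1 * (J * (((1) + (-1/2) * (2*(r^2)/3)^1 + (3/8) * (2*(r^2)/3)^2 + (-34/125) * (2*(r^2)/3)^3) - 0.52 * ((1 / 3 ^ 1) * ((1) + (-2/27) * (r^2)^1))) - 2 * (1 - 0.68 * r ^ 2) * (J * (((1) + (1/2) * ((r^2)/3)^1 + (3/8) * ((r^2)/3)^2) - 0.52 * ((1 / 3 ^ 1) * ((1) + (-49/2700) * (r^2)^1)))) + (1 - 0.68 * r ^ 2) ^ 2 * (J * (((1) + (1/2) * (4*(r^2)/3)^1 + (3/8) * (4*(r^2)/3)^2 + (111/250) * (4*(r^2)/3)^3) - 0.52 * ((1 / 3) * (1 + (1/27) * (r^2)^1))))) + 0.21618 * r * (J * (((1) + (-3/2) * (2*(r^2)/3)^1 + (15/8) * (2*(r^2)/3)^2 + (-46/25) * (2*(r^2)/3)^3) - 0.52 * ((1 / 3 ^ 3) * ((1) + (-2/9) * (r^2)^1))) - 2 *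 0.79 * (1 * (((1) + (1) * ((r^2)/3)^1 + (1) * ((r^2)/3)^2) - 0.52 * ((1 / 3 ^ 2) * ((1) + (-49/1350) * (r^2)^1)))) + 0.79 ^ 2 * (J * (((1) + (1/2) * (4*(r^2)/3)^1 + (3/8) * (4*(r^2)/3)^2 + (111/250) * (4*(r^2)/3)^3) - 0.52 * ((1 / 3) * (1 + (1/27) * (r^2)^1))))) + 0.34072 * r ^ 2 / 2 * ((3 * J) * (((1) + (-5/2) * (2*(r^2)/3)^1 + (35/8) * (2*(r^2)/3)^2 + (-133/25) * (2*(r^2)/3)^3) - 0.52 * ((1 / 3 ^ 5) * ((1) + (-10/27) * (r^2)^1))) - 2 * 1.08 * (J * (((1) + (3/2) * ((r^2)/3)^1 + (15/8) * ((r^2)/3)^2) - 0.52 * ((1 / 3 ^ 3) * ((1) + (-49/900) * (r^2)^1)))) + 1.08 ^ 2 * (J * (((1) + (1/2) * (4*(r^2)/3)^1 + (3/8) * (4*(r^2)/3)^2 + (111/250) * (4*(r^2)/3)^3) - 0.52 * ((1 / 3) * (1 + (1/27) * (r^2)^1))))) + 0.20381 * r ^ 3 / 6 * ((15 * J) * (((1) + (-7/2) * (2*(r^2)/3)^1 + (63/8) * (2*(r^2)/3)^2 + (-1131/100) * (2*(r^2)/3)^3) - 0.52 * ((1 / 3 ^ 7) * ((1) + (-14/27)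 * (r^2)^1))) - 2 * 1.82 * (2 * (((1) + (2) * ((r^2)/3)^1 + (3) * ((r^2)/3)^2) - 0.52 * ((1 / 3 ^ 4) * ((1) + (-49/675) * (r^2)^1)))) + 1.82 ^ 2 * (J * (((1) + (1/2) * (4*(r^2)/3)^1 + (3/8) * (4*(r^2)/3)^2 + (111/250) * (4*(r^2)/3)^3) - 0.52 * ((1 / 3) * (1 + (1/27) * (r^2)^1)))))) =
    ((21522331921434433/116250000000000000) * r^1 + (-103596902554943/263671875000000) * r^2 + (-1293655597532409491/5467500000000000000) * r^3 + (188149792294907933/341718750000000000) * r^4 + (186193566187095830737/147622500000000000000) * r^5 + (-1873938678379313/1012500000000000) * r^6 + (-32019128250332531/14062500000000000) * r^7 + (947077781247311/439453125000000) * r^8 + (84020175983805061/42187500000000000) * r^9 + (-2680339459/4394531250) * r^10) + (1.253315 - J) * ((6066538039/18750000000) * r^1 + (413291561/1318359375) * r^2 + (13019266475957/27337500000000) * r^3 + (-750608555291/1708593750000)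 * r^4 + (-623295223977799/738112500000000) * r^5 + (7475928551/5062500000) * r^6 + (132362166037/70312500000) * r^7 + (-3778291097/2197265625) * r^8 + (-335191775347/210937500000) * r^9 + (342176/703125) * r^10) := by ring
  linarith

/-- Explicit one-variable inequality. -/
theorem Tpoly (ρ : ℝ) (h0 : 0 < ρ) (h1 : ρ ≤ 1 / 2) :
    3.72 / ρ * (
      (Aq 0 ρ - 2 * (1 - 0.68 * ρ ^ 2) * Bq 0 ρ + (1 - 0.68 * ρ ^ 2) ^ 2 * Zq ρ) +
      0.21618 * ρ * (Aq 1 ρ - 2 * 0.79 * Bq 1 ρ + 0.79 ^ 2 * Zq ρ) +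
      0.34072 * ρ ^ 2 / 2 * (Aq 2 ρ - 2 * 1.08 * Bq 2 ρ + 1.08 ^ 2 * Zq ρ) +
      0.20381 * ρ ^ 3 / 6 * (Aq 3 ρ - 2 * 1.82 * Bq 3 ρ + 1.82 ^ 2 * Zq ρ)) ≤ 1 := by
  have hx0 : 0 < ρ ^ 2 := by positivity
  have hx1 : ρ ^ 2 ≤ 1 / 4 := by nlinarith
  obtain ⟨hJ1, hJ2⟩ := K9_J
  have J0 : Jc 0 = Real.sqrt (π / 2) := rfl
  have J1 : Jc 1 = 1 := rfl
  have J2 : Jc 2 = Real.sqrt (π / 2) := by
    show ((0 : ℕ) + 1 : ℝ) * Jc 0 = _
    rw [J0]; norm_num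
  have J3 : Jc 3 = 2 := by
    show ((1 : ℕ) + 1 : ℝ) * Jc 1 = _
    rw [J1]; norm_num
  have J4 : Jc 4 = 3 * Real.sqrt (π / 2) := by
    show ((2 : ℕ) + 1 : ℝ) * Jc 2 = _
    rw [J2]; norm_num
  have J6 : Jc 6 = 15 * Real.sqrt (π / 2) := by
    show ((4 : ℕ) + 1 : ℝ) * Jc 4 = _
    rw [J4]; norm_num
    ring
  set J := Real.sqrt (π / 2) with hJ
  have hJ0 : 0 < J := by linarith

  have A0 : Aq 0 ρ ≤ J * (((1) + (-1/2) * (2*(ρ^2)/3)^1 + (3/8) * (2*(ρ^2)/3)^2 + (-34/125) * (2*(ρ^2)/3)^3) - 0.52 * ((1 / 3 ^ 1) * ((1) + (-2/27) * (ρ^2)^1))) := by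
    have h := K9_A0 (ρ ^ 2) hx0 hx1 (-((2 * 0 : ℕ) + 1 : ℝ) / 2) (by norm_num)
    have hj : Jc (2 * 0) = J := J0
    have hj0 : 0 ≤ Jc (2 * 0) := by rw [hj]; positivity
    have h' := mul_le_mul_of_nonneg_left h hj0
    unfold Aq
    rw [hj] at h' ⊢
    exact h'

  have A1 : Aq 1 ρ ≤ J * (((1) + (-3/2) * (2*(ρ^2)/3)^1 + (15/8) * (2*(ρ^2)/3)^2 + (-46/25) * (2*(ρ^2)/3)^3) - 0.52 * ((1 / 3 ^ 3) * ((1) + (-2/9) * (ρ^2)^1))) := by
    have h := K9_A1 (ρ ^ 2) hx0 hx1 (-((2 * 1 : ℕ) + 1 : ℝ) / 2) (by norm_num)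
    have hj : Jc (2 * 1) = J := J2
    have hj0 : 0 ≤ Jc (2 * 1) := by rw [hj]; positivity
    have h' := mul_le_mul_of_nonneg_left h hj0
    unfold Aq
    rw [hj] at h' ⊢
    exact h'

  have A2 : Aq 2 ρ ≤ (3 * J) * (((1) + (-5/2) * (2*(ρ^2)/3)^1 + (35/8) * (2*(ρ^2)/3)^2 + (-133/25) * (2*(ρ^2)/3)^3) - 0.52 * ((1 / 3 ^ 5) * ((1) + (-10/27) * (ρ^2)^1))) := by
    have h := K9_A2 (ρ ^ 2) hx0 hx1 (-((2 * 2 : ℕ) + 1 : ℝ) / 2) (by norm_num)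
    have hj : Jc (2 * 2) = 3 * J := J4
    have hj0 : 0 ≤ Jc (2 * 2) := by rw [hj]; positivity
    have h' := mul_le_mul_of_nonneg_left h hj0
    unfold Aq
    rw [hj] at h' ⊢
    exact h'

  have A3 : Aq 3 ρ ≤ (15 * J) * (((1) + (-7/2) * (2*(ρ^2)/3)^1 + (63/8) * (2*(ρ^2)/3)^2 + (-1131/100) * (2*(ρ^2)/3)^3) - 0.52 * ((1 / 3 ^ 7) * ((1) + (-14/27) * (ρ^2)^1))) := by
    have h := K9_A3 (ρ ^ 2) hx0 hx1 (-((2 * 3 : ℕ) + 1 : ℝ) / 2) (by norm_num)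
    have hj : Jc (2 * 3) = 15 * J := J6
    have hj0 : 0 ≤ Jc (2 * 3) := by rw [hj]; positivity
    have h' := mul_le_mul_of_nonneg_left h hj0
    unfold Aq
    rw [hj] at h' ⊢
    exact h'

  have B0 : J * (((1) + (1/2) * ((ρ^2)/3)^1 + (3/8) * ((ρ^2)/3)^2) - 0.52 * ((1 / 3 ^ 1) * ((1) + (-49/2700) * (ρ^2)^1))) ≤ Bq 0 ρ := by
    have h := K9_B0 (ρ ^ 2) hx0 hx1 (-((0 : ℕ) + 1 : ℝ) / 2) (by norm_num)
    have hj : Jc 0 = J := J0
    have hj0 : 0 ≤ Jc 0 := by rw [hj]; positivity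
    have h' := mul_le_mul_of_nonneg_left h hj0
    unfold Bq
    rw [hj] at h' ⊢
    exact h'

  have B1 : 1 * (((1) + (1) * ((ρ^2)/3)^1 + (1) * ((ρ^2)/3)^2) - 0.52 * ((1 / 3 ^ 2) * ((1) + (-49/1350) * (ρ^2)^1))) ≤ Bq 1 ρ := by
    have h := K9_B1 (ρ ^ 2) hx0 hx1 (-((1 : ℕ) + 1 : ℝ) / 2) (by norm_num)
    have hj : Jc 1 = 1 := J1
    have hj0 : 0 ≤ Jc 1 := by rw [hj]; positivity
    have h' := mul_le_mul_of_nonneg_left h hj0
    unfold Bq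
    rw [hj] at h' ⊢
    exact h'

  have B2 : J * (((1) + (3/2) * ((ρ^2)/3)^1 + (15/8) * ((ρ^2)/3)^2) - 0.52 * ((1 / 3 ^ 3) * ((1) + (-49/900) * (ρ^2)^1))) ≤ Bq 2 ρ := by
    have h := K9_B2 (ρ ^ 2) hx0 hx1 (-((2 : ℕ) + 1 : ℝ) / 2) (by norm_num)
    have hj : Jc 2 = J := J2
    have hj0 : 0 ≤ Jc 2 := by rw [hj]; positivity
    have h' := mul_le_mul_of_nonneg_left h hj0
    unfold Bq
    rw [hj] at h' ⊢
    exact h'

  have B3 : 2 * (((1) + (2) * ((ρ^2)/3)^1 + (3) * ((ρ^2)/3)^2) - 0.52 * ((1 / 3 ^ 4) * ((1) + (-49/675) * (ρ^2)^1))) ≤ Bq 3 ρ := by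
    have h := K9_B3 (ρ ^ 2) hx0 hx1 (-((3 : ℕ) + 1 : ℝ) / 2) (by norm_num)
    have hj : Jc 3 = 2 := J3
    have hj0 : 0 ≤ Jc 3 := by rw [hj]; positivity
    have h' := mul_le_mul_of_nonneg_left h hj0
    unfold Bq
    rw [hj] at h' ⊢
    exact h'

  have Z : Zq ρ ≤ J * (((1) + (1/2) * (4*(ρ^2)/3)^1 + (3/8) * (4*(ρ^2)/3)^2 + (111/250) * (4*(ρ^2)/3)^3) - 0.52 * ((1 / 3) * (1 + (1/27) * (ρ^2)^1))) := by
    have h := K9_Z (ρ ^ 2) hx0 hx1 (-((0 : ℕ) + 1 : ℝ) / 2) (by norm_num)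
    have hj0 : 0 ≤ Jc 0 := by rw [J0]; positivity
    have h' := mul_le_mul_of_nonneg_left h hj0
    unfold Zq
    rw [J0] at h' ⊢
    exact h'
  have T := K9_tot ρ J h0.le h1 hJ2
  have key : ∀ A B Z A' B' Z' a m : ℝ, 0 ≤ m → 0 ≤ a → A ≤ A' → B' ≤ B → Z ≤ Z' →
      m * (A - 2 * a * B + a ^ 2 * Z) ≤ m * (A' - 2 * a * B' + a ^ 2 * Z') := by
    intro A B Z A' B' Z' a m hm ha hA hB hZ
    apply mul_le_mul_of_nonneg_left _ hm
    have := mul_le_mul_of_nonneg_left hB (by positivity : 0 ≤ 2 * a)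
    have := mul_le_mul_of_nonneg_left hZ (by positivity : 0 ≤ a ^ 2)
    linarith
  have ha0 : (0:ℝ) ≤ 1 - 0.68 * ρ ^ 2 := by linarith
  have k0 := key _ _ _ _ _ _ (1 - 0.68 * ρ ^ 2) 1 (by norm_num) ha0 A0 B0 Z
  have k1 := key _ _ _ _ _ _ 0.79 (0.21618 * ρ) (by positivity) (by norm_num) A1 B1 Z
  have k2 := key _ _ _ _ _ _ 1.08 (0.34072 * ρ ^ 2 / 2) (by positivity) (by norm_num) A2 B2 Z
  have k3 := key _ _ _ _ _ _ 1.82 (0.20381 * ρ ^ 3 / 6) (by positivity) (by norm_num) A3 B3 Z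
  rw [one_mul] at k0
  rw [div_mul_eq_mul_div, div_le_one h0]
  have hfin : (Aq 0 ρ - 2 * (1 - 0.68 * ρ ^ 2) * Bq 0 ρ + (1 - 0.68 * ρ ^ 2) ^ 2 * Zq ρ) +
      0.21618 * ρ * (Aq 1 ρ - 2 * 0.79 * Bq 1 ρ + 0.79 ^ 2 * Zq ρ) +
      0.34072 * ρ ^ 2 / 2 * (Aq 2 ρ - 2 * 1.08 * Bq 2 ρ + 1.08 ^ 2 * Zq ρ) +
      0.20381 * ρ ^ 3 / 6 * (Aq 3 ρ - 2 * 1.82 * Bq 3 ρ + 1.82 ^ 2 * Zq ρ) ≤ (100/372) * ρ := by
    refine le_trans ?_ T
    linarith
  linarith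

end Pool.Agent.SSCP
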