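import Pool.Agent.SSC3N.Cubic
import Pool.Agent.SSC3N.GaussRot
import Pool.Agent.SSC3N.ExistsRot
import Pool.Agent.SSCP.A1
import Pool.Agent.SSCP.A2
import Pool.Agent.SSCP.A3
import Pool.Agent.SSCP.A4
import Pool.Agent.SSCP.A5a
import Pool.Agent.SSCP.A6
import Pool.Agent.SSCP.A8
import Pool.Agent.SSCP.A11
import Pool.Agent.SSCP.A14
import Pool.Agent.SSCP.A16
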