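import Pool.Agent.SSCP.LA1
import Pool.Agent.SSCP.A5
import Pool.Agent.SSCP.A9
import Pool.Agent.SSCP.A13
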