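import Pool.Agent.SSC3N.NuBasic
import Pool.Agent.SSC3N.GaussInt
import Pool.Agent.SSC3N.CBasic
import Pool.Agent.SSC3N.MomA
import Pool.Agent.SSC3N.MomB
import Pool.Agent.SSC3N.MomG
import Pool.Agent.SSC3N.WRep
import Pool.Agent.SSCP.K1
import Pool.Agent.SSCP.K2a
import Pool.Agent.SSCP.K2b
import Pool.Agent.SSCP.K2c
import Pool.Agent.SSCP.K2d
import Pool.Agent.SSCP.K4
import Pool.Agent.SSCP.K5
import Pool.Agent.SSCP.K8
import Pool.Agent.SSCP.K9
import Pool.Agent.SSCP.K11a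
import Pool.Agent.SSCP.K11m
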