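import Pool.Agent.SSCP.LK1b
import Pool.Agent.SSCP.K3a
import Pool.Agent.SSCP.K3b
import Pool.Agent.SSCP.K3c
import Pool.Agent.SSCP.K6a
import Pool.Agent.SSCP.K6b
import Pool.Agent.SSCP.K11b
import Pool.Agent.SSCP.K10
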