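import Pool.Agent.SSCP.Defs
import Pool.Agent.SSC3.Riesz

set_option autoImplicit false
open MeasureTheory ProbabilityTheory Set Real
open scoped ENNReal

namespace Pool.Agent.SSCP
open Pool.Agent.SSC3N
open Pool.Agent.SSC3 (ker W E2 Per len slice g2)

private theorem P1_dom (A B : Set ℝ) (hA : MeasurableSet A) (hB : MeasurableSet B)
    (hPA : Per A) (hPB : Per B) (y : ℝ) :
    SSC3.nuP A B {p | y ≤ Real.cos (p.1 - p.2)} +
        SSC3.muS (|len A - len B| / 2) {u | y ≤ Real.cos u}
      ≤ SSC3.muS ((len A + len B) / 2) {u | y ≤ Real.cos u} := by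
  have ha := SSC3.len_nn A
  have hb := SSC3.len_nn B
  have hst := SSC3.stoch_dom A B hA hB hPA hPB y
  have hs0 : 0 ≤ (len A + len B) / 2 := by positivity
  have hδ0 : 0 ≤ |len A - len B| / 2 := by positivity
  have hm1 : MeasurableSet {u : ℝ | Real.cos u < y} :=
    measurableSet_lt Real.continuous_cos.measurable measurable_const
  have hm2 : MeasurableSet {p : ℝ × ℝ | Real.cos (p.1 - p.2) < y} :=
    measurableSet_lt (by fun_prop) measurable_const
  have c1 : {u : ℝ | Real.cos u < y}ᶜ = {u : ℝ | y ≤ Real.cos u} := by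
    ext u; simp
  have c2 : {p : ℝ × ℝ | Real.cos (p.1 - p.2) < y}ᶜ = {p : ℝ × ℝ | y ≤ Real.cos (p.1 - p.2)} := by
    ext u; simp
  have f1 : SSC3.muS ((len A + len B) / 2) {u : ℝ | Real.cos u < y} +
      SSC3.muS ((len A + len B) / 2) {u : ℝ | y ≤ Real.cos u} =
      ENNReal.ofReal (((len A + len B) / 2) ^ 2) := by
    rw [← c1, measure_add_measure_compl hm1, SSC3.muS_univ _ hs0]
  have f2 : SSC3.muS (|len A - len B| / 2) {u : ℝ | Real.cos u < y} +
      SSC3.muS (|len A - len B| / 2) {u : ℝ | y ≤ Real.cos u} =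
      ENNReal.ofReal ((|len A - len B| / 2) ^ 2) := by
    rw [← c1, measure_add_measure_compl hm1, SSC3.muS_univ _ hδ0]
  have f3 : SSC3.nuP A B {p : ℝ × ℝ | Real.cos (p.1 - p.2) < y} +
      SSC3.nuP A B {p : ℝ × ℝ | y ≤ Real.cos (p.1 - p.2)} = ENNReal.ofReal (len A * len B) := by
    rw [← c2, measure_add_measure_compl hm2, SSC3.nuP_univ]
  have hsum : ((len A + len B) / 2) ^ 2 = len A * len B + (|len A - len B| / 2) ^ 2 := by
    rw [div_pow, div_pow, sq_abs]; ring
  rw [hsum, ENNReal.ofReal_add (by positivity) (by positivity), ← f2, ← f3] at f1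
  have hfin : SSC3.muS ((len A + len B) / 2) {u : ℝ | Real.cos u < y} ≠ ∞ := by
    refine ne_of_lt (lt_of_le_of_lt (measure_mono (subset_univ _)) ?_)
    rw [SSC3.muS_univ _ hs0]
    exact ENNReal.ofReal_lt_top
  refine (ENNReal.add_le_add_iff_left hfin).mp ?_
  rw [f1]
  calc SSC3.muS ((len A + len B) / 2) {u : ℝ | Real.cos u < y} +
        (SSC3.nuP A B {p : ℝ × ℝ | y ≤ Real.cos (p.1 - p.2)} +
          SSC3.muS (|len A - len B| / 2) {u : ℝ | y ≤ Real.cos u})
      ≤ (SSC3.nuP A B {p : ℝ × ℝ | Real.cos (p.1 - p.2) < y} +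
          SSC3.muS (|len A - len B| / 2) {u : ℝ | Real.cos u < y}) +
        (SSC3.nuP A B {p : ℝ × ℝ | y ≤ Real.cos (p.1 - p.2)} +
          SSC3.muS (|len A - len B| / 2) {u : ℝ | y ≤ Real.cos u}) := by gcongr
    _ = _ := by ring

private theorem P1_E2 (l : ℝ) (hl : 0 ≤ l) (A B : Set ℝ) (hA : MeasurableSet A)
    (hB : MeasurableSet B) (hPA : Per A) (hPB : Per B) :
    E2 (-l) A B + ENNReal.ofReal (W (-l) (|len A - len B| / 2)) ≤
      ENNReal.ofReal (W (-l) ((len A + len B) / 2)) := by
  have ha := SSC3.len_nn A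
  have hb := SSC3.len_nn B
  have hkm : Measurable (ker (-l)) := (SSC3.continuous_ker (-l)).measurable
  have hkm2 : Measurable (fun p : ℝ × ℝ => ker (-l) (p.1 - p.2)) := hkm.comp (by fun_prop)
  rw [SSC3.W_eq (-l) _ (by positivity), SSC3.W_eq (-l) _ (by positivity), SSC3.E2_eq]
  have hk0 : ∀ u, 0 ≤ ker (-l) u := fun u => (Real.exp_pos _).le
  rw [lintegral_eq_lintegral_meas_le (SSC3.muS ((len A + len B) / 2))
      (Filter.Eventually.of_forall hk0) hkm.aemeasurable,
    lintegral_eq_lintegral_meas_le (SSC3.muS (|len A - len B| / 2))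
      (Filter.Eventually.of_forall hk0) hkm.aemeasurable,
    lintegral_eq_lintegral_meas_le (SSC3.nuP A B)
      (f := fun p : ℝ × ℝ => ker (-l) (p.1 - p.2))
      (Filter.Eventually.of_forall (fun p => hk0 (p.1 - p.2))) hkm2.aemeasurable]
  rw [← lintegral_add_right]
  · refine setLIntegral_mono' measurableSet_Ioi ?_
    intro t ht
    simp only [mem_Ioi] at ht
    rcases eq_or_lt_of_le hl with hl0 | hl0
    · -- l = 0
      subst hl0
      have := P1_dom A B hA hB hPA hPB (if t ≤ 1 then -2 else 2)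
      rcases le_or_gt t 1 with h | h
      · rw [if_pos h] at this
        have e1 : {u : ℝ | -2 ≤ Real.cos u} = univ := by
          ext u; simp only [mem_ofPred_eq, mem_univ, iff_true]
          linarith [Real.neg_one_le_cos u]
        have e2 : {p : ℝ × ℝ | -2 ≤ Real.cos (p.1 - p.2)} = univ := by
          ext u; simp only [mem_ofPred_eq, mem_univ, iff_true]
          linarith [Real.neg_one_le_cos (u.1 - u.2)]
        have e3 : {u : ℝ | t ≤ ker (-0) u} = univ := by
          ext u; simp [ker, h]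
        have e4 : {p : ℝ × ℝ | t ≤ ker (-0) (p.1 - p.2)} = univ := by
          ext u; simp [ker, h]
        rw [e1, e2] at this
        rw [e3, e4]
        exact this
      · have e3 : {u : ℝ | t ≤ ker (-0) u} = ∅ := by
          ext u; simp [ker, h]
        have e4 : {p : ℝ × ℝ | t ≤ ker (-0) (p.1 - p.2)} = ∅ := by
          ext u; simp [ker, h]
        rw [e3, e4]; simp
    · have hiff : ∀ u : ℝ, t ≤ ker (-l) u ↔ Real.log t / l ≤ Real.cos u := by
        intro u
        unfold ker
        rw [div_le_iff₀ hl0, ← Real.log_le_iff_le_exp ht]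
        constructor <;> intro h <;> linarith
      simp only [hiff]
      exact P1_dom A B hA hB hPA hPB _
  · apply Antitone.measurable
    intro t t' htt
    apply measure_mono
    intro u hu
    exact le_trans htt hu

private theorem P1_W_nn (l s : ℝ) (hs : 0 ≤ s) : 0 ≤ W l s := by
  unfold W
  refine mul_nonneg (by norm_num) ?_
  refine intervalIntegral.integral_nonneg hs ?_
  intro u hu
  exact mul_nonneg (by linarith [hu.2]) (Real.exp_pos _).le

/-- [P1] -/
theorem e_up (l : ℝ) (hl : 0 ≤ l) (A B : Set ℝ) (hA : MeasurableSet A) (hB : MeasurableSet B)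
    (hPA : Per A) (hPB : Per B) :
    (E2 (-l) A B).toReal ≤ W (-l) ((len A + len B) / 2) - W (-l) (|len A - len B| / 2) := by
  have ha := SSC3.len_nn A
  have hb := SSC3.len_nn B
  have h := P1_E2 l hl A B hA hB hPA hPB
  have h1 := P1_W_nn (-l) (|len A - len B| / 2) (by positivity)
  have h2 := P1_W_nn (-l) ((len A + len B) / 2) (by positivity)
  have hfin : E2 (-l) A B ≠ ∞ := by
    refine ne_of_lt (lt_of_le_of_lt (le_trans le_self_add h) ?_)
    exact ENNReal.ofReal_lt_top
  have h3 := ENNReal.toReal_mono ENNReal.ofReal_ne_top h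
  rw [ENNReal.toReal_add hfin ENNReal.ofReal_ne_top, ENNReal.toReal_ofReal h1,
    ENNReal.toReal_ofReal h2] at h3
  linarith

end Pool.Agent.SSCP
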