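import Pool.Agent.SSCP.Defs
import Pool.Agent.SSC3.Polar

/-! Row P4: polar coordinates for the noise stability of functions. -/

set_option autoImplicit false
open MeasureTheory ProbabilityTheory Set Real
open scoped ENNReal NNReal

namespace Pool.Agent.SSCP
open Pool.Agent.SSC3N
open Pool.Agent.SSC3 (ker W E2 Per len slice g2)

/-- a planar function in polar coordinates. -/
private noncomputable def p4_pl (G : (Fin 2 → ℝ) → ℝ≥0∞) (q : ℝ × ℝ) : ℝ≥0∞ :=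
  G ![q.1 * Real.cos q.2, q.1 * Real.sin q.2]

private theorem p4_pl_meas {G : (Fin 2 → ℝ) → ℝ≥0∞} (hG : Measurable G) : Measurable (p4_pl G) :=
  hG.comp Pool.Agent.SSC3.measurable_pt

/-- angular energy -/
private noncomputable def p4_E (l : ℝ) (G H : (Fin 2 → ℝ) → ℝ≥0∞) (r s : ℝ) : ℝ≥0∞ :=
  ∫⁻ θ in Ioo (-π) π, ∫⁻ φ in Ioo (-π) π,
        p4_pl G (r, θ) * (p4_pl H (s, φ) * ENNReal.ofReal (ker l (θ - φ)))

private theorem p4_E_meas (m : ℝ) (G H : (Fin 2 → ℝ) → ℝ≥0∞)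
    (hG : Measurable G) (hH : Measurable H) :
    Measurable (fun p : ℝ × ℝ => p4_E (m * p.1 * p.2) G H p.1 p.2) := by
  have mA := p4_pl_meas hG
  have mB := p4_pl_meas hH
  have h2 : Measurable (fun q : (ℝ × ℝ) × ℝ => ∫⁻ φ in Ioo (-π) π,
        p4_pl G (q.1.1, q.2) * (p4_pl H (q.1.2, φ) *
          ENNReal.ofReal (ker (m * q.1.1 * q.1.2) (q.2 - φ)))) := by
    apply Measurable.lintegral_prod_right' (f := fun z : ((ℝ × ℝ) × ℝ) × ℝ =>
      p4_pl G (z.1.1.1, z.1.2) * (p4_pl H (z.1.1.2, z.2) *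
          ENNReal.ofReal (ker (m * z.1.1.1 * z.1.1.2) (z.1.2 - z.2))))
    unfold ker
    fun_prop
  exact Measurable.lintegral_prod_right' (f := fun q : (ℝ × ℝ) × ℝ => ∫⁻ φ in Ioo (-π) π,
        p4_pl G (q.1.1, q.2) * (p4_pl H (q.1.2, φ) *
          ENNReal.ofReal (ker (m * q.1.1 * q.1.2) (q.2 - φ)))) h2

private theorem p4_shift (ρ : ℝ) (v : ℝ≥0) (hv : (v : ℝ) = 1 - ρ ^ 2) (x : Fin 2 → ℝ)
    (H : (Fin 2 → ℝ) → ℝ≥0∞) (hH : Measurable H) :
    ∫⁻ z, H (ρ • x + Real.sqrt (1 - ρ ^ 2) • z) ∂g2 =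
      ∫⁻ y, H y ∂(Measure.pi (fun i : Fin 2 => gaussianReal (ρ * x i) v)) := by
  have hm : Measurable (fun z : Fin 2 → ℝ => ρ • x + Real.sqrt (1 - ρ ^ 2) • z) := by fun_prop
  have e : g2.map (fun z : Fin 2 → ℝ => ρ • x + Real.sqrt (1 - ρ ^ 2) • z) =
      Measure.pi (fun i : Fin 2 => gaussianReal (ρ * x i) v) := by
    refine Measure.ext fun B hB => ?_
    rw [Measure.map_apply hm hB]
    exact Pool.Agent.SSC3.pi_shift ρ v hv x B hB
  rw [← e, lintegral_map hH hm]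

/-- the common integrand -/
private noncomputable def p4_T (ρ : ℝ) (G H : (Fin 2 → ℝ) → ℝ≥0∞) (r s θ φ : ℝ) : ℝ≥0∞ :=
  ENNReal.ofReal (1 / (4 * π ^ 2 * (1 - ρ ^ 2))) *
    (ENNReal.ofReal (r * s * Real.exp (-(1 / (2 * (1 - ρ ^ 2)) * (r ^ 2 + s ^ 2)))) *
      (p4_pl G (r, θ) * (p4_pl H (s, φ) *
        ENNReal.ofReal (ker (-ρ / (1 - ρ ^ 2) * r * s) (θ - φ)))))

private theorem p4_polar (ρ : ℝ) (h1 : -1 < ρ) (h2 : ρ < 1) (G H : (Fin 2 → ℝ) → ℝ≥0∞)
    (hG : Measurable G) (hH : Measurable H) :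
    ∫⁻ x, ∫⁻ z, G x * H (ρ • x + Real.sqrt (1 - ρ ^ 2) • z) ∂g2 ∂g2
      = ENNReal.ofReal (1 / (4 * π ^ 2 * (1 - ρ ^ 2))) *
        ∫⁻ p in Ioi (0:ℝ) ×ˢ Ioi (0:ℝ),
          ENNReal.ofReal (p.1 * p.2 * Real.exp (-(1 / (2 * (1 - ρ ^ 2)) * (p.1 ^ 2 + p.2 ^ 2)))) *
          p4_E (-ρ / (1 - ρ ^ 2) * p.1 * p.2) G H p.1 p.2 := by
  have hden : 0 < 1 - ρ ^ 2 := by nlinarith
  obtain ⟨v, hv⟩ : ∃ v : ℝ≥0, (v : ℝ) = 1 - ρ ^ 2 := ⟨⟨1 - ρ ^ 2, hden.le⟩, rfl⟩
  have hv0 : v ≠ 0 := by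
    rintro rfl
    rw [NNReal.coe_zero] at hv
    linarith
  have mA := p4_pl_meas hG
  have mB := p4_pl_meas hH
  -- right-hand side
  have hR : ENNReal.ofReal (1 / (4 * π ^ 2 * (1 - ρ ^ 2))) *
        ∫⁻ p in Ioi (0:ℝ) ×ˢ Ioi (0:ℝ),
          ENNReal.ofReal (p.1 * p.2 * Real.exp (-(1 / (2 * (1 - ρ ^ 2)) * (p.1 ^ 2 + p.2 ^ 2)))) *
          p4_E (-ρ / (1 - ρ ^ 2) * p.1 * p.2) G H p.1 p.2 =
      ∫⁻ r in Ioi (0:ℝ), ∫⁻ s in Ioi (0:ℝ), ∫⁻ θ in Ioo (-π) π, ∫⁻ φ in Ioo (-π) π,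
        p4_T ρ G H r s θ φ := by
    have mE := p4_E_meas (-ρ / (1 - ρ ^ 2)) G H hG hH
    have m1 : Measurable (fun p : ℝ × ℝ =>
        ENNReal.ofReal (p.1 * p.2 * Real.exp (-(1 / (2 * (1 - ρ ^ 2)) * (p.1 ^ 2 + p.2 ^ 2)))) *
          p4_E (-ρ / (1 - ρ ^ 2) * p.1 * p.2) G H p.1 p.2) := by
      refine Measurable.mul ?_ mE
      fun_prop
    rw [← lintegral_const_mul _ m1, Measure.volume_eq_prod,
      setLIntegral_prod _ (m1.const_mul _).aemeasurable]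
    refine lintegral_congr fun r => lintegral_congr fun s => ?_
    unfold p4_E
    have m2 : Measurable (fun q : ℝ × ℝ => p4_pl G (r, q.1) * (p4_pl H (s, q.2) *
        ENNReal.ofReal (ker (-ρ / (1 - ρ ^ 2) * r * s) (q.1 - q.2)))) := by
      unfold ker
      fun_prop
    have m3 : Measurable (fun θ : ℝ => ∫⁻ φ in Ioo (-π) π, p4_pl G (r, θ) * (p4_pl H (s, φ) *
        ENNReal.ofReal (ker (-ρ / (1 - ρ ^ 2) * r * s) (θ - φ)))) :=
      Measurable.lintegral_prod_right' (f := fun q : ℝ × ℝ => p4_pl G (r, q.1) * (p4_pl H (s, q.2) *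
        ENNReal.ofReal (ker (-ρ / (1 - ρ ^ 2) * r * s) (q.1 - q.2)))) m2
    rw [← lintegral_const_mul _ m3, ← lintegral_const_mul _ (m3.const_mul _)]
    refine lintegral_congr fun θ => ?_
    have m4 : Measurable (fun φ : ℝ => p4_pl G (r, θ) * (p4_pl H (s, φ) *
        ENNReal.ofReal (ker (-ρ / (1 - ρ ^ 2) * r * s) (θ - φ)))) := by
      unfold ker
      fun_prop
    rw [← lintegral_const_mul _ m4, ← lintegral_const_mul _ (m4.const_mul _)]
    rfl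
  rw [hR]
  -- left-hand side
  set K : (Fin 2 → ℝ) → ℝ≥0∞ := fun x => ∫⁻ s in Ioi (0:ℝ), ∫⁻ φ in Ioo (-π) π,
        ENNReal.ofReal s * ((gaussianPDF (ρ * x 0) v (s * Real.cos φ) *
          gaussianPDF (ρ * x 1) v (s * Real.sin φ)) * p4_pl H (s, φ)) with hK
  have hx : ∀ x : Fin 2 → ℝ, ∫⁻ z, G x * H (ρ • x + Real.sqrt (1 - ρ ^ 2) • z) ∂g2 =
      G x * K x := by
    intro x
    have m0 : Measurable (fun z : Fin 2 → ℝ => H (ρ • x + Real.sqrt (1 - ρ ^ 2) • z)) :=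
      hH.comp (by fun_prop : Measurable (fun z : Fin 2 → ℝ => ρ • x + Real.sqrt (1 - ρ ^ 2) • z))
    rw [lintegral_const_mul _ m0]
    congr 1
    rw [p4_shift ρ v hv x H hH]
    exact Pool.Agent.SSC3.gauss_polar H hH (fun i => ρ * x i) v hv0
  simp_rw [hx]
  have mK : Measurable K := by
    have m1 : Measurable (fun q : ((Fin 2 → ℝ) × ℝ) × ℝ =>
        ENNReal.ofReal q.1.2 * ((gaussianPDF (ρ * q.1.1 0) v (q.1.2 * Real.cos q.2) *
          gaussianPDF (ρ * q.1.1 1) v (q.1.2 * Real.sin q.2)) * p4_pl H (q.1.2, q.2))) := by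
      unfold gaussianPDF gaussianPDFReal
      fun_prop
    have m2 : Measurable (fun q : (Fin 2 → ℝ) × ℝ => ∫⁻ φ in Ioo (-π) π,
        ENNReal.ofReal q.2 * ((gaussianPDF (ρ * q.1 0) v (q.2 * Real.cos φ) *
          gaussianPDF (ρ * q.1 1) v (q.2 * Real.sin φ)) * p4_pl H (q.2, φ))) :=
      Measurable.lintegral_prod_right' (f := fun q : ((Fin 2 → ℝ) × ℝ) × ℝ =>
        ENNReal.ofReal q.1.2 * ((gaussianPDF (ρ * q.1.1 0) v (q.1.2 * Real.cos q.2) *
          gaussianPDF (ρ * q.1.1 1) v (q.1.2 * Real.sin q.2)) * p4_pl H (q.1.2, q.2))) m1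
    exact Measurable.lintegral_prod_right' (f := fun q : (Fin 2 → ℝ) × ℝ => ∫⁻ φ in Ioo (-π) π,
        ENNReal.ofReal q.2 * ((gaussianPDF (ρ * q.1 0) v (q.2 * Real.cos φ) *
          gaussianPDF (ρ * q.1 1) v (q.2 * Real.sin φ)) * p4_pl H (q.2, φ))) m2
  have hL := Pool.Agent.SSC3.gauss_polar (fun x => G x * K x)
    (hG.mul mK) (fun _ => 0) 1 one_ne_zero
  refine Eq.trans hL ?_
  refine setLIntegral_congr_fun measurableSet_Ioi fun r hr => ?_
  rw [mem_Ioi] at hr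
  have mT : Measurable (fun q : (ℝ × ℝ) × ℝ => p4_T ρ G H r q.1.1 q.1.2 q.2) := by
    unfold p4_T ker
    fun_prop
  have e2 : ∀ θ : ℝ, ENNReal.ofReal r * ((gaussianPDF 0 1 (r * Real.cos θ) *
          gaussianPDF 0 1 (r * Real.sin θ)) *
          (G ![r * Real.cos θ, r * Real.sin θ] *
            K ![r * Real.cos θ, r * Real.sin θ])) =
      ∫⁻ s in Ioi (0:ℝ), ∫⁻ φ in Ioo (-π) π, p4_T ρ G H r s θ φ := by
    intro θ
    have m1 : Measurable (fun q : ℝ × ℝ =>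
        ENNReal.ofReal q.1 * ((gaussianPDF (ρ * (r * Real.cos θ)) v (q.1 * Real.cos q.2) *
          gaussianPDF (ρ * (r * Real.sin θ)) v (q.1 * Real.sin q.2)) * p4_pl H (q.1, q.2))) := by
      fun_prop
    have m2 : Measurable (fun s : ℝ => ∫⁻ φ in Ioo (-π) π,
        ENNReal.ofReal s * ((gaussianPDF (ρ * (r * Real.cos θ)) v (s * Real.cos φ) *
          gaussianPDF (ρ * (r * Real.sin θ)) v (s * Real.sin φ)) * p4_pl H (s, φ))) :=
      Measurable.lintegral_prod_right' (f := fun q : ℝ × ℝ =>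
        ENNReal.ofReal q.1 * ((gaussianPDF (ρ * (r * Real.cos θ)) v (q.1 * Real.cos q.2) *
          gaussianPDF (ρ * (r * Real.sin θ)) v (q.1 * Real.sin q.2)) * p4_pl H (q.1, q.2))) m1
    have e3 : K ![r * Real.cos θ, r * Real.sin θ] = ∫⁻ s in Ioi (0:ℝ), ∫⁻ φ in Ioo (-π) π,
        ENNReal.ofReal s * ((gaussianPDF (ρ * (r * Real.cos θ)) v (s * Real.cos φ) *
          gaussianPDF (ρ * (r * Real.sin θ)) v (s * Real.sin φ)) * p4_pl H (s, φ)) := rfl
    have e4 : G ![r * Real.cos θ, r * Real.sin θ] = p4_pl G (r, θ) := rfl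
    rw [e3, e4, ← lintegral_const_mul _ m2, ← lintegral_const_mul _ (m2.const_mul _),
      ← lintegral_const_mul _ ((m2.const_mul _).const_mul _)]
    refine setLIntegral_congr_fun measurableSet_Ioi fun s hs => ?_
    rw [mem_Ioi] at hs
    have m3 : Measurable (fun φ : ℝ =>
        ENNReal.ofReal s * ((gaussianPDF (ρ * (r * Real.cos θ)) v (s * Real.cos φ) *
          gaussianPDF (ρ * (r * Real.sin θ)) v (s * Real.sin φ)) * p4_pl H (s, φ))) := by
      fun_prop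
    rw [← lintegral_const_mul _ m3, ← lintegral_const_mul _ (m3.const_mul _),
      ← lintegral_const_mul _ ((m3.const_mul _).const_mul _)]
    refine lintegral_congr fun φ => ?_
    have hd := Pool.Agent.SSC3.density ρ h1 h2 v hv r s θ φ hr hs
    unfold p4_T
    calc _ = (ENNReal.ofReal r * (gaussianPDF 0 1 (r * Real.cos θ) *
            gaussianPDF 0 1 (r * Real.sin θ)) *
        (ENNReal.ofReal s * (gaussianPDF (ρ * (r * Real.cos θ)) v (s * Real.cos φ) *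
        gaussianPDF (ρ * (r * Real.sin θ)) v (s * Real.sin φ)))) * (p4_pl G (r, θ) * p4_pl H (s, φ)) := by
          ring
      _ = _ := by
          rw [hd]
          ring
  have e5 : ∫⁻ θ in Ioo (-π) π, (ENNReal.ofReal r * ((gaussianPDF 0 1 (r * Real.cos θ) *
          gaussianPDF 0 1 (r * Real.sin θ)) *
          (G ![r * Real.cos θ, r * Real.sin θ] *
            K ![r * Real.cos θ, r * Real.sin θ]))) =
      ∫⁻ θ in Ioo (-π) π, ∫⁻ s in Ioi (0:ℝ), ∫⁻ φ in Ioo (-π) π, p4_T ρ G H r s θ φ :=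
    lintegral_congr e2
  refine Eq.trans e5 ?_
  rw [lintegral_lintegral_swap]
  apply Measurable.aemeasurable
  have m5 : Measurable (fun q : (ℝ × ℝ) × ℝ => p4_T ρ G H r q.1.2 q.1.1 q.2) :=
    mT.comp ((measurable_fst.snd.prodMk measurable_fst.fst).prodMk measurable_snd)
  exact Measurable.lintegral_prod_right' (f := fun q : (ℝ × ℝ) × ℝ => p4_T ρ G H r q.1.2 q.1.1 q.2) m5

private theorem p4_lint_nu (f : ℝ → ℝ≥0∞) (hf : Measurable f) :
    ∫⁻ u, f u ∂nu = ∫⁻ u in Ioi (0:ℝ), ENNReal.ofReal (u * Real.exp (-(u ^ 2 / 2))) * f u := by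
  unfold nu
  rw [lintegral_withDensity_eq_lintegral_mul _ (by fun_prop) hf]
  rfl

private theorem p4_scale (κ : ℝ) (hκ : 0 < κ) (f : ℝ → ℝ≥0∞) (hf : Measurable f) :
    ∫⁻ r in Ioi (0:ℝ), f r = ENNReal.ofReal κ * ∫⁻ u in Ioi (0:ℝ), f (κ * u) := by
  rw [← lintegral_indicator measurableSet_Ioi, ← lintegral_indicator measurableSet_Ioi]
  conv_lhs => rw [← Real.smul_map_volume_mul_left hκ.ne']
  rw [lintegral_smul_measure, lintegral_map (hf.indicator measurableSet_Ioi) (by fun_prop),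
    abs_of_pos hκ, smul_eq_mul]
  congr 1
  apply lintegral_congr
  intro u
  by_cases hu : 0 < u
  · rw [indicator_of_mem (show κ * u ∈ Ioi (0:ℝ) from mul_pos hκ hu),
      indicator_of_mem (show u ∈ Ioi (0:ℝ) from hu)]
  · rw [indicator_of_notMem, indicator_of_notMem]
    · exact hu
    · intro h
      exact hu (pos_of_mul_pos_right h hκ.le)

/-- the angular energy of bounded functions is finite and is `Ef` -/
private theorem p4_E_toReal (l : ℝ) (G H : (Fin 2 → ℝ) → ℝ) (hG : Measurable G)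
    (hH : Measurable H) (hG0 : ∀ x, 0 ≤ G x) (hG1 : ∀ x, G x ≤ 1) (hH0 : ∀ x, 0 ≤ H x)
    (hH1 : ∀ x, H x ≤ 1) (r s : ℝ) :
    p4_E (-l) (fun x => ENNReal.ofReal (G x)) (fun x => ENNReal.ofReal (H x)) r s < ⊤ ∧
    (p4_E (-l) (fun x => ENNReal.ofReal (G x)) (fun x => ENNReal.ofReal (H x)) r s).toReal =
      Ef l (cir G r) (cir H s) := by
  have hv : volume (Ioo (-π) π) < ⊤ := by
    rw [Real.volume_Ioo]
    exact ENNReal.ofReal_lt_top
  have mcG : Measurable (cir G r) := by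
    have : Measurable (fun θ : ℝ => (![r * Real.cos θ, r * Real.sin θ] : Fin 2 → ℝ)) :=
      Pool.Agent.SSC3.measurable_pt.comp (measurable_const.prodMk measurable_id)
    exact hG.comp this
  have mcH : Measurable (cir H s) := by
    have : Measurable (fun θ : ℝ => (![s * Real.cos θ, s * Real.sin θ] : Fin 2 → ℝ)) :=
      Pool.Agent.SSC3.measurable_pt.comp (measurable_const.prodMk measurable_id)
    exact hH.comp this
  have e0 : ∀ θ φ : ℝ, p4_pl (fun x => ENNReal.ofReal (G x)) (r, θ) *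
      (p4_pl (fun x => ENNReal.ofReal (H x)) (s, φ) * ENNReal.ofReal (ker (-l) (θ - φ))) =
      ENNReal.ofReal (cir G r θ * cir H s φ * Real.exp (l * Real.cos (θ - φ))) := by
    intro θ φ
    unfold p4_pl cir ker
    rw [← ENNReal.ofReal_mul (hH0 _), ← ENNReal.ofReal_mul (hG0 _)]
    congr 1
    rw [neg_mul, neg_neg]
    ring
  have hb : ∀ θ φ : ℝ, cir G r θ * cir H s φ * Real.exp (l * Real.cos (θ - φ)) ≤
      Real.exp |l| := by
    intro θ φ
    have a1 : cir G r θ * cir H s φ ≤ 1 := mul_le_one₀ (hG1 _) (hH0 _) (hH1 _)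
    have a2 : Real.exp (l * Real.cos (θ - φ)) ≤ Real.exp |l| := by
      apply Real.exp_le_exp.mpr
      have h3 : |l * Real.cos (θ - φ)| ≤ |l| := by
        rw [abs_mul]
        exact mul_le_of_le_one_right (abs_nonneg _) (Real.abs_cos_le_one _)
      exact (le_abs_self _).trans h3
    calc _ ≤ 1 * Real.exp (l * Real.cos (θ - φ)) :=
          mul_le_mul_of_nonneg_right a1 (Real.exp_pos _).le
      _ ≤ _ := by rw [one_mul]; exact a2
  have h0 : ∀ θ φ : ℝ, 0 ≤ cir G r θ * cir H s φ * Real.exp (l * Real.cos (θ - φ)) := by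
    intro θ φ
    exact mul_nonneg (mul_nonneg (hG0 _) (hH0 _)) (Real.exp_pos _).le
  have mm : Measurable (fun q : ℝ × ℝ => cir G r q.1 * cir H s q.2 *
      Real.exp (l * Real.cos (q.1 - q.2))) := by
    fun_prop
  have hin : ∀ θ : ℝ, ∫⁻ φ in Ioo (-π) π,
      ENNReal.ofReal (cir G r θ * cir H s φ * Real.exp (l * Real.cos (θ - φ))) ≤
      ENNReal.ofReal (Real.exp |l|) * volume (Ioo (-π) π) := by
    intro θ
    calc _ ≤ ∫⁻ _φ in Ioo (-π) π, ENNReal.ofReal (Real.exp |l|) :=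
          lintegral_mono fun φ => ENNReal.ofReal_le_ofReal (hb θ φ)
      _ = _ := by simp only [lintegral_const, Measure.restrict_apply_univ]
  have hin' : ∀ θ : ℝ, ∫⁻ φ in Ioo (-π) π,
      ENNReal.ofReal (cir G r θ * cir H s φ * Real.exp (l * Real.cos (θ - φ))) < ⊤ := fun θ =>
    (hin θ).trans_lt (ENNReal.mul_lt_top ENNReal.ofReal_lt_top hv)
  have eE : p4_E (-l) (fun x => ENNReal.ofReal (G x)) (fun x => ENNReal.ofReal (H x)) r s =
      ∫⁻ θ in Ioo (-π) π, ∫⁻ φ in Ioo (-π) π,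
        ENNReal.ofReal (cir G r θ * cir H s φ * Real.exp (l * Real.cos (θ - φ))) := by
    unfold p4_E
    simp only [e0]
  have hfin : ∫⁻ θ in Ioo (-π) π, ∫⁻ φ in Ioo (-π) π,
        ENNReal.ofReal (cir G r θ * cir H s φ * Real.exp (l * Real.cos (θ - φ))) < ⊤ := by
    calc _ ≤ ∫⁻ _θ in Ioo (-π) π, ENNReal.ofReal (Real.exp |l|) * volume (Ioo (-π) π) :=
          lintegral_mono fun θ => hin θ
      _ = ENNReal.ofReal (Real.exp |l|) * volume (Ioo (-π) π) * volume (Ioo (-π) π) := by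
          simp only [lintegral_const, Measure.restrict_apply_univ]
      _ < ⊤ := ENNReal.mul_lt_top (ENNReal.mul_lt_top ENNReal.ofReal_lt_top hv) hv
  refine ⟨by rw [eE]; exact hfin, ?_⟩
  rw [eE]
  unfold Ef
  have mI : Measurable (fun θ : ℝ => ∫⁻ φ in Ioo (-π) π,
        ENNReal.ofReal (cir G r θ * cir H s φ * Real.exp (l * Real.cos (θ - φ)))) :=
    Measurable.lintegral_prod_right' (f := fun q : ℝ × ℝ => ENNReal.ofReal (cir G r q.1 *
      cir H s q.2 * Real.exp (l * Real.cos (q.1 - q.2)))) mm.ennreal_ofReal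
  rw [← integral_toReal mI.aemeasurable (Filter.Eventually.of_forall hin')]
  refine integral_congr_ae (Filter.Eventually.of_forall fun θ => ?_)
  simp only
  rw [integral_eq_lintegral_of_nonneg_ae (Filter.Eventually.of_forall fun φ => h0 θ φ)]
  exact (mm.comp (measurable_const.prodMk measurable_id)).aestronglyMeasurable

/-- [P4] polar coordinates for functions. -/
theorem polarF (ρ : ℝ) (h0 : 0 ≤ ρ) (h1 : ρ < 1) (G H : (Fin 2 → ℝ) → ℝ) (hG : Measurable G)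
    (hH : Measurable H) (hG0 : ∀ x, 0 ≤ G x) (hG1 : ∀ x, G x ≤ 1) (hH0 : ∀ x, 0 ≤ H x)
    (hH1 : ∀ x, H x ≤ 1) :
    GG ρ G H = (1 - ρ ^ 2) * ∫ u, ∫ v, Ef (ρ * u * v) (cir G (Real.sqrt (1 - ρ ^ 2) * u))
      (cir H (Real.sqrt (1 - ρ ^ 2) * v)) / (2 * π) ^ 2 ∂nu ∂nu := by
  have hp : 0 < 1 - ρ ^ 2 := by nlinarith
  have hsf : SFinite nu := by unfold nu; infer_instance
  set κ := Real.sqrt (1 - ρ ^ 2) with hκdef
  have hκ : 0 < κ := Real.sqrt_pos.mpr hp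
  have hκ2 : κ ^ 2 = 1 - ρ ^ 2 := Real.sq_sqrt hp.le
  set G' : (Fin 2 → ℝ) → ℝ≥0∞ := fun x => ENNReal.ofReal (G x) with hG'
  set H' : (Fin 2 → ℝ) → ℝ≥0∞ := fun x => ENNReal.ofReal (H x) with hH'
  have mG' : Measurable G' := hG.ennreal_ofReal
  have mH' : Measurable H' := hH.ennreal_ofReal
  set h : ℝ → ℝ → ℝ≥0∞ := fun u v => ENNReal.ofReal (1 / (2 * π) ^ 2) *
    p4_E (-(ρ * u * v)) G' H' (κ * u) (κ * v) with hh
  have hE : ∀ u v : ℝ, p4_E (-ρ / (1 - ρ ^ 2) * (κ * u) * (κ * v)) G' H' (κ * u) (κ * v) =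
      p4_E (-(ρ * u * v)) G' H' (κ * u) (κ * v) := by
    intro u v
    congr 1
    rw [← hκ2]
    field_simp
  -- measurability
  have mE0 := p4_E_meas (-ρ / (1 - ρ ^ 2)) G' H' mG' mH'
  have mE : Measurable (fun p : ℝ × ℝ =>
      p4_E (-(ρ * p.1 * p.2)) G' H' (κ * p.1) (κ * p.2)) := by
    have m1 : Measurable (fun p : ℝ × ℝ => ((κ * p.1, κ * p.2) : ℝ × ℝ)) := by fun_prop
    have m2 := mE0.comp m1
    have m3 : (fun p : ℝ × ℝ => p4_E (-(ρ * p.1 * p.2)) G' H' (κ * p.1) (κ * p.2)) =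
        (fun p : ℝ × ℝ => p4_E (-ρ / (1 - ρ ^ 2) * p.1 * p.2) G' H' p.1 p.2) ∘
          (fun p : ℝ × ℝ => ((κ * p.1, κ * p.2) : ℝ × ℝ)) := by
      funext p
      exact (hE p.1 p.2).symm
    rw [m3]
    exact m2
  have mh : Measurable (fun p : ℝ × ℝ => h p.1 p.2) := mE.const_mul _
  have mh1 : ∀ u, Measurable (h u) := fun u => mh.comp (measurable_const.prodMk measurable_id)
  have mH : Measurable (fun u => ∫⁻ v, h u v ∂nu) :=
    Measurable.lintegral_prod_right' (f := fun p : ℝ × ℝ => h p.1 p.2) mh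
  -- the identity in `ℝ≥0∞`
  have key : ∫⁻ x, ∫⁻ z, G' x * H' (ρ • x + Real.sqrt (1 - ρ ^ 2) • z) ∂g2 ∂g2 =
      ENNReal.ofReal (1 - ρ ^ 2) * ∫⁻ u, ∫⁻ v, h u v ∂nu ∂nu := by
    rw [p4_polar ρ (by linarith) h1 G' H' mG' mH']
    have mG : Measurable (fun p : ℝ × ℝ =>
        ENNReal.ofReal (p.1 * p.2 * Real.exp (-(1 / (2 * (1 - ρ ^ 2)) * (p.1 ^ 2 + p.2 ^ 2)))) *
          p4_E (-ρ / (1 - ρ ^ 2) * p.1 * p.2) G' H' p.1 p.2) := by
      refine Measurable.mul ?_ mE0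
      fun_prop
    rw [Measure.volume_eq_prod, setLIntegral_prod _ mG.aemeasurable]
    have mG1 : Measurable (fun r : ℝ => ∫⁻ s in Ioi (0:ℝ),
        ENNReal.ofReal (r * s * Real.exp (-(1 / (2 * (1 - ρ ^ 2)) * (r ^ 2 + s ^ 2)))) *
          p4_E (-ρ / (1 - ρ ^ 2) * r * s) G' H' r s) :=
      Measurable.lintegral_prod_right' (f := fun p : ℝ × ℝ =>
        ENNReal.ofReal (p.1 * p.2 * Real.exp (-(1 / (2 * (1 - ρ ^ 2)) * (p.1 ^ 2 + p.2 ^ 2)))) *
          p4_E (-ρ / (1 - ρ ^ 2) * p.1 * p.2) G' H' p.1 p.2) mG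
    rw [p4_scale κ hκ _ mG1]
    have c1 : ENNReal.ofReal (1 / (4 * π ^ 2 * (1 - ρ ^ 2))) * ENNReal.ofReal κ ≠ ⊤ :=
      ENNReal.mul_ne_top ENNReal.ofReal_ne_top ENNReal.ofReal_ne_top
    have c2 : ENNReal.ofReal (1 - ρ ^ 2) ≠ ⊤ := ENNReal.ofReal_ne_top
    rw [p4_lint_nu _ mH, ← mul_assoc, ← lintegral_const_mul' _ _ c1,
      ← lintegral_const_mul' _ _ c2]
    refine setLIntegral_congr_fun measurableSet_Ioi fun u hu => ?_
    rw [mem_Ioi] at hu
    have mG2 : Measurable (fun s : ℝ =>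
        ENNReal.ofReal (κ * u * s * Real.exp (-(1 / (2 * (1 - ρ ^ 2)) * ((κ * u) ^ 2 + s ^ 2)))) *
          p4_E (-ρ / (1 - ρ ^ 2) * (κ * u) * s) G' H' (κ * u) s) :=
      mG.comp (measurable_const.prodMk measurable_id)
    have c3 := ENNReal.mul_ne_top c1 (ENNReal.ofReal_ne_top (r := κ))
    have c4 := ENNReal.mul_ne_top c2 (ENNReal.ofReal_ne_top (r := u * Real.exp (-(u ^ 2 / 2))))
    rw [p4_scale κ hκ _ mG2, p4_lint_nu _ (mh1 u),
      ← mul_assoc (ENNReal.ofReal (1 / (4 * π ^ 2 * (1 - ρ ^ 2))) * ENNReal.ofReal κ)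
        (ENNReal.ofReal κ),
      ← mul_assoc (ENNReal.ofReal (1 - ρ ^ 2)), ← lintegral_const_mul' _ _ c3,
      ← lintegral_const_mul' _ _ c4]
    refine setLIntegral_congr_fun measurableSet_Ioi fun v hv => ?_
    rw [mem_Ioi] at hv
    simp only [hh]
    rw [hE]
    have e2 : ENNReal.ofReal (1 / (4 * π ^ 2 * (1 - ρ ^ 2))) * ENNReal.ofReal κ *
        ENNReal.ofReal κ * ENNReal.ofReal (κ * u * (κ * v) *
          Real.exp (-(1 / (2 * (1 - ρ ^ 2)) * ((κ * u) ^ 2 + (κ * v) ^ 2)))) =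
        ENNReal.ofReal (1 - ρ ^ 2) * ENNReal.ofReal (u * Real.exp (-(u ^ 2 / 2))) *
          ENNReal.ofReal (v * Real.exp (-(v ^ 2 / 2))) * ENNReal.ofReal (1 / (2 * π) ^ 2) := by
      have p1 : 0 < Real.exp (-(u ^ 2 / 2)) := Real.exp_pos _
      have p2 : 0 < Real.exp (-(v ^ 2 / 2)) := Real.exp_pos _
      rw [← hκ2]
      rw [← ENNReal.ofReal_mul (by positivity), ← ENNReal.ofReal_mul (by positivity),
        ← ENNReal.ofReal_mul (by positivity), ← ENNReal.ofReal_mul (by positivity),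
        ← ENNReal.ofReal_mul (by positivity), ← ENNReal.ofReal_mul (by positivity)]
      congr 1
      have e3 : Real.exp (-(1 / (2 * κ ^ 2) * ((κ * u) ^ 2 + (κ * v) ^ 2))) =
          Real.exp (-(u ^ 2 / 2)) * Real.exp (-(v ^ 2 / 2)) := by
        rw [← Real.exp_add]
        congr 1
        field_simp
        ring
      rw [e3]
      field_simp
      ring
    calc _ = (ENNReal.ofReal (1 / (4 * π ^ 2 * (1 - ρ ^ 2))) * ENNReal.ofReal κ *
        ENNReal.ofReal κ * ENNReal.ofReal (κ * u * (κ * v) *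
          Real.exp (-(1 / (2 * (1 - ρ ^ 2)) * ((κ * u) ^ 2 + (κ * v) ^ 2))))) *
          p4_E (-(ρ * u * v)) G' H' (κ * u) (κ * v) := by ring
      _ = _ := by
        rw [e2]
        ring
  -- finiteness
  have hprob : IsProbabilityMeasure g2 := by
    unfold g2
    infer_instance
  have hin1 : ∀ x, ∫⁻ z, G' x * H' (ρ • x + Real.sqrt (1 - ρ ^ 2) • z) ∂g2 ≤ 1 := by
    intro x
    calc _ ≤ ∫⁻ _z, (1 : ℝ≥0∞) ∂g2 := lintegral_mono fun z => by
          have a1 : G' x ≤ 1 := ENNReal.ofReal_le_one.mpr (hG1 x)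
          have a2 : H' (ρ • x + Real.sqrt (1 - ρ ^ 2) • z) ≤ 1 := ENNReal.ofReal_le_one.mpr (hH1 _)
          exact mul_le_one' a1 a2
      _ = 1 := by simp
  have hfin : ∫⁻ x, ∫⁻ z, G' x * H' (ρ • x + Real.sqrt (1 - ρ ^ 2) • z) ∂g2 ∂g2 ≠ ⊤ := by
    refine ne_top_of_le_ne_top ENNReal.one_ne_top ?_
    calc _ ≤ ∫⁻ _x, (1 : ℝ≥0∞) ∂g2 := lintegral_mono fun x => hin1 x
      _ = 1 := by simp
  have hI : ∫⁻ u, ∫⁻ v, h u v ∂nu ∂nu ≠ ⊤ := by
    intro htop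
    rw [key, htop] at hfin
    apply hfin
    apply ENNReal.mul_top
    rw [Ne, ENNReal.ofReal_eq_zero]
    linarith
  have hae : ∀ᵐ u ∂nu, ∫⁻ v, h u v ∂nu < ⊤ := ae_lt_top mH hI
  -- left side
  have hLHS : GG ρ G H = (∫⁻ x, ∫⁻ z, G' x * H' (ρ • x + Real.sqrt (1 - ρ ^ 2) • z) ∂g2 ∂g2).toReal := by
    have mm : Measurable (fun p : (Fin 2 → ℝ) × (Fin 2 → ℝ) =>
        G' p.1 * H' (ρ • p.1 + Real.sqrt (1 - ρ ^ 2) • p.2)) := by fun_prop
    have mI : Measurable (fun x => ∫⁻ z, G' x * H' (ρ • x + Real.sqrt (1 - ρ ^ 2) • z) ∂g2) :=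
      Measurable.lintegral_prod_right' (f := fun p : (Fin 2 → ℝ) × (Fin 2 → ℝ) =>
        G' p.1 * H' (ρ • p.1 + Real.sqrt (1 - ρ ^ 2) • p.2)) mm
    rw [← integral_toReal mI.aemeasurable
      (Filter.Eventually.of_forall fun x => (hin1 x).trans_lt ENNReal.one_lt_top)]
    change ∫ y, ∫ z, G y * H (ρ • y + Real.sqrt (1 - ρ ^ 2) • z) ∂g2 ∂g2 = _
    refine integral_congr_ae (Filter.Eventually.of_forall fun x => ?_)
    simp only
    rw [integral_eq_lintegral_of_nonneg_ae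
      (Filter.Eventually.of_forall fun z => mul_nonneg (hG0 x) (hH0 _))]
    · congr 1
      refine lintegral_congr fun z => ?_
      rw [ENNReal.ofReal_mul (hG0 x)]
    · have m2 : Measurable (fun z : Fin 2 → ℝ => G x * H (ρ • x + Real.sqrt (1 - ρ ^ 2) • z)) := by
        fun_prop
      exact m2.aestronglyMeasurable
  rw [hLHS, key, ENNReal.toReal_mul, ENNReal.toReal_ofReal hp.le]
  congr 1
  rw [← integral_toReal mH.aemeasurable hae]
  apply integral_congr_ae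
  filter_upwards with u
  rw [← integral_toReal (mh1 u).aemeasurable
    (Filter.Eventually.of_forall fun v => ENNReal.mul_lt_top ENNReal.ofReal_lt_top
      (p4_E_toReal (ρ * u * v) G H hG hH hG0 hG1 hH0 hH1 _ _).1)]
  apply integral_congr_ae
  filter_upwards with v
  simp only [hh]
  rw [ENNReal.toReal_mul, ENNReal.toReal_ofReal (by positivity),
    (p4_E_toReal (ρ * u * v) G H hG hH hG0 hG1 hH0 hH1 _ _).2]
  ring

end Pool.Agent.SSCP
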