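import Pool.Agent.SSCP.Defs

/-! [SSCP-P5a] measurability of parameter integrals. -/

set_option autoImplicit false
open MeasureTheory ProbabilityTheory Set Real
open scoped ENNReal

namespace Pool.Agent.SSCP
open Pool.Agent.SSC3N
open Pool.Agent.SSC3 (ker W E2 Per len slice g2)

private theorem P5a_vec {X : Type} [MeasurableSpace X] (a b : X → ℝ) (ha : Measurable a)
    (hb : Measurable b) : Measurable (fun x => (![a x, b x] : Fin 2 → ℝ)) := by
  refine measurable_pi_lambda _ fun i => ?_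
  fin_cases i
  · simpa using ha
  · simpa using hb

private theorem P5a_comp {X : Type} [MeasurableSpace X] (G : (Fin 2 → ℝ) → ℝ) (hG : Measurable G)
    (r t : X → ℝ) (hr : Measurable r) (ht : Measurable t) :
    Measurable (fun x => cir G (r x) (t x)) := by
  unfold cir
  exact hG.comp (P5a_vec _ _ (hr.mul (Real.measurable_cos.comp ht))
    (hr.mul (Real.measurable_sin.comp ht)))

/-- [P5] -/
theorem Ef_meas (ρ κ : ℝ) (G H : (Fin 2 → ℝ) → ℝ) (hG : Measurable G) (hH : Measurable H) :
    Measurable (fun p : ℝ × ℝ => Ef (ρ * p.1 * p.2) (cir G (κ * p.1)) (cir H (κ * p.2))) := by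
  unfold Ef
  refine StronglyMeasurable.measurable ?_
  refine StronglyMeasurable.integral_prod_right (f := fun (p : ℝ × ℝ) (θ : ℝ) =>
    ∫ φ in Ioo (-π) π, cir G (κ * p.1) θ * cir H (κ * p.2) φ *
      Real.exp (ρ * p.1 * p.2 * Real.cos (θ - φ))) ?_
  refine StronglyMeasurable.integral_prod_right (f := fun (q : (ℝ × ℝ) × ℝ) (φ : ℝ) =>
    cir G (κ * q.1.1) q.2 * cir H (κ * q.1.2) φ *
      Real.exp (ρ * q.1.1 * q.1.2 * Real.cos (q.2 - φ))) ?_
  refine Measurable.stronglyMeasurable ?_
  refine ((P5a_comp G hG (fun z : ((ℝ × ℝ) × ℝ) × ℝ => κ * z.1.1.1) (fun z => z.1.2)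
    (by fun_prop) (by fun_prop)).mul (P5a_comp H hH (fun z : ((ℝ × ℝ) × ℝ) × ℝ => κ * z.1.1.2)
      (fun z => z.2) (by fun_prop) (by fun_prop))).mul ?_
  fun_prop

theorem cir_measurable (G : (Fin 2 → ℝ) → ℝ) (hG : Measurable G) (r : ℝ) :
    Measurable (cir G r) :=
  P5a_comp G hG (fun _ => r) (fun t => t) measurable_const measurable_id

theorem av_meas (G : (Fin 2 → ℝ) → ℝ) (hG : Measurable G) (κ : ℝ) :
    Measurable (fun u => av (cir G (κ * u))) := by
  unfold av
  refine Measurable.div_const ?_ _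
  refine StronglyMeasurable.measurable ?_
  refine StronglyMeasurable.integral_prod_right (f := fun (u : ℝ) (θ : ℝ) => cir G (κ * u) θ) ?_
  refine Measurable.stronglyMeasurable ?_
  exact P5a_comp G hG (fun z : ℝ × ℝ => κ * z.1) (fun z => z.2) (by fun_prop) (by fun_prop)

end Pool.Agent.SSCP
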