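import Pool.Agent.SSCP.Defs

set_option autoImplicit false
open MeasureTheory ProbabilityTheory Set Real
open scoped ENNReal

namespace Pool.Agent.SSCP
open Pool.Agent.SSC3N
open Pool.Agent.SSC3 (ker W E2 Per len slice g2)

private theorem vol_Ioo : (volume (Ioo (-π) π)).toReal = 2 * π := by
  rw [Real.volume_Ioo, ENNReal.toReal_ofReal (by linarith [Real.pi_pos])]
  ring

private theorem int_const (c : ℝ) : ∫ _θ in Ioo (-π) π, c = 2 * π * c := by
  rw [integral_const]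
  simp only [measureReal_restrict_apply_univ, smul_eq_mul]
  rw [measureReal_def, vol_Ioo]

theorem Ef_bd (l : ℝ) (g h : ℝ → ℝ) (hg : Measurable g) (hh : Measurable h)
    (hg0 : ∀ t, 0 ≤ g t) (hg1 : ∀ t, g t ≤ 1) (hh0 : ∀ t, 0 ≤ h t) (hh1 : ∀ t, h t ≤ 1) :
    0 ≤ Ef l g h ∧ Ef l g h ≤ (2 * π) ^ 2 * Real.exp |l| := by
  have hpt : ∀ θ φ : ℝ, 0 ≤ g θ * h φ * Real.exp (l * Real.cos (θ - φ)) := fun θ φ =>
    mul_nonneg (mul_nonneg (hg0 θ) (hh0 φ)) (Real.exp_pos _).le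
  have hle : ∀ θ φ : ℝ, g θ * h φ * Real.exp (l * Real.cos (θ - φ)) ≤ Real.exp |l| := by
    intro θ φ
    have h1 : g θ * h φ ≤ 1 := mul_le_one₀ (hg1 θ) (hh0 φ) (hh1 φ)
    have h2 : Real.exp (l * Real.cos (θ - φ)) ≤ Real.exp |l| := by
      apply Real.exp_le_exp.mpr
      calc l * Real.cos (θ - φ) ≤ |l * Real.cos (θ - φ)| := le_abs_self _
        _ = |l| * |Real.cos (θ - φ)| := abs_mul _ _
        _ ≤ |l| * 1 := mul_le_mul_of_nonneg_left (Real.abs_cos_le_one _) (abs_nonneg _)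
        _ = |l| := mul_one _
    calc g θ * h φ * Real.exp (l * Real.cos (θ - φ)) ≤ 1 * Real.exp |l| :=
          mul_le_mul h1 h2 (Real.exp_pos _).le zero_le_one
      _ = Real.exp |l| := one_mul _
  have hin0 : ∀ θ : ℝ, 0 ≤ ∫ φ in Ioo (-π) π, g θ * h φ * Real.exp (l * Real.cos (θ - φ)) :=
    fun θ => integral_nonneg (fun φ => hpt θ φ)
  have hin1 : ∀ θ : ℝ, ∫ φ in Ioo (-π) π, g θ * h φ * Real.exp (l * Real.cos (θ - φ)) ≤
      2 * π * Real.exp |l| := by
    intro θ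
    rw [← int_const]
    exact integral_mono_of_nonneg (Filter.Eventually.of_forall (fun φ => hpt θ φ))
      (integrable_const _) (Filter.Eventually.of_forall (fun φ => hle θ φ))
  refine ⟨integral_nonneg hin0, ?_⟩
  have : (2 * π) ^ 2 * Real.exp |l| = ∫ _θ in Ioo (-π) π, 2 * π * Real.exp |l| := by
    rw [int_const]; ring
  rw [this]
  exact integral_mono_of_nonneg (Filter.Eventually.of_forall hin0) (integrable_const _)
    (Filter.Eventually.of_forall hin1)

theorem av_bd (g : ℝ → ℝ) (hg : Measurable g) (h0 : ∀ t, 0 ≤ g t) (h1 : ∀ t, g t ≤ 1) :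
    0 ≤ av g ∧ av g ≤ 1 := by
  have hp : 0 < 2 * π := by linarith [Real.pi_pos]
  refine ⟨div_nonneg (integral_nonneg h0) hp.le, ?_⟩
  unfold av
  rw [div_le_one hp]
  have : 2 * π = ∫ _θ in Ioo (-π) π, (1 : ℝ) := by rw [int_const]; ring
  rw [this]
  exact integral_mono_of_nonneg (Filter.Eventually.of_forall h0) (integrable_const _)
    (Filter.Eventually.of_forall h1)

end Pool.Agent.SSCP
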