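import Pool.Agent.SSCP.Defs
import Pool.Agent.SSC3N.NuBasic
import Pool.Agent.SSC3N.G2Polar

/-! Part P, layer 1, row P6. -/

set_option autoImplicit false
open MeasureTheory ProbabilityTheory Set Real
open scoped ENNReal

namespace Pool.Agent.SSCP
open Pool.Agent.SSC3N
open Pool.Agent.SSC3 (ker W E2 Per len slice g2)

private theorem P6_density (r θ : ℝ) :
    gaussianPDF 0 1 (r * Real.cos θ) * gaussianPDF 0 1 (r * Real.sin θ)
      = ENNReal.ofReal (Real.exp (-(r ^ 2 / 2)) / (2 * π)) := by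
  simp only [gaussianPDF]
  rw [← ENNReal.ofReal_mul (gaussianPDFReal_nonneg _ _ _)]
  congr 1
  simp only [gaussianPDFReal, NNReal.coe_one]
  have e1 : (√(2 * π * 1))⁻¹ * (√(2 * π * 1))⁻¹ = (2 * π)⁻¹ := by
    rw [← mul_inv, Real.mul_self_sqrt (by positivity), mul_one]
  have e2 : rexp (-(r * Real.cos θ - 0) ^ 2 / (2 * 1)) * rexp (-(r * Real.sin θ - 0) ^ 2 / (2 * 1))
      = rexp (-(r ^ 2 / 2)) := by
    rw [← Real.exp_add]
    congr 1
    have c1 := Real.sin_sq_add_cos_sq θ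
    have : (r * Real.cos θ) ^ 2 + (r * Real.sin θ) ^ 2 = r ^ 2 := by
      have : (r * Real.cos θ) ^ 2 + (r * Real.sin θ) ^ 2
        = r ^ 2 * (Real.sin θ ^ 2 + Real.cos θ ^ 2) := by ring
      rw [this, c1, mul_one]
    rw [sub_zero, sub_zero]
    linarith
  calc _ = ((√(2 * π * 1))⁻¹ * (√(2 * π * 1))⁻¹) *
      (rexp (-(r * Real.cos θ - 0) ^ 2 / (2 * 1)) * rexp (-(r * Real.sin θ - 0) ^ 2 / (2 * 1))) := by
        ring
    _ = _ := by
      rw [e1, e2]
      field_simp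

private theorem P6_cirmeas (G : (Fin 2 → ℝ) → ℝ) (hG : Measurable G) :
    Measurable (fun q : ℝ × ℝ => cir G q.1 q.2) := by
  unfold cir
  exact hG.comp Pool.Agent.SSC3.measurable_pt

private theorem P6_avmeas (G : (Fin 2 → ℝ) → ℝ) (hG : Measurable G) :
    Measurable (fun r => av (cir G r)) := by
  have h := (P6_cirmeas G hG).stronglyMeasurable.integral_prod_right'
    (ν := volume.restrict (Ioo (-π) π))
  exact h.measurable.div_const _

private theorem P6_int (G : (Fin 2 → ℝ) → ℝ) (hG : Measurable G)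
    (hG0 : ∀ x, 0 ≤ G x) (hG1 : ∀ x, G x ≤ 1) (r : ℝ) :
    Integrable (fun θ => cir G r θ) (volume.restrict (Ioo (-π) π)) := by
  have hm : Measurable (fun θ => cir G r θ) :=
    (P6_cirmeas G hG).comp (by fun_prop : Measurable fun θ : ℝ => (r, θ))
  have : IsFiniteMeasure (volume.restrict (Ioo (-π) π)) := by
    constructor
    rw [Measure.restrict_apply_univ, Real.volume_Ioo]
    exact ENNReal.ofReal_lt_top
  refine Integrable.of_bound hm.aestronglyMeasurable 1 (Filter.Eventually.of_forall fun θ => ?_)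
  have a0 : 0 ≤ cir G r θ := hG0 _
  rw [Real.norm_eq_abs, abs_of_nonneg a0]
  exact hG1 _

private theorem P6_av0 (G : (Fin 2 → ℝ) → ℝ) (hG0 : ∀ x, 0 ≤ G x) (r : ℝ) :
    0 ≤ av (cir G r) := by
  unfold av
  apply div_nonneg _ (by positivity)
  exact integral_nonneg fun θ => hG0 _

private theorem P6_av1 (G : (Fin 2 → ℝ) → ℝ) (hG : Measurable G)
    (hG0 : ∀ x, 0 ≤ G x) (hG1 : ∀ x, G x ≤ 1) (r : ℝ) :
    av (cir G r) ≤ 1 := by
  unfold av
  rw [div_le_one (by positivity)]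
  have h1 : ∫ θ in Ioo (-π) π, cir G r θ ≤ ∫ _ in Ioo (-π) π, (1:ℝ) := by
    refine integral_mono (P6_int G hG hG0 hG1 r) ?_ fun θ => hG1 _
    rw [integrable_const_iff]
    right
    constructor
    rw [Measure.restrict_apply_univ, Real.volume_Ioo]
    exact ENNReal.ofReal_lt_top
  refine h1.trans (le_of_eq ?_)
  rw [setIntegral_const, smul_eq_mul, mul_one, Measure.real, Real.volume_Ioo,
    ENNReal.toReal_ofReal (by linarith [Real.pi_pos])]
  ring

private theorem P6_lint (G : (Fin 2 → ℝ) → ℝ) (hG : Measurable G)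
    (hG0 : ∀ x, 0 ≤ G x) (hG1 : ∀ x, G x ≤ 1) :
    ∫⁻ y, ENNReal.ofReal (G y) ∂(gam 2) = ∫⁻ r in Ioi (0:ℝ),
      ENNReal.ofReal (r * Real.exp (-(r ^ 2 / 2)) * av (cir G r)) := by
  have h0 : ∫⁻ y, ENNReal.ofReal (G y) ∂(gam 2) = ∫⁻ y, ENNReal.ofReal (G y)
      ∂(Measure.pi (fun _ : Fin 2 => gaussianReal 0 1)) := rfl
  rw [h0, Pool.Agent.SSC3.gauss_polar (fun y => ENNReal.ofReal (G y)) hG.ennreal_ofReal
    (fun _ => 0) 1 one_ne_zero]
  refine setLIntegral_congr_fun measurableSet_Ioi fun r hr => ?_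
  rw [mem_Ioi] at hr
  have h1 : ∀ θ : ℝ, ENNReal.ofReal r * ((gaussianPDF 0 1 (r * Real.cos θ) *
      gaussianPDF 0 1 (r * Real.sin θ)) *
        ENNReal.ofReal (G ![r * Real.cos θ, r * Real.sin θ])) =
      (ENNReal.ofReal r * ENNReal.ofReal (Real.exp (-(r ^ 2 / 2)) / (2 * π))) *
        ENNReal.ofReal (cir G r θ) := by
    intro θ
    rw [P6_density, mul_assoc]
    rfl
  have hm : Measurable (fun θ => cir G r θ) :=
    (P6_cirmeas G hG).comp (by fun_prop : Measurable fun θ : ℝ => (r, θ))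
  rw [lintegral_congr h1, lintegral_const_mul _ hm.ennreal_ofReal]
  have h2 : ∫⁻ θ in Ioo (-π) π, ENNReal.ofReal (cir G r θ) =
      ENNReal.ofReal (∫ θ in Ioo (-π) π, cir G r θ) := by
    rw [ofReal_integral_eq_lintegral_ofReal (P6_int G hG hG0 hG1 r)
      (Filter.Eventually.of_forall fun θ => hG0 _)]
  rw [h2, ← ENNReal.ofReal_mul hr.le, ← ENNReal.ofReal_mul (by positivity)]
  congr 1
  unfold av
  field_simp

private theorem P6_gint (G : (Fin 2 → ℝ) → ℝ) (hG : Measurable G)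
    (hG0 : ∀ x, 0 ≤ G x) (hG1 : ∀ x, G x ≤ 1) :
    ∫ y, G y ∂(gam 2) = ∫ r in Ioi (0:ℝ), r * Real.exp (-(r ^ 2 / 2)) * av (cir G r) := by
  have mav := P6_avmeas G hG
  rw [integral_eq_lintegral_of_nonneg_ae, integral_eq_lintegral_of_nonneg_ae]
  · rw [P6_lint G hG hG0 hG1]
  · filter_upwards [ae_restrict_mem measurableSet_Ioi] with r hr
    rw [mem_Ioi] at hr
    have := P6_av0 G hG0 r
    simp only [Pi.zero_apply]
    positivity
  · exact (by fun_prop : Measurable fun r : ℝ =>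
      r * Real.exp (-(r ^ 2 / 2)) * av (cir G r)).aestronglyMeasurable
  · exact Filter.Eventually.of_forall hG0
  · exact hG.aestronglyMeasurable

private theorem P6_base : IntegrableOn (fun r : ℝ => r * Real.exp (-(r ^ 2 / 2))) (Ioi (0:ℝ)) := by
  have h := integrableOn_rpow_mul_exp_neg_mul_sq (b := 1 / 2) (by norm_num) (s := 1) (by norm_num)
  refine h.congr_fun ?_ measurableSet_Ioi
  intro x hx
  simp only [Real.rpow_one]
  congr 2
  ring

/-- [P6] `∫ G dγ₂ = ∫ av (cir G r) dν(r)` (polar coordinates, `gauss_polar`), and `r = √(1-ρ²) u` turns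
`dν(r)` into `(1-ρ²) e^{ρ²u²/2} dν(u)`; subtract the same identity for the constant `1/3`. -/
theorem balance (ρ : ℝ) (h0 : 0 ≤ ρ) (h1 : ρ < 1) (G : (Fin 2 → ℝ) → ℝ) (hG : Measurable G)
    (hG0 : ∀ x, 0 ≤ G x) (hG1 : ∀ x, G x ≤ 1) (hm : ∫ x, G x ∂(gam 2) = 1 / 3) :
    ∫ u, (av (cir G (Real.sqrt (1 - ρ ^ 2) * u)) - 1 / 3) * Real.exp (ρ ^ 2 * u ^ 2 / 2) ∂nu = 0 := by
  have hden : 0 < 1 - ρ ^ 2 := by nlinarith
  set a := Real.sqrt (1 - ρ ^ 2) with ha
  have ha0 : 0 < a := Real.sqrt_pos.mpr hden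
  have ha2 : a ^ 2 = 1 - ρ ^ 2 := Real.sq_sqrt hden.le
  have mav := P6_avmeas G hG
  let g : ℝ → ℝ := fun r => r * Real.exp (-(r ^ 2 / 2)) * (av (cir G r) - 1 / 3)
  have hi1 : IntegrableOn (fun r : ℝ => r * Real.exp (-(r ^ 2 / 2)) * av (cir G r)) (Ioi (0:ℝ)) := by
    refine Integrable.mono' P6_base ?_ ?_
    · exact (by fun_prop : Measurable fun r : ℝ =>
        r * Real.exp (-(r ^ 2 / 2)) * av (cir G r)).aestronglyMeasurable
    · filter_upwards [ae_restrict_mem measurableSet_Ioi] with r hr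
      rw [mem_Ioi] at hr
      rw [Real.norm_eq_abs, abs_mul, abs_of_pos (by positivity : 0 < r * Real.exp (-(r ^ 2 / 2))),
        abs_of_nonneg (P6_av0 G hG0 r)]
      exact mul_le_of_le_one_right (by positivity) (P6_av1 G hG hG0 hG1 r)
  have hone : ∫ r in Ioi (0:ℝ), r * Real.exp (-(r ^ 2 / 2)) = 1 := by
    haveI := nu_prob
    have h := integral_nu (fun _ => 1)
    simp only [one_mul] at h
    rw [← h]
    simp
  have hg0 : ∫ r in Ioi (0:ℝ), g r = 0 := by
    have e : ∀ r, g r = r * Real.exp (-(r ^ 2 / 2)) * av (cir G r) -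
        (1 / 3) * (r * Real.exp (-(r ^ 2 / 2))) := by
      intro r
      show r * Real.exp (-(r ^ 2 / 2)) * (av (cir G r) - 1 / 3) = _
      ring
    simp_rw [e]
    rw [integral_sub hi1 (P6_base.const_mul _), integral_const_mul, hone, ← P6_gint G hG hG0 hG1,
      hm]
    norm_num
  have hC : ∫ u in Ioi (0:ℝ), g (a * u) = 0 := by
    have := integral_comp_mul_left_Ioi g 0 ha0
    rw [mul_zero, smul_eq_mul, hg0, mul_zero] at this
    exact this
  rw [integral_nu]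
  have e2 : ∀ u : ℝ, (av (cir G (a * u)) - 1 / 3) * Real.exp (ρ ^ 2 * u ^ 2 / 2) *
      (u * Real.exp (-(u ^ 2 / 2))) = a⁻¹ * g (a * u) := by
    intro u
    show _ = a⁻¹ * (a * u * Real.exp (-((a * u) ^ 2 / 2)) * (av (cir G (a * u)) - 1 / 3))
    have e : Real.exp (-((a * u) ^ 2 / 2))
        = Real.exp (-(u ^ 2 / 2)) * Real.exp (ρ ^ 2 * u ^ 2 / 2) := by
      rw [← Real.exp_add]
      congr 1
      rw [mul_pow, ha2]
      ring
    rw [e]
    field_simp
  simp_rw [e2]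
  rw [integral_const_mul, hC, mul_zero]

end Pool.Agent.SSCP
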