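import Pool.Agent.SSCP.Defs
import Pool.Agent.SSC3.Simplex

/-! [S1] energy of the arc of length `2π/3`. -/

set_option autoImplicit false
open MeasureTheory ProbabilityTheory Set Real
open scoped ENNReal

namespace Pool.Agent.SSCP
open Pool.Agent.SSC3N
open Pool.Agent.SSC3 (ker W E2 Per len slice g2)

private theorem arc_ge (f : ℝ → ℝ≥0∞) (hper : ∀ t, f (t + 2 * π) = f t) (ψ : ℝ)
    (S : Set ℝ) (hS : ∀ t, 1 / 2 < Real.cos (t - ψ) → t ∈ S) :
    ∫⁻ t in Icc (ψ - π / 3) (ψ - π / 3 + 2 * π / 3), f t ≤ ∫⁻ t in S ∩ Ioo (-π) π, f t := by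
  set T : Set ℝ := {t | 1 / 2 < Real.cos (t - ψ)} with hT
  have hTm : MeasurableSet T := measurableSet_lt measurable_const (by fun_prop)
  have hTper : ∀ t, t + 2 * π ∈ T ↔ t ∈ T := by
    intro t
    have : Real.cos (t + 2 * π - ψ) = Real.cos (t - ψ) := by
      rw [← Real.cos_add_two_pi (t - ψ)]; congr 1; ring
    simp only [hT, mem_ofPred_eq, this]
  have hpi : (0 : ℝ) < 2 * π := by positivity
  have h0 : ∫⁻ t in Icc (ψ - π / 3) (ψ - π / 3 + 2 * π / 3), f t
      = ∫⁻ t in Ioo (ψ - π / 3) (ψ - π / 3 + 2 * π / 3), f t :=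
    (setLIntegral_congr Ioo_ae_eq_Icc).symm
  have h1 : ∫⁻ t in Ioo (ψ - π / 3) (ψ - π / 3 + 2 * π / 3), f t
      ≤ ∫⁻ t in T ∩ Ioc (ψ - π) (ψ - π + 2 * π), f t := by
    apply lintegral_mono_set
    rintro t ⟨ht1, ht2⟩
    refine ⟨?_, ?_⟩
    · have h2 : |t - ψ| < π / 3 := by
        rw [abs_lt]; constructor <;> linarith
      have h3 : Real.cos (π / 3) < Real.cos |t - ψ| :=
        Real.cos_lt_cos_of_nonneg_of_le_pi (abs_nonneg _) (by linarith [Real.pi_pos]) h2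
      rw [Real.cos_abs, Real.cos_pi_div_three] at h3
      exact h3
    · constructor <;> linarith [Real.pi_pos]
  have h2 : ∀ y : ℝ, ∫⁻ t in T ∩ Ioc y (y + 2 * π), f t =
      ∫⁻ t in Ioc y (y + 2 * π), T.indicator f t := by
    intro y
    rw [setLIntegral_indicator hTm]
  have h3 : ∫⁻ t in T ∩ Ioc (-π) (-π + 2 * π), f t =
      ∫⁻ t in T ∩ Ioc (ψ - π) (ψ - π + 2 * π), f t := by
    rw [h2, h2]
    have hD1 := isAddFundamentalDomain_Ioc hpi (-π)
    have hD2 := isAddFundamentalDomain_Ioc hpi (ψ - π)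
    apply hD1.setLIntegral_eq hD2
    have hperI : Function.Periodic (T.indicator f) (2 * π) := by
      intro t
      by_cases ht : t ∈ T
      · rw [indicator_of_mem ht, indicator_of_mem ((hTper t).2 ht), hper]
      · rw [indicator_of_notMem ht, indicator_of_notMem (fun h => ht ((hTper t).1 h))]
    exact hperI.map_vadd_zmultiples
  have h4 : ∫⁻ t in T ∩ Ioc (-π) (-π + 2 * π), f t = ∫⁻ t in T ∩ Ioo (-π) π, f t := by
    have e : (-π + 2 * π) = π := by ring
    rw [e]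
    exact (setLIntegral_congr ((Filter.EventuallyEq.refl _ T).inter Ioo_ae_eq_Ioc)).symm
  rw [h0]
  refine h1.trans ?_
  rw [← h3, h4]
  apply lintegral_mono_set
  rintro t ⟨ht1, ht2⟩
  exact ⟨hS t ht1, ht2⟩

/-- [S1] `S` and `T` contain the open arc `|t - ψ| < π/3` (mod `2π`): `SSC3.arc_energy` and periodicity
(compare `SSC3.arc_le`, `SSC3.E2_le`, which are the opposite inequalities). -/
theorem arc_E2_ge (l ψ : ℝ) (S T : Set ℝ) (hSm : MeasurableSet S) (hTm : MeasurableSet T)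
    (hPS : Per S) (hPT : Per T) (hS : ∀ t, 1 / 2 < Real.cos (t - ψ) → t ∈ S)
    (hT : ∀ t, 1 / 2 < Real.cos (t - ψ) → t ∈ T) :
    ENNReal.ofReal (W l (2 * π / 3)) ≤ E2 l S T := by
  rw [← Pool.Agent.SSC3.arc_energy l (ψ - π / 3) (2 * π / 3) (by positivity), E2]
  have hker : ∀ s : ℝ, ker l (s + 2 * π) = ker l s := by
    intro s
    unfold Pool.Agent.SSC3.ker
    rw [Real.cos_add_two_pi]
  refine le_trans ?_ (lintegral_mono fun θ => arc_ge (fun φ => ENNReal.ofReal (ker l (θ - φ)))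
    ?_ ψ T hT)
  · refine arc_ge (fun θ => ∫⁻ φ in Icc (ψ - π / 3) (ψ - π / 3 + 2 * π / 3),
      ENNReal.ofReal (ker l (θ - φ))) ?_ ψ S hS
    intro t
    refine lintegral_congr fun φ => ?_
    rw [show t + 2 * π - φ = (t - φ) + 2 * π by ring, hker]
  · intro t
    rw [show θ - (t + 2 * π) = (θ - t) - 2 * π by ring, ← hker (θ - t - 2 * π)]
    congr 2
    ring

end Pool.Agent.SSCP
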