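import Pool.Agent.SSCP.Defs

set_option autoImplicit false
open MeasureTheory ProbabilityTheory Set Real
open scoped ENNReal

namespace Pool.Agent.SSCP
open Pool.Agent.SSC3N
open Pool.Agent.SSC3 (ker W E2 Per len slice g2)

/-- [S2] Let `a i = (cos ψ, sin ψ)`, `x = r (cos t, sin t)`, `c = cos (t-ψ) > 1/2`.  For `j ≠ i`,
`a j = -½ a i ± (√3/2) (a i)^⊥`, so `⟨a j, x⟩ ≤ r (-c/2 + (√3/2) √(1-c²)) < r c`. -/
theorem cell_slice (a : Fin 3 → Fin 2 → ℝ) (ha : ∀ i, ∑ k, a i k * a i k = 1)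
    (hab : ∀ i j, i ≠ j → ∑ k, a i k * a j k = -1 / ((3 : ℝ) - 1)) (i : Fin 3) (ψ : ℝ)
    (h0 : a i 0 = Real.cos ψ) (h1 : a i 1 = Real.sin ψ) (r : ℝ) (hr : 0 < r) (t : ℝ)
    (ht : 1 / 2 < Real.cos (t - ψ)) :
    t ∈ slice {x : Fin 2 → ℝ | ∀ j, j ≠ i → ∑ k, a j k * x k < ∑ k, a i k * x k} r := by
  simp only [slice, Set.mem_ofPred_eq]
  intro j hj
  have e1 := ha j
  have e2 := hab i j (Ne.symm hj)
  simp only [Fin.sum_univ_two, Matrix.cons_val_zero, Matrix.cons_val_one] at e1 e2 ⊢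
  rw [h0, h1] at e2 ⊢
  have hc : Real.cos t = Real.cos (t - ψ) * Real.cos ψ - Real.sin (t - ψ) * Real.sin ψ := by
    rw [← Real.cos_add]; congr 1; ring
  have hs : Real.sin t = Real.sin (t - ψ) * Real.cos ψ + Real.cos (t - ψ) * Real.sin ψ := by
    rw [← Real.sin_add]; congr 1; ring
  have k1 := Real.sin_sq_add_cos_sq (t - ψ)
  have k2 := Real.sin_sq_add_cos_sq ψ
  set c := Real.cos (t - ψ) with hcdef
  set s := Real.sin (t - ψ) with hsdef
  set C := Real.cos ψ with hC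
  set S := Real.sin ψ with hS
  set p := a j 0 with hp
  set q := a j 1 with hq
  have e2' : C * p + S * q = -1 / 2 := by rw [e2]; norm_num
  have hw : (C * q - S * p) ^ 2 = 3 / 4 := by
    have : (C * q - S * p) ^ 2 + (C * p + S * q) ^ 2 = (S ^ 2 + C ^ 2) * (p * p + q * q) := by ring
    rw [e2', k2, e1] at this
    linarith
  have hsw : (s * (C * q - S * p)) ^ 2 < (3 / 2 * c) ^ 2 := by
    rw [mul_pow, hw]
    nlinarith
  have hlt : s * (C * q - S * p) < 3 / 2 * c :=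
    lt_of_pow_lt_pow_left₀ 2 (by linarith) hsw
  have hL : p * (r * Real.cos t) + q * (r * Real.sin t)
      = r * (c * (C * p + S * q) + s * (C * q - S * p)) := by
    rw [hc, hs]; ring
  have hR : C * (r * Real.cos t) + S * (r * Real.sin t) = r * (c * (S ^ 2 + C ^ 2)) := by
    rw [hc, hs]; ring
  rw [hL, hR, e2', k2]
  apply mul_lt_mul_of_pos_left _ hr
  linarith

end Pool.Agent.SSCP
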