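import Pool.Agent.SSCP.Defs
import Pool.Agent.SSC3N.GaussRot
import Pool.Agent.SSC3N.ExistsRot
import Pool.Agent.SSC3N.StabRot

/-! Row S4: reduction of the simplex cells of `ℝ^{2+m}` to the plane. -/

set_option autoImplicit false
open MeasureTheory ProbabilityTheory Set Real
open scoped ENNReal

namespace Pool.Agent.SSCP
open Pool.Agent.SSC3N
open Pool.Agent.SSC3 (ker W E2 Per len slice g2)

private theorem s4_proj (m : ℕ) :
    MeasurePreserving (fun x : Fin (2 + m) → ℝ => (fun i : Fin 2 => x (Fin.castAdd m i)))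
      (gam (2 + m)) (gam 2) := by
  have hg' : IsProbabilityMeasure (gam m) := gam_prob m
  have h1 := split_mp m
  have h2 : MeasurePreserving (Prod.fst : (Fin 2 → ℝ) × (Fin m → ℝ) → (Fin 2 → ℝ))
      (g2.prod (gam m)) g2 := measurePreserving_fst
  exact h2.comp h1

private theorem s4_cell_meas (n : ℕ) (a : Fin 3 → Fin n → ℝ) (i : Fin 3) :
    MeasurableSet {x : Fin n → ℝ | ∀ j, j ≠ i → ∑ k, a j k * x k < ∑ k, a i k * x k} := by
  have e : {x : Fin n → ℝ | ∀ j, j ≠ i → ∑ k, a j k * x k < ∑ k, a i k * x k} =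
      ⋂ j, {x : Fin n → ℝ | j ≠ i → ∑ k, a j k * x k < ∑ k, a i k * x k} := by
    ext x; simp
  rw [e]
  refine MeasurableSet.iInter fun j => ?_
  by_cases h : j = i
  · simp [h]
  · have : {x : Fin n → ℝ | j ≠ i → ∑ k, a j k * x k < ∑ k, a i k * x k} =
        {x : Fin n → ℝ | ∑ k, a j k * x k < ∑ k, a i k * x k} := by
      ext x; simp [h]
    rw [this]
    exact measurableSet_lt (by fun_prop) (by fun_prop)

/-- [S4] Reduction of the simplex cells of `ℝ^{2+m}` to the plane. -/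
theorem cell_reduce (m : ℕ) (ρ : ℝ) (a : Fin 3 → Fin (2 + m) → ℝ)
    (ha : ∀ i, ∑ k, a i k * a i k = 1)
    (hab : ∀ i j, i ≠ j → ∑ k, a i k * a j k = -1 / ((3 : ℝ) - 1)) :
    ∃ a' : Fin 3 → Fin 2 → ℝ, (∀ i, ∑ k, a' i k * a' i k = 1) ∧
      (∀ i j, i ≠ j → ∑ k, a' i k * a' j k = -1 / ((3 : ℝ) - 1)) ∧
      ∀ i, ((gam (2 + m)).prod (gam (2 + m)))
          {p : (Fin (2 + m) → ℝ) × (Fin (2 + m) → ℝ) |
            p.1 ∈ {x : Fin (2 + m) → ℝ | ∀ j, j ≠ i → ∑ k, a j k * x k < ∑ k, a i k * x k} ∧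
            ρ • p.1 + Real.sqrt (1 - ρ ^ 2) • p.2 ∈
              {x : Fin (2 + m) → ℝ | ∀ j, j ≠ i → ∑ k, a j k * x k < ∑ k, a i k * x k}} =
        ((gam 2).prod (gam 2))
          {p : (Fin 2 → ℝ) × (Fin 2 → ℝ) |
            p.1 ∈ {x : Fin 2 → ℝ | ∀ j, j ≠ i → ∑ k, a' j k * x k < ∑ k, a' i k * x k} ∧
            ρ • p.1 + Real.sqrt (1 - ρ ^ 2) • p.2 ∈
              {x : Fin 2 → ℝ | ∀ j, j ≠ i → ∑ k, a' j k * x k < ∑ k, a' i k * x k}} := by
  obtain ⟨Q, hQ, hQk⟩ := exists_rot (2 + m) (by omega) (a 0) (a 1)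
  have hQT : Q.transpose * Q = 1 := by
    have := (Matrix.mem_orthogonalGroup_iff' (Fin (2 + m)) ℝ).mp hQ
    simpa [Matrix.star_eq_conjTranspose, Matrix.conjTranspose_eq_transpose_of_trivial] using this
  have hQT' : Q * Q.transpose = 1 := by
    have := (Matrix.mem_orthogonalGroup_iff (Fin (2 + m)) ℝ).mp hQ
    simpa [Matrix.star_eq_conjTranspose, Matrix.conjTranspose_eq_transpose_of_trivial] using this
  have hdot : ∀ x y : Fin (2 + m) → ℝ, ∑ k, Q.mulVec x k * Q.mulVec y k = ∑ k, x k * y k := by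
    intro x y
    have h : Q.mulVec x ⬝ᵥ Q.mulVec y = x ⬝ᵥ y := by
      rw [Matrix.dotProduct_mulVec, Matrix.vecMul_mulVec, hQT, Matrix.vecMul_one]
    simpa [dotProduct] using h
  have hsum : ∀ k, a 0 k + a 1 k + a 2 k = 0 := by
    have h2 : ∑ k, (a 0 k + a 1 k + a 2 k) ^ 2 = 0 := by
      have e : ∀ k, (a 0 k + a 1 k + a 2 k) ^ 2 = a 0 k * a 0 k + a 1 k * a 1 k + a 2 k * a 2 k
          + 2 * (a 0 k * a 1 k) + 2 * (a 0 k * a 2 k) + 2 * (a 1 k * a 2 k) := fun k => by ring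
      simp_rw [e, Finset.sum_add_distrib, ← Finset.mul_sum]
      rw [ha 0, ha 1, ha 2, hab 0 1 (by decide), hab 0 2 (by decide), hab 1 2 (by decide)]
      norm_num
    intro k
    have := (Finset.sum_eq_zero_iff_of_nonneg (fun k _ => sq_nonneg (a 0 k + a 1 k + a 2 k))).mp h2
      k (Finset.mem_univ k)
    exact pow_eq_zero_iff (two_ne_zero) |>.mp this
  have hQ2 : ∀ i : Fin 3, ∀ k : Fin (2 + m), 2 ≤ (k : ℕ) → Q.mulVec (a i) k = 0 := by
    intro i k hk
    fin_cases i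
    · exact (hQk k hk).1
    · exact (hQk k hk).2
    · have e : a 2 = -(a 0) - a 1 := by
        funext k; have := hsum k; simp only [Pi.sub_apply, Pi.neg_apply]; linarith
      show Q.mulVec (a 2) k = 0
      rw [e, Matrix.mulVec_sub, Matrix.mulVec_neg]
      simp [(hQk k hk).1, (hQk k hk).2]
  have hQtm : Q.transpose ∈ Matrix.orthogonalGroup (Fin (2 + m)) ℝ := by
    rw [Matrix.mem_orthogonalGroup_iff]
    simpa [Matrix.star_eq_conjTranspose, Matrix.conjTranspose_eq_transpose_of_trivial] using hQT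
  set a' : Fin 3 → Fin 2 → ℝ := fun i k => Q.mulVec (a i) (Fin.castAdd m k) with ha'
  have hsplit : ∀ (i : Fin 3) (x : Fin (2 + m) → ℝ),
      ∑ k, Q.mulVec (a i) k * x k = ∑ k, a' i k * x (Fin.castAdd m k) := by
    intro i x
    rw [Fin.sum_univ_add]
    have : ∀ j : Fin m, Q.mulVec (a i) (Fin.natAdd 2 j) = 0 := fun j =>
      hQ2 i _ (by simp)
    simp [this, ha']
  have key : ∀ (i : Fin 3) (x : Fin (2 + m) → ℝ),
      ∑ k, a i k * Q.transpose.mulVec x k = ∑ k, a' i k * x (Fin.castAdd m k) := by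
    intro i x
    rw [← hdot (a i)]
    have : Q.mulVec (Q.transpose.mulVec x) = x := by
      simp only [Matrix.mulVec_mulVec, hQT', Matrix.one_mulVec]
    rw [this, hsplit i]
  refine ⟨a', ?_, ?_, ?_⟩
  · intro i
    rw [← ha i, ← hdot (a i) (a i), hsplit i]
  · intro i j hij
    rw [← hab i j hij, ← hdot (a i) (a j), hsplit i]
  · intro i
    have e1 := stab_rot (2 + m) ρ Q.transpose hQtm _ (s4_cell_meas (2 + m) a i)
    refine e1.trans ?_
    have hg : IsProbabilityMeasure (gam (2 + m)) := gam_prob (2 + m)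
    have hg2 : IsProbabilityMeasure (gam 2) := gam_prob 2
    have h2 := (s4_proj m).prod (s4_proj m)
    have hC := s4_cell_meas 2 a' i
    have hS : MeasurableSet {p : (Fin 2 → ℝ) × (Fin 2 → ℝ) |
            p.1 ∈ {x : Fin 2 → ℝ | ∀ j, j ≠ i → ∑ k, a' j k * x k < ∑ k, a' i k * x k} ∧
            ρ • p.1 + Real.sqrt (1 - ρ ^ 2) • p.2 ∈
              {x : Fin 2 → ℝ | ∀ j, j ≠ i → ∑ k, a' j k * x k < ∑ k, a' i k * x k}} := by
      refine MeasurableSet.inter (measurable_fst hC) ?_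
      have : Measurable (fun p : (Fin 2 → ℝ) × (Fin 2 → ℝ) =>
        ρ • p.1 + Real.sqrt (1 - ρ ^ 2) • p.2) := by fun_prop
      exact this hC
    rw [← h2.measure_preimage hS.nullMeasurableSet]
    change ((gam (2 + m)).prod (gam (2 + m))) _ = _
    congr 1
    ext ⟨x, y⟩
    simp only [mem_ofPred_eq, mem_preimage, Prod.map_apply]
    simp only [key]
    rfl

end Pool.Agent.SSCP
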