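import Pool.Agent.SSC3N.NuBasic
import Pool.Agent.SSC3N.WRep
import Pool.Agent.SSC3N.Thr
import Pool.Agent.SSC3N.G2Polar
import Pool.Agent.SSC3N.GaussRot
import Pool.Agent.SSC3N.ExistsRot
import Pool.Agent.SSC3N.StabRot
import Pool.Agent.SSCP.P1
import Pool.Agent.SSCP.P4
import Pool.Agent.SSCP.P5a
import Pool.Agent.SSCP.P5b
import Pool.Agent.SSCP.P6
import Pool.Agent.SSCP.S1
import Pool.Agent.SSCP.S2
import Pool.Agent.SSCP.S4
import Pool.Agent.SSCP.F1
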