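import Pool.Agent.SSCP.LP1
import Pool.Agent.SSC3.Main

/-! The planar simplex partition: lower bound by `Sval`. -/

set_option autoImplicit false
open MeasureTheory ProbabilityTheory Set Real
open scoped ENNReal

namespace Pool.Agent.SSCP
open Pool.Agent.SSC3N
open Pool.Agent.SSC3 (ker W E2 Per len slice g2)

private theorem s3_cell_meas (a : Fin 3 → Fin 2 → ℝ) (i : Fin 3) :
    MeasurableSet {x : Fin 2 → ℝ | ∀ j, j ≠ i → ∑ k, a j k * x k < ∑ k, a i k * x k} := by
  have h : {x : Fin 2 → ℝ | ∀ j, j ≠ i → ∑ k, a j k * x k < ∑ k, a i k * x k} =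
      ⋂ j, ⋂ (_ : j ≠ i), {x : Fin 2 → ℝ | ∑ k, a j k * x k < ∑ k, a i k * x k} := by
    ext x; simp
  rw [h]
  refine MeasurableSet.iInter fun j => MeasurableSet.iInter fun _ => ?_
  exact measurableSet_lt (by fun_prop) (by fun_prop)

private theorem s3_E2_fin (l : ℝ) (A B : Set ℝ) : E2 l A B ≠ ∞ := by
  unfold E2
  have hk : ∀ t, ker l t ≤ Real.exp |l| := by
    intro t
    unfold ker
    apply Real.exp_le_exp.mpr
    have h1 : |l * Real.cos t| ≤ |l| := by
      rw [abs_mul]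
      calc |l| * |Real.cos t| ≤ |l| * 1 :=
            mul_le_mul_of_nonneg_left (Real.abs_cos_le_one t) (abs_nonneg l)
        _ = |l| := mul_one _
    have h2 := neg_abs_le (l * Real.cos t)
    linarith
  have hfin : ∀ S : Set ℝ, volume (S ∩ Ioo (-π) π) ≠ ∞ := by
    intro S
    refine ne_of_lt (lt_of_le_of_lt (measure_mono inter_subset_right) ?_)
    simp
  refine ne_of_lt (lt_of_le_of_lt (b := ∫⁻ _ in A ∩ Ioo (-π) π, ∫⁻ _ in B ∩ Ioo (-π) π,
      ENNReal.ofReal (Real.exp |l|)) ?_ ?_)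
  · refine lintegral_mono (fun θ => lintegral_mono (fun φ => ENNReal.ofReal_le_ofReal (hk _)))
  · simp only [lintegral_const, Measure.restrict_apply MeasurableSet.univ, univ_inter]
    exact ENNReal.mul_lt_top (ENNReal.mul_lt_top ENNReal.ofReal_lt_top (hfin B).lt_top)
      (hfin A).lt_top

private theorem s3_Ef (l : ℝ) (S T : Set ℝ) (hS : MeasurableSet S) (hT : MeasurableSet T) :
    Ef l (S.indicator fun _ => (1 : ℝ)) (T.indicator fun _ => (1 : ℝ)) =
      (E2 (-l) S T).toReal := by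
  have hI : MeasurableSet (Ioo (-π) π) := measurableSet_Ioo
  have hk : ∀ t, ker (-l) t = Real.exp (l * Real.cos t) := by
    intro t; unfold ker; congr 1; ring
  -- inner integral
  have hin : ∀ θ : ℝ, (∫⁻ φ in T ∩ Ioo (-π) π, ENNReal.ofReal (ker (-l) (θ - φ))).toReal =
      ∫ φ in Ioo (-π) π, (T.indicator (fun _ => (1 : ℝ)) φ) * Real.exp (l * Real.cos (θ - φ)) := by
    intro θ
    have e1 : ∫ φ in Ioo (-π) π, (T.indicator (fun _ => (1 : ℝ)) φ) *
        Real.exp (l * Real.cos (θ - φ)) =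
        ∫ φ in T ∩ Ioo (-π) π, Real.exp (l * Real.cos (θ - φ)) := by
      rw [← Measure.restrict_restrict hT, ← integral_indicator hT]
      refine integral_congr_ae (Filter.Eventually.of_forall fun φ => ?_)
      by_cases h : φ ∈ T <;> simp [h]
    rw [e1, integral_eq_lintegral_of_nonneg_ae
      (Filter.Eventually.of_forall fun φ => (Real.exp_pos _).le)
      (by fun_prop)]
    simp only [hk]
  have hmeas : Measurable fun θ : ℝ =>
      ∫⁻ φ in T ∩ Ioo (-π) π, ENNReal.ofReal (ker (-l) (θ - φ)) := by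
    refine Measurable.lintegral_prod_right' (f := fun p : ℝ × ℝ =>
      ENNReal.ofReal (ker (-l) (p.1 - p.2))) ?_
    unfold ker
    fun_prop
  have hfinθ : ∀ θ : ℝ, ∫⁻ φ in T ∩ Ioo (-π) π, ENNReal.ofReal (ker (-l) (θ - φ)) < ∞ := by
    intro θ
    refine lt_of_le_of_lt (b := ∫⁻ _ in T ∩ Ioo (-π) π, ENNReal.ofReal (Real.exp |l|))
      (lintegral_mono fun φ => ENNReal.ofReal_le_ofReal ?_) ?_
    · rw [hk]
      apply Real.exp_le_exp.mpr
      calc l * Real.cos (θ - φ) ≤ |l * Real.cos (θ - φ)| := le_abs_self _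
        _ = |l| * |Real.cos (θ - φ)| := abs_mul _ _
        _ ≤ |l| * 1 := mul_le_mul_of_nonneg_left (Real.abs_cos_le_one _) (abs_nonneg l)
        _ = |l| := mul_one _
    · simp only [lintegral_const, Measure.restrict_apply MeasurableSet.univ, univ_inter]
      refine ENNReal.mul_lt_top ENNReal.ofReal_lt_top ?_
      exact lt_of_le_of_lt (measure_mono inter_subset_right) (by simp)
  unfold Ef E2
  rw [← integral_toReal hmeas.aemeasurable (Filter.Eventually.of_forall hfinθ)]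
  rw [← Measure.restrict_restrict hS, ← integral_indicator hS]
  refine integral_congr_ae (Filter.Eventually.of_forall fun θ => ?_)
  simp only
  by_cases h : θ ∈ S
  · simp only [Set.indicator_of_mem h, one_mul]
    rw [hin θ]
  · simp only [Set.indicator_of_notMem h, zero_mul, integral_zero]

private theorem s3_exp_int (ρ : ℝ) (h1 : ρ < 1) :
    Integrable (fun u : ℝ => Real.exp (ρ * u ^ 2 / 2)) nu := by
  rw [integrable_nu_iff _ (by fun_prop)]
  have h := (integrable_mul_exp_neg_mul_sq (b := (1 - ρ) / 2) (by linarith)).integrableOn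
    (s := Ioi (0:ℝ))
  refine h.congr_fun ?_ measurableSet_Ioi
  intro u _
  simp only
  rw [mul_comm (Real.exp (ρ * u ^ 2 / 2)), mul_assoc, ← Real.exp_add]
  congr 2
  ring

/-- [S3] -/
theorem simplex_planar (ρ : ℝ) (h0 : 0 ≤ ρ) (h1 : ρ < 1) (a : Fin 3 → Fin 2 → ℝ)
    (ha : ∀ i, ∑ k, a i k * a i k = 1)
    (hab : ∀ i j, i ≠ j → ∑ k, a i k * a j k = -1 / ((3 : ℝ) - 1)) :
    Sval ρ ≤ ∑ i, (((gam 2).prod (gam 2))
          {p : (Fin 2 → ℝ) × (Fin 2 → ℝ) |
            p.1 ∈ {x : Fin 2 → ℝ | ∀ j, j ≠ i → ∑ k, a j k * x k < ∑ k, a i k * x k} ∧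
            ρ • p.1 + Real.sqrt (1 - ρ ^ 2) • p.2 ∈
              {x : Fin 2 → ℝ | ∀ j, j ≠ i → ∑ k, a j k * x k < ∑ k, a i k * x k}}).toReal := by
  haveI := nu_prob
  have hρ2 : 0 < 1 - ρ ^ 2 := by nlinarith
  set κ : ℝ := Real.sqrt (1 - ρ ^ 2) with hκ
  have hκ0 : 0 < κ := Real.sqrt_pos.mpr hρ2
  set Cl : Fin 3 → Set (Fin 2 → ℝ) := fun i =>
    {x : Fin 2 → ℝ | ∀ j, j ≠ i → ∑ k, a j k * x k < ∑ k, a i k * x k} with hCl
  have hCm : ∀ i, MeasurableSet (Cl i) := fun i => s3_cell_meas a i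
  set w : ℝ → ℝ → ℝ := fun u v => W (-(ρ * u * v)) (2 * π / 3) / (2 * π) ^ 2 with hw
  have key : ∀ i, (1 - ρ ^ 2) * ∫ u, ∫ v, w u v ∂nu ∂nu ≤
      (((gam 2).prod (gam 2)) {p : (Fin 2 → ℝ) × (Fin 2 → ℝ) |
        p.1 ∈ Cl i ∧ ρ • p.1 + κ • p.2 ∈ Cl i}).toReal := by
    intro i
    rw [hκ, ← GG_indicator 2 ρ (Cl i) (hCm i)]
    set G : (Fin 2 → ℝ) → ℝ := (Cl i).indicator fun _ => (1 : ℝ) with hG
    have hGm : Measurable G := measurable_const.indicator (hCm i)
    have hG0 : ∀ x, 0 ≤ G x := fun x => Set.indicator_nonneg (fun _ _ => zero_le_one) x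
    have hG1 : ∀ x, G x ≤ 1 := fun x => by
      rw [hG]
      exact Set.indicator_le_self' (fun _ _ => zero_le_one) x
    rw [polarF ρ h0 h1 G G hGm hGm hG0 hG1 hG0 hG1, ← hκ]
    refine mul_le_mul_of_nonneg_left ?_ hρ2.le
    -- the integrand
    set F : ℝ × ℝ → ℝ := fun p =>
      Ef (ρ * p.1 * p.2) (cir G (κ * p.1)) (cir G (κ * p.2)) / (2 * π) ^ 2 with hF
    have hFm : Measurable F := (Ef_meas ρ κ G G hGm hGm).div_const _
    have hpi := Real.pi_pos
    have hFb : ∀ p, 0 ≤ F p ∧ F p ≤ Real.exp |ρ * p.1 * p.2| := by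
      intro p
      have h := Ef_bd (ρ * p.1 * p.2) (cir G (κ * p.1)) (cir G (κ * p.2))
        (cir_measurable G hGm _) (cir_measurable G hGm _) (fun t => hG0 _) (fun t => hG1 _)
        (fun t => hG0 _) (fun t => hG1 _)
      have hp : (0:ℝ) < (2 * π) ^ 2 := by positivity
      refine ⟨div_nonneg h.1 hp.le, ?_⟩
      rw [hF]
      simp only
      rw [div_le_iff₀ hp]
      linarith [h.2]
    have hFi : Integrable F (nu.prod nu) := by
      have hg := (s3_exp_int ρ h1).mul_prod (s3_exp_int ρ h1)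
      refine Integrable.mono' hg hFm.aestronglyMeasurable (Filter.Eventually.of_forall fun p => ?_)
      rw [Real.norm_eq_abs, abs_of_nonneg (hFb p).1]
      refine (hFb p).2.trans ?_
      rw [← Real.exp_add]
      apply Real.exp_le_exp.mpr
      have e : |ρ * p.1 * p.2| = ρ * |p.1 * p.2| := by
        rw [mul_assoc, abs_mul, abs_of_nonneg h0]
      rw [e]
      have e2 : |p.1 * p.2| ≤ (p.1 ^ 2 + p.2 ^ 2) / 2 := by
        rw [abs_le]
        constructor <;> nlinarith [sq_nonneg (p.1 - p.2), sq_nonneg (p.1 + p.2)]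
      calc ρ * |p.1 * p.2| ≤ ρ * ((p.1 ^ 2 + p.2 ^ 2) / 2) := mul_le_mul_of_nonneg_left e2 h0
        _ = ρ * p.1 ^ 2 / 2 + ρ * p.2 ^ 2 / 2 := by ring
    obtain ⟨ψ, hψ0, hψ1⟩ := SSC3.exists_angle (a i) (ha i)
    have hwF : ∀ u v, 0 < u → 0 < v → w u v ≤ F (u, v) := by
      intro u v hu hv
      rw [hw, hF]
      simp only
      apply div_le_div_of_nonneg_right _ (by positivity)
      have hcir : ∀ r, cir G r = (slice (Cl i) r).indicator fun _ => (1 : ℝ) := by
        intro r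
        funext t
        rfl
      have hsm : ∀ r, MeasurableSet (slice (Cl i) r) := fun r =>
        SSC3.slice_measurable (Cl i) (hCm i) r
      rw [hcir, hcir, s3_Ef _ _ _ (hsm _) (hsm _)]
      have harc := arc_E2_ge (-(ρ * u * v)) ψ (slice (Cl i) (κ * u)) (slice (Cl i) (κ * v))
        (hsm _) (hsm _) (SSC3.slice_per _ _) (SSC3.slice_per _ _)
        (fun t ht => cell_slice a ha hab i ψ hψ0 hψ1 (κ * u) (by positivity) t ht)
        (fun t ht => cell_slice a ha hab i ψ hψ0 hψ1 (κ * v) (by positivity) t ht)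
      have h3 := ENNReal.toReal_mono (s3_E2_fin _ _ _) harc
      refine le_trans ?_ h3
      rw [ENNReal.toReal_ofReal']
      exact le_max_left _ _
    have hw0 : ∀ u v, 0 ≤ w u v := by
      intro u v
      rw [hw]
      simp only
      exact div_nonneg (SSC3.W_nonneg _ (by positivity)) (by positivity)
    refine integral_mono_of_nonneg (Filter.Eventually.of_forall fun u =>
      integral_nonneg fun v => hw0 u v) hFi.integral_prod_left ?_
    filter_upwards [nu_pos, hFi.prod_right_ae] with u hu hui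
    refine integral_mono_of_nonneg (Filter.Eventually.of_forall fun v => hw0 u v) hui ?_
    filter_upwards [nu_pos] with v hv
    exact hwF u v hu hv
  have hS : Sval ρ = 3 * ((1 - ρ ^ 2) * ∫ u, ∫ v, w u v ∂nu ∂nu) := by
    unfold Sval
    have e : (fun u : ℝ => ∫ v, 3 * W (-(ρ * u * v)) (2 * π / 3) / (2 * π) ^ 2 ∂nu) =
        fun u => 3 * ∫ v, w u v ∂nu := by
      funext u
      rw [← integral_const_mul]
      refine integral_congr_ae (Filter.Eventually.of_forall fun v => ?_)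
      simp only [hw]
      ring
    rw [e, integral_const_mul]
    ring
  rw [hS]
  have := Finset.sum_le_sum (fun i (_ : i ∈ Finset.univ) => key i)
  rw [Finset.sum_const, Finset.card_univ, Fintype.card_fin] at this
  calc 3 * ((1 - ρ ^ 2) * ∫ u, ∫ v, w u v ∂nu ∂nu)
      = (3 : ℕ) • ((1 - ρ ^ 2) * ∫ u, ∫ v, w u v ∂nu ∂nu) := by rw [nsmul_eq_mul]; norm_num
    _ ≤ _ := this

end Pool.Agent.SSCP
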