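import Pool.Agent.SSCP.LP2
import Pool.Agent.SSC3.Riesz

set_option autoImplicit false
open MeasureTheory ProbabilityTheory Set Real
open scoped ENNReal

namespace Pool.Agent.SSCP
open Pool.Agent.SSC3N
open Pool.Agent.SSC3 (ker W E2 Per len slice g2)

/-- the measure on angles -/
private noncomputable def P3mu : Measure ℝ := volume.restrict (Ioo (-π) π)
/-- the measure on thresholds -/
private noncomputable def P3nu : Measure ℝ := volume.restrict (Ioo (0:ℝ) 1)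

private instance P3mu_fin : IsFiniteMeasure P3mu := by
  unfold P3mu; infer_instance

private instance P3nu_prob : IsProbabilityMeasure P3nu := by
  constructor
  unfold P3nu
  rw [Measure.restrict_apply_univ, Real.volume_Ioo]
  simp

/-- threshold set -/
private def P3T (u v : ℝ → ℝ) (s : ℝ) : Set ℝ := {t | u t ≤ s ∧ s < v t}

private theorem P3T_meas (u v : ℝ → ℝ) (hu : Measurable u) (hv : Measurable v) (s : ℝ) :
    MeasurableSet (P3T u v s) :=
  (measurableSet_le hu measurable_const).inter (measurableSet_lt measurable_const hv)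

private theorem P3_meas_pair (u v : ℝ → ℝ) (hu : Measurable u) (hv : Measurable v) :
    Measurable (fun p : ℝ × ℝ => (P3T u v p.1).indicator (1 : ℝ → ℝ≥0∞) p.2) := by
  have h : MeasurableSet {p : ℝ × ℝ | u p.2 ≤ p.1 ∧ p.1 < v p.2} :=
    (measurableSet_le (hu.comp measurable_snd) measurable_fst).inter
      (measurableSet_lt measurable_fst (hv.comp measurable_snd))
  have e : (fun p : ℝ × ℝ => (P3T u v p.1).indicator (1 : ℝ → ℝ≥0∞) p.2) =
      {p : ℝ × ℝ | u p.2 ≤ p.1 ∧ p.1 < v p.2}.indicator 1 := by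
    funext p
    by_cases hp : u p.2 ≤ p.1 ∧ p.1 < v p.2
    · rw [indicator_of_mem (show p.2 ∈ P3T u v p.1 from hp),
        indicator_of_mem (show p ∈ {p : ℝ × ℝ | u p.2 ≤ p.1 ∧ p.1 < v p.2} from hp)]
      rfl
    · rw [indicator_of_notMem (show p.2 ∉ P3T u v p.1 from hp),
        indicator_of_notMem (show p ∉ {p : ℝ × ℝ | u p.2 ≤ p.1 ∧ p.1 < v p.2} from hp)]
  rw [e]
  exact measurable_one.indicator h

private theorem P3_lint_s (u v : ℝ → ℝ) (t : ℝ) (h0 : 0 ≤ u t) (h2 : v t ≤ 1) :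
    ∫⁻ s, (P3T u v s).indicator (1 : ℝ → ℝ≥0∞) t ∂P3nu = ENNReal.ofReal (v t - u t) := by
  have e : (fun s => (P3T u v s).indicator (1 : ℝ → ℝ≥0∞) t) = (Ico (u t) (v t)).indicator 1 := by
    funext s
    by_cases hp : u t ≤ s ∧ s < v t
    · rw [indicator_of_mem (show t ∈ P3T u v s from hp),
        indicator_of_mem (show s ∈ Ico (u t) (v t) from hp)]
      rfl
    · rw [indicator_of_notMem (show t ∉ P3T u v s from hp),
        indicator_of_notMem (show s ∉ Ico (u t) (v t) from hp)]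
  rw [e, lintegral_indicator_one measurableSet_Ico]
  unfold P3nu
  rw [Measure.restrict_congr_set (Ioo_ae_eq_Ico (μ := volume)),
    Measure.restrict_apply measurableSet_Ico, Ico_inter_Ico, max_eq_left h0, min_eq_left h2,
    Real.volume_Ico]

private theorem P3_E2_ind (l : ℝ) (A B : Set ℝ) (hA : MeasurableSet A) (hB : MeasurableSet B) :
    E2 l A B = ∫⁻ q, A.indicator (1 : ℝ → ℝ≥0∞) q.1 * B.indicator (1 : ℝ → ℝ≥0∞) q.2 *
      ENNReal.ofReal (ker l (q.1 - q.2)) ∂(P3mu.prod P3mu) := by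
  rw [SSC3.E2_eq]
  unfold SSC3.nuP
  rw [← Measure.restrict_restrict hA, ← Measure.restrict_restrict hB, Measure.prod_restrict,
    ← lintegral_indicator (hA.prod hB)]
  refine lintegral_congr fun q => ?_
  by_cases h1 : q.1 ∈ A <;> by_cases h2 : q.2 ∈ B <;>
    simp [Set.indicator, h1, h2]

private theorem P3_ker_meas (l : ℝ) :
    Measurable (fun q : ℝ × ℝ => ENNReal.ofReal (ker l (q.1 - q.2))) :=
  ENNReal.measurable_ofReal.comp ((SSC3.continuous_ker l).measurable.comp (by fun_prop))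

private theorem P3_meas4 (l : ℝ) (u v u' v' : ℝ → ℝ) (hu : Measurable u) (hv : Measurable v)
    (hu' : Measurable u') (hv' : Measurable v') :
    Measurable (fun z : (ℝ × ℝ) × (ℝ × ℝ) => (P3T u v z.1.1).indicator (1 : ℝ → ℝ≥0∞) z.2.1 *
      (P3T u' v' z.1.2).indicator (1 : ℝ → ℝ≥0∞) z.2.2 *
      ENNReal.ofReal (ker l (z.2.1 - z.2.2))) := by
  refine ((Measurable.mul ?_ ?_).mul ?_)
  · exact (P3_meas_pair u v hu hv).comp (g := fun p : ℝ × ℝ =>
      (P3T u v p.1).indicator (1 : ℝ → ℝ≥0∞) p.2)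
      (f := fun z : (ℝ × ℝ) × (ℝ × ℝ) => (z.1.1, z.2.1)) (by fun_prop)
  · exact (P3_meas_pair u' v' hu' hv').comp (g := fun p : ℝ × ℝ =>
      (P3T u' v' p.1).indicator (1 : ℝ → ℝ≥0∞) p.2)
      (f := fun z : (ℝ × ℝ) × (ℝ × ℝ) => (z.1.2, z.2.2)) (by fun_prop)
  · exact (P3_ker_meas l).comp (f := fun z : (ℝ × ℝ) × (ℝ × ℝ) => z.2) (by fun_prop)

private theorem P3_E2_meas (l : ℝ) (u v u' v' : ℝ → ℝ) (hu : Measurable u) (hv : Measurable v)
    (hu' : Measurable u') (hv' : Measurable v') :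
    Measurable (fun p : ℝ × ℝ => E2 l (P3T u v p.1) (P3T u' v' p.2)) := by
  have e : (fun p : ℝ × ℝ => E2 l (P3T u v p.1) (P3T u' v' p.2)) = fun p =>
      ∫⁻ q, (P3T u v p.1).indicator (1 : ℝ → ℝ≥0∞) q.1 *
        (P3T u' v' p.2).indicator (1 : ℝ → ℝ≥0∞) q.2 *
        ENNReal.ofReal (ker l (q.1 - q.2)) ∂(P3mu.prod P3mu) := by
    funext p
    exact P3_E2_ind l _ _ (P3T_meas u v hu hv _) (P3T_meas u' v' hu' hv' _)
  rw [e]
  exact (P3_meas4 l u v u' v' hu hv hu' hv').lintegral_prod_right'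

private theorem P3_E2_swap (l : ℝ) (u v u' v' : ℝ → ℝ) (hu : Measurable u) (hv : Measurable v)
    (hu' : Measurable u') (hv' : Measurable v') (h0 : ∀ t, 0 ≤ u t) (h1 : ∀ t, v t ≤ 1)
    (h0' : ∀ t, 0 ≤ u' t) (h1' : ∀ t, v' t ≤ 1) :
    ∫⁻ p, E2 l (P3T u v p.1) (P3T u' v' p.2) ∂(P3nu.prod P3nu) =
      ∫⁻ q, ENNReal.ofReal (v q.1 - u q.1) * ENNReal.ofReal (v' q.2 - u' q.2) *
        ENNReal.ofReal (ker l (q.1 - q.2)) ∂(P3mu.prod P3mu) := by
  have e : (fun p : ℝ × ℝ => E2 l (P3T u v p.1) (P3T u' v' p.2)) = fun p =>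
      ∫⁻ q, (P3T u v p.1).indicator (1 : ℝ → ℝ≥0∞) q.1 *
        (P3T u' v' p.2).indicator (1 : ℝ → ℝ≥0∞) q.2 *
        ENNReal.ofReal (ker l (q.1 - q.2)) ∂(P3mu.prod P3mu) := by
    funext p
    exact P3_E2_ind l _ _ (P3T_meas u v hu hv _) (P3T_meas u' v' hu' hv' _)
  rw [e, lintegral_lintegral_swap (P3_meas4 l u v u' v' hu hv hu' hv').aemeasurable]
  refine lintegral_congr fun q => ?_
  have m1 : Measurable fun s : ℝ => (P3T u v s).indicator (1 : ℝ → ℝ≥0∞) q.1 :=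
    (P3_meas_pair u v hu hv).comp (g := fun p : ℝ × ℝ =>
      (P3T u v p.1).indicator (1 : ℝ → ℝ≥0∞) p.2) (f := fun s : ℝ => (s, q.1)) (by fun_prop)
  have m2 : Measurable fun s : ℝ => (P3T u' v' s).indicator (1 : ℝ → ℝ≥0∞) q.2 :=
    (P3_meas_pair u' v' hu' hv').comp (g := fun p : ℝ × ℝ =>
      (P3T u' v' p.1).indicator (1 : ℝ → ℝ≥0∞) p.2) (f := fun s : ℝ => (s, q.2)) (by fun_prop)
  rw [lintegral_mul_const]
  · congr 1
    rw [lintegral_prod_mul (f := fun s : ℝ => (P3T u v s).indicator (1 : ℝ → ℝ≥0∞) q.1)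
      (g := fun s : ℝ => (P3T u' v' s).indicator (1 : ℝ → ℝ≥0∞) q.2) m1.aemeasurable
      m2.aemeasurable, P3_lint_s u v q.1 (h0 _) (h1 _), P3_lint_s u' v' q.2 (h0' _) (h1' _)]
  · exact (m1.comp measurable_fst).mul (m2.comp measurable_snd)

private theorem P3_ker_eq (l t : ℝ) : ker (-l) t = Real.exp (l * Real.cos t) := by
  unfold ker; congr 1; ring

private theorem P3_ker_le (l t : ℝ) : ker l t ≤ Real.exp |l| := by
  unfold ker
  refine Real.exp_le_exp.mpr ?_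
  have h := Real.abs_cos_le_one t
  calc -(l * Real.cos t) ≤ |l * Real.cos t| := neg_le_abs _
    _ = |l| * |Real.cos t| := abs_mul _ _
    _ ≤ |l| := mul_le_of_le_one_right (abs_nonneg _) h

private theorem P3_Ef (l : ℝ) (g h : ℝ → ℝ) (hg : Measurable g) (hh : Measurable h)
    (hg0 : ∀ t, 0 ≤ g t) (hg1 : ∀ t, g t ≤ 1) (hh0 : ∀ t, 0 ≤ h t) (hh1 : ∀ t, h t ≤ 1) :
    Ef l g h = (∫⁻ q, ENNReal.ofReal (g q.1) * ENNReal.ofReal (h q.2) *
        ENNReal.ofReal (ker (-l) (q.1 - q.2)) ∂(P3mu.prod P3mu)).toReal := by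
  have hm : Measurable (fun q : ℝ × ℝ => g q.1 * h q.2 * ker (-l) (q.1 - q.2)) :=
    ((hg.comp measurable_fst).mul (hh.comp measurable_snd)).mul
      ((SSC3.continuous_ker (-l)).measurable.comp (by fun_prop))
  have hint : Integrable (fun q : ℝ × ℝ => g q.1 * h q.2 * ker (-l) (q.1 - q.2))
      (P3mu.prod P3mu) := by
    refine Integrable.of_bound hm.aestronglyMeasurable (Real.exp |(-l)|)
      (Filter.Eventually.of_forall fun q => ?_)
    have k0 : 0 ≤ ker (-l) (q.1 - q.2) := (Real.exp_pos _).le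
    rw [Real.norm_of_nonneg (mul_nonneg (mul_nonneg (hg0 _) (hh0 _)) k0)]
    calc g q.1 * h q.2 * ker (-l) (q.1 - q.2) ≤ 1 * ker (-l) (q.1 - q.2) := by
          refine mul_le_mul_of_nonneg_right ?_ k0
          exact mul_le_one₀ (hg1 _) (hh0 _) (hh1 _)
      _ ≤ Real.exp |(-l)| := by rw [one_mul]; exact P3_ker_le _ _
  have e1 : Ef l g h = ∫ q, g q.1 * h q.2 * ker (-l) (q.1 - q.2) ∂(P3mu.prod P3mu) := by
    rw [integral_prod _ hint]
    unfold Ef P3mu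
    simp only [P3_ker_eq]
  rw [e1, integral_eq_lintegral_of_nonneg_ae _ hm.aestronglyMeasurable]
  · congr 1
    refine lintegral_congr fun q => ?_
    rw [ENNReal.ofReal_mul (mul_nonneg (hg0 _) (hh0 _)), ENNReal.ofReal_mul (hg0 _)]
  · refine Filter.Eventually.of_forall fun q => ?_
    exact mul_nonneg (mul_nonneg (hg0 _) (hh0 _)) (Real.exp_pos _).le

private theorem P3_E2_lt (l : ℝ) (A B : Set ℝ) (hA : MeasurableSet A) (hB : MeasurableSet B) :
    E2 l A B ≤ ENNReal.ofReal (Real.exp |l|) * (P3mu.prod P3mu) univ := by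
  rw [P3_E2_ind l A B hA hB, ← lintegral_const]
  refine lintegral_mono fun q => ?_
  have h1 : A.indicator (1 : ℝ → ℝ≥0∞) q.1 ≤ 1 := by
    refine indicator_le' (fun _ _ => le_rfl) (fun _ _ => zero_le) _
  have h2 : B.indicator (1 : ℝ → ℝ≥0∞) q.2 ≤ 1 := by
    refine indicator_le' (fun _ _ => le_rfl) (fun _ _ => zero_le) _
  calc A.indicator (1 : ℝ → ℝ≥0∞) q.1 * B.indicator (1 : ℝ → ℝ≥0∞) q.2 *
        ENNReal.ofReal (ker l (q.1 - q.2)) ≤ 1 * 1 * ENNReal.ofReal (Real.exp |l|) := by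
        gcongr
        exact P3_ker_le _ _
    _ = _ := by simp

/-- threshold average of the energies -/
private theorem P3_energy (l : ℝ) (u v u' v' : ℝ → ℝ) (hu : Measurable u) (hv : Measurable v)
    (hu' : Measurable u') (hv' : Measurable v') (h0 : ∀ t, 0 ≤ u t) (h1 : ∀ t, v t ≤ 1)
    (h0' : ∀ t, 0 ≤ u' t) (h1' : ∀ t, v' t ≤ 1) (huv : ∀ t, u t ≤ v t) (huv' : ∀ t, u' t ≤ v' t) :
    Integrable (fun p : ℝ × ℝ => (E2 (-l) (P3T u v p.1) (P3T u' v' p.2)).toReal)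
      (P3nu.prod P3nu) ∧
    ∫ p, (E2 (-l) (P3T u v p.1) (P3T u' v' p.2)).toReal ∂(P3nu.prod P3nu) =
      Ef l (fun t => v t - u t) (fun t => v' t - u' t) := by
  have hm := P3_E2_meas (-l) u v u' v' hu hv hu' hv'
  have hb : ∀ p : ℝ × ℝ, E2 (-l) (P3T u v p.1) (P3T u' v' p.2) ≤
      ENNReal.ofReal (Real.exp |(-l)|) * (P3mu.prod P3mu) univ := fun p =>
    P3_E2_lt (-l) _ _ (P3T_meas u v hu hv _) (P3T_meas u' v' hu' hv' _)
  have hfin : ENNReal.ofReal (Real.exp |(-l)|) * (P3mu.prod P3mu) univ ≠ ∞ :=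
    ENNReal.mul_ne_top ENNReal.ofReal_ne_top (measure_ne_top _ _)
  constructor
  · refine Integrable.of_bound hm.ennreal_toReal.aestronglyMeasurable
      (ENNReal.ofReal (Real.exp |(-l)|) * (P3mu.prod P3mu) univ).toReal
      (Filter.Eventually.of_forall fun p => ?_)
    rw [Real.norm_of_nonneg ENNReal.toReal_nonneg]
    exact ENNReal.toReal_mono hfin (hb p)
  · rw [integral_toReal hm.aemeasurable
      (Filter.Eventually.of_forall fun p => lt_of_le_of_lt (hb p) hfin.lt_top),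
      P3_E2_swap (-l) u v u' v' hu hv hu' hv' h0 h1 h0' h1']
    rw [P3_Ef l (fun t => v t - u t) (fun t => v' t - u' t) (hv.sub hu) (hv'.sub hu')
      (fun t => by linarith [huv t]) (fun t => by linarith [h0 t, h1 t])
      (fun t => by linarith [huv' t]) (fun t => by linarith [h0' t, h1' t])]

private theorem P3_len_eq (A : Set ℝ) (hA : MeasurableSet A) :
    len A = (∫⁻ t, A.indicator (1 : ℝ → ℝ≥0∞) t ∂P3mu).toReal := by
  unfold len P3mu
  rw [lintegral_indicator_one hA, Measure.restrict_apply hA]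

private theorem P3_len_meas (u v : ℝ → ℝ) (hu : Measurable u) (hv : Measurable v) :
    Measurable (fun s => len (P3T u v s)) := by
  have e : (fun s => len (P3T u v s)) = fun s =>
      (∫⁻ t, (P3T u v s).indicator (1 : ℝ → ℝ≥0∞) t ∂P3mu).toReal := by
    funext s
    exact P3_len_eq _ (P3T_meas u v hu hv s)
  rw [e]
  exact ((P3_meas_pair u v hu hv).lintegral_prod_right').ennreal_toReal

private theorem P3_len_int (u v : ℝ → ℝ) (hu : Measurable u) (hv : Measurable v)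
    (h0 : ∀ t, 0 ≤ u t) (h1 : ∀ t, v t ≤ 1) (huv : ∀ t, u t ≤ v t) :
    ∫ s, len (P3T u v s) ∂P3nu = ∫ t in Ioo (-π) π, (v t - u t) := by
  have e : (fun s => len (P3T u v s)) = fun s =>
      (∫⁻ t, (P3T u v s).indicator (1 : ℝ → ℝ≥0∞) t ∂P3mu).toReal := by
    funext s
    exact P3_len_eq _ (P3T_meas u v hu hv s)
  rw [e, integral_toReal]
  · rw [lintegral_lintegral_swap (P3_meas_pair u v hu hv).aemeasurable]
    have e2 : (fun t => ∫⁻ s, (P3T u v s).indicator (1 : ℝ → ℝ≥0∞) t ∂P3nu) = fun t =>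
        ENNReal.ofReal (v t - u t) := by
      funext t
      exact P3_lint_s u v t (h0 t) (h1 t)
    rw [e2, integral_eq_lintegral_of_nonneg_ae (f := fun t => v t - u t)
      (Filter.Eventually.of_forall fun t => by
        have := huv t
        show (0:ℝ) ≤ v t - u t
        linarith) (hv.sub hu).aestronglyMeasurable]
    rfl
  · exact ((P3_meas_pair u v hu hv).lintegral_prod_right').aemeasurable
  · refine Filter.Eventually.of_forall fun s => ?_
    refine lt_of_le_of_lt (lintegral_mono (g := fun _ => (1 : ℝ≥0∞)) fun t => ?_) ?_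
    · exact indicator_le' (fun _ _ => le_rfl) (fun _ _ => zero_le) _
    · rw [lintegral_const, one_mul]
      exact measure_lt_top _ _

/-- lower thresholds -/
private noncomputable def P3u (g : Fin 3 → ℝ → ℝ) : Fin 3 → ℝ → ℝ :=
  ![fun _ => 0, g 0, fun t => g 0 t + g 1 t]
/-- upper thresholds -/
private noncomputable def P3v (g : Fin 3 → ℝ → ℝ) : Fin 3 → ℝ → ℝ :=
  ![g 0, fun t => g 0 t + g 1 t, fun _ => 1]

private theorem P3u_meas (g : Fin 3 → ℝ → ℝ) (hg : ∀ i, Measurable (g i)) (i : Fin 3) :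
    Measurable (P3u g i) := by
  have h0 := hg 0
  have h1 := hg 1
  fin_cases i
  · exact measurable_const
  · exact h0
  · exact h0.add h1

private theorem P3v_meas (g : Fin 3 → ℝ → ℝ) (hg : ∀ i, Measurable (g i)) (i : Fin 3) :
    Measurable (P3v g i) := by
  have h0 := hg 0
  have h1 := hg 1
  fin_cases i
  · exact h0
  · exact h0.add h1
  · exact measurable_const

private theorem P3u_nn (g : Fin 3 → ℝ → ℝ) (hg0 : ∀ i t, 0 ≤ g i t) (i : Fin 3) (t : ℝ) :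
    0 ≤ P3u g i t := by
  have h0 := hg0 0 t
  have h1 := hg0 1 t
  fin_cases i
  · exact le_rfl
  · exact h0
  · exact add_nonneg h0 h1

private theorem P3v_le (g : Fin 3 → ℝ → ℝ) (hg0 : ∀ i t, 0 ≤ g i t) (hgs : ∀ t, ∑ i, g i t = 1)
    (i : Fin 3) (t : ℝ) : P3v g i t ≤ 1 := by
  have h0 := hg0 0 t
  have h1 := hg0 1 t
  have h2 := hg0 2 t
  have h3 := hgs t
  rw [Fin.sum_univ_three] at h3
  fin_cases i
  · show g 0 t ≤ 1
    linarith
  · show g 0 t + g 1 t ≤ 1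
    linarith
  · exact le_rfl

private theorem P3_diff (g : Fin 3 → ℝ → ℝ) (hgs : ∀ t, ∑ i, g i t = 1)
    (i : Fin 3) (t : ℝ) : P3v g i t - P3u g i t = g i t := by
  have h3 := hgs t
  rw [Fin.sum_univ_three] at h3
  fin_cases i
  · show g 0 t - 0 = g 0 t
    ring
  · show g 0 t + g 1 t - g 0 t = g 1 t
    ring
  · show 1 - (g 0 t + g 1 t) = g 2 t
    linarith

private theorem P3_per (g : Fin 3 → ℝ → ℝ) (hgp : ∀ i t, g i (t + 2 * π) = g i t)
    (i : Fin 3) (s : ℝ) : Per (P3T (P3u g i) (P3v g i) s) := by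
  intro t
  have h0 := hgp 0 t
  have h1 := hgp 1 t
  fin_cases i
  · show (0 ≤ s ∧ s < g 0 (t + 2 * π)) ↔ (0 ≤ s ∧ s < g 0 t)
    rw [h0]
  · show (g 0 (t + 2 * π) ≤ s ∧ s < g 0 (t + 2 * π) + g 1 (t + 2 * π)) ↔
      (g 0 t ≤ s ∧ s < g 0 t + g 1 t)
    rw [h0, h1]
  · show (g 0 (t + 2 * π) + g 1 (t + 2 * π) ≤ s ∧ s < 1) ↔ (g 0 t + g 1 t ≤ s ∧ s < 1)
    rw [h0, h1]

private theorem P3_len_sum (g : Fin 3 → ℝ → ℝ) (hg : ∀ i, Measurable (g i))
    (hg0 : ∀ i t, 0 ≤ g i t) (hgs : ∀ t, ∑ i, g i t = 1) (s : ℝ) (hs : s ∈ Ioo (0:ℝ) 1) :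
    ∑ i, len (P3T (P3u g i) (P3v g i) s) = 2 * π := by
  have hm : ∀ i, MeasurableSet (P3T (P3u g i) (P3v g i) s) := fun i =>
    P3T_meas _ _ (P3u_meas g hg i) (P3v_meas g hg i) s
  have hf : ∀ i, ∫⁻ t, (P3T (P3u g i) (P3v g i) s).indicator (1 : ℝ → ℝ≥0∞) t ∂P3mu ≠ ∞ := by
    intro i
    rw [lintegral_indicator_one (hm i)]
    exact measure_ne_top _ _
  rw [Finset.sum_congr rfl fun i _ => P3_len_eq _ (hm i),
    ← ENNReal.toReal_sum (fun i _ => hf i), ← lintegral_finsetSum _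
      (fun i _ => measurable_one.indicator (hm i))]
  have e : ∀ t, ∑ i, (P3T (P3u g i) (P3v g i) s).indicator (1 : ℝ → ℝ≥0∞) t = 1 := by
    intro t
    have h0 := hg0 0 t
    have h1 := hg0 1 t
    have h2 := hg0 2 t
    have h3 := hgs t
    rw [Fin.sum_univ_three] at h3
    rw [Fin.sum_univ_three]
    have m0 : t ∈ P3T (P3u g 0) (P3v g 0) s ↔ (0 ≤ s ∧ s < g 0 t) := Iff.rfl
    have m1 : t ∈ P3T (P3u g 1) (P3v g 1) s ↔ (g 0 t ≤ s ∧ s < g 0 t + g 1 t) := Iff.rfl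
    have m2 : t ∈ P3T (P3u g 2) (P3v g 2) s ↔ (g 0 t + g 1 t ≤ s ∧ s < 1) := Iff.rfl
    rcases lt_or_ge s (g 0 t) with c0 | c0
    · have a0 : t ∈ P3T (P3u g 0) (P3v g 0) s := m0.mpr ⟨hs.1.le, c0⟩
      have a1 : t ∉ P3T (P3u g 1) (P3v g 1) s := fun h => by
        have := (m1.mp h).1; linarith
      have a2 : t ∉ P3T (P3u g 2) (P3v g 2) s := fun h => by
        have := (m2.mp h).1; linarith
      simp [a0, a1, a2]
    · rcases lt_or_ge s (g 0 t + g 1 t) with c1 | c1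
      · have a0 : t ∉ P3T (P3u g 0) (P3v g 0) s := fun h => by
          have := (m0.mp h).2; linarith
        have a1 : t ∈ P3T (P3u g 1) (P3v g 1) s := m1.mpr ⟨c0, c1⟩
        have a2 : t ∉ P3T (P3u g 2) (P3v g 2) s := fun h => by
          have := (m2.mp h).1; linarith
        simp [a0, a1, a2]
      · have a0 : t ∉ P3T (P3u g 0) (P3v g 0) s := fun h => by
          have := (m0.mp h).2; linarith
        have a1 : t ∉ P3T (P3u g 1) (P3v g 1) s := fun h => by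
          have := (m1.mp h).2; linarith
        have a2 : t ∈ P3T (P3u g 2) (P3v g 2) s := m2.mpr ⟨c1, hs.2⟩
        simp [a0, a1, a2]
  simp only [e]
  rw [lintegral_one]
  unfold P3mu
  rw [Measure.restrict_apply_univ, Real.volume_Ioo, ENNReal.toReal_ofReal]
  · ring
  · have := Real.pi_pos; linarith

/-- integration of the right side -/
private theorem P3_rhs (C0 Cq Vq θ : ℝ) (hV : 0 ≤ Vq) (hθ0 : 0 ≤ θ) (hθ1 : θ ≤ 1)
    (X Y : Fin 3 → ℝ → ℝ) (hX : ∀ i, Measurable (X i)) (hY : ∀ i, Measurable (Y i))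
    (hXb : ∀ i s, |X i s| ≤ 2) (hYb : ∀ i s, |Y i s| ≤ 2) :
    Integrable (fun p : ℝ × ℝ => C0 + Cq * ∑ i, X i p.1 * Y i p.2 -
      Vq * (θ * ∑ i, X i p.1 ^ 2 + (1 - θ) * ∑ i, Y i p.2 ^ 2)) (P3nu.prod P3nu) ∧
    ∫ p : ℝ × ℝ, (C0 + Cq * ∑ i, X i p.1 * Y i p.2 -
      Vq * (θ * ∑ i, X i p.1 ^ 2 + (1 - θ) * ∑ i, Y i p.2 ^ 2)) ∂(P3nu.prod P3nu) ≤
      C0 + Cq * ∑ i, (∫ s, X i s ∂P3nu) * (∫ s, Y i s ∂P3nu) -
      Vq * (θ * ∑ i, (∫ s, X i s ∂P3nu) ^ 2 + (1 - θ) * ∑ i, (∫ s, Y i s ∂P3nu) ^ 2) := by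
  have iX : ∀ i, Integrable (X i) P3nu := fun i =>
    Integrable.of_bound (hX i).aestronglyMeasurable 2 (Filter.Eventually.of_forall fun s => hXb i s)
  have iY : ∀ i, Integrable (Y i) P3nu := fun i =>
    Integrable.of_bound (hY i).aestronglyMeasurable 2 (Filter.Eventually.of_forall fun s => hYb i s)
  have iX2 : ∀ i, Integrable (fun s => X i s ^ 2) P3nu := fun i =>
    Integrable.of_bound ((hX i).pow_const 2).aestronglyMeasurable (2 ^ 2)
      (Filter.Eventually.of_forall fun s => by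
        rw [Real.norm_eq_abs, abs_pow]; exact pow_le_pow_left₀ (abs_nonneg _) (hXb i s) 2)
  have iY2 : ∀ i, Integrable (fun s => Y i s ^ 2) P3nu := fun i =>
    Integrable.of_bound ((hY i).pow_const 2).aestronglyMeasurable (2 ^ 2)
      (Filter.Eventually.of_forall fun s => by
        rw [Real.norm_eq_abs, abs_pow]; exact pow_le_pow_left₀ (abs_nonneg _) (hYb i s) 2)
  have iXY : ∀ i, Integrable (fun p : ℝ × ℝ => X i p.1 * Y i p.2) (P3nu.prod P3nu) := fun i =>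
    (iX i).mul_prod (iY i)
  have jX2 : ∀ i, Integrable (fun p : ℝ × ℝ => X i p.1 ^ 2) (P3nu.prod P3nu) := fun i =>
    (iX2 i).comp_fst P3nu
  have jY2 : ∀ i, Integrable (fun p : ℝ × ℝ => Y i p.2 ^ 2) (P3nu.prod P3nu) := fun i =>
    (iY2 i).comp_snd P3nu
  have sXY : Integrable (fun p : ℝ × ℝ => ∑ i, X i p.1 * Y i p.2) (P3nu.prod P3nu) :=
    integrable_finsetSum _ fun i _ => iXY i
  have sX2 : Integrable (fun p : ℝ × ℝ => ∑ i, X i p.1 ^ 2) (P3nu.prod P3nu) :=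
    integrable_finsetSum _ fun i _ => jX2 i
  have sY2 : Integrable (fun p : ℝ × ℝ => ∑ i, Y i p.2 ^ 2) (P3nu.prod P3nu) :=
    integrable_finsetSum _ fun i _ => jY2 i
  have k1 : Integrable (fun p : ℝ × ℝ => C0 + Cq * ∑ i, X i p.1 * Y i p.2) (P3nu.prod P3nu) :=
    (integrable_const C0).add (sXY.const_mul Cq)
  have k2 : Integrable (fun p : ℝ × ℝ =>
      θ * ∑ i, X i p.1 ^ 2 + (1 - θ) * ∑ i, Y i p.2 ^ 2) (P3nu.prod P3nu) :=
    (sX2.const_mul θ).add (sY2.const_mul (1 - θ))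
  refine ⟨k1.sub (k2.const_mul Vq), ?_⟩
  have e1 : ∫ p : ℝ × ℝ, (C0 + Cq * ∑ i, X i p.1 * Y i p.2 -
      Vq * (θ * ∑ i, X i p.1 ^ 2 + (1 - θ) * ∑ i, Y i p.2 ^ 2)) ∂(P3nu.prod P3nu) =
      C0 + Cq * ∑ i, (∫ s, X i s ∂P3nu) * (∫ s, Y i s ∂P3nu) -
      Vq * (θ * ∑ i, (∫ s, X i s ^ 2 ∂P3nu) + (1 - θ) * ∑ i, (∫ s, Y i s ^ 2 ∂P3nu)) := by
    rw [integral_sub k1 (k2.const_mul Vq), integral_add (integrable_const C0) (sXY.const_mul Cq),
      integral_const_mul, integral_const_mul, integral_add (sX2.const_mul θ) (sY2.const_mul (1 - θ)),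
      integral_const_mul, integral_const_mul, integral_finsetSum _ (fun i _ => iXY i),
      integral_finsetSum _ (fun i _ => jX2 i), integral_finsetSum _ (fun i _ => jY2 i),
      integral_const]
    have a1 : ∀ i, ∫ p : ℝ × ℝ, X i p.1 * Y i p.2 ∂(P3nu.prod P3nu) =
        (∫ s, X i s ∂P3nu) * (∫ s, Y i s ∂P3nu) := fun i => integral_prod_mul _ _
    have a2 : ∀ i, ∫ p : ℝ × ℝ, X i p.1 ^ 2 ∂(P3nu.prod P3nu) = ∫ s, X i s ^ 2 ∂P3nu := by
      intro i
      rw [integral_fun_fst (fun s => X i s ^ 2)]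
      simp
    have a3 : ∀ i, ∫ p : ℝ × ℝ, Y i p.2 ^ 2 ∂(P3nu.prod P3nu) = ∫ s, Y i s ^ 2 ∂P3nu := by
      intro i
      rw [integral_fun_snd (fun s => Y i s ^ 2)]
      simp
    simp only [a1, a2, a3]
    simp
  rw [e1]
  have jens : ∀ f : ℝ → ℝ, Integrable f P3nu → Integrable (fun s => f s ^ 2) P3nu →
      (∫ s, f s ∂P3nu) ^ 2 ≤ ∫ s, f s ^ 2 ∂P3nu := by
    intro f hf hf2
    set m := ∫ s, f s ∂P3nu with hm
    have h0 : 0 ≤ ∫ s, (f s - m) ^ 2 ∂P3nu := integral_nonneg fun s => sq_nonneg _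
    have h1 : ∫ s, (f s - m) ^ 2 ∂P3nu = ∫ s, (f s ^ 2 - (2 * m) * f s + m ^ 2) ∂P3nu := by
      congr 1; funext s; ring
    have i1 : Integrable (fun s => f s ^ 2 - (2 * m) * f s) P3nu := hf2.sub (hf.const_mul (2 * m))
    rw [h1, integral_add i1 (integrable_const _),
      integral_sub hf2 (hf.const_mul (2 * m)), integral_const_mul, ← hm, integral_const] at h0
    simp at h0
    nlinarith
  have hx : ∑ i, (∫ s, X i s ∂P3nu) ^ 2 ≤ ∑ i, (∫ s, X i s ^ 2 ∂P3nu) :=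
    Finset.sum_le_sum fun i _ => jens _ (iX i) (iX2 i)
  have hy : ∑ i, (∫ s, Y i s ∂P3nu) ^ 2 ≤ ∑ i, (∫ s, Y i s ^ 2 ∂P3nu) :=
    Finset.sum_le_sum fun i _ => jens _ (iY i) (iY2 i)
  have h1θ : 0 ≤ 1 - θ := by linarith
  have hfin : Vq * (θ * ∑ i, (∫ s, X i s ∂P3nu) ^ 2 + (1 - θ) * ∑ i, (∫ s, Y i s ∂P3nu) ^ 2) ≤
      Vq * (θ * ∑ i, (∫ s, X i s ^ 2 ∂P3nu) + (1 - θ) * ∑ i, (∫ s, Y i s ^ 2 ∂P3nu)) := by
    gcongr
  linarith

private theorem P3_len_bd (A : Set ℝ) : |len A / (2 * π) - 1 / 3| ≤ 2 := by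
  have h1 := SSC3.len_nn A
  have h2 := SSC3.len_le A
  have hp : 0 < 2 * π := by positivity
  have h3 : 0 ≤ len A / (2 * π) := by positivity
  have h4 : len A / (2 * π) ≤ 1 := by rwa [div_le_one hp]
  rw [abs_le]
  constructor <;> linarith

/-- [P3] -/
theorem circle_frac (l : ℝ) (hl : 0 ≤ l) (θ : ℝ) (hθ0 : 0 ≤ θ) (hθ1 : θ ≤ 1) (g h : Fin 3 → ℝ → ℝ)
    (hg : ∀ i, Measurable (g i)) (hh : ∀ i, Measurable (h i))
    (hg0 : ∀ i t, 0 ≤ g i t) (hh0 : ∀ i t, 0 ≤ h i t)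
    (hgs : ∀ t, ∑ i, g i t = 1) (hhs : ∀ t, ∑ i, h i t = 1)
    (hgp : ∀ i t, g i (t + 2 * π) = g i t) (hhp : ∀ i t, h i (t + 2 * π) = h i t) :
    ∑ i, Ef l (g i) (h i) / (2 * π) ^ 2 ≤
      3 * W (-l) (2 * π / 3) / (2 * π) ^ 2 +
        Cp l * ∑ i, (av (g i) - 1 / 3) * (av (h i) - 1 / 3) -
        Vp l * (θ * ∑ i, (av (g i) - 1 / 3) ^ 2 + (1 - θ) * ∑ i, (av (h i) - 1 / 3) ^ 2) := by
  have hen := fun i : Fin 3 => P3_energy l (P3u g i) (P3v g i) (P3u h i) (P3v h i)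
    (P3u_meas g hg i) (P3v_meas g hg i) (P3u_meas h hh i) (P3v_meas h hh i)
    (P3u_nn g hg0 i) (P3v_le g hg0 hgs i) (P3u_nn h hh0 i) (P3v_le h hh0 hhs i)
    (fun t => by have := P3_diff g hgs i t; have := hg0 i t; linarith)
    (fun t => by have := P3_diff h hhs i t; have := hh0 i t; linarith)
  have hEf : ∀ i : Fin 3, Ef l (g i) (h i) =
      ∫ p, (E2 (-l) (P3T (P3u g i) (P3v g i) p.1) (P3T (P3u h i) (P3v h i) p.2)).toReal
        ∂(P3nu.prod P3nu) := by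
    intro i
    rw [(hen i).2]
    congr 1
    · funext t; exact (P3_diff g hgs i t).symm
    · funext t; exact (P3_diff h hhs i t).symm
  have hmean : ∀ (f : Fin 3 → ℝ → ℝ) (_ : ∀ i, Measurable (f i)) (_ : ∀ i t, 0 ≤ f i t)
      (_ : ∀ t, ∑ i, f i t = 1) (i : Fin 3),
      ∫ s, (len (P3T (P3u f i) (P3v f i) s) / (2 * π) - 1 / 3) ∂P3nu = av (f i) - 1 / 3 := by
    intro f hf hf0 hfs i
    have hm := P3_len_meas (P3u f i) (P3v f i) (P3u_meas f hf i) (P3v_meas f hf i)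
    have hi : Integrable (fun s => len (P3T (P3u f i) (P3v f i) s)) P3nu := by
      refine Integrable.of_bound hm.aestronglyMeasurable (2 * π)
        (Filter.Eventually.of_forall fun s => ?_)
      rw [Real.norm_of_nonneg (SSC3.len_nn _)]
      exact SSC3.len_le _
    rw [integral_sub (hi.div_const _) (integrable_const _), integral_div, integral_const,
      P3_len_int (P3u f i) (P3v f i) (P3u_meas f hf i) (P3v_meas f hf i) (P3u_nn f hf0 i)
        (P3v_le f hf0 hfs i) (fun t => by have := P3_diff f hfs i t; have := hf0 i t; linarith)]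
    unfold av
    simp only [P3_diff f hfs i]
    simp
  have hlenm : ∀ (f : Fin 3 → ℝ → ℝ) (_ : ∀ i, Measurable (f i)) (i : Fin 3),
      Measurable (fun s => len (P3T (P3u f i) (P3v f i) s) / (2 * π) - 1 / 3) := fun f hf i =>
    ((P3_len_meas _ _ (P3u_meas f hf i) (P3v_meas f hf i)).div_const _).sub_const _
  have hR := P3_rhs (3 * W (-l) (2 * π / 3) / (2 * π) ^ 2) (Cp l) (Vp l) θ (Vp_nonneg l hl) hθ0 hθ1
    (fun i s => len (P3T (P3u g i) (P3v g i) s) / (2 * π) - 1 / 3)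
    (fun i s => len (P3T (P3u h i) (P3v h i) s) / (2 * π) - 1 / 3)
    (hlenm g hg) (hlenm h hh) (fun i s => P3_len_bd _) (fun i s => P3_len_bd _)
  simp only [hmean g hg hg0 hgs, hmean h hh hh0 hhs] at hR
  refine le_trans ?_ hR.2
  have hL : ∑ i, Ef l (g i) (h i) / (2 * π) ^ 2 = ∫ p, (∑ i : Fin 3,
      (E2 (-l) (P3T (P3u g i) (P3v g i) p.1) (P3T (P3u h i) (P3v h i) p.2)).toReal / (2 * π) ^ 2)
        ∂(P3nu.prod P3nu) := by
    rw [integral_finsetSum _ (fun i _ => (hen i).1.div_const _)]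
    refine Finset.sum_congr rfl fun i _ => ?_
    rw [integral_div, ← hEf i]
  rw [hL]
  refine integral_mono_ae (integrable_finsetSum _ fun i _ => (hen i).1.div_const _) hR.1 ?_
  have hae : ∀ᵐ p ∂(P3nu.prod P3nu), p ∈ (Ioo (0:ℝ) 1) ×ˢ (Ioo (0:ℝ) 1) := by
    unfold P3nu
    rw [Measure.prod_restrict]
    exact ae_restrict_mem (measurableSet_Ioo.prod measurableSet_Ioo)
  filter_upwards [hae] with p hp
  exact circle_set l hl θ hθ0 hθ1 _ _
    (fun i => P3T_meas _ _ (P3u_meas g hg i) (P3v_meas g hg i) _)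
    (fun i => P3T_meas _ _ (P3u_meas h hh i) (P3v_meas h hh i) _)
    (fun i => P3_per g hgp i _) (fun i => P3_per h hhp i _)
    (P3_len_sum g hg hg0 hgs _ hp.1) (P3_len_sum h hh hh0 hhs _ hp.2)

end Pool.Agent.SSCP
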