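import Pool.Agent.SSCP.LP2

/-! Lower bound for the simplex partition in `ℝ^(2+m)`. -/

set_option autoImplicit false
open MeasureTheory ProbabilityTheory Set Real
open scoped ENNReal

namespace Pool.Agent.SSCP
open Pool.Agent.SSC3N
open Pool.Agent.SSC3 (ker W E2 Per len slice g2)

private instance s5_prob (n : ℕ) : IsProbabilityMeasure (gam n) := by
  unfold gam; infer_instance

/-- [S5] `cell_reduce`, monotonicity of the measure, `simplex_planar`. -/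
theorem simplex_lower (m : ℕ) (ρ : ℝ) (h0 : 0 ≤ ρ) (h1 : ρ < 1)
    (B : Fin 3 → Set (Fin (2 + m) → ℝ)) (a : Fin 3 → Fin (2 + m) → ℝ)
    (ha : ∀ i, ∑ k, a i k * a i k = 1)
    (hab : ∀ i j, i ≠ j → ∑ k, a i k * a j k = -1 / ((3 : ℝ) - 1))
    (hBs : ∀ i, {x : Fin (2 + m) → ℝ | ∀ j, j ≠ i → ∑ k, a j k * x k < ∑ k, a i k * x k} ⊆ B i) :
    Sval ρ ≤ ∑ i, (((gam (2 + m)).prod (gam (2 + m)))
          {p : (Fin (2 + m) → ℝ) × (Fin (2 + m) → ℝ) |
            p.1 ∈ B i ∧ ρ • p.1 + Real.sqrt (1 - ρ ^ 2) • p.2 ∈ B i}).toReal := by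
  obtain ⟨a', ha', hab', h⟩ := cell_reduce m ρ a ha hab
  refine (simplex_planar ρ h0 h1 a' ha' hab').trans ?_
  refine Finset.sum_le_sum fun i _ => ?_
  rw [← h i]
  refine ENNReal.toReal_mono (measure_ne_top _ _) (measure_mono ?_)
  rintro p ⟨hp1, hp2⟩
  exact ⟨hBs i hp1, hBs i hp2⟩

end Pool.Agent.SSCP
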