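import Pool.Agent.SSCP.LP3
import Pool.Agent.SSCP.LK4

set_option autoImplicit false
open MeasureTheory ProbabilityTheory Set Real
open scoped ENNReal

namespace Pool.Agent.SSCP
open Pool.Agent.SSC3N
open Pool.Agent.SSC3 (ker W E2 Per len slice g2)

attribute [local instance] nu_prob

private theorem P8_pos : ∀ᵐ p ∂(nu.prod nu), 0 < p.1 ∧ 0 < p.2 := by
  have h1 : ∀ᵐ p ∂(nu.prod nu), 0 < p.1 :=
    (Measure.quasiMeasurePreserving_fst (μ := nu) (ν := nu)).ae nu_pos
  have h2 : ∀ᵐ p ∂(nu.prod nu), 0 < p.2 :=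
    (Measure.quasiMeasurePreserving_snd (μ := nu) (ν := nu)).ae nu_pos
  filter_upwards [h1, h2] with p hp1 hp2 using ⟨hp1, hp2⟩

private noncomputable def P8th (u v : ℝ) : ℝ :=
  (1 + Real.exp (-(4 * u ^ 2)) - Real.exp (-(4 * v ^ 2))) / 2

private theorem P8th_nonneg (u v : ℝ) : 0 ≤ P8th u v := by
  unfold P8th
  have h1 : 0 < Real.exp (-(4 * u ^ 2)) := Real.exp_pos _
  have h2 : Real.exp (-(4 * v ^ 2)) ≤ 1 := by
    rw [Real.exp_le_one_iff]; nlinarith [sq_nonneg v]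
  linarith

private theorem P8th_swap (u v : ℝ) : 1 - P8th v u = P8th u v := by
  unfold P8th; ring

private theorem P8th_le (u v : ℝ) : P8th u v ≤ 1 := by
  have := P8th_nonneg v u
  rw [← P8th_swap u v]; linarith

private theorem P8_l (ρ : ℝ) (h0 : 0 < ρ) (h1 : ρ ≤ 1 / 2) {u v : ℝ} (hu : 0 < u) (hv : 0 < v) :
    0 ≤ ρ * u * v ∧ ρ * u * v ≤ (u ^ 2 + v ^ 2) / 4 := by
  constructor
  · positivity
  · have : ρ * u * v ≤ 1 / 2 * (u * v) := by
      rw [mul_assoc]
      exact mul_le_mul_of_nonneg_right h1 (by positivity)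
    nlinarith [sq_nonneg (u - v)]

/-- `Vp l ≤ e^l`. -/
private theorem P8_Vp_le (l : ℝ) (hl : 0 ≤ l) : Vp l ≤ Real.exp l := by
  have hd : ∀ t : ℝ, HasDerivAt (fun t : ℝ => -Real.exp (l * Real.cos (2 * π * t)))
      (2 * π * l * Real.sin (2 * π * t) * Real.exp (l * Real.cos (2 * π * t))) t := by
    intro t
    have h1 : HasDerivAt (fun t : ℝ => 2 * π * t) (2 * π) t := by
      simpa using (hasDerivAt_id t).const_mul (2 * π)
    have h2 := (h1.cos.const_mul l).exp.neg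
    refine h2.congr_deriv ?_
    ring
  have hc : Continuous (fun t : ℝ => 2 * π * l * Real.sin (2 * π * t) *
      Real.exp (l * Real.cos (2 * π * t))) := by fun_prop
  have hint := intervalIntegral.integral_eq_sub_of_hasDerivAt (a := 0) (b := 1 / 3)
    (fun t _ => hd t) (hc.intervalIntegrable _ _)
  have hV : Vp l = ∫ t in (0:ℝ)..(1 / 3), 2 * π * l * Real.sin (2 * π * t) *
      Real.exp (l * Real.cos (2 * π * t)) * vt t := by
    unfold Vp LF
    rw [← intervalIntegral.integral_const_mul]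
    congr 1
    funext t
    rw [show -(-l * Real.cos (2 * π * t)) = l * Real.cos (2 * π * t) by ring]
    ring
  have hvc : Continuous vt := by unfold vt; fun_prop
  have hle : Vp l ≤ ∫ t in (0:ℝ)..(1 / 3), 2 * π * l * Real.sin (2 * π * t) *
      Real.exp (l * Real.cos (2 * π * t)) := by
    rw [hV]
    apply intervalIntegral.integral_mono_on (by norm_num)
      ((hc.mul hvc).intervalIntegrable _ _) (hc.intervalIntegrable _ _)
    intro t ht
    have hs : 0 ≤ Real.sin (2 * π * t) := by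
      apply Real.sin_nonneg_of_nonneg_of_le_pi
      · have := ht.1; positivity
      · have := ht.2
        nlinarith [Real.pi_pos]
    have hv1 : vt t ≤ 1 := by
      unfold vt
      nlinarith [sq_nonneg (t - 4 / 21)]
    have hn : 0 ≤ 2 * π * l * Real.sin (2 * π * t) * Real.exp (l * Real.cos (2 * π * t)) := by
      have := Real.pi_pos
      positivity
    exact mul_le_of_le_one_right hn hv1
  rw [hint] at hle
  have e0 : Real.cos (2 * π * 0) = 1 := by simp
  rw [e0] at hle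
  have := Real.exp_pos (l * Real.cos (2 * π * (1 / 3)))
  rw [mul_one] at hle
  linarith

private theorem P8_W (ρ : ℝ) (h0 : 0 < ρ) (h1 : ρ ≤ 1 / 2) {u v : ℝ} (hu : 0 < u) (hv : 0 < v) :
    |3 * W (-(ρ * u * v)) (2 * π / 3) / (2 * π) ^ 2| ≤ 3 * Real.exp ((u ^ 2 + v ^ 2) / 4) := by
  obtain ⟨ha, hb⟩ := P8_l ρ h0 h1 hu hv
  set l := ρ * u * v with hl
  have hp := Real.pi_pos
  have hW : W (-l) (2 * π / 3) ≤ (2 * π) ^ 2 * Real.exp l := by
    unfold W
    have h3 : (∫ u in (0:ℝ)..(2 * π / 3), (2 * π / 3 - u) * ker (-l) u) ≤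
        ∫ u in (0:ℝ)..(2 * π / 3), (2 * π / 3) * Real.exp l := by
      apply intervalIntegral.integral_mono_on (by positivity)
      · apply Continuous.intervalIntegrable
        exact (continuous_const.sub continuous_id).mul (Pool.Agent.SSC3.continuous_ker (-l))
      · apply Continuous.intervalIntegrable; exact continuous_const
      · intro x hx
        apply mul_le_mul
        · linarith [hx.1]
        · unfold ker
          apply Real.exp_le_exp.mpr
          nlinarith [Real.cos_le_one x]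
        · unfold ker; exact (Real.exp_pos _).le
        · positivity
    rw [intervalIntegral.integral_const] at h3
    simp only [smul_eq_mul, sub_zero] at h3
    have h4 : 0 < Real.exp l := Real.exp_pos _
    nlinarith [mul_pos (mul_pos hp hp) h4]
  rw [abs_of_nonneg (by
    have := Pool.Agent.SSC3.W_nonneg (-l) (x := 2 * π / 3) (by positivity); positivity)]
  rw [div_le_iff₀ (by positivity)]
  have h5 : Real.exp l ≤ Real.exp ((u ^ 2 + v ^ 2) / 4) := Real.exp_le_exp.mpr hb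
  have h6 : (2 * π) ^ 2 * Real.exp l ≤ (2 * π) ^ 2 * Real.exp ((u ^ 2 + v ^ 2) / 4) :=
    mul_le_mul_of_nonneg_left h5 (by positivity)
  nlinarith

theorem planar_main (ρ : ℝ) (h0 : 0 < ρ) (h1 : ρ ≤ 1 / 2) (g : Fin 3 → (Fin 2 → ℝ) → ℝ) (hg : FP g)
    (hb : ∀ i, ∫ x, g i x ∂(gam 2) = 1 / 3) : Fn ρ g ≤ Sval ρ := by
  obtain ⟨hgm, hg0, hgs⟩ := hg
  have hg1 : ∀ i x, g i x ≤ 1 := by
    intro i x
    rw [← hgs x]
    exact Finset.single_le_sum (f := fun i => g i x) (fun j _ => hg0 j x) (Finset.mem_univ i)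
  have hpi := Real.pi_pos
  set κ := Real.sqrt (1 - ρ ^ 2) with hκ
  let e : Fin 3 → ℝ → ℝ := fun i u => av (cir (g i) (κ * u)) - 1 / 3
  have hc0 : ∀ i r t, 0 ≤ cir (g i) r t := fun i r t => hg0 i _
  have hc1 : ∀ i r t, cir (g i) r t ≤ 1 := fun i r t => hg1 i _
  have hem : ∀ i, Measurable (e i) := fun i => (av_meas (g i) (hgm i) κ).sub_const _
  have heb : ∀ i u, |e i u| ≤ 1 := by
    intro i u
    have := av_bd (cir (g i) (κ * u)) (cir_measurable _ (hgm i) _) (hc0 i _) (hc1 i _)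
    simp only [e]
    rw [abs_le]; constructor <;> linarith [this.1, this.2]
  let Fw : ℝ × ℝ → ℝ := fun p => 3 * W (-(ρ * p.1 * p.2)) (2 * π / 3) / (2 * π) ^ 2
  let Fe : Fin 3 → ℝ × ℝ → ℝ := fun i p =>
    Ef (ρ * p.1 * p.2) (cir (g i) (κ * p.1)) (cir (g i) (κ * p.2)) / (2 * π) ^ 2
  let Fc : Fin 3 → ℝ × ℝ → ℝ := fun i p => Cp (ρ * p.1 * p.2) * (e i p.1 * e i p.2)
  let Fa : Fin 3 → ℝ × ℝ → ℝ := fun i p => Vp (ρ * p.1 * p.2) * (P8th p.1 p.2 * (e i p.1) ^ 2)
  let Fb : Fin 3 → ℝ × ℝ → ℝ := fun i p =>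
    Vp (ρ * p.1 * p.2) * ((1 - P8th p.1 p.2) * (e i p.2) ^ 2)
  have hthm : Measurable (fun p : ℝ × ℝ => P8th p.1 p.2) := by unfold P8th; fun_prop
  have hlm : Measurable (fun p : ℝ × ℝ => ρ * p.1 * p.2) := by fun_prop
  have hcm : Measurable (fun p : ℝ × ℝ => Cp (ρ * p.1 * p.2)) := continuous_Cp.measurable.comp hlm
  have hvm : Measurable (fun p : ℝ × ℝ => Vp (ρ * p.1 * p.2)) := continuous_Vp.measurable.comp hlm
  have hf1m : ∀ i, Measurable (fun p : ℝ × ℝ => e i p.1) := fun i => (hem i).comp measurable_fst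
  have hf2m : ∀ i, Measurable (fun p : ℝ × ℝ => e i p.2) := fun i => (hem i).comp measurable_snd
  have hFwm : Measurable Fw := by
    have : Measurable (fun p : ℝ × ℝ => W (-(ρ * p.1 * p.2)) (2 * π / 3)) :=
      (Pool.Agent.SSC3.continuous_W (2 * π / 3)).measurable.comp hlm.neg
    exact (this.const_mul 3).div_const _
  have hFem : ∀ i, Measurable (Fe i) := fun i =>
    (Ef_meas ρ κ (g i) (g i) (hgm i) (hgm i)).div_const _
  have hFcm : ∀ i, Measurable (Fc i) := fun i => hcm.mul ((hf1m i).mul (hf2m i))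
  have hFam : ∀ i, Measurable (Fa i) := fun i => hvm.mul (hthm.mul ((hf1m i).pow_const 2))
  have hFbm : ∀ i, Measurable (Fb i) := fun i =>
    hvm.mul ((measurable_const.sub hthm).mul ((hf2m i).pow_const 2))
  have hsq : ∀ i u, |(e i u) ^ 2| ≤ 1 := by
    intro i u
    rw [abs_pow]
    exact pow_le_one₀ (abs_nonneg _) (heb i u)
  have hFwb : ∀ u v, 0 < u → 0 < v → |Fw (u, v)| ≤ 3 * Real.exp ((u ^ 2 + v ^ 2) / 4) :=
    fun u v hu hv => P8_W ρ h0 h1 hu hv
  have hFeb : ∀ i, ∀ u v, 0 < u → 0 < v → |Fe i (u, v)| ≤ 1 * Real.exp ((u ^ 2 + v ^ 2) / 4) := by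
    intro i u v hu hv
    obtain ⟨ha, hbb⟩ := P8_l ρ h0 h1 hu hv
    obtain ⟨q1, q2⟩ := Ef_bd (ρ * u * v) (cir (g i) (κ * u)) (cir (g i) (κ * v))
      (cir_measurable _ (hgm i) _) (cir_measurable _ (hgm i) _) (hc0 i _) (hc1 i _)
      (hc0 i _) (hc1 i _)
    simp only [Fe]
    rw [abs_of_nonneg (by positivity), one_mul, div_le_iff₀ (by positivity)]
    rw [abs_of_nonneg ha] at q2
    have := Real.exp_le_exp.mpr hbb
    calc _ ≤ _ := q2
      _ ≤ (2 * π) ^ 2 * Real.exp ((u ^ 2 + v ^ 2) / 4) :=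
        mul_le_mul_of_nonneg_left this (by positivity)
      _ = _ := by ring
  have hCb : ∀ u v, 0 < u → 0 < v → |Cp (ρ * u * v)| ≤ 1 * Real.exp ((u ^ 2 + v ^ 2) / 4) := by
    intro u v hu hv
    obtain ⟨ha, hbb⟩ := P8_l ρ h0 h1 hu hv
    rw [abs_of_nonneg (Cp_nonneg _), one_mul]
    refine (Cp_le _).trans ?_
    rw [abs_of_nonneg ha]
    exact Real.exp_le_exp.mpr hbb
  have hVb : ∀ u v, 0 < u → 0 < v → |Vp (ρ * u * v)| ≤ 1 * Real.exp ((u ^ 2 + v ^ 2) / 4) := by
    intro u v hu hv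
    obtain ⟨ha, hbb⟩ := P8_l ρ h0 h1 hu hv
    rw [abs_of_nonneg (Vp_nonneg _ ha), one_mul]
    exact (P8_Vp_le _ ha).trans (Real.exp_le_exp.mpr hbb)
  have hFcb : ∀ i, ∀ u v, 0 < u → 0 < v → |Fc i (u, v)| ≤ 1 * Real.exp ((u ^ 2 + v ^ 2) / 4) := by
    intro i u v hu hv
    simp only [Fc]
    rw [abs_mul, abs_mul]
    calc |Cp (ρ * u * v)| * (|e i u| * |e i v|)
        ≤ (1 * Real.exp ((u ^ 2 + v ^ 2) / 4)) * (1 * 1) := by
          apply mul_le_mul (hCb u v hu hv) _ (by positivity) (by positivity)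
          exact mul_le_mul (heb _ _) (heb _ _) (abs_nonneg _) zero_le_one
      _ = _ := by ring
  have hFab : ∀ i, ∀ u v, 0 < u → 0 < v → |Fa i (u, v)| ≤ 1 * Real.exp ((u ^ 2 + v ^ 2) / 4) := by
    intro i u v hu hv
    simp only [Fa]
    rw [abs_mul, abs_mul]
    calc |Vp (ρ * u * v)| * (|P8th u v| * |e i u ^ 2|)
        ≤ (1 * Real.exp ((u ^ 2 + v ^ 2) / 4)) * (1 * 1) := by
          apply mul_le_mul (hVb u v hu hv) _ (by positivity) (by positivity)
          refine mul_le_mul ?_ (hsq _ _) (abs_nonneg _) zero_le_one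
          rw [abs_of_nonneg (P8th_nonneg _ _)]; exact P8th_le _ _
      _ = _ := by ring
  have hFbb : ∀ i, ∀ u v, 0 < u → 0 < v → |Fb i (u, v)| ≤ 1 * Real.exp ((u ^ 2 + v ^ 2) / 4) := by
    intro i u v hu hv
    simp only [Fb]
    rw [abs_mul, abs_mul]
    calc |Vp (ρ * u * v)| * (|1 - P8th u v| * |e i v ^ 2|)
        ≤ (1 * Real.exp ((u ^ 2 + v ^ 2) / 4)) * (1 * 1) := by
          apply mul_le_mul (hVb u v hu hv) _ (by positivity) (by positivity)
          refine mul_le_mul ?_ (hsq _ _) (abs_nonneg _) zero_le_one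
          rw [P8th_swap v u, abs_of_nonneg (P8th_nonneg _ _)]
          exact P8th_le _ _
      _ = _ := by ring
  -- pointwise inequality
  have hpt : ∀ᵐ p ∂(nu.prod nu),
      ∑ i, Fe i p + (∑ i, Fa i p + ∑ i, Fb i p) ≤ Fw p + ∑ i, Fc i p := by
    filter_upwards [P8_pos] with p hp
    obtain ⟨u, v⟩ := p
    obtain ⟨hu, hv⟩ := hp
    simp only at hu hv
    obtain ⟨ha, hbb⟩ := P8_l ρ h0 h1 hu hv
    have hper : ∀ i r t, cir (g i) r (t + 2 * π) = cir (g i) r t := by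
      intro i r t
      unfold cir
      rw [Real.cos_add_two_pi, Real.sin_add_two_pi]
    have key := circle_frac (ρ * u * v) ha (P8th u v) (P8th_nonneg _ _) (P8th_le _ _)
      (fun i => cir (g i) (κ * u)) (fun i => cir (g i) (κ * v))
      (fun i => cir_measurable _ (hgm i) _) (fun i => cir_measurable _ (hgm i) _)
      (fun i t => hc0 i _ t) (fun i t => hc0 i _ t) (fun t => hgs _) (fun t => hgs _)
      (fun i t => hper i _ t) (fun i t => hper i _ t)
    have e1 : ∑ i, Fc i (u, v) = Cp (ρ * u * v) * ∑ i, (av (cir (g i) (κ * u)) - 1 / 3) *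
        (av (cir (g i) (κ * v)) - 1 / 3) := by
      rw [Finset.mul_sum]
    have e2 : ∑ i, Fa i (u, v) = Vp (ρ * u * v) * (P8th u v *
        ∑ i, (av (cir (g i) (κ * u)) - 1 / 3) ^ 2) := by
      rw [Finset.mul_sum, Finset.mul_sum]
    have e3 : ∑ i, Fb i (u, v) = Vp (ρ * u * v) * ((1 - P8th u v) *
        ∑ i, (av (cir (g i) (κ * v)) - 1 / 3) ^ 2) := by
      rw [Finset.mul_sum, Finset.mul_sum]
    have e4 : ∑ i, Fe i (u, v) =
        ∑ i, Ef (ρ * u * v) (cir (g i) (κ * u)) (cir (g i) (κ * v)) / (2 * π) ^ 2 := rfl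
    rw [e1, e2, e3, e4, ← mul_add]
    simp only [Fw]
    linarith
  have iw := integrable_nu_prod Fw hFwm 3 hFwb
  have ie := fun i => integrable_nu_prod (Fe i) (hFem i) 1 (hFeb i)
  have ic := fun i => integrable_nu_prod (Fc i) (hFcm i) 1 (hFcb i)
  have ia := fun i => integrable_nu_prod (Fa i) (hFam i) 1 (hFab i)
  have ib := fun i => integrable_nu_prod (Fb i) (hFbm i) 1 (hFbb i)
  have hint : ∑ i, ∫ p, Fe i p ∂(nu.prod nu) + (∑ i, ∫ p, Fa i p ∂(nu.prod nu) +
      ∑ i, ∫ p, Fb i p ∂(nu.prod nu)) ≤ ∫ p, Fw p ∂(nu.prod nu) +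
        ∑ i, ∫ p, Fc i p ∂(nu.prod nu) := by
    have hm := integral_mono_ae
      (f := fun p => ∑ i, Fe i p + (∑ i, Fa i p + ∑ i, Fb i p))
      (g := fun p => Fw p + ∑ i, Fc i p)
      ((integrable_finsetSum _ (fun i _ => ie i)).add
        ((integrable_finsetSum _ (fun i _ => ia i)).add (integrable_finsetSum _ (fun i _ => ib i))))
      (iw.add (integrable_finsetSum _ (fun i _ => ic i))) hpt
    rw [integral_add (f := fun p => ∑ i, Fe i p) (g := fun p => ∑ i, Fa i p + ∑ i, Fb i p)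
        (integrable_finsetSum _ (fun i _ => ie i))
        ((integrable_finsetSum _ (fun i _ => ia i)).add (integrable_finsetSum _ (fun i _ => ib i))),
      integral_add (f := fun p => ∑ i, Fa i p) (g := fun p => ∑ i, Fb i p)
        (integrable_finsetSum _ (fun i _ => ia i)) (integrable_finsetSum _ (fun i _ => ib i)),
      integral_add (f := Fw) (g := fun p => ∑ i, Fc i p) iw
        (integrable_finsetSum _ (fun i _ => ic i)),
      integral_finsetSum _ (fun i _ => ic i), integral_finsetSum _ (fun i _ => ia i),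
      integral_finsetSum _ (fun i _ => ib i), integral_finsetSum _ (fun i _ => ie i)] at hm
    exact hm
  have sw : ∫ p, Fw p ∂(nu.prod nu) =
      ∫ u, ∫ v, 3 * W (-(ρ * u * v)) (2 * π / 3) / (2 * π) ^ 2 ∂nu ∂nu := integral_prod Fw iw
  have se : ∀ i, GG ρ (g i) (g i) = (1 - ρ ^ 2) * ∫ p, Fe i p ∂(nu.prod nu) := by
    intro i
    rw [polarF ρ h0.le (by linarith) (g i) (g i) (hgm i) (hgm i) (hg0 i) (hg1 i) (hg0 i) (hg1 i),
      integral_prod (Fe i) (ie i)]
  have sc : ∀ i, ∫ p, Fc i p ∂(nu.prod nu) =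
      ∫ u, ∫ v, Cp (ρ * u * v) * (e i u * e i v) ∂nu ∂nu := fun i => integral_prod (Fc i) (ic i)
  have sa : ∀ i, ∫ p, Fa i p ∂(nu.prod nu) =
      ∫ u, ∫ v, Vp (ρ * u * v) * (P8th u v * (e i u) ^ 2) ∂nu ∂nu :=
    fun i => integral_prod (Fa i) (ia i)
  have sb : ∀ i, ∫ p, Fb i p ∂(nu.prod nu) =
      ∫ u, ∫ v, Vp (ρ * u * v) * (P8th u v * (e i u) ^ 2) ∂nu ∂nu := by
    intro i
    rw [integral_prod_symm (Fb i) (ib i)]
    congr 1; funext u; congr 1; funext v
    simp only [Fb]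
    rw [P8th_swap, show ρ * v * u = ρ * u * v by ring]
  have sD : ∀ i, ∫ p, Fa i p ∂(nu.prod nu) + ∫ p, Fb i p ∂(nu.prod nu) =
      ∫ u, Dp ρ u * (e i u) ^ 2 ∂nu := by
    intro i
    rw [sa, sb, ← two_mul, ← integral_const_mul]
    congr 1; funext u
    unfold Dp
    rw [← integral_const_mul, ← integral_mul_const]
    congr 1; funext v
    unfold P8th
    ring
  have hK : ∀ i, ∫ p, Fc i p ∂(nu.prod nu) ≤
      ∫ p, Fa i p ∂(nu.prod nu) + ∫ p, Fb i p ∂(nu.prod nu) := by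
    intro i
    rw [sD, sc]
    refine KATp ρ 1 h0 h1 (e i) (hem i) (heb i) ?_
    exact balance ρ h0.le (by linarith) (g i) (hgm i) (hg0 i) (hg1 i) (hb i)
  have hsum : ∑ i, ∫ p, Fe i p ∂(nu.prod nu) ≤ ∫ p, Fw p ∂(nu.prod nu) := by
    have h5 : ∑ i, ∫ p, Fc i p ∂(nu.prod nu) ≤
        ∑ i, ∫ p, Fa i p ∂(nu.prod nu) + ∑ i, ∫ p, Fb i p ∂(nu.prod nu) := by
      rw [← Finset.sum_add_distrib]
      exact Finset.sum_le_sum (fun i _ => hK i)
    linarith
  unfold Fn Sval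
  rw [Finset.sum_congr rfl (fun i _ => se i), ← Finset.mul_sum, ← sw]
  apply mul_le_mul_of_nonneg_left hsum
  nlinarith

end Pool.Agent.SSCP
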