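import Pool.Agent.SSCP.LP4
import Pool.Agent.SSCP.LA5

set_option autoImplicit false
open MeasureTheory ProbabilityTheory Set Real
open scoped ENNReal

namespace Pool.Agent.SSCP
open Pool.Agent.SSC3N
open Pool.Agent.SSC3 (ker W E2 Per len slice g2)

private instance M1_inst (m : ℕ) : IsProbabilityMeasure (gam m) := gam_prob m
private instance M1_inst' : IsProbabilityMeasure nu := nu_prob

private theorem M1_GG0 {m : ℕ} (g h : (Fin m → ℝ) → ℝ) :
    GG 0 g h = (∫ y, g y ∂(gam m)) * ∫ y, h y ∂(gam m) := by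
  unfold GG
  have : ∀ y : Fin m → ℝ, ∫ z, g y * h ((0:ℝ) • y + Real.sqrt (1 - 0 ^ 2) • z) ∂(gam m) =
      g y * ∫ z, h z ∂(gam m) := by
    intro y
    rw [← integral_const_mul]
    simp
  simp_rw [this]
  rw [integral_mul_const]

private theorem M1_W0 : W 0 (2 * π / 3) = (2 * π / 3) ^ 2 := by
  unfold W ker
  have : ∀ u : ℝ, (2 * π / 3 - u) * Real.exp (-(0 * Real.cos u)) = 2 * π / 3 - u := by
    intro u; simp
  simp_rw [this]
  rw [intervalIntegral.integral_sub (by simp) (by simp)]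
  simp
  ring

private theorem M1_S0 : Sval 0 = 1 / 3 := by
  unfold Sval
  have : ∀ u v : ℝ, 3 * W (-(0 * u * v)) (2 * π / 3) / (2 * π) ^ 2 = 1 / 3 := by
    intro u v
    rw [show -(0 * u * v) = (0:ℝ) by ring, M1_W0]
    have := Real.pi_pos
    field_simp
  simp_rw [this]
  simp

theorem main_pos (n : ℕ) (hn : 2 ≤ n) (ρ : ℝ) (h1 : 0 ≤ ρ) (h2 : ρ ≤ 1 / 2)
    (A B : Fin 3 → Set (Fin n → ℝ)) (a : Fin 3 → Fin n → ℝ)
    (hAm : ∀ i, MeasurableSet (A i)) (hA : ∀ x : Fin n → ℝ, ∃! i, x ∈ A i)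
    (hAe : ∀ i, Measure.pi (fun _ : Fin n => gaussianReal 0 1) (A i) = ((3 : ℕ) : ENNReal)⁻¹)
    (ha : ∀ i, ∑ k, a i k * a i k = 1)
    (hab : ∀ i j, i ≠ j → ∑ k, a i k * a j k = -1 / ((3 : ℝ) - 1))
    (hBm : ∀ i, MeasurableSet (B i))
    (hB : ∀ x : Fin n → ℝ, ∃! i, x ∈ B i)
    (hBs : ∀ i, {x : Fin n → ℝ | ∀ j, j ≠ i → ∑ k, a j k * x k < ∑ k, a i k * x k} ⊆ B i) :
    ∑ i, ((Measure.pi (fun _ : Fin n => gaussianReal 0 1)).prod
            (Measure.pi (fun _ : Fin n => gaussianReal 0 1)))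
          {p : (Fin n → ℝ) × (Fin n → ℝ) |
            p.1 ∈ A i ∧ ρ • p.1 + Real.sqrt (1 - ρ ^ 2) • p.2 ∈ A i}
      ≤
    ∑ i, ((Measure.pi (fun _ : Fin n => gaussianReal 0 1)).prod
            (Measure.pi (fun _ : Fin n => gaussianReal 0 1)))
          {p : (Fin n → ℝ) × (Fin n → ℝ) |
            p.1 ∈ B i ∧ ρ • p.1 + Real.sqrt (1 - ρ ^ 2) • p.2 ∈ B i} := by
  obtain ⟨m, rfl⟩ : ∃ m, n = 2 + m := ⟨n - 2, by omega⟩
  change ∑ i, ((gam (2 + m)).prod (gam (2 + m))) _ ≤ ∑ i, ((gam (2 + m)).prod (gam (2 + m))) _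
  have hAe' : ∀ i, gam (2 + m) (A i) = ((3 : ℕ) : ENNReal)⁻¹ := hAe
  let f : Fin 3 → (Fin (2 + m) → ℝ) → ℝ := fun i => (A i).indicator fun _ => (1 : ℝ)
  have hFP : FP f := by
    refine ⟨fun i => measurable_const.indicator (hAm i), fun i x => ?_, fun x => ?_⟩
    · exact indicator_nonneg (fun _ _ => zero_le_one) _
    · obtain ⟨i, hi, hu⟩ := hA x
      rw [Finset.sum_eq_single i]
      · simp only [f]; rw [indicator_of_mem hi]
      · intro j _ hj
        simp only [f]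
        rw [indicator_of_notMem]
        intro hx
        exact hj (hu j hx)
      · intro h; exact absurd (Finset.mem_univ i) h
  have hbal : ∀ i, ∫ x, f i x ∂(gam (2 + m)) = 1 / 3 := by
    intro i
    simp only [f]
    rw [integral_indicator_const _ (hAm i)]
    simp [Measure.real, hAe' i]
  have hmain : Fn ρ f ≤ Sval ρ := by
    rcases h1.eq_or_lt with h | h
    · subst h
      rw [M1_S0]
      unfold Fn
      simp_rw [M1_GG0, hbal]
      norm_num
    · exact DR ρ (Sval ρ) h (by linarith) (fun g hg hb => planar_main ρ h h2 g hg hb) m f hFP hbal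
  have hlow := simplex_lower m ρ h1 (by linarith) B a ha hab hBs
  have hle := hmain.trans hlow
  unfold Fn at hle
  have e1 : ∑ i, GG ρ (f i) (f i) = (∑ i, ((gam (2 + m)).prod (gam (2 + m)))
      {p : (Fin (2 + m) → ℝ) × (Fin (2 + m) → ℝ) |
            p.1 ∈ A i ∧ ρ • p.1 + Real.sqrt (1 - ρ ^ 2) • p.2 ∈ A i}).toReal := by
    rw [ENNReal.toReal_sum (fun i _ => measure_ne_top _ _)]
    exact Finset.sum_congr rfl (fun i _ => GG_indicator (2 + m) ρ (A i) (hAm i))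
  rw [e1, ← ENNReal.toReal_sum (fun i _ => measure_ne_top _ _)] at hle
  refine (ENNReal.toReal_le_toReal ?_ ?_).mp hle
  · exact (ENNReal.sum_lt_top.mpr (fun i _ => measure_lt_top _ _)).ne
  · exact (ENNReal.sum_lt_top.mpr (fun i _ => measure_lt_top _ _)).ne

end Pool.Agent.SSCP
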